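import Pool.Agent.Lib.MP_488b8a_co_X.Cst

/-! # Project C9, module Area: the area of a facet and the number of facets -/

set_option autoImplicit false

namespace Pool.Agent.C9

open Real Pool.Agent.C32

private theorem area_kp0 : 0 < kp := by linarith [kp_lo]

/-- the obtuse case -/
private theorem area_obt {c a b d : ℝ} (hc : kp ≤ c) (hc1 : c < 1) (ha : 0 < a) (hb : 0 < b)
    (hd : π / 2 < d) (hs : a + b + d = π) : ph c a + ph c b + ph c d ≤ 3 * ph kp (π / 3) := by
  have hp := pi_pos
  have hk := area_kp0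
  have hk1 := kp_lo
  have hk2 := kp_hi
  have h1 : d = π - (a + b) := by linarith
  have h2 : ph c d = -ph c (a + b) := by
    rw [h1]
    exact ph_pi_sub (hk.trans_le hc) (by linarith) (by linarith)
  have h3 := ph_sub_mono (c := kp) (c' := c) (x := a) (y := b) (by linarith) hc hc1.le ha.le
    hb.le (by linarith)
  have h4 := ph_mid (c := kp) (x := a) (y := b) hk (by linarith) ha.le (by linarith) hb.le
    (by linarith)
  have h5 : 2 * ph kp ((a + b) / 2) - ph kp (a + b) ≤
      2 * ph kp (π / 2 / 2) - ph kp (π / 2) :=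
    two_half_mono hk (by linarith) (⟨by linarith, by linarith⟩ : a + b ∈ Set.Icc 0 (π / 2))
      (⟨by linarith, le_rfl⟩ : π / 2 ∈ Set.Icc 0 (π / 2)) (by linarith)
  have h6 : ph kp (π / 2) = 0 := ph_half hk
  have h7 := ph_tan (c := kp) (z0 := π / 3) (z := π / 2 / 2) hk (by linarith) (by linarith)
    (by linarith) (by linarith) (by linarith)
  have h8 : dph kp (π / 3) ≤ 12 / 10 := by
    unfold dph
    rw [cos_pi_div_three, sin_pi_div_three, div_le_iff₀ (by positivity)]
    have h9 : (√3 / 2) ^ 2 = 3 / 4 := by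
      rw [div_pow, Real.sq_sqrt (by norm_num)]
      norm_num
    rw [h9]
    nlinarith
  have h10 := ph_third_lo
  have h11 := pi_lt_d2
  have h12 : dph kp (π / 3) * (π / 12) ≤ 12 / 10 * (π / 12) :=
    mul_le_mul_of_nonneg_right h8 (by linarith)
  have h13 : dph kp (π / 3) * (π / 2 / 2 - π / 3) = -(dph kp (π / 3) * (π / 12)) := by ring
  rw [h13] at h7
  linarith

/-- PROOF. Acute case: `ph_mono_c`, and the tangent line at `π/3` (`ph_tan`, the sum of the three
linear terms is zero). Obtuse case, `d > π/2` say: `ph c d = - ph c (a + b)` (`ph_pi_sub`),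
`ph_sub_mono` (down to `kp`, `3/5 ≤ kp`), `ph_mid`, `two_half_mono` up to `π/2`, `ph_half`:
the sum is at most `2 ph kp (π/4)`, and `ph kp (π/4) = arctan (1/kp) < 0.963`,
`3 ph kp (π/3) > 2.07`. -/
theorem ph_sum_le {c a b d : ℝ} (hc : kp ≤ c) (hc1 : c < 1) (ha : 0 < a) (hb : 0 < b) (hd : 0 < d)
    (hs : a + b + d = π) : ph c a + ph c b + ph c d ≤ 3 * ph kp (π / 3) := by
  rcases lt_or_ge (π / 2) d with h1 | h1
  · exact area_obt hc hc1 ha hb h1 hs
  rcases lt_or_ge (π / 2) b with h2 | h2
  · have := area_obt hc hc1 ha hd h2 (by linarith)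
    linarith
  rcases lt_or_ge (π / 2) a with h3 | h3
  · have := area_obt hc hc1 hb hd h3 (by linarith)
    linarith
  have hp := pi_pos
  have hk := area_kp0
  have hk2 := kp_hi
  have key : ∀ x : ℝ, 0 < x → x ≤ π / 2 →
      ph c x ≤ ph kp (π / 3) - dph kp (π / 3) * (x - π / 3) := fun x hx hx' =>
    (ph_mono_c hk hc hx.le hx').trans (ph_tan hk (by linarith) (by linarith) (by linarith)
      hx.le hx')
  have e1 := key a ha h3
  have e2 := key b hb h2
  have e3 := key d hd h1
  have e4 : dph kp (π / 3) * (a - π / 3) + dph kp (π / 3) * (b - π / 3) +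
      dph kp (π / 3) * (d - π / 3) = dph kp (π / 3) * (a + b + d - π) := by ring
  rw [hs, sub_self, mul_zero] at e4
  linarith

/-- the sum of the angles of a facet -/
theorem ang_face_le {p q w : E3} (hp : ‖p‖ = 1) (hq : ‖q‖ = 1) (hw : ‖w‖ = 1) {c a b d : ℝ}
    (hc : kp ≤ c) (h : Par p q w c a b d) :
    ang p q w + ang q w p + ang w p q ≤ 6 * ph kp (π / 3) := by
  have h1 := par_rot h
  have h2 := par_rot h1
  rw [ang_par hp hq hw h, ang_par hq hw hp h1, ang_par hw hp hq h2]
  obtain ⟨hc0, hc1, ha, hb, hd, hs, -⟩ := h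
  have := ph_sum_le hc hc1 ha hb hd hs
  linarith

/-- the ordered triples -/
private abbrev AreaT := Fin 9 × Fin 9 × Fin 9

private def area_rt : AreaT ≃ AreaT where
  toFun t := (t.2.1, t.2.2, t.1)
  invFun t := (t.2.2, t.1, t.2.1)
  left_inv _ := rfl
  right_inv _ := rfl

private def area_sw : AreaT ≃ AreaT where
  toFun t := (t.2.1, t.1, t.2.2)
  invFun t := (t.2.1, t.1, t.2.2)
  left_inv _ := rfl
  right_inv _ := rfl

private theorem area_rt_mem (p : Fin 9 → E3) (t : AreaT) :
    t ∈ facets p ↔ area_rt t ∈ facets p := by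
  rw [mem_facets, mem_facets]
  obtain ⟨i, j, k⟩ := t
  exact ⟨fun h => facet_perm2 h, fun h => facet_perm2 (facet_perm2 h)⟩

private theorem area_sw_mem (p : Fin 9 → E3) (t : AreaT) :
    t ∈ facets p ↔ area_sw t ∈ facets p := by
  rw [mem_facets, mem_facets]
  obtain ⟨i, j, k⟩ := t
  exact ⟨fun h => facet_perm1 h, fun h => facet_perm1 h⟩

private theorem area_rt_sum {M : Type*} [AddCommMonoid M] (p : Fin 9 → E3) (g : AreaT → M) :
    ∑ t ∈ facets p, g (area_rt t) = ∑ t ∈ facets p, g t :=
  Finset.sum_equiv area_rt (area_rt_mem p) (fun _ _ => rfl)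

private theorem area_sw_sum {M : Type*} [AddCommMonoid M] (p : Fin 9 → E3) (g : AreaT → M) :
    ∑ t ∈ facets p, g (area_sw t) = ∑ t ∈ facets p, g t :=
  Finset.sum_equiv area_sw (area_sw_mem p) (fun _ _ => rfl)

private theorem area_three (p : Fin 9 → E3) (g : AreaT → ℝ) :
    ∑ t ∈ facets p, (g t + g (area_rt t) + g (area_rt (area_rt t))) =
      3 * ∑ t ∈ facets p, g t := by
  rw [Finset.sum_add_distrib, Finset.sum_add_distrib, area_rt_sum p g,
    area_rt_sum p (fun t => g (area_rt t)), area_rt_sum p g]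
  ring

/-- increasing triples -/
private def area_inc (t : AreaT) : ℕ := if t.1 < t.2.1 ∧ t.2.1 < t.2.2 then 1 else 0

private theorem area_one (i j k : Fin 9) (h1 : i ≠ j) (h2 : j ≠ k) (h3 : i ≠ k) :
    area_inc (i, j, k) + area_inc (j, k, i) + area_inc (k, i, j) +
      (area_inc (j, i, k) + area_inc (k, j, i) + area_inc (i, k, j)) = 1 := by
  unfold area_inc
  rcases lt_or_gt_of_ne h1 with a | a <;> rcases lt_or_gt_of_ne h2 with b | b <;>
    rcases lt_or_gt_of_ne h3 with c | c <;>
    simp only [a, b, c, a.not_gt, b.not_gt, c.not_gt, and_true, and_false, true_and, false_and,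
      if_true, if_false] <;> first | rfl | (exfalso; omega)

private theorem area_six (p : Fin 9 → E3) : ∃ m : ℕ, (facets p).card = 6 * m := by
  refine ⟨∑ t ∈ facets p, area_inc t, ?_⟩
  have h1 : (facets p).card = ∑ t ∈ facets p, ((area_inc t + area_inc (area_rt t) +
      area_inc (area_rt (area_rt t))) + (area_inc (area_sw t) + area_inc (area_sw (area_rt t)) +
      area_inc (area_sw (area_rt (area_rt t))))) := by
    rw [Finset.card_eq_sum_ones]
    refine Finset.sum_congr rfl fun t ht => ?_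
    rw [mem_facets] at ht
    obtain ⟨i, j, k⟩ := t
    obtain ⟨n1, n2, n3⟩ := facet_ne ht
    exact (area_one i j k n1 n2 n3).symm
  have h2 : ∑ t ∈ facets p, area_inc (area_rt t) = ∑ t ∈ facets p, area_inc t :=
    area_rt_sum p area_inc
  have h3 : ∑ t ∈ facets p, area_inc (area_rt (area_rt t)) = ∑ t ∈ facets p, area_inc t := by
    rw [area_rt_sum p (fun t => area_inc (area_rt t)), h2]
  have h4 : ∑ t ∈ facets p, area_inc (area_sw t) = ∑ t ∈ facets p, area_inc t :=
    area_sw_sum p area_inc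
  have h5 : ∑ t ∈ facets p, area_inc (area_sw (area_rt t)) = ∑ t ∈ facets p, area_inc t := by
    rw [area_rt_sum p (fun t => area_inc (area_sw t)), h4]
  have h6 : ∑ t ∈ facets p, area_inc (area_sw (area_rt (area_rt t))) =
      ∑ t ∈ facets p, area_inc t := by
    rw [area_rt_sum p (fun t => area_inc (area_sw (area_rt t))), h5]
  rw [h1, Finset.sum_add_distrib, Finset.sum_add_distrib, Finset.sum_add_distrib,
    Finset.sum_add_distrib, Finset.sum_add_distrib, h2, h3, h4, h5, h6]
  ring

/-- PROOF. `facets_card` gives at most `84`. Let `S = ∑_{t ∈ facets} ang t`. By `angle_sum`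
`S ≥ 9 * 4π`. Each ordered facet has one of its three rotations in the sum (`low_three` of
`MP_488b8a_co_W/Low.lean`): `3 S = ∑_t (ang t + ang (rot t) + ang (rot rot t)) ≤
card * 6 ph kp (π/3)`, so `card ≥ 108 π / (6 * 0.69237) > 81`; and `card` is divisible by `6`
(or: `card` is even by `(i,j,k) ↦ (i,k,j)` and divisible by `3` by rotation). -/
theorem card_facets {p : Fin 9 → E3} {κ : ℝ} (hκ : kp ≤ κ) (hG : Gen p) (hC : Covers p κ) :
    (facets p).card = 84 := by
  have hκ0 : 0 < κ := area_kp0.trans_le hκ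
  have hu := hG.1
  obtain ⟨m, hm⟩ := area_six p
  have hle := facets_card hG (by norm_num)
  have h1 : ∑ t ∈ facets p, ang (p t.1) (p t.2.1) (p t.2.2) =
      ∑ i, ∑ t ∈ (facets p).filter (fun t => t.1 = i), ang (p t.1) (p t.2.1) (p t.2.2) :=
    (Finset.sum_fiberwise (facets p) (fun t => t.1) _).symm
  have h2 : 9 * (4 * π) ≤ ∑ t ∈ facets p, ang (p t.1) (p t.2.1) (p t.2.2) := by
    rw [h1]
    have h3 : ∑ _i : Fin 9, (4 * π) = 9 * (4 * π) := by
      rw [Finset.sum_const, Finset.card_univ, Fintype.card_fin, nsmul_eq_mul]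
      norm_num
    rw [← h3]
    exact Finset.sum_le_sum fun i _ => angle_sum hκ0 hG hC i
  have h4 : 3 * ∑ t ∈ facets p, ang (p t.1) (p t.2.1) (p t.2.2) ≤
      (facets p).card * (6 * ph kp (π / 3)) := by
    rw [← area_three p (fun t => ang (p t.1) (p t.2.1) (p t.2.2)), ← nsmul_eq_mul,
      ← Finset.sum_const]
    refine Finset.sum_le_sum fun t ht => ?_
    rw [mem_facets] at ht
    obtain ⟨i, j, k⟩ := t
    obtain ⟨c, a, b, d, hc, hpar⟩ := facet_par hu hC ht
    exact ang_face_le (hu i) (hu j) (hu k) (hκ.trans hc) hpar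
  have h5 := ph_third_hi
  have h6 := ph_third_lo
  have h7 := Real.pi_gt_d2
  have h8 : (81 : ℝ) < (facets p).card := by
    by_contra hn
    rw [not_lt] at hn
    have h9 : ((facets p).card : ℝ) * (6 * ph kp (π / 3)) ≤ 81 * (6 * 0.69237) :=
      mul_le_mul hn (by linarith) (by linarith) (by norm_num)
    linarith
  have h10 : 81 < (facets p).card := by exact_mod_cast h8
  omega

end Pool.Agent.C9
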