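import Pool.Agent.Lib.MP_488b8a_co_X.Area

/-! # Project C9, module ArgA: the angle sum of a triangle and the phase of `hB` -/

set_option autoImplicit false

namespace Pool.Agent.C9

open Real Pool.Agent.C32

private theorem arga_dt {x y z : E3} (hx : ‖x‖ = 1) (hy : ‖y‖ = 1) (hz : ‖z‖ = 1) {c a b d : ℝ}
    (h : Par x y z c a b d) (hd : 0 < dt x y z) :
    dt x y z = 4 * c * (1 - c ^ 2) * sin a * sin b * sin d := by
  obtain ⟨hc, hc1, ha, hb, hd', hs, hxy, hyz, hzx⟩ := h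
  have hxx : inner ℝ x x = (1 : ℝ) := by rw [real_inner_self_eq_norm_sq, hx]; norm_num
  have hyy : inner ℝ y y = (1 : ℝ) := by rw [real_inner_self_eq_norm_sq, hy]; norm_num
  have hzz : inner ℝ z z = (1 : ℝ) := by rw [real_inner_self_eq_norm_sq, hz]; norm_num
  have hxz : inner ℝ x z = gram c d := by rw [real_inner_comm]; exact hzx
  have hg := gram_det x y z
  rw [hxx, hyy, hzz, hxy, hyz, hxz] at hg
  have hsa : 0 < sin a := sin_pos_of_pos_of_lt_pi ha (by linarith)
  have hsb : 0 < sin b := sin_pos_of_pos_of_lt_pi hb (by linarith)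
  have hsd : 0 < sin d := sin_pos_of_pos_of_lt_pi hd' (by linarith)
  have hs0 : 0 < 1 - c ^ 2 := by nlinarith
  refine (sq_eq_sq₀ hd.le (by positivity)).1 ?_
  rw [hg]
  have hdd : d = π - (a + b) := by linarith
  have hS : sin d = sin a * cos b + cos a * sin b := by
    rw [hdd, sin_pi_sub, sin_add]
  have ca : cos a ^ 2 = 1 - sin a ^ 2 := by
    have := sin_sq_add_cos_sq a; linarith
  have cb : cos b ^ 2 = 1 - sin b ^ 2 := by
    have := sin_sq_add_cos_sq b; linarith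
  -- Heron
  have hH : 2 * (sin a ^ 2 * sin b ^ 2 + sin b ^ 2 * sin d ^ 2 + sin d ^ 2 * sin a ^ 2) -
      (sin a ^ 4 + sin b ^ 4 + sin d ^ 4) = 4 * (sin a ^ 2 * sin b ^ 2 * sin d ^ 2) := by
    have e1 : sin d ^ 2 = sin a ^ 2 * (1 - sin b ^ 2) + (1 - sin a ^ 2) * sin b ^ 2 +
        2 * (sin a * sin b * cos a * cos b) := by
      rw [hS, ← ca, ← cb]; ring
    have e2 : (sin a * sin b * cos a * cos b) ^ 2 =
        sin a ^ 2 * sin b ^ 2 * (1 - sin a ^ 2) * (1 - sin b ^ 2) := by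
      rw [← ca, ← cb]; ring
    have e3 : sin d ^ 4 = (sin d ^ 2) ^ 2 := by ring
    rw [e3, e1]
    linear_combination (-4 : ℝ) * e2
  unfold gram
  linear_combination 4 * (1 - c ^ 2) ^ 2 * hH

/-- PROOF. With `S_j = sin`, `C_j = cos` of `a`, `b`, `d` (`a + b + d = π`):
`∏ (c S_j + i C_j) = i ((c^2 - (1 - c^2) C_1 C_2 C_3) + i c (1 - c^2) S_1 S_2 S_3)`, because
`∑ S_1 C_2 C_3 = S_1 S_2 S_3` and `∑ S_1 S_2 C_3 = 1 + C_1 C_2 C_3`. The real part of `hB` is
`4 - 2 (1 - c^2) ∑ S_j^2 = 4 (c^2 - (1 - c^2) C_1 C_2 C_3)` (`∑ S_j^2 = 2 + 2 C_1 C_2 C_3`), and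
`dt^2 = (4 c (1 - c^2) S_1 S_2 S_3)^2` (`gram_det`), so with `0 < dt`
`∏ (c S_j + i C_j) = (i/4) hB x y z`. -/
theorem hB_prod {x y z : E3} (hx : ‖x‖ = 1) (hy : ‖y‖ = 1) (hz : ‖z‖ = 1) {c a b d : ℝ}
    (h : Par x y z c a b d) (hd : 0 < dt x y z) :
    (⟨c * sin a, cos a⟩ : ℂ) * ⟨c * sin b, cos b⟩ * ⟨c * sin d, cos d⟩ =
      Complex.I / 4 * hB x y z := by
  have hdt := arga_dt hx hy hz h hd
  obtain ⟨hc, hc1, ha, hb, hd', hs, hxy, hyz, hzx⟩ := h
  have hdd : d = π - (a + b) := by linarith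
  have hS : sin d = sin a * cos b + cos a * sin b := by
    rw [hdd, sin_pi_sub, sin_add]
  have hC : cos d = sin a * sin b - cos a * cos b := by
    rw [hdd, cos_pi_sub, cos_add]; ring
  have ca : cos a ^ 2 = 1 - sin a ^ 2 := by
    have := sin_sq_add_cos_sq a; linarith
  have cb : cos b ^ 2 = 1 - sin b ^ 2 := by
    have := sin_sq_add_cos_sq b; linarith
  have hI : Complex.I / 4 * hB x y z = ⟨-(dt x y z) / 4,
      (1 + inner ℝ x y + inner ℝ y z + inner ℝ z x) / 4⟩ := by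
    unfold hB
    apply Complex.ext
    · simp
      ring
    · simp
      ring
  rw [hI, hdt, hxy, hyz, hzx]
  apply Complex.ext
  · simp only [Complex.mul_re, Complex.mul_im]
    rw [hS, hC]
    ring
  · simp only [Complex.mul_re, Complex.mul_im]
    unfold gram
    rw [hS, hC]
    linear_combination (c ^ 2 * sin b ^ 2 + (1 - c ^ 2) / 2 * sin b ^ 2 + cos b ^ 2) * ca +
      (c ^ 2 * sin a ^ 2 + 1 - sin a ^ 2 + (1 - c ^ 2) / 2 * sin a ^ 2) * cb

/-- PROOF. `ang_par` for the three rotations (`par_rot`), the angle sum is `2 ∑ ph`; `ph` is the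
argument of the factors, `hB_prod`, and `-π < ∑ ph - π/2 ≤ π`: `0 < ∑ ph - π/2` because
`hB` has positive imaginary part (so `sin (∑ ph - π/2) > 0`) and `∑ ph ≤ 3 ph kp (π/3) < 2.08`
(`ph_sum_le`), `∑ ph > -π/2` trivially. -/
theorem ang_sum_arg {x y z : E3} (hx : ‖x‖ = 1) (hy : ‖y‖ = 1) (hz : ‖z‖ = 1) {c a b d : ℝ}
    (hc : kp ≤ c) (h : Par x y z c a b d) (hd : 0 < dt x y z) :
    ang x y z + ang y z x + ang z x y = π + 2 * Complex.arg (hB x y z) ∧
      0 < Complex.arg (hB x y z) ∧ Complex.arg (hB x y z) ≤ 3 * ph kp (π / 3) - π / 2 := by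
  have hprod := hB_prod hx hy hz h hd
  have h1 := ang_par hx hy hz h
  have h2 := ang_par hy hz hx (par_rot h)
  have h3 := ang_par hz hx hy (par_rot (par_rot h))
  obtain ⟨hc0, hc1, ha, hb, hd', hs, -, -, -⟩ := h
  have hpi := pi_pos
  have hsum := ph_sum_le hc hc1 ha hb hd' hs
  have hhi := ph_third_hi
  have hpi3 : 3.14 < π := pi_gt_d2
  -- lower bound
  have hlow : -(π / 2) < ph c a + ph c b + ph c d := by
    have ga := ph_gt hc0 ha.le (by linarith : a < π)
    have gb := ph_gt hc0 hb.le (by linarith : b < π)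
    have gd := ph_gt hc0 hd'.le (by linarith : d < π)
    rcases le_or_gt a (π / 2) with h4 | h4
    · have na := ph_nonneg hc0 ha.le h4
      rcases le_or_gt b (π / 2) with h5 | h5
      · have nb := ph_nonneg hc0 hb.le h5
        linarith
      · have nd := ph_nonneg hc0 hd'.le (by linarith : d ≤ π / 2)
        linarith
    · have nb := ph_nonneg hc0 hb.le (by linarith : b ≤ π / 2)
      have nd := ph_nonneg hc0 hd'.le (by linarith : d ≤ π / 2)
      linarith
  set sg9 : ℝ := ph c a + ph c b + ph c d with hsg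
  have hw : ∀ t : ℝ, 0 < t → t < π →
      0 < ‖(⟨c * sin t, cos t⟩ : ℂ)‖ ∧
      (⟨c * sin t, cos t⟩ : ℂ) = ‖(⟨c * sin t, cos t⟩ : ℂ)‖ * Complex.exp (ph c t * Complex.I) := by
    intro t ht0 ht1
    refine ⟨norm_pos_iff.2 fun h0 => ?_, ?_⟩
    · have h6 := congrArg Complex.re h0
      have h7 : 0 < c * sin t := mul_pos hc0 (sin_pos_of_pos_of_lt_pi ht0 ht1)
      simp only [Complex.zero_re] at h6
      linarith
    · exact (Complex.norm_mul_exp_arg_mul_I _).symm
  obtain ⟨wa, ea⟩ := hw a ha (by linarith)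
  obtain ⟨wb, eb⟩ := hw b hb (by linarith)
  obtain ⟨wd, ed⟩ := hw d hd' (by linarith)
  set ra : ℝ := ‖(⟨c * sin a, cos a⟩ : ℂ)‖
  set rb : ℝ := ‖(⟨c * sin b, cos b⟩ : ℂ)‖
  set rd : ℝ := ‖(⟨c * sin d, cos d⟩ : ℂ)‖
  have hr : 0 < 4 * (ra * rb * rd) := by positivity
  have hexp : hB x y z = ((4 * (ra * rb * rd) : ℝ) : ℂ) *
      (Complex.cos ((sg9 - π / 2 : ℝ) : ℂ) + Complex.sin ((sg9 - π / 2 : ℝ) : ℂ) * Complex.I) := by
    have e1 : hB x y z = -4 * Complex.I * (Complex.I / 4 * hB x y z) := by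
      linear_combination (hB x y z) * Complex.I_mul_I
    have e2 : Complex.exp (((sg9 - π / 2 : ℝ) : ℂ) * Complex.I) =
        -Complex.I * (Complex.exp (ph c a * Complex.I) * Complex.exp (ph c b * Complex.I) *
          Complex.exp (ph c d * Complex.I)) := by
      rw [← Complex.exp_add, ← Complex.exp_add]
      have e3 : ((sg9 - π / 2 : ℝ) : ℂ) * Complex.I = (ph c a * Complex.I + ph c b * Complex.I +
          ph c d * Complex.I) + -(π / 2 * Complex.I) := by
        rw [hsg]; push_cast; ring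
      rw [e3, Complex.exp_add _ (-(π / 2 * Complex.I)), Complex.exp_neg,
        Complex.exp_pi_div_two_mul_I, Complex.inv_I]
      ring
    rw [← Complex.exp_mul_I, e2, e1, ← hprod, ea, eb, ed]
    push_cast
    ring
  have him : 0 < sin (sg9 - π / 2) := by
    have h8 : dt x y z = 4 * (ra * rb * rd) * sin (sg9 - π / 2) := by
      have h9 := congrArg Complex.im hexp
      rw [← Complex.ofReal_cos, ← Complex.ofReal_sin] at h9
      simp only [Complex.mul_im, Complex.add_im, Complex.add_re, Complex.mul_re,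
        Complex.ofReal_re, Complex.ofReal_im, Complex.I_re, Complex.I_im] at h9
      have h10 : (hB x y z).im = dt x y z := rfl
      rw [h10] at h9
      rw [h9]
      ring
    rw [h8] at hd
    exact (mul_pos_iff_of_pos_left hr).1 hd
  have hpos : 0 < sg9 - π / 2 := by
    by_contra h9
    have h10 : sin (sg9 - π / 2) ≤ 0 :=
      sin_nonpos_of_nonpos_of_neg_pi_le (not_lt.1 h9) (by linarith)
    linarith
  have harg : Complex.arg (hB x y z) = sg9 - π / 2 := by
    rw [hexp]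
    exact Complex.arg_mul_cos_add_sin_mul_I hr ⟨by linarith, by linarith⟩
  rw [harg]
  refine ⟨?_, hpos, by linarith⟩
  rw [h1, h2, h3, hsg]
  ring

end Pool.Agent.C9
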