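import Pool.Agent.Lib.MP_488b8a_co_X.Defs

/-! # Project C9, module Cls: the triangulations of the sphere with 9 vertices and no vertex of
degree 3 -/

set_option autoImplicit false

namespace Pool.Agent.C9

/-- `F` is, up to the names of the vertices, the list `L` -/
def IsoTo (F : Fin 9 → Fin 9 → Fin 9 → Prop) (L : List (Fin 9 × Fin 9 × Fin 9)) : Prop :=
  ∃ σ : Equiv.Perm (Fin 9), ∀ i j k, F (σ i) (σ j) (σ k) ↔ Has L i j k

/-! ## The search -/

private def thd (M v a : ℕ) : ℕ := (M >>> (81 * v + 9 * a)) &&& 511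

private def pop (t : ℕ) : ℕ :=
  (t.testBit 0).toNat + (t.testBit 1).toNat + (t.testBit 2).toNat + (t.testBit 3).toNat +
    (t.testBit 4).toNat + (t.testBit 5).toNat + (t.testBit 6).toNat + (t.testBit 7).toNat +
    (t.testBit 8).toNat

private def nbm (M v : ℕ) : ℕ :=
  thd M v 0 ||| thd M v 1 ||| thd M v 2 ||| thd M v 3 ||| thd M v 4 ||| thd M v 5 |||
    thd M v 6 ||| thd M v 7 ||| thd M v 8

private def bitf (v a c : ℕ) : ℕ := 2 ^ (81 * v + 9 * a + c)

private def addf (M a b c : ℕ) : ℕ :=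
  M ||| bitf a b c ||| bitf a c b ||| bitf b a c ||| bitf b c a ||| bitf c a b ||| bitf c b a

private def walk (M v s : ℕ) : ℕ → ℕ → ℕ → ℕ → ℕ
  | 0, _, _, _ => 0
  | f + 1, p, c, S =>
    bif c == s then S else
      bif thd M v c ^^^ 2 ^ p == 0 then 0 else
        walk M v s f c (Nat.log2 (thd M v c ^^^ 2 ^ p)) (S ||| 2 ^ c)

private def sub (x y : ℕ) : Bool := x ||| y == y

private def nine : List ℕ := [0, 1, 2, 3, 4, 5, 6, 7, 8]

private def clo (M v S : ℕ) : Bool :=
  nine.all fun a => !S.testBit a || (Nat.ble 2 (pop (thd M v a)) && sub (thd M v a) S)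

private def cyc (M v x y : ℕ) : Bool :=
  (fun S => S.testBit x && clo M v S && !(sub (nbm M v) S)) (walk M v x 10 x y (2 ^ x))

private def dg (M v : ℕ) : ℕ := (fun n => bif Nat.ble 4 n then n else 4) (pop (nbm M v))

private def big (M : ℕ) : Bool :=
  Nat.ble 43 (dg M 0 + dg M 1 + dg M 2 + dg M 3 + dg M 4 + dg M 5 + dg M 6 + dg M 7 + dg M 8)

private def bad (M a b c : ℕ) : Bool :=
  Nat.ble 3 (pop (thd M a b)) || Nat.ble 3 (pop (thd M a c)) || Nat.ble 3 (pop (thd M b c)) ||
  !(thd M a b &&& thd M a c == 0) || !(thd M b a &&& thd M b c == 0) ||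
  !(thd M c a &&& thd M c b == 0) ||
  cyc M a b c || cyc M b a c || cyc M c a b || big M

private def fnd (M : ℕ) : ℕ → ℕ → ℕ
  | 0, _ => 81
  | f + 1, p =>
    bif !((M >>> (9 * p)) &&& 511 == 0) &&
      (((M >>> (9 * p)) &&& 511) &&& (((M >>> (9 * p)) &&& 511) - 1) == 0) then p
    else fnd M f (p + 1)

private def sg (p : ℕ) (i : Fin 9) : Fin 9 := ⟨(p / 9 ^ (i : ℕ)) % 9, Nat.mod_lt _ (by decide)⟩

private def okL (M : ℕ) (L : List (Fin 9 × Fin 9 × Fin 9)) (p : ℕ) : Bool :=
  (L.all fun t => M.testBit (81 * (sg p t.1 : ℕ) + 9 * (sg p t.2.1 : ℕ) + (sg p t.2.2 : ℕ))) &&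
    decide (∀ i j : Fin 9, sg p i = sg p j → i = j)

private def t1 : List ℕ :=
  [279015020, 326313908, 325789676, 330100964, 364060636, 359815588, 368371924]
private def t2 : List ℕ :=
  [154479140, 197000900, 111840100, 159138268, 59889292, 107180980, 69266580, 55703292,
    211161156, 339841140, 116448188, 73991228, 22506332, 17788244, 168529316, 211102916,
    339776348, 27230980, 13602244, 339718108, 9357996]
private def t3 : List ℕ :=
  [112042340, 116687788, 74178988, 69461548, 60034660, 107332180, 78832356, 121405956,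
    27885300, 23167860, 55790412, 94054884, 136570884, 32603468, 18451148, 14206900, 89751676,
    132267676, 9372252, 47702316, 175314468]
private def t4 : List ℕ :=
  [163921236, 197059956, 78774116, 78832436, 121406036, 159321164, 116805964]
private def t5 : List ℕ := [65546324, 103868396, 41106508]

private def leafOk (M : ℕ) : Bool :=
  t1.any (okL M L1) || t2.any (okL M L2) || t3.any (okL M L3) || t4.any (okL M L4) ||
    t5.any (okL M L5)

private def leaf (M m : ℕ) : Bool :=
  bif Nat.ble 9 m then leafOk M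
  else Nat.ble 6 m && nine.all fun v => Nat.ble m v || (!(nbm M v == 0) && clo M v (nbm M v))

private def search : ℕ → ℕ → ℕ → Bool
  | 0, _, _ => false
  | f + 1, M, m =>
    (fun p => bif p == 81 then leaf M m else
      (fun v a c =>
        Nat.ble v 8 && Nat.ble a 8 && Nat.ble c 8 && M.testBit (81 * v + 9 * a + c) &&
        nine.all fun k => Nat.ble (m + 1) k || k == v || k == a || k == c ||
          bad (addf M v a k) v a k ||
          search f (addf M v a k) (bif k == m then m + 1 else m))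
      (p / 9) (p % 9) (Nat.log2 (thd M (p / 9) (p % 9)))) (fnd M 81 0)

/-! ## Soundness -/

private def Fits (F : Fin 9 → Fin 9 → Fin 9 → Prop) (M : ℕ) : Prop :=
  ∀ v a c : Fin 9, M.testBit (81 * (v : ℕ) + 9 * (a : ℕ) + (c : ℕ)) = true → F v a c

private def Low (M m : ℕ) : Prop :=
  ∀ v a c : Fin 9, M.testBit (81 * (v : ℕ) + 9 * (a : ℕ) + (c : ℕ)) = true →
    (v : ℕ) < m ∧ (a : ℕ) < m ∧ (c : ℕ) < m

private theorem thd_bit (M v a c : ℕ) :
    (thd M v a).testBit c = (decide (c < 9) && M.testBit (81 * v + 9 * a + c)) := by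
  unfold thd
  rw [Nat.testBit_and, Nat.testBit_shiftRight, show (511 : ℕ) = 2 ^ 9 - 1 from rfl,
    Nat.testBit_two_pow_sub_one, Bool.and_comm]

private theorem thd_fin {M : ℕ} {v a : ℕ} {c : Fin 9} (h : (thd M v a).testBit c = true) :
    M.testBit (81 * v + 9 * a + (c : ℕ)) = true := by
  rw [thd_bit, Bool.and_eq_true] at h
  exact h.2

private theorem pop_card (t : ℕ) :
    pop t = (Finset.univ.filter fun c : Fin 9 => t.testBit c = true).card := by
  rw [Finset.card_filter]
  simp only [Fin.sum_univ_succ, Finset.univ_eq_empty, Finset.sum_empty]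
  have e : ∀ b : Bool, (if b = true then 1 else 0) = b.toNat := by decide
  simp only [e]
  simp [pop]
  ring

private theorem mem_nine (a : Fin 9) : (a : ℕ) ∈ nine := by
  fin_cases a <;> simp [nine]

private theorem sub_bit {x y c : ℕ} (h : sub x y = true) (hx : x.testBit c = true) :
    y.testBit c = true := by
  unfold sub at h
  rw [beq_iff_eq] at h
  rw [← h, Nat.testBit_or, hx, Bool.true_or]

private theorem not_sub {x y : ℕ} (h : sub x y = false) :
    ∃ c, x.testBit c = true ∧ y.testBit c = false := by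
  by_contra hn
  push Not at hn
  have : sub x y = true := by
    unfold sub
    rw [beq_iff_eq]
    apply Nat.eq_of_testBit_eq
    intro i
    rw [Nat.testBit_or]
    cases hx : x.testBit i with
    | false => simp
    | true =>
      have := hn i hx
      cases hy : y.testBit i with
      | false => exact absurd hy this
      | true => simp
  rw [this] at h
  exact absurd h (by decide)

variable {F : Fin 9 → Fin 9 → Fin 9 → Prop}

private theorem q1 (h : Tri F) {i j k : Fin 9} (f : F i j k) : F i k j := h.p2 _ _ _ (h.p1 _ _ _ f)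
private theorem q2 (h : Tri F) {i j k : Fin 9} (f : F i j k) : F k i j := h.p2 _ _ _ (h.p2 _ _ _ f)
private theorem q3 (h : Tri F) {i j k : Fin 9} (f : F i j k) : F k j i := h.p1 _ _ _ (h.p2 _ _ _ f)

private theorem ne2 (h : Tri F) {i j k : Fin 9} (f : F i j k) : j ≠ k := h.ne _ _ _ (h.p2 _ _ _ f)
private theorem ne3 (h : Tri F) {i j k : Fin 9} (f : F i j k) : i ≠ k := h.ne _ _ _ (q1 h f)

private theorem two' (h : Tri F) {i j a b c : Fin 9} (ha : F i j a) (hb : F i j b) (hab : a ≠ b)
    (hc : F i j c) : c = a ∨ c = b := by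
  obtain ⟨k, -, -, hl⟩ := h.two i j a ha
  rcases hl b hb with e | e
  · exact absurd e.symm hab
  · subst e
    exact hl c hc

private theorem no_three (h : Tri F) {M : ℕ} (hM : Fits F M) (a b : Fin 9) :
    Nat.ble 3 (pop (thd M a b)) = false := by
  by_contra hn
  rw [Bool.not_eq_false, Nat.ble_eq, pop_card] at hn
  obtain ⟨x, hx, y, hy, z, hz, hxy, hxz, hyz⟩ := Finset.two_lt_card.mp hn
  rw [Finset.mem_filter] at hx hy hz
  rcases two' h (hM _ _ _ (thd_fin hx.2)) (hM _ _ _ (thd_fin hy.2)) hxy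
    (hM _ _ _ (thd_fin hz.2)) with e | e
  · exact hxz e.symm
  · exact hyz e.symm

private theorem clo_sound (h : Tri F) {M : ℕ} (hM : Fits F M) (v : Fin 9) {S : ℕ} {x y : Fin 9}
    (hc : clo M v S = true) (hx : S.testBit x = true) (hxy : F v x y) :
    ∀ a b, F v a b → S.testBit a = true := by
  intro a b hab
  refine h.conn v (fun a => S.testBit a = true) x y hx hxy ?_ a b hab
  intro p q hp hpq
  have h1 := (List.all_eq_true.mp hc) p (mem_nine p)
  rw [hp] at h1
  simp only [Bool.not_true, Bool.false_or, Bool.and_eq_true] at h1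
  obtain ⟨h2, h3⟩ := h1
  rw [Nat.ble_eq, pop_card] at h2
  obtain ⟨c, hc1, d, hd1, hcd⟩ := Finset.one_lt_card.mp h2
  rw [Finset.mem_filter] at hc1 hd1
  rcases two' h (hM _ _ _ (thd_fin hc1.2)) (hM _ _ _ (thd_fin hd1.2)) hcd hpq with e | e
  · rw [e]; exact sub_bit h3 hc1.2
  · rw [e]; exact sub_bit h3 hd1.2

private theorem nbm_bit {M v c : ℕ} (h : (nbm M v).testBit c = true) :
    c < 9 ∧ ∃ a : Fin 9, M.testBit (81 * v + 9 * (a : ℕ) + c) = true := by
  simp only [nbm, Nat.testBit_or, thd_bit, Bool.or_eq_true, Bool.and_eq_true,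
    decide_eq_true_eq] at h
  rcases h with (((((((h | h) | h) | h) | h) | h) | h) | h) | h
  · exact ⟨h.1, 0, h.2⟩
  · exact ⟨h.1, 1, h.2⟩
  · exact ⟨h.1, 2, h.2⟩
  · exact ⟨h.1, 3, h.2⟩
  · exact ⟨h.1, 4, h.2⟩
  · exact ⟨h.1, 5, h.2⟩
  · exact ⟨h.1, 6, h.2⟩
  · exact ⟨h.1, 7, h.2⟩
  · exact ⟨h.1, 8, h.2⟩

private theorem no_cyc (h : Tri F) {M : ℕ} (hM : Fits F M) {v x y : Fin 9} (hxy : F v x y) :
    cyc M v x y = false := by
  by_contra hn
  rw [Bool.not_eq_false] at hn
  unfold cyc at hn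
  simp only [Bool.and_eq_true, Bool.not_eq_true'] at hn
  obtain ⟨⟨h1, h2⟩, h3⟩ := hn
  obtain ⟨c, hc1, hc2⟩ := not_sub h3
  obtain ⟨h9, a, ha⟩ := nbm_bit hc1
  have := clo_sound h hM v h2 h1 hxy ⟨c, h9⟩ a (q1 h (hM v a ⟨c, h9⟩ ha))
  rw [show ((⟨c, h9⟩ : Fin 9) : ℕ) = c from rfl, hc2] at this
  exact absurd this (by decide)

private theorem no_tri (h : Tri F) (h3 : ∀ i a b c, F i a b → F i b c → ¬ F i c a) {M : ℕ}
    (hM : Fits F M) {v x y : Fin 9} (hxy : F v x y) : (thd M v x &&& thd M v y == 0) = true := by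
  rw [beq_iff_eq]
  apply Nat.eq_of_testBit_eq
  intro i
  rw [Nat.zero_testBit, Nat.testBit_and, thd_bit, thd_bit]
  by_contra hn
  rw [Bool.not_eq_false] at hn
  simp only [Bool.and_eq_true, decide_eq_true_eq] at hn
  obtain ⟨⟨h9, ha⟩, -, hb⟩ := hn
  exact h3 v x y ⟨i, h9⟩ hxy (hM v y ⟨i, h9⟩ hb) (q1 h (hM v x ⟨i, h9⟩ ha))

open Classical in
private noncomputable def deg (F : Fin 9 → Fin 9 → Fin 9 → Prop) (v : Fin 9) : ℕ :=
  (Finset.univ.filter fun a => ∃ c, F v a c).card

private theorem deg_sum (h : Tri F) : ∑ v, deg F v = 42 := by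
  classical
  have h0 := h.card (Finset.univ.filter fun t : Fin 9 × Fin 9 × Fin 9 => F t.1 t.2.1 t.2.2)
    (by simp)
  rw [Finset.card_filter, Fintype.sum_prod_type] at h0
  simp only [Fintype.sum_prod_type] at h0
  have key : ∀ v a, (∑ c, if F v a c then 1 else 0) = 2 * (if ∃ c, F v a c then 1 else 0) := by
    intro v a
    rw [← Finset.card_filter]
    by_cases hc : ∃ c, F v a c
    · rw [if_pos hc]
      obtain ⟨c, hc⟩ := hc
      obtain ⟨c', hne, hc', hl⟩ := h.two v a c hc
      have : (Finset.univ.filter fun c => F v a c) = {c, c'} := by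
        ext x
        simp only [Finset.mem_filter, Finset.mem_univ, true_and, Finset.mem_insert,
          Finset.mem_singleton]
        constructor
        · exact hl x
        · rintro (e | e)
          · rw [e]; exact hc
          · rw [e]; exact hc'
      rw [this, Finset.card_pair (Ne.symm hne)]
    · rw [if_neg hc]
      push Not at hc
      simp [hc]
  simp only [key, ← Finset.mul_sum] at h0
  have : ∑ v, deg F v = ∑ v, ∑ a, (if ∃ c, F v a c then 1 else 0) := by
    apply Finset.sum_congr rfl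
    intro v _
    rw [deg, Finset.card_filter]
  omega

private theorem deg_ge (h : Tri F) (h3 : ∀ i a b c, F i a b → F i b c → ¬ F i c a) (v : Fin 9) :
    4 ≤ deg F v := by
  classical
  obtain ⟨a, b, hab⟩ := h.occ v
  obtain ⟨b', hb, hab', -⟩ := h.two v a b hab
  obtain ⟨c, hc, hbc, -⟩ := h.two v b a (q1 h hab)
  have h1 : a ≠ b := ne2 h hab
  have h2 : a ≠ b' := ne2 h hab'
  have h4 : b ≠ c := ne2 h hbc
  have h5 : b' ≠ c := by
    intro e
    subst e
    exact h3 v a b b' hab hbc (q1 h hab')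
  have hs : ({a, b, b', c} : Finset (Fin 9)) ⊆ Finset.univ.filter fun a => ∃ c, F v a c := by
    intro x hx
    simp only [Finset.mem_insert, Finset.mem_singleton] at hx
    simp only [Finset.mem_filter, Finset.mem_univ, true_and]
    rcases hx with e | e | e | e
    · rw [e]; exact ⟨_, hab⟩
    · rw [e]; exact ⟨_, hbc⟩
    · rw [e]; exact ⟨_, q1 h hab'⟩
    · rw [e]; exact ⟨_, q1 h hbc⟩
  have hcard : ({a, b, b', c} : Finset (Fin 9)).card = 4 := by
    rw [Finset.card_insert_of_notMem, Finset.card_insert_of_notMem, Finset.card_insert_of_notMem,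
      Finset.card_singleton]
    · simpa using h5
    · simp only [Finset.mem_insert, Finset.mem_singleton, not_or]
      exact ⟨hb.symm, h4⟩
    · simp only [Finset.mem_insert, Finset.mem_singleton, not_or]
      exact ⟨h1, h2, hc.symm⟩
  rw [deg, ← hcard]
  exact Finset.card_le_card hs

private theorem dg_le (h : Tri F) (h3 : ∀ i a b c, F i a b → F i b c → ¬ F i c a) {M : ℕ}
    (hM : Fits F M) (v : Fin 9) : dg M v ≤ deg F v := by
  classical
  have h1 : pop (nbm M v) ≤ deg F v := by
    rw [pop_card, deg]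
    apply Finset.card_le_card
    intro c hc
    simp only [Finset.mem_filter, Finset.mem_univ, true_and] at hc ⊢
    obtain ⟨-, a, ha⟩ := nbm_bit hc
    exact ⟨a, q1 h (hM v a c ha)⟩
  have h2 := deg_ge h h3 v
  unfold dg
  simp only
  cases hb : Nat.ble 4 (pop (nbm M v)) with
  | true => simpa using h1
  | false => simpa using h2

private theorem no_big (h : Tri F) (h3 : ∀ i a b c, F i a b → F i b c → ¬ F i c a) {M : ℕ}
    (hM : Fits F M) : big M = false := by
  by_contra hn
  rw [Bool.not_eq_false] at hn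
  unfold big at hn
  rw [Nat.ble_eq] at hn
  have e := fun v => dg_le h h3 hM v
  have e0 := e 0
  have e1 := e 1
  have e2 := e 2
  have e3 := e 3
  have e4 := e 4
  have e5 := e 5
  have e6 := e 6
  have e7 := e 7
  have e8 := e 8
  simp only [Fin.isValue, Fin.val_zero, Fin.val_one] at e0 e1
  have hs' : deg F 0 + deg F 1 + deg F 2 + deg F 3 + deg F 4 + deg F 5 + deg F 6 + deg F 7 +
      deg F 8 = 42 := by
    rw [← deg_sum h]
    simp only [Fin.sum_univ_succ, Finset.univ_eq_empty, Finset.sum_empty]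
    simp
    ring
  have f2 : dg M 2 ≤ deg F 2 := e2
  have f3 : dg M 3 ≤ deg F 3 := e3
  have f4 : dg M 4 ≤ deg F 4 := e4
  have f5 : dg M 5 ≤ deg F 5 := e5
  have f6 : dg M 6 ≤ deg F 6 := e6
  have f7 : dg M 7 ≤ deg F 7 := e7
  have f8 : dg M 8 ≤ deg F 8 := e8
  omega

private theorem not_bad (h : Tri F) (h3 : ∀ i a b c, F i a b → F i b c → ¬ F i c a) {M : ℕ}
    (hM : Fits F M) {a b c : Fin 9} (f : F a b c) : bad M a b c = false := by
  unfold bad
  rw [no_three h hM a b, no_three h hM a c, no_three h hM b c, no_tri h h3 hM f,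
    no_tri h h3 hM (h.p1 _ _ _ f |> q1 h |> q1 h), no_tri h h3 hM (q2 h f), no_cyc h hM f,
    no_cyc h hM (h.p1 _ _ _ f), no_cyc h hM (q2 h f), no_big h h3 hM]
  rfl

private theorem bitf_bit (a b c i : ℕ) : (bitf a b c).testBit i = decide (81 * a + 9 * b + c = i) :=
  Nat.testBit_two_pow

private theorem bitf_fin {a b c x y z : Fin 9}
    (h : 81 * (a : ℕ) + 9 * (b : ℕ) + (c : ℕ) = 81 * (x : ℕ) + 9 * (y : ℕ) + (z : ℕ)) :
    x = a ∧ y = b ∧ z = c := by
  have := a.2
  have := b.2
  have := c.2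
  have := x.2
  have := y.2
  have := z.2
  refine ⟨Fin.ext ?_, Fin.ext ?_, Fin.ext ?_⟩ <;> omega

private theorem addf_bit {M : ℕ} {a b c x y z : Fin 9}
    (h : (addf M a b c).testBit (81 * (x : ℕ) + 9 * (y : ℕ) + (z : ℕ)) = true) :
    M.testBit (81 * (x : ℕ) + 9 * (y : ℕ) + (z : ℕ)) = true ∨
      (x = a ∧ y = b ∧ z = c) ∨ (x = a ∧ y = c ∧ z = b) ∨ (x = b ∧ y = a ∧ z = c) ∨
      (x = b ∧ y = c ∧ z = a) ∨ (x = c ∧ y = a ∧ z = b) ∨ (x = c ∧ y = b ∧ z = a) := by
  unfold addf at h
  simp only [Nat.testBit_or, bitf_bit, Bool.or_eq_true, decide_eq_true_eq] at h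
  rcases h with (((((h | h) | h) | h) | h) | h) | h
  · exact Or.inl h
  · exact Or.inr (Or.inl (bitf_fin h))
  · exact Or.inr (Or.inr (Or.inl (bitf_fin h)))
  · exact Or.inr (Or.inr (Or.inr (Or.inl (bitf_fin h))))
  · exact Or.inr (Or.inr (Or.inr (Or.inr (Or.inl (bitf_fin h)))))
  · exact Or.inr (Or.inr (Or.inr (Or.inr (Or.inr (Or.inl (bitf_fin h))))))
  · exact Or.inr (Or.inr (Or.inr (Or.inr (Or.inr (Or.inr (bitf_fin h))))))

private theorem fits_add (h : Tri F) {M : ℕ} (hM : Fits F M) {a b c : Fin 9} (f : F a b c) :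
    Fits F (addf M a b c) := by
  intro x y z hb
  rcases addf_bit hb with h1 | ⟨rfl, rfl, rfl⟩ | ⟨rfl, rfl, rfl⟩ | ⟨rfl, rfl, rfl⟩ |
    ⟨rfl, rfl, rfl⟩ | ⟨rfl, rfl, rfl⟩ | ⟨rfl, rfl, rfl⟩
  · exact hM _ _ _ h1
  · exact f
  · exact q1 h f
  · exact h.p1 _ _ _ f
  · exact h.p2 _ _ _ f
  · exact q2 h f
  · exact q3 h f

private theorem low_add {M m n : ℕ} (hM : Low M m) (hmn : m ≤ n) {a b c : Fin 9} (ha : (a : ℕ) < n)
    (hb : (b : ℕ) < n) (hc : (c : ℕ) < n) : Low (addf M a b c) n := by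
  intro x y z h
  rcases addf_bit h with h1 | ⟨rfl, rfl, rfl⟩ | ⟨rfl, rfl, rfl⟩ | ⟨rfl, rfl, rfl⟩ |
    ⟨rfl, rfl, rfl⟩ | ⟨rfl, rfl, rfl⟩ | ⟨rfl, rfl, rfl⟩
  · have := hM _ _ _ h1
    omega
  all_goals exact ⟨by assumption, by assumption, by assumption⟩

/-- the same triangulation with renamed vertices -/
private def ren (σ : Equiv.Perm (Fin 9)) (F : Fin 9 → Fin 9 → Fin 9 → Prop) :
    Fin 9 → Fin 9 → Fin 9 → Prop := fun i j k => F (σ i) (σ j) (σ k)

private theorem ren_tri (h : Tri F) (σ : Equiv.Perm (Fin 9)) : Tri (ren σ F) where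
  p1 i j k f := h.p1 _ _ _ f
  p2 i j k f := h.p2 _ _ _ f
  ne i j k f e := h.ne _ _ _ f (congrArg σ e)
  two i j k f := by
    obtain ⟨k', h1, h2, h3⟩ := h.two _ _ _ f
    refine ⟨σ.symm k', ?_, ?_, ?_⟩
    · intro e
      exact h1 (by rw [← e, Equiv.apply_symm_apply])
    · show F (σ i) (σ j) (σ (σ.symm k'))
      rw [Equiv.apply_symm_apply]
      exact h2
    · intro l hl
      rcases h3 (σ l) hl with e | e
      · exact Or.inl (σ.injective e)
      · exact Or.inr (by rw [← e, Equiv.symm_apply_apply])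
  conn i S j k hj f hS a b hab := by
    have := h.conn (σ i) (fun x => S (σ.symm x)) (σ j) (σ k)
      (by simpa using hj) f
      (by
        intro p q hp hpq
        refine hS (σ.symm p) (σ.symm q) hp ?_
        show F (σ i) (σ (σ.symm p)) (σ (σ.symm q))
        rw [Equiv.apply_symm_apply, Equiv.apply_symm_apply]
        exact hpq) (σ a) (σ b) hab
    simpa using this
  card T hT := by
    have := h.card (T.map ((σ.prodCongr (σ.prodCongr σ)).toEmbedding)) (by
      intro t
      rw [Finset.mem_map_equiv, hT]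
      show F (σ (σ.symm t.1)) (σ (σ.symm t.2.1)) (σ (σ.symm t.2.2)) ↔ _
      rw [Equiv.apply_symm_apply, Equiv.apply_symm_apply, Equiv.apply_symm_apply])
    rwa [Finset.card_map] at this
  occ i := by
    obtain ⟨j, k, f⟩ := h.occ (σ i)
    refine ⟨σ.symm j, σ.symm k, ?_⟩
    show F (σ i) (σ (σ.symm j)) (σ (σ.symm k))
    rw [Equiv.apply_symm_apply, Equiv.apply_symm_apply]
    exact f

private def Goal (F : Fin 9 → Fin 9 → Fin 9 → Prop) : Prop :=
  IsoTo F L1 ∨ IsoTo F L2 ∨ IsoTo F L3 ∨ IsoTo F L4 ∨ IsoTo F L5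

private theorem ren_iso {σ : Equiv.Perm (Fin 9)} {L : List (Fin 9 × Fin 9 × Fin 9)}
    (h : IsoTo (ren σ F) L) : IsoTo F L := by
  obtain ⟨τ, hτ⟩ := h
  exact ⟨τ.trans σ, hτ⟩

private theorem ren_goal {σ : Equiv.Perm (Fin 9)} (h : Goal (ren σ F)) : Goal F := by
  rcases h with h | h | h | h | h
  · exact Or.inl (ren_iso h)
  · exact Or.inr (Or.inl (ren_iso h))
  · exact Or.inr (Or.inr (Or.inl (ren_iso h)))
  · exact Or.inr (Or.inr (Or.inr (Or.inl (ren_iso h))))
  · exact Or.inr (Or.inr (Or.inr (Or.inr (ren_iso h))))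

/-! ## The leaves -/

private theorem has_iff {L : List (Fin 9 × Fin 9 × Fin 9)} {i j k : Fin 9} :
    Has L i j k ↔ ∃ t ∈ L, t = (i, j, k) ∨ t = (j, k, i) ∨ t = (k, i, j) ∨ t = (j, i, k) ∨
      t = (i, k, j) ∨ t = (k, j, i) := by
  unfold Has
  simp only [List.any_eq_true, Bool.or_eq_true, beq_iff_eq, or_assoc]

private theorem iso_of (h : Tri F) {M : ℕ} (hM : Fits F M) {L : List (Fin 9 × Fin 9 × Fin 9)}
    (hL : (Finset.univ.filter fun t : Fin 9 × Fin 9 × Fin 9 => Has L t.1 t.2.1 t.2.2).card = 84)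
    {p : ℕ} (hp : okL M L p = true) : IsoTo F L := by
  classical
  unfold okL at hp
  rw [Bool.and_eq_true, decide_eq_true_eq, List.all_eq_true] at hp
  obtain ⟨h1, h2⟩ := hp
  let σ : Equiv.Perm (Fin 9) := Equiv.ofBijective (sg p) (Finite.injective_iff_bijective.mp h2)
  have hσ : ∀ i, σ i = sg p i := fun i => rfl
  refine ⟨σ, ?_⟩
  have ht := ren_tri h σ
  have hsub : (Finset.univ.filter fun t : Fin 9 × Fin 9 × Fin 9 => Has L t.1 t.2.1 t.2.2) ⊆
      Finset.univ.filter fun t : Fin 9 × Fin 9 × Fin 9 => ren σ F t.1 t.2.1 t.2.2 := by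
    rintro ⟨i, j, k⟩ ht0
    rw [Finset.mem_filter, has_iff] at ht0
    rw [Finset.mem_filter]
    refine ⟨Finset.mem_univ _, ?_⟩
    obtain ⟨-, t, htL, e⟩ := ht0
    have f : ren σ F t.1 t.2.1 t.2.2 := hM _ _ _ (h1 t htL)
    simp only
    rcases e with e | e | e | e | e | e <;> rw [e] at f <;> simp only at f
    · exact f
    · exact q2 ht f
    · exact ht.p2 _ _ _ f
    · exact ht.p1 _ _ _ f
    · exact q1 ht f
    · exact q3 ht f
  have hc := ht.card (Finset.univ.filter fun t : Fin 9 × Fin 9 × Fin 9 => ren σ F t.1 t.2.1 t.2.2)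
    (by simp)
  have heq := Finset.eq_of_subset_of_card_le hsub (by rw [hc, hL])
  intro i j k
  have := Finset.ext_iff.mp heq (i, j, k)
  simp only [Finset.mem_filter, Finset.mem_univ, true_and] at this
  exact this.symm

set_option maxRecDepth 100000 in
private theorem c1 : (Finset.univ.filter fun t : Fin 9 × Fin 9 × Fin 9 =>
    Has L1 t.1 t.2.1 t.2.2).card = 84 := by decide +kernel
set_option maxRecDepth 100000 in
private theorem c2 : (Finset.univ.filter fun t : Fin 9 × Fin 9 × Fin 9 =>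
    Has L2 t.1 t.2.1 t.2.2).card = 84 := by decide +kernel
set_option maxRecDepth 100000 in
private theorem c3 : (Finset.univ.filter fun t : Fin 9 × Fin 9 × Fin 9 =>
    Has L3 t.1 t.2.1 t.2.2).card = 84 := by decide +kernel
set_option maxRecDepth 100000 in
private theorem c4 : (Finset.univ.filter fun t : Fin 9 × Fin 9 × Fin 9 =>
    Has L4 t.1 t.2.1 t.2.2).card = 84 := by decide +kernel
set_option maxRecDepth 100000 in
private theorem c5 : (Finset.univ.filter fun t : Fin 9 × Fin 9 × Fin 9 =>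
    Has L5 t.1 t.2.1 t.2.2).card = 84 := by decide +kernel

private theorem leafOk_sound (h : Tri F) {M : ℕ} (hM : Fits F M) (hl : leafOk M = true) :
    Goal F := by
  unfold leafOk at hl
  simp only [Bool.or_eq_true, List.any_eq_true] at hl
  rcases hl with (((⟨p, -, hp⟩ | ⟨p, -, hp⟩) | ⟨p, -, hp⟩) | ⟨p, -, hp⟩) | ⟨p, -, hp⟩
  · exact Or.inl (iso_of h hM c1 hp)
  · exact Or.inr (Or.inl (iso_of h hM c2 hp))
  · exact Or.inr (Or.inr (Or.inl (iso_of h hM c3 hp)))
  · exact Or.inr (Or.inr (Or.inr (Or.inl (iso_of h hM c4 hp))))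
  · exact Or.inr (Or.inr (Or.inr (Or.inr (iso_of h hM c5 hp))))

private theorem leaf_sound (h : Tri F) {M m : ℕ} (hM : Fits F M) (hm : Low M m)
    (hl : leaf M m = true) : Goal F := by
  unfold leaf at hl
  cases hb : Nat.ble 9 m with
  | true =>
    rw [hb, cond_true] at hl
    exact leafOk_sound h hM hl
  | false =>
    exfalso
    rw [hb, cond_false, Bool.and_eq_true, Nat.ble_eq, List.all_eq_true] at hl
    have hm9 : m < 9 := by
      by_contra hn
      rw [Nat.ble_eq_true_of_le (by omega)] at hb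
      exact absurd hb (by decide)
    obtain ⟨h6, hall⟩ := hl
    have key : ∀ v a b : Fin 9, (v : ℕ) < m → F v a b → (a : ℕ) < m := by
      intro v a b hv hab
      have h1 := hall v (mem_nine v)
      rw [Bool.or_eq_true, Nat.ble_eq, Bool.and_eq_true] at h1
      rcases h1 with h1 | ⟨h1, h2⟩
      · omega
      · have hne : nbm M v ≠ 0 := by
          intro e
          rw [e] at h1
          exact absurd h1 (by decide)
        obtain ⟨c, hc⟩ := Nat.exists_testBit_of_ne_zero hne
        obtain ⟨h9, x, hx⟩ := nbm_bit hc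
        have := clo_sound h hM v h2 (x := ⟨c, h9⟩) hc (q1 h (hM v x ⟨c, h9⟩ hx)) a b hab
        obtain ⟨-, y, hy⟩ := nbm_bit this
        exact (hm v y a hy).2.2
    obtain ⟨j, k, f⟩ := h.occ ⟨m, hm9⟩
    obtain ⟨k', hne, f', -⟩ := h.two _ _ _ f
    have hj : m ≤ (j : ℕ) := by
      by_contra hn
      exact absurd (key j ⟨m, hm9⟩ k (by omega) (h.p1 _ _ _ f)) (lt_irrefl m)
    have hk : m ≤ (k : ℕ) := by
      by_contra hn
      exact absurd (key k ⟨m, hm9⟩ j (by omega) (q2 h f)) (lt_irrefl m)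
    have hk' : m ≤ (k' : ℕ) := by
      by_contra hn
      exact absurd (key k' ⟨m, hm9⟩ j (by omega) (q2 h f')) (lt_irrefl m)
    have n1 : m ≠ (j : ℕ) := fun e => h.ne _ _ _ f (Fin.ext e)
    have n2 : m ≠ (k : ℕ) := fun e => ne3 h f (Fin.ext e)
    have n3 : m ≠ (k' : ℕ) := fun e => ne3 h f' (Fin.ext e)
    have n4 : (j : ℕ) ≠ (k : ℕ) := fun e => ne2 h f (Fin.ext e)
    have n5 : (j : ℕ) ≠ (k' : ℕ) := fun e => ne2 h f' (Fin.ext e)
    have n6 : (k' : ℕ) ≠ (k : ℕ) := fun e => hne (Fin.ext e)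
    have := j.2
    have := k.2
    have := k'.2
    omega

/-! ## The search is sound -/

private theorem search_sound (f : ℕ) : ∀ (M m : ℕ) (F : Fin 9 → Fin 9 → Fin 9 → Prop), Tri F →
    (∀ i a b c, F i a b → F i b c → ¬ F i c a) → Fits F M → Low M m → search f M m = true →
    Goal F := by
  induction f with
  | zero =>
    intro M m F _ _ _ _ hs
    exact absurd hs (by simp [search])
  | succ f ih =>
    intro M m F h h3 hM hm hs
    rw [search] at hs
    generalize fnd M 81 0 = p at hs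
    simp only at hs
    cases hp : p == 81 with
    | true =>
      rw [hp, cond_true] at hs
      exact leaf_sound h hM hm hs
    | false =>
      rw [hp, cond_false] at hs
      generalize p / 9 = v at hs
      generalize p % 9 = a at hs
      generalize Nat.log2 (thd M v a) = c at hs
      simp only [Bool.and_eq_true, Nat.ble_eq, List.all_eq_true] at hs
      obtain ⟨⟨⟨⟨hv, ha⟩, hc⟩, hb⟩, hall⟩ := hs
      obtain ⟨v, rfl⟩ : ∃ v' : Fin 9, (v' : ℕ) = v := ⟨⟨v, by omega⟩, rfl⟩
      obtain ⟨a, rfl⟩ : ∃ a' : Fin 9, (a' : ℕ) = a := ⟨⟨a, by omega⟩, rfl⟩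
      obtain ⟨c, rfl⟩ : ∃ c' : Fin 9, (c' : ℕ) = c := ⟨⟨c, by omega⟩, rfl⟩
      have hf := hM v a c hb
      obtain ⟨hvm, ham, hcm⟩ := hm v a c hb
      -- one step with a new third vertex `k ≤ m`
      have step : ∀ (F' : Fin 9 → Fin 9 → Fin 9 → Prop) (k : Fin 9), Tri F' →
          (∀ i a b c, F' i a b → F' i b c → ¬ F' i c a) → Fits F' M → k ≠ c → (k : ℕ) ≤ m →
          F' v a k → Goal F' := by
        intro F' k h' h3' hM' hkc hkm f'
        have h1 := hall k (mem_nine k)
        simp only [Bool.or_eq_true, Nat.ble_eq, beq_iff_eq] at h1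
        have hbad := not_bad h' h3' (fits_add h' hM' f') f'
        rw [hbad] at h1
        rcases h1 with ((((h1 | h1) | h1) | h1) | h1) | h1
        · omega
        · exact absurd (Fin.ext h1).symm (ne3 h' f')
        · exact absurd (Fin.ext h1).symm (ne2 h' f')
        · exact absurd (Fin.ext h1) hkc
        · exact absurd h1 (by decide)
        · refine ih _ _ F' h' h3' (fits_add h' hM' f') ?_ h1
          cases hk : (k : ℕ) == m with
          | true =>
            rw [beq_iff_eq] at hk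
            rw [cond_true]
            exact low_add hm (by omega) (by omega) (by omega) (by omega)
          | false =>
            rw [beq_eq_false_iff_ne] at hk
            rw [cond_false]
            exact low_add hm le_rfl hvm ham (by omega)
      obtain ⟨k, hkc, fk, -⟩ := h.two v a c hf
      by_cases hkm : (k : ℕ) < m
      · exact step F k h h3 hM hkc hkm.le fk
      · have hm9 : m < 9 := by
          have := k.2
          omega
        let σ : Equiv.Perm (Fin 9) := Equiv.swap ⟨m, hm9⟩ k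
        have hfix : ∀ x : Fin 9, (x : ℕ) < m → σ x = x := by
          intro x hx
          refine Equiv.swap_apply_of_ne_of_ne ?_ ?_
          · intro e
            have := congrArg Fin.val e
            simp only at this
            omega
          · intro e
            have := congrArg Fin.val e
            omega
        refine ren_goal (σ := σ) (step (ren σ F) ⟨m, hm9⟩ (ren_tri h σ) ?_ ?_ ?_ le_rfl ?_)
        · intro i a b c f1 f2 f3
          exact h3 _ _ _ _ f1 f2 f3
        · intro x y z hb'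
          obtain ⟨hx, hy, hz⟩ := hm x y z hb'
          show F (σ x) (σ y) (σ z)
          rw [hfix x hx, hfix y hy, hfix z hz]
          exact hM x y z hb'
        · intro e
          have := congrArg Fin.val e
          simp only at this
          omega
        · show F (σ v) (σ a) (σ ⟨m, hm9⟩)
          rw [hfix v hvm, hfix a ham, Equiv.swap_apply_left]
          exact fk

set_option maxRecDepth 100000 in
private theorem run : search 30 (addf 0 ((0 : Fin 9) : ℕ) ((1 : Fin 9) : ℕ) ((2 : Fin 9) : ℕ)) 3 =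
    true := by decide +kernel

private theorem exists_perm {a b c : Fin 9} (h1 : a ≠ b) (h2 : a ≠ c) (h3 : b ≠ c) :
    ∃ σ : Equiv.Perm (Fin 9), σ 0 = a ∧ σ 1 = b ∧ σ 2 = c := by
  let s1 := Equiv.swap (0 : Fin 9) a
  let s2 := Equiv.swap (s1 1) b
  let s3 := Equiv.swap (s2 (s1 2)) c
  have e1 : s1 0 = a := Equiv.swap_apply_left _ _
  have e2 : s2 a = a := by
    refine Equiv.swap_apply_of_ne_of_ne ?_ h1
    rw [← e1]
    exact fun e => absurd (s1.injective e) (by decide)
  have e3 : s2 (s1 1) = b := Equiv.swap_apply_left _ _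
  have e4 : s3 (s2 (s1 2)) = c := Equiv.swap_apply_left _ _
  have e5 : s3 b = b := by
    refine Equiv.swap_apply_of_ne_of_ne ?_ h3
    rw [← e3]
    exact fun e => absurd (s1.injective (s2.injective e)) (by decide)
  have e6 : s3 a = a := by
    refine Equiv.swap_apply_of_ne_of_ne ?_ h2
    intro e
    have : s2 (s1 0) = s2 (s1 2) := by rw [e1, e2]; exact e
    exact absurd (s1.injective (s2.injective this)) (by decide)
  refine ⟨(s1.trans s2).trans s3, ?_, ?_, ?_⟩
  · show s3 (s2 (s1 0)) = a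
    rw [e1, e2, e6]
  · show s3 (s2 (s1 1)) = b
    rw [e3, e5]
  · exact e4

/-- PROOF. See the blueprint (exhaustive search, 15000 nodes, with a vertex of degree `5, 6, 7`
or `8` and its cyclic link as the start). -/
theorem classify {F : Fin 9 → Fin 9 → Fin 9 → Prop} (h : Tri F)
    (h3 : ∀ i a b c, F i a b → F i b c → ¬ F i c a) :
    IsoTo F L1 ∨ IsoTo F L2 ∨ IsoTo F L3 ∨ IsoTo F L4 ∨ IsoTo F L5 := by
  obtain ⟨b, c, f⟩ := h.occ 0
  obtain ⟨σ, s0, s1, s2⟩ := exists_perm (h.ne _ _ _ f) (ne3 h f) (ne2 h f)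
  have ht := ren_tri h σ
  have f0 : ren σ F 0 1 2 := by
    show F (σ 0) (σ 1) (σ 2)
    rw [s0, s1, s2]
    exact f
  have hz : Fits (ren σ F) 0 := by
    intro x y z hb
    rw [Nat.zero_testBit] at hb
    exact absurd hb (by decide)
  have hl : Low 0 3 := by
    intro x y z hb
    rw [Nat.zero_testBit] at hb
    exact absurd hb (by decide)
  have hl3 : Low (addf 0 ((0 : Fin 9) : ℕ) ((1 : Fin 9) : ℕ) ((2 : Fin 9) : ℕ)) 3 :=
    low_add hl le_rfl (by decide) (by decide) (by decide)
  exact ren_goal (search_sound 30 _ 3 (ren σ F) ht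
    (fun i a b c f1 f2 f3 => h3 _ _ _ _ f1 f2 f3) (fits_add ht hz f0) hl3 run)

end Pool.Agent.C9
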