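import Pool.Agent.Lib.MP_488b8a_co_X.Defs

/-! # Project C9, module Cst: the constants -/

set_option autoImplicit false

namespace Pool.Agent.C9

open Real Pool.Agent.C32

theorem uu_lo : 1.786020 < uu := (Classical.choose_spec exists_uu).1

theorem uu_hi : uu < 1.786021 := (Classical.choose_spec exists_uu).2.1

theorem uu_eq : uu ^ 4 + 2 * uu ^ 3 - 3 * uu ^ 2 - 12 = 0 := (Classical.choose_spec exists_uu).2.2

private theorem uu_pos : 0 < uu := by linarith [uu_lo]

private theorem r3_lo : (1.7320508 : ℝ) < √3 := by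
  apply Real.lt_sqrt_of_sq_lt
  norm_num

private theorem r3_hi : √3 < (1.7320509 : ℝ) := by
  rw [Real.sqrt_lt' (by norm_num)]
  norm_num

private theorem r3_sq : √3 ^ 2 = (3 : ℝ) := Real.sq_sqrt (by norm_num)

private theorem P_lo : 4.975887 < uu * (1 + uu) := by
  nlinarith [uu_lo, uu_hi]

private theorem P_hi : uu * (1 + uu) < 4.975893 := by
  nlinarith [uu_lo, uu_hi]

private theorem P_hi2 : uu * (1 + uu) < 4.97589202 := by
  nlinarith [uu_lo, uu_hi]

private theorem s_eq : √(3 + uu ^ 2) = uu * (1 + uu) / 2 := by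
  have h : 3 + uu ^ 2 = (uu * (1 + uu) / 2) ^ 2 := by
    linear_combination (-(1 : ℝ) / 4) * uu_eq
  rw [h, Real.sqrt_sq]
  have := uu_pos
  positivity

private theorem kp_eq : kp = 2 * √3 / (uu * (1 + uu)) := by
  have h := uu_pos
  unfold kp
  rw [s_eq]
  field_simp

private theorem sn_eq : sn = 2 / (1 + uu) := by
  have h := uu_pos
  unfold sn
  rw [s_eq]
  field_simp

private theorem kp_pos : 0 < kp := by
  have h := uu_pos
  rw [kp_eq]
  positivity

private theorem sn_pos : 0 < sn := by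
  have h := uu_pos
  rw [sn_eq]
  positivity

/-- PROOF. `u ↦ u^2 (u^2 + 2u - 3)` is increasing for `u > 1`, and for `0 < u ≤ 1` the polynomial
is negative. -/
theorem uu_unique {u : ℝ} (h0 : 0 < u) (h : u ^ 4 + 2 * u ^ 3 - 3 * u ^ 2 - 12 = 0) : u = uu := by
  have hu := uu_lo
  have he := uu_eq
  have h1 : 1 < u := by
    by_contra hle
    push Not at hle
    nlinarith [mul_pos h0 h0, mul_nonneg h0.le (sub_nonneg.2 hle), pow_pos h0 3]
  have h2 : (u - uu) * ((u + uu) * (u ^ 2 + uu ^ 2 - 3) + 2 * (u ^ 2 + u * uu + uu ^ 2)) = 0 := by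
    linear_combination h - he
  rcases mul_eq_zero.1 h2 with h3 | h3
  · linarith
  · exfalso
    have h4 : 0 < u ^ 2 + uu ^ 2 - 3 := by nlinarith
    have h5 : 0 < (u + uu) * (u ^ 2 + uu ^ 2 - 3) := mul_pos (by linarith) h4
    nlinarith [sq_nonneg (u + uu), mul_pos h0 uu_pos]

theorem kp_sn : kp ^ 2 + sn ^ 2 = 1 := by
  have h : (0 : ℝ) < 3 + uu ^ 2 := by positivity
  unfold kp sn
  rw [div_pow, div_pow, Real.sq_sqrt h.le, r3_sq]
  field_simp

theorem kp_lo : 0.696177 < kp := by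
  have h := uu_pos
  rw [kp_eq, lt_div_iff₀ (by positivity)]
  have h1 := r3_lo
  have h2 := P_hi2
  norm_num at h1 h2 ⊢
  linarith

theorem kp_hi : kp < 0.696178 := by
  have h := uu_pos
  rw [kp_eq, div_lt_iff₀ (by positivity)]
  nlinarith [r3_hi, P_lo]

theorem sn_lo : 0.717869 < sn := by
  have h := uu_pos
  rw [sn_eq, lt_div_iff₀ (by positivity)]
  nlinarith [uu_hi]

theorem sn_hi : sn < 0.717871 := by
  have h := uu_pos
  rw [sn_eq, div_lt_iff₀ (by positivity)]
  nlinarith [uu_lo]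

/-- `tan r cos (60° - r) = 1`. PROOF. With `u = √3 sn / kp` this is the square root of
`u^2 (1 + u)^2 = 12 + 4 u^2`. -/
theorem rel : sn * kp + √3 * sn ^ 2 = 2 * kp := by
  have h := uu_pos
  have h3 := r3_sq
  rw [kp_eq, sn_eq]
  field_simp

theorem arctan_uu : arctan (uu / √3) = arccos kp := by
  have h := uu_pos
  have hk := kp_pos
  have h1 : √(1 - kp ^ 2) = sn := by
    rw [show 1 - kp ^ 2 = sn ^ 2 by linarith [kp_sn], Real.sqrt_sq sn_pos.le]
  rw [Real.arccos_eq_arctan hk, h1]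
  congr 1
  have h2 : (0 : ℝ) < √3 := by positivity
  have h3 : (0 : ℝ) < √(3 + uu ^ 2) := by positivity
  unfold kp sn
  field_simp

private theorem cos_r : cos (arctan (uu / √3)) = kp := by
  rw [arctan_uu, Real.cos_arccos (by linarith [kp_lo]) (by linarith [kp_hi])]

private theorem sin_r : sin (arctan (uu / √3)) = sn := by
  rw [arctan_uu, Real.sin_arccos, show 1 - kp ^ 2 = sn ^ 2 by linarith [kp_sn],
    Real.sqrt_sq sn_pos.le]

private theorem cos_56 : cos (5 * π / 6) = -(√3 / 2) := by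
  rw [show 5 * π / 6 = π - π / 6 by ring, cos_pi_sub, cos_pi_div_six]

private theorem sin_56 : sin (5 * π / 6) = 1 / 2 := by
  rw [show 5 * π / 6 = π - π / 6 by ring, sin_pi_sub, sin_pi_div_six]

theorem sin_us : sin us = kp / sn := by
  have hs := sn_pos
  unfold us
  rw [sin_sub, cos_r, sin_r, cos_56, sin_56]
  rw [eq_div_iff hs.ne']
  linear_combination rel / 2

theorem cos_us : cos us = 1 - √3 / (2 * kp) := by
  have hk := kp_pos
  unfold us
  rw [cos_sub, cos_r, sin_r, cos_56, sin_56]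
  have h1 : -(√3 / 2) * kp + 1 / 2 * sn = (2 * kp - √3) / (2 * kp) := by
    rw [eq_div_iff (by positivity)]
    linear_combination rel - √3 * kp_sn
  rw [h1]
  field_simp

private theorem at_mono (f g : ℝ → ℝ) (hd : ∀ x, HasDerivAt f (g x) x) (hg : ∀ x, 0 ≤ g x)
    (h0 : f 0 = 0) {x : ℝ} (hx : 0 ≤ x) : 0 ≤ f x := by
  have h1 : Monotone f := monotone_of_deriv_nonneg (fun y => (hd y).differentiableAt)
    (fun y => by rw [(hd y).deriv]; exact hg y)
  have h2 := h1 hx
  rw [h0] at h2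
  exact h2

private theorem at_ge7 {x : ℝ} (hx : 0 ≤ x) :
    x - x ^ 3 / 3 + x ^ 5 / 5 - x ^ 7 / 7 ≤ arctan x := by
  have h1 : 0 ≤ (fun y : ℝ => arctan y - (y - y ^ 3 / 3 + y ^ 5 / 5 - y ^ 7 / 7)) x := by
    refine at_mono (fun y : ℝ => arctan y - (y - y ^ 3 / 3 + y ^ 5 / 5 - y ^ 7 / 7))
      (fun y => y ^ 8 / (1 + y ^ 2)) ?_ ?_ ?_ hx
    · intro y
      have h2 : (0 : ℝ) < 1 + y ^ 2 := by positivity
      have h3 := (hasDerivAt_arctan y).sub ((((hasDerivAt_id y).sub
        ((hasDerivAt_pow 3 y).div_const 3)).add ((hasDerivAt_pow 5 y).div_const 5)).sub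
        ((hasDerivAt_pow 7 y).div_const 7))
      have h4 : 1 / (1 + y ^ 2) - (1 - ((3 : ℕ) : ℝ) * y ^ (3 - 1) / 3 +
          ((5 : ℕ) : ℝ) * y ^ (5 - 1) / 5 - ((7 : ℕ) : ℝ) * y ^ (7 - 1) / 7) =
          y ^ 8 / (1 + y ^ 2) := by
        push_cast
        norm_num
        field_simp
        ring
      rw [h4] at h3
      exact h3
    · intro y
      positivity
    · simp
  simp only at h1
  linarith

private theorem at_le9 {x : ℝ} (hx : 0 ≤ x) :
    arctan x ≤ x - x ^ 3 / 3 + x ^ 5 / 5 - x ^ 7 / 7 + x ^ 9 / 9 := by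
  have h1 : 0 ≤ (fun y : ℝ => (y - y ^ 3 / 3 + y ^ 5 / 5 - y ^ 7 / 7 + y ^ 9 / 9) -
      arctan y) x := by
    refine at_mono (fun y : ℝ => (y - y ^ 3 / 3 + y ^ 5 / 5 - y ^ 7 / 7 + y ^ 9 / 9) - arctan y)
      (fun y => y ^ 10 / (1 + y ^ 2)) ?_ ?_ ?_ hx
    · intro y
      have h2 : (0 : ℝ) < 1 + y ^ 2 := by positivity
      have h3 := (((((hasDerivAt_id y).sub
        ((hasDerivAt_pow 3 y).div_const 3)).add ((hasDerivAt_pow 5 y).div_const 5)).sub
        ((hasDerivAt_pow 7 y).div_const 7)).add ((hasDerivAt_pow 9 y).div_const 9)).sub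
        (hasDerivAt_arctan y)
      have h4 : 1 - ((3 : ℕ) : ℝ) * y ^ (3 - 1) / 3 + ((5 : ℕ) : ℝ) * y ^ (5 - 1) / 5 -
          ((7 : ℕ) : ℝ) * y ^ (7 - 1) / 7 + ((9 : ℕ) : ℝ) * y ^ (9 - 1) / 9 -
          1 / (1 + y ^ 2) = y ^ 10 / (1 + y ^ 2) := by
        push_cast
        norm_num
        field_simp
        ring
      rw [h4] at h3
      exact h3
    · intro y
      positivity
    · simp
  simp only at h1
  linarith

theorem us_lo : 1.81725 < us := by
  have h1 : arctan (uu / √3) < arctan (1.03116) := by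
    apply arctan_strictMono
    rw [div_lt_iff₀ (by positivity)]
    nlinarith [uu_hi, r3_lo]
  have h2 : arctan 1 + arctan (779 / 50779) = arctan (1.03116) := by
    rw [arctan_add (by norm_num)]
    norm_num
  have h3 := at_le9 (x := 779 / 50779) (by norm_num)
  have h4 := Real.pi_gt_d6
  rw [arctan_one] at h2
  unfold us
  norm_num at h3 h4
  linarith

theorem us_hi : us < 1.81727 := by
  have h1 : arctan (1.03115) < arctan (uu / √3) := by
    apply arctan_strictMono
    rw [lt_div_iff₀ (by positivity)]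
    nlinarith [uu_lo, r3_hi]
  have h2 : arctan 1 + arctan (623 / 40623) = arctan (1.03115) := by
    rw [arctan_add (by norm_num)]
    norm_num
  have h3 := at_ge7 (x := 623 / 40623) (by norm_num)
  have h4 := Real.pi_lt_d6
  rw [arctan_one] at h2
  unfold us
  norm_num at h3 h4
  linarith

private theorem cos_us2 : cos us = 1 - uu * (1 + uu) / 4 := by
  have h := uu_pos
  have h3 := r3_sq
  have h2 : (0 : ℝ) < √3 := by positivity
  rw [cos_us, kp_eq]
  field_simp
  ring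

private theorem sin_us2 : sin us = √3 / uu := by
  have h := uu_pos
  rw [sin_us, kp_eq, sn_eq]
  field_simp

private theorem den_eq : cos us ^ 2 + kp ^ 2 * sin us ^ 2 =
    (uu * (1 + uu) / 4 - 1) ^ 2 + 36 / (uu ^ 2 * (uu * (1 + uu)) ^ 2) := by
  have h := uu_pos
  rw [cos_us2, sin_us2, kp_eq, div_pow, div_pow, mul_pow, r3_sq]
  field_simp
  ring

private theorem den_lo : 0.5153357 < cos us ^ 2 + kp ^ 2 * sin us ^ 2 := by
  have h := uu_pos
  have h1 := P_lo
  have h2 := P_hi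
  have h3 : (0.0595222 : ℝ) < (uu * (1 + uu) / 4 - 1) ^ 2 := by nlinarith
  have h4 : uu ^ 2 < 3.1898711 := by nlinarith [uu_hi, uu_lo]
  have h5 : (uu * (1 + uu)) ^ 2 < 24.7595112 := by nlinarith
  have h6 : uu ^ 2 * (uu * (1 + uu)) ^ 2 < 3.1898711 * 24.7595112 :=
    mul_lt_mul'' h4 h5 (by positivity) (by positivity)
  have h7 : (0.4558135 : ℝ) < 36 / (uu ^ 2 * (uu * (1 + uu)) ^ 2) := by
    rw [lt_div_iff₀ (by positivity)]
    nlinarith
  rw [den_eq]
  linarith

private theorem den_hi : cos us ^ 2 + kp ^ 2 * sin us ^ 2 < 0.5153384 := by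
  have h := uu_pos
  have h1 := P_lo
  have h2 := P_hi
  have h3 : (uu * (1 + uu) / 4 - 1) ^ 2 < (0.0595230 : ℝ) := by nlinarith
  have h4 : 3.1898674 < uu ^ 2 := by nlinarith [uu_hi, uu_lo]
  have h5 : 24.7594514 < (uu * (1 + uu)) ^ 2 := by nlinarith
  have h6 : 3.1898674 * 24.7594514 < uu ^ 2 * (uu * (1 + uu)) ^ 2 :=
    mul_lt_mul'' h4 h5 (by norm_num) (by norm_num)
  have h7 : 36 / (uu ^ 2 * (uu * (1 + uu)) ^ 2) < (0.4558154 : ℝ) := by
    rw [div_lt_iff₀ (by positivity)]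
    nlinarith
  rw [den_eq]
  linarith

theorem om_lo : 1.3509 < om := by
  have h1 := den_hi
  have h2 := den_lo
  unfold om dph
  rw [lt_div_iff₀ (by linarith)]
  nlinarith [kp_lo]

theorem om_hi : om < 1.3510 := by
  have h1 := den_hi
  have h2 := den_lo
  unfold om dph
  rw [div_lt_iff₀ (by linarith)]
  nlinarith [kp_hi]

private theorem bt_eq : bt = uu * (1 + uu) * (1 + uu) ^ 4 / 36 *
    (1 / ((1 + uu) * (cos us ^ 2 + kp ^ 2 * sin us ^ 2)) - 1 / (uu ^ 2 + 2 * uu - 2)) := by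
  have h := uu_pos
  have hu := uu_lo
  have h2 : (0 : ℝ) < √3 := by positivity
  have h3 := r3_sq
  have hd : 0 < cos us ^ 2 + kp ^ 2 * sin us ^ 2 := by linarith [den_lo]
  have hE : kp ^ 2 + sn ^ 2 * cos us = 1 / (1 + uu) := by
    have h4 : kp ^ 2 = 1 - sn ^ 2 := by linarith [kp_sn]
    rw [h4, cos_us2, sn_eq]
    field_simp
    ring
  have hF : 1 - 3 / 4 * sn ^ 2 = (uu ^ 2 + 2 * uu - 2) / (1 + uu) ^ 2 := by
    rw [sn_eq]
    field_simp
    ring
  have hq : 0 < uu ^ 2 + 2 * uu - 2 := by nlinarith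
  unfold bt
  rw [hE, hF]
  have ho : om = kp / (cos us ^ 2 + kp ^ 2 * sin us ^ 2) := rfl
  rw [ho]
  obtain ⟨D, hD⟩ : ∃ D : ℝ, D = cos us ^ 2 + kp ^ 2 * sin us ^ 2 := ⟨_, rfl⟩
  rw [← hD] at hd ⊢
  rw [sn_eq, kp_eq]
  have h5 : (3 * √3 * (2 * √3 / (uu * (1 + uu))) ^ 2 * (2 / (1 + uu)) ^ 3) =
      288 * √3 / (uu ^ 2 * (1 + uu) ^ 5) := by
    rw [div_pow, mul_pow, r3_sq]
    field_simp
    ring
  rw [h5]
  field_simp
  ring

private theorem bt_x1 : 0.696503 < 1 / ((1 + uu) * (cos us ^ 2 + kp ^ 2 * sin us ^ 2)) ∧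
    1 / ((1 + uu) * (cos us ^ 2 + kp ^ 2 * sin us ^ 2)) < 0.6965071 := by
  have h1 := den_hi
  have h2 := den_lo
  have h3 := uu_lo
  have h4 := uu_hi
  have h5 : (1 + uu) * (cos us ^ 2 + kp ^ 2 * sin us ^ 2) < 2.786021 * 0.5153384 :=
    mul_lt_mul'' (by linarith) h1 (by linarith) (by linarith)
  have h6 : 2.786020 * 0.5153357 < (1 + uu) * (cos us ^ 2 + kp ^ 2 * sin us ^ 2) :=
    mul_lt_mul'' (by linarith) h2 (by norm_num) (by norm_num)
  have h7 : 0 < (1 + uu) * (cos us ^ 2 + kp ^ 2 * sin us ^ 2) := by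
    refine lt_trans ?_ h6
    norm_num
  constructor
  · rw [lt_div_iff₀ h7]
    nlinarith
  · rw [div_lt_iff₀ h7]
    nlinarith

private theorem bt_x2 : 0.209999 < 1 / (uu ^ 2 + 2 * uu - 2) ∧
    1 / (uu ^ 2 + 2 * uu - 2) < 0.2100001 := by
  have h3 := uu_lo
  have h4 := uu_hi
  have h5 : 4.761907 < uu ^ 2 + 2 * uu - 2 := by nlinarith
  have h6 : uu ^ 2 + 2 * uu - 2 < 4.761914 := by nlinarith
  constructor
  · rw [lt_div_iff₀ (by linarith)]
    linarith
  · rw [div_lt_iff₀ (by linarith)]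
    linarith

private theorem bt_G : 8.3273 < uu * (1 + uu) * (1 + uu) ^ 4 / 36 ∧
    uu * (1 + uu) * (1 + uu) ^ 4 / 36 < 8.32738 := by
  have h3 := uu_lo
  have h4 := uu_hi
  have h5 : 7.7619 < (1 + uu) ^ 2 := by nlinarith
  have h6 : (1 + uu) ^ 2 < 7.761914 := by nlinarith
  have h5' : 7.761907 < (1 + uu) ^ 2 := by nlinarith
  have h7 : (60.2472 : ℝ) < (1 + uu) ^ 4 := by nlinarith
  have h8 : (1 + uu) ^ 4 < (60.24731 : ℝ) := by nlinarith
  have h9 : 4.975887 * 60.2472 < uu * (1 + uu) * (1 + uu) ^ 4 :=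
    mul_lt_mul'' P_lo h7 (by norm_num) (by norm_num)
  have h10 : uu * (1 + uu) * (1 + uu) ^ 4 < 4.975893 * 60.24731 :=
    mul_lt_mul'' P_hi h8 (by nlinarith) (by positivity)
  constructor
  · rw [lt_div_iff₀ (by norm_num)]
    linarith
  · rw [div_lt_iff₀ (by norm_num)]
    linarith

theorem bt_lo : 4.0512 < bt := by
  obtain ⟨h1, h2⟩ := bt_x1
  obtain ⟨h3, h4⟩ := bt_x2
  obtain ⟨h5, h6⟩ := bt_G
  have h7 : 8.3273 * 0.4865029 < uu * (1 + uu) * (1 + uu) ^ 4 / 36 *
      (1 / ((1 + uu) * (cos us ^ 2 + kp ^ 2 * sin us ^ 2)) - 1 / (uu ^ 2 + 2 * uu - 2)) :=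
    mul_lt_mul'' h5 (by linarith) (by norm_num) (by norm_num)
  rw [bt_eq]
  linarith

theorem bt_hi : bt < 4.0514 := by
  obtain ⟨h1, h2⟩ := bt_x1
  obtain ⟨h3, h4⟩ := bt_x2
  obtain ⟨h5, h6⟩ := bt_G
  have h7 : uu * (1 + uu) * (1 + uu) ^ 4 / 36 *
      (1 / ((1 + uu) * (cos us ^ 2 + kp ^ 2 * sin us ^ 2)) - 1 / (uu ^ 2 + 2 * uu - 2)) <
      8.32738 * 0.4865081 :=
    mul_lt_mul'' h6 (by linarith) (by linarith) (by linarith)
  rw [bt_eq]
  linarith

/-- PROOF. `(kp √3/2 + i/2) (kp sin us - i cos us)` is a positive multiple of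
`kp^2 cos us + sn^2 + i kp sin us`. -/
theorem arg_us : Complex.arg ⟨kp ^ 2 * cos us + sn ^ 2, kp * sin us⟩ =
    ph kp (π - us) + ph kp (π / 3) := by
  have hk := kp_pos
  have hs := sn_pos
  have hup := uu_pos
  have hu1 : 0 < us := by linarith [us_lo]
  have hu2 : us < π := by linarith [us_hi, Real.pi_gt_d2]
  have ha := ph_le hk (by linarith : 0 ≤ π - us) (by linarith)
  have hb := ph_gt hk (by linarith : 0 ≤ π - us) (by linarith)
  have hc := ph_lt hk (by positivity : 0 < π / 3) (by linarith [pi_pos])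
  have hd := ph_gt hk (by positivity : 0 ≤ π / 3) (by linarith [pi_pos])
  have hx : (⟨kp * sin (π - us), cos (π - us)⟩ : ℂ) ≠ 0 := by
    intro h
    have h1 := congrArg Complex.re h
    simp only [Complex.zero_re] at h1
    have h2 : 0 < sin (π - us) := by
      rw [sin_pi_sub]
      exact sin_pos_of_pos_of_lt_pi hu1 hu2
    exact (mul_pos hk h2).ne' h1
  have hy : (⟨kp * sin (π / 3), cos (π / 3)⟩ : ℂ) ≠ 0 := by
    intro h
    have h1 := congrArg Complex.im h
    simp only [Complex.zero_im] at h1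
    rw [cos_pi_div_three] at h1
    norm_num at h1
  have hmul := Complex.arg_mul hx hy (by
    unfold ph at ha hb hc hd
    exact ⟨by linarith, by linarith⟩)
  have h3 := r3_sq
  have h9 : √3 ^ 4 = (9 : ℝ) := by
    rw [show √3 ^ 4 = (√3 ^ 2) ^ 2 by ring, h3]
    norm_num
  have hz : (⟨kp * sin (π - us), cos (π - us)⟩ : ℂ) * ⟨kp * sin (π / 3), cos (π / 3)⟩ =
      (sn : ℂ) * ⟨kp ^ 2 * cos us + sn ^ 2, kp * sin us⟩ := by
    rw [sin_pi_sub, cos_pi_sub, sin_pi_div_three, cos_pi_div_three]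
    apply Complex.ext
    · simp only [Complex.mul_re, Complex.ofReal_re, Complex.ofReal_im, zero_mul, sub_zero]
      rw [cos_us2, sin_us2, kp_eq, sn_eq]
      field_simp
      rw [h9, h3]
      linear_combination (-12 + 4 * uu - uu ^ 2 - 2 * uu ^ 3 - uu ^ 4) * uu_eq
    · simp only [Complex.mul_im, Complex.ofReal_re, Complex.ofReal_im, zero_mul, add_zero]
      rw [cos_us2, sin_us2, kp_eq, sn_eq]
      field_simp
      linear_combination uu_eq
  rw [← Complex.arg_real_mul _ hs, ← hz]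
  exact hmul

private theorem ph_third_eq : ph kp (π / 3) = arctan (uu * (1 + uu) / 6) := by
  have h := uu_pos
  have h3 := r3_sq
  have h2 : (0 : ℝ) < √3 := by positivity
  rw [ph_eq kp_pos (by positivity) (by linarith [pi_pos]), sin_pi_div_three, cos_pi_div_three,
    kp_eq]
  congr 1
  field_simp
  rw [h3]
  ring

private theorem ph_us_eq : ph kp (π - us) =
    arctan ((uu * (1 + uu) / 4 - 1) * (uu * (uu * (1 + uu))) / 6) := by
  have h := uu_pos
  have h3 := r3_sq
  have h2 : (0 : ℝ) < √3 := by positivity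
  have hu1 : 0 < us := by linarith [us_lo]
  have hu2 : us < π := by linarith [us_hi, Real.pi_gt_d2]
  rw [ph_eq kp_pos (by linarith) (by linarith), sin_pi_sub, cos_pi_sub, cos_us2, sin_us2, kp_eq]
  congr 1
  field_simp
  rw [h3]
  ring

/-- `0.69236205...` -/
theorem ph_third_lo : 0.69235 < ph kp (π / 3) := by
  have h1 : arctan 0.829314 < arctan (uu * (1 + uu) / 6) := by
    apply arctan_strictMono
    linarith [P_lo]
  have h2 : arctan 0.829314 + arctan (85343 / 914657) = arctan 1 := by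
    rw [arctan_add (by norm_num)]
    norm_num
  have h3 := at_le9 (x := 85343 / 914657) (by norm_num)
  have h4 := Real.pi_gt_d6
  rw [arctan_one] at h2
  rw [ph_third_eq]
  norm_num at h3 h4
  linarith

theorem ph_third_hi : ph kp (π / 3) < 0.69237 := by
  have h1 : arctan (uu * (1 + uu) / 6) < arctan 0.829316 := by
    apply arctan_strictMono
    linarith [P_hi]
  have h2 : arctan 0.829316 + arctan (42671 / 457329) = arctan 1 := by
    rw [arctan_add (by norm_num)]
    norm_num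
  have h3 := at_ge7 (x := 42671 / 457329) (by norm_num)
  have h4 := Real.pi_lt_d6
  rw [arctan_one] at h2
  rw [ph_third_eq]
  norm_num at h3 h4
  linarith

/-- `0.34676378...` -/
theorem ph_us_lo : 0.34675 < ph kp (π - us) := by
  have h1 : arctan (90341 / 250000) <
      arctan ((uu * (1 + uu) / 4 - 1) * (uu * (uu * (1 + uu))) / 6) := by
    apply arctan_strictMono
    have h2 : 0.24397186 < uu * (1 + uu) / 4 - 1 := by nlinarith [uu_lo, uu_hi]
    have h3 : 1.786020 * 4.97588744 < uu * (uu * (1 + uu)) :=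
      mul_lt_mul'' uu_lo (by nlinarith [uu_lo, uu_hi]) (by norm_num) (by norm_num)
    have h4 := mul_lt_mul'' h2 h3 (by norm_num) (by norm_num)
    norm_num at h4 ⊢
    linarith
  have h3 := at_ge7 (x := 90341 / 250000) (by norm_num)
  rw [ph_us_eq]
  norm_num at h3
  linarith

theorem ph_us_hi : ph kp (π - us) < 0.34678 := by
  have h1 : arctan ((uu * (1 + uu) / 4 - 1) * (uu * (uu * (1 + uu))) / 6) <
      arctan (45171 / 125000) := by
    apply arctan_strictMono
    have h0 := uu_pos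
    have h2 : uu * (1 + uu) / 4 - 1 < 0.24397325 := by linarith [P_hi]
    have h3 : uu * (uu * (1 + uu)) < 1.786021 * 4.975893 :=
      mul_lt_mul'' uu_hi P_hi uu_pos.le (by positivity)
    have h4 := mul_lt_mul'' h2 h3 (by linarith [P_lo]) (by positivity)
    norm_num at h4 ⊢
    linarith
  have h3 := at_le9 (x := 45171 / 125000) (by norm_num)
  rw [ph_us_eq]
  norm_num at h3
  linarith

end Pool.Agent.C9
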