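import Pool.Agent.Lib.MP_488b8a_co_X.Tri

/-! # Project C9, module D3G: geometry of a vertex of degree 3 -/

set_option autoImplicit false

namespace Pool.Agent.C9

open Real Pool.Agent.C32

/-- the angle is additive. PROOF. `pr a v = β • pr a b + γ • pr a c` (`pr` is linear and
`pr a a = 0`), with `β, γ > 0`, and `pr a b`, `pr a c` are linearly independent; the angle between
two vectors is the sum of the angles with a positive combination (for example
`InnerProductGeometry.angle_add_angle_eq...`, or work in `ℂ` with the `frame` of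
`MP_488b8a_co_W/SumA.lean`, or compute `cos` of the sum). -/
theorem ang_add {a b c v : E3} (ha : ‖a‖ = 1) (hd : dt a b c ≠ 0) {α β γ : ℝ} (hβ : 0 < β)
    (hγ : 0 < γ) (hv : v = α • a + β • b + γ • c) : ang a b v + ang a v c = ang a b c := by
  have haa : inner ℝ a a = (1 : ℝ) := by
    rw [real_inner_self_eq_norm_sq, ha]
    norm_num
  have h1 : pr a v = β • pr a b + γ • pr a c := by
    unfold pr
    rw [hv, inner_add_right, inner_add_right, real_inner_smul_right, real_inner_smul_right,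
      real_inner_smul_right, haa]
    module
  have h2 : γ • pr a c ≠ 0 := by
    intro h0
    have h3 : pr a c = 0 := (smul_eq_zero.mp h0).resolve_left hγ.ne'
    apply hd
    have h4 : c = inner ℝ a c • a := sub_eq_zero.mp h3
    have h5 : dt a b c = dt a b (inner ℝ a c • a + (0 : ℝ) • a) := by
      rw [zero_smul, add_zero, ← h4]
    rw [h5, dt_lin3, dt_self13]
    ring
  have h6 := InnerProductGeometry.angle_eq_angle_add_add_angle_add (β • pr a b) h2
  rw [← h1, InnerProductGeometry.angle_smul_left_of_pos _ _ hβ,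
    InnerProductGeometry.angle_smul_right_of_pos _ _ hγ,
    InnerProductGeometry.angle_smul_left_of_pos _ _ hβ,
    InnerProductGeometry.angle_smul_left_of_pos _ _ hγ] at h6
  unfold ang
  rw [h6, InnerProductGeometry.angle_comm (pr a v) (pr a c)]

/-- the third vertices of the facets at the edge `v b` lie on different sides -/
private theorem d3_same {p : Fin 9 → E3} {κ : ℝ} (hκ : 0 < κ) (hG : Gen p) (hC : Covers p κ)
    {v a b c : Fin 9} (h1 : Facet p (v, a, b)) (h2 : Facet p (v, b, c)) (hac : a ≠ c) :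
    0 < dt (p v) (p a) (p b) * dt (p v) (p b) (p c) := by
  have h1' : Facet p (v, b, a) := facet_perm1 (facet_perm2 (facet_perm2 h1))
  obtain ⟨k', hk, hneg, hu⟩ := edge_two hκ hG hC h1'
  rcases hu c h2 with h3 | h3
  · exact absurd h3.symm hac
  · rw [← h3, dt_swap' (p v) (p a) (p b)] at hneg
    nlinarith

/-- a lower bound for inner products of points of a facet -/
private theorem d3_inner {p : Fin 9 → E3} {κ : ℝ} (hκ : kp ≤ κ) (hG : Gen p) (hC : Covers p κ)
    {i j k : Fin 9} (h : Facet p (i, j, k)) : 2 * kp ^ 2 - 1 ≤ inner ℝ (p i) (p j) := by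
  obtain ⟨c, a, b, d, hc, hP⟩ := facet_par hG.1 hC h
  obtain ⟨p1, p2, p3, p4, p5, p6, p7, p8, p9⟩ := hP
  rw [p7]
  unfold gram
  have hk := kp_lo
  have h1 : sin a ^ 2 ≤ 1 := sin_sq_le_one a
  have h2 : kp ^ 2 ≤ c ^ 2 := by nlinarith
  have h3 : (1 - c ^ 2) * sin a ^ 2 ≤ (1 - c ^ 2) * 1 :=
    mul_le_mul_of_nonneg_left h1 (by nlinarith)
  linarith

private theorem d3_link {p : Fin 9 → E3} {κ : ℝ} (hκ : 0 < κ) (hG : Gen p) (hC : Covers p κ)
    {v a b c : Fin 9} (h1 : Facet p (v, a, b)) (h2 : Facet p (v, b, c))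
    (h3 : Facet p (v, c, a)) {x y : Fin 9} (h : Facet p (v, x, y)) :
    (x = a ∨ x = b ∨ x = c) ∧ (y = a ∨ y = b ∨ y = c) := by
  have sw : ∀ {i j k : Fin 9}, Facet p (i, j, k) → Facet p (i, k, j) := fun h =>
    facet_perm1 (facet_perm2 (facet_perm2 h))
  have key : ∀ {a b c : Fin 9}, Facet p (v, a, b) → Facet p (v, c, a) → b ≠ c → ∀ y,
      Facet p (v, a, y) → y = b ∨ y = c := by
    intro a b c h1 h3 hbc y hy
    obtain ⟨k', hk, hneg, hu⟩ := edge_two hκ hG hC h1
    rcases hu y hy with h4 | h4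
    · exact Or.inl h4
    · rcases hu c (sw h3) with h5 | h5
      · exact absurd h5.symm hbc
      · exact Or.inr (h4.trans h5.symm)
  have hab := (facet_ne h1).2.1
  have hbc := (facet_ne h2).2.1
  have hca := (facet_ne h3).2.1
  have hS : ∀ x y, (x = a ∨ x = b ∨ x = c) → Facet p (v, x, y) → (y = a ∨ y = b ∨ y = c) := by
    intro x y hx hy
    rcases hx with rfl | rfl | rfl
    · rcases key h1 h3 hbc y hy with h4 | h4
      · exact Or.inr (Or.inl h4)
      · exact Or.inr (Or.inr h4)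
    · rcases key h2 h1 hca y hy with h4 | h4
      · exact Or.inr (Or.inr h4)
      · exact Or.inl h4
    · rcases key h3 h2 hab y hy with h4 | h4
      · exact Or.inl h4
      · exact Or.inr (Or.inl h4)
  have hx := link_conn hκ hG hC v (fun x => x = a ∨ x = b ∨ x = c) a b (Or.inl rfl) h1 hS x y h
  exact ⟨hx, hS x y hx h⟩

/-- PROOF. By `edge_two` (and `same_side`, `facet_ne`: `a, b, c` are distinct) for the edges `v a`,
`v b`, `v c`: `dt v a b`, `dt v b c`, `dt v c a` have the same sign `σ`. Cramer: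
`dt a b c • v = dt v b c • a + dt v c a • b + dt v a b • c` (arguments `p a` etc.). If
`D = dt a b c` had the sign `-σ` or were `0`: `-v` would be a positive combination of `a, b, c`
or there would be a positive combination equal to `0`. All inner products of two of the points are
`≥ 2 kp^2 - 1 > -0.031` (`facet_par`, `gram`). So for `s = x a + y b + z c` with `x, y, z ≥ 0`,
`x + y + z = 1`: `‖s‖^2 ≥ x^2 + y^2 + z^2 - 0.062 (xy + yz + zx) ≥ 1/3 - 0.03 > 0.3`, which excludes
`D = 0`, and `-v = t s` gives `t = 1/‖s‖ < 2` and `-1 = inner v (-v) = t inner v s ≥ -2 * 0.031`,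
a contradiction. So `D σ > 0` and the coefficients are positive. -/
theorem d3_cone {p : Fin 9 → E3} {κ : ℝ} (hκ : kp ≤ κ) (hG : Gen p) (hC : Covers p κ)
    {v a b c : Fin 9} (h1 : Facet p (v, a, b)) (h2 : Facet p (v, b, c))
    (h3 : Facet p (v, c, a)) :
    dt (p a) (p b) (p c) ≠ 0 ∧ 2 * kp ^ 2 - 1 ≤ inner ℝ (p a) (p b) ∧
      2 * kp ^ 2 - 1 ≤ inner ℝ (p b) (p c) ∧ 2 * kp ^ 2 - 1 ≤ inner ℝ (p c) (p a) ∧
      ∃ α β γ : ℝ, 0 < α ∧ 0 < β ∧ 0 < γ ∧ p v = α • p a + β • p b + γ • p c := by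
  have hk := kp_lo
  have hκ0 : 0 < κ := by linarith
  have hab := (facet_ne h1).2.1
  have hbc := (facet_ne h2).2.1
  have hca := (facet_ne h3).2.1
  have iab := d3_inner hκ hG hC (facet_perm2 h1)
  have ibc := d3_inner hκ hG hC (facet_perm2 h2)
  have ica := d3_inner hκ hG hC (facet_perm2 h3)
  have iva := d3_inner hκ hG hC h1
  have ivb := d3_inner hκ hG hC h2
  have ivc := d3_inner hκ hG hC h3
  have s1 := d3_same hκ0 hG hC h1 h2 hca.symm
  have s2 := d3_same hκ0 hG hC h2 h3 hab.symm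
  have hua : inner ℝ (p a) (p a) = (1 : ℝ) := by
    rw [real_inner_self_eq_norm_sq, hG.1 a]
    norm_num
  have hub : inner ℝ (p b) (p b) = (1 : ℝ) := by
    rw [real_inner_self_eq_norm_sq, hG.1 b]
    norm_num
  have huc : inner ℝ (p c) (p c) = (1 : ℝ) := by
    rw [real_inner_self_eq_norm_sq, hG.1 c]
    norm_num
  have huv : inner ℝ (p v) (p v) = (1 : ℝ) := by
    rw [real_inner_self_eq_norm_sq, hG.1 v]
    norm_num
  have hcr : dt (p a) (p b) (p c) • p v = dt (p v) (p b) (p c) • p a +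
      dt (p v) (p c) (p a) • p b + dt (p v) (p a) (p b) • p c := by
    apply ext3 <;> simp only [dt, PiLp.add_apply, PiLp.smul_apply, smul_eq_mul] <;> ring
  obtain ⟨D, hD⟩ : ∃ D, D = dt (p a) (p b) (p c) := ⟨_, rfl⟩
  obtain ⟨x1, hx1⟩ : ∃ x, x = dt (p v) (p a) (p b) := ⟨_, rfl⟩
  obtain ⟨x2, hx2⟩ : ∃ x, x = dt (p v) (p b) (p c) := ⟨_, rfl⟩
  obtain ⟨x3, hx3⟩ : ∃ x, x = dt (p v) (p c) (p a) := ⟨_, rfl⟩
  rw [← hx1, ← hx2] at s1
  rw [← hx2, ← hx3] at s2
  rw [← hD, ← hx1, ← hx2, ← hx3] at hcr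
  rw [← hD]
  -- the sign
  have main : ∀ E y1 y2 y3 : ℝ, 0 < y1 → 0 < y2 → 0 < y3 →
      E • p v = y2 • p a + y3 • p b + y1 • p c → 0 < E := by
    intro E y1 y2 y3 g1 g2 g3 hE
    have e1 : E * E = y2 * y2 + y3 * y3 + y1 * y1 + 2 * (y2 * y3 * inner ℝ (p a) (p b) +
        y3 * y1 * inner ℝ (p b) (p c) + y1 * y2 * inner ℝ (p c) (p a)) := by
      have h4 : inner ℝ (E • p v) (E • p v) = E * E := by
        rw [real_inner_smul_left, real_inner_smul_right, huv]
        ring
      rw [← h4, hE]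
      simp only [inner_add_left, inner_add_right, real_inner_smul_left, real_inner_smul_right,
        hua, hub, huc]
      rw [real_inner_comm (p a) (p b), real_inner_comm (p b) (p c), real_inner_comm (p c) (p a)]
      ring
    have e2 : E = y2 * inner ℝ (p v) (p a) + y3 * inner ℝ (p v) (p b) +
        y1 * inner ℝ (p v) (p c) := by
      have h4 : inner ℝ (p v) (E • p v) = E := by
        rw [real_inner_smul_right, huv, mul_one]
      rw [← h4, hE]
      simp only [inner_add_right, real_inner_smul_right]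
    have hm : -(31 / 1000 : ℝ) ≤ 2 * kp ^ 2 - 1 := by nlinarith
    have e3 : E * E ≥ y2 * y2 + y3 * y3 + y1 * y1 - 62 / 1000 * (y2 * y3 + y3 * y1 + y1 * y2) := by
      have q1 : -(31 / 1000) * (y2 * y3) ≤ y2 * y3 * inner ℝ (p a) (p b) := by
        nlinarith [mul_pos g2 g3]
      have q2 : -(31 / 1000) * (y3 * y1) ≤ y3 * y1 * inner ℝ (p b) (p c) := by
        nlinarith [mul_pos g3 g1]
      have q3 : -(31 / 1000) * (y1 * y2) ≤ y1 * y2 * inner ℝ (p c) (p a) := by
        nlinarith [mul_pos g1 g2]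
      rw [e1]
      linarith
    have e4 : -(31 / 1000) * (y1 + y2 + y3) ≤ E := by
      rw [e2]
      have q1 : -(31 / 1000) * y2 ≤ y2 * inner ℝ (p v) (p a) := by nlinarith
      have q2 : -(31 / 1000) * y3 ≤ y3 * inner ℝ (p v) (p b) := by nlinarith
      have q3 : -(31 / 1000) * y1 ≤ y1 * inner ℝ (p v) (p c) := by nlinarith
      linarith
    by_contra hcon
    have hE0 : E ≤ 0 := not_lt.mp hcon
    have e5 : E * E ≤ (31 / 1000 * (y1 + y2 + y3)) * (31 / 1000 * (y1 + y2 + y3)) := by
      nlinarith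
    nlinarith [sq_nonneg (y1 - y2), sq_nonneg (y2 - y3), sq_nonneg (y3 - y1), mul_pos g1 g2,
      mul_pos g2 g3, mul_pos g3 g1]
  have fin : ∀ E y1 y2 y3 : ℝ, 0 < y1 → 0 < y2 → 0 < y3 →
      E • p v = y2 • p a + y3 • p b + y1 • p c →
      ∃ α β γ : ℝ, 0 < α ∧ 0 < β ∧ 0 < γ ∧ p v = α • p a + β • p b + γ • p c := by
    intro E y1 y2 y3 g1 g2 g3 hE
    have hE0 := main E y1 y2 y3 g1 g2 g3 hE
    refine ⟨y2 / E, y3 / E, y1 / E, by positivity, by positivity, by positivity, ?_⟩
    have h4 : p v = E⁻¹ • (E • p v) := by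
      rw [smul_smul, inv_mul_cancel₀ hE0.ne', one_smul]
    rw [h4, hE, smul_add, smul_add, smul_smul, smul_smul, smul_smul]
    simp only [div_eq_inv_mul]
  rcases lt_trichotomy x2 0 with h4 | h4 | h4
  · have h5 : x1 < 0 := by
      by_contra h6
      nlinarith [not_lt.mp h6]
    have h6 : x3 < 0 := by
      by_contra h7
      nlinarith [not_lt.mp h7]
    have h7 : (-D) • p v = (-x2) • p a + (-x3) • p b + (-x1) • p c := by
      rw [neg_smul, hcr, neg_smul, neg_smul, neg_smul]
      abel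
    refine ⟨?_, iab, ibc, ica, fin (-D) (-x1) (-x2) (-x3) (by linarith) (by linarith)
      (by linarith) h7⟩
    have := main (-D) (-x1) (-x2) (-x3) (by linarith) (by linarith) (by linarith) h7
    intro h8
    rw [h8] at this
    linarith
  · rw [h4] at s1
    linarith
  · have h5 : 0 < x1 := by
      by_contra h6
      nlinarith [not_lt.mp h6]
    have h6 : 0 < x3 := by
      by_contra h7
      nlinarith [not_lt.mp h7]
    refine ⟨(main D x1 x2 x3 h5 h4 h6 hcr).ne', iab, ibc, ica, fin D x1 x2 x3 h5 h4 h6 hcr⟩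

/-- the angle sum at the neighbour `a` of `v` -/
private theorem d3_suma {p : Fin 9 → E3} {κ : ℝ} (hκ : kp ≤ κ) (hG : Gen p) (hC : Covers p κ)
    {v a b c : Fin 9} (h1 : Facet p (v, a, b)) (h2 : Facet p (v, b, c))
    (h3 : Facet p (v, c, a)) :
    4 * π ≤ (∑ t ∈ (facets p).filter (fun t => t.1 = a ∧ t.2.1 ≠ v ∧ t.2.2 ≠ v),
        ang (p t.1) (p t.2.1) (p t.2.2)) + 2 * ang (p a) (p b) (p c) := by
  have hk := kp_lo
  have hκ0 : 0 < κ := by linarith
  obtain ⟨hd, -, -, -, α, β, γ, hα, hβ, hγ, hv⟩ := d3_cone hκ hG hC h1 h2 h3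
  have hadd := ang_add (hG.1 a) hd hβ hγ hv
  have hs := angle_sum hκ0 hG hC a
  have hva := (facet_ne h1).1
  have hvb := (facet_ne h2).1
  have hvc := (facet_ne h3).1
  have hbc := (facet_ne h2).2.1
  rw [← Finset.sum_filter_add_sum_filter_not ((facets p).filter (fun t => t.1 = a))
    (fun t => t.2.1 ≠ v ∧ t.2.2 ≠ v)] at hs
  rw [Finset.filter_filter, Finset.filter_filter] at hs
  have hsub : (facets p).filter (fun t => t.1 = a ∧ ¬ (t.2.1 ≠ v ∧ t.2.2 ≠ v)) ⊆
      ({(a, v, b), (a, v, c), (a, b, v), (a, c, v)} : Finset (Fin 9 × Fin 9 × Fin 9)) := by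
    rintro ⟨x, y, z⟩ ht
    rw [Finset.mem_filter, mem_facets] at ht
    obtain ⟨hF, hx, hyz⟩ := ht
    simp only at hx hyz
    subst hx
    simp only [Finset.mem_insert, Finset.mem_singleton, Prod.mk.injEq, true_and]
    rw [not_and_or, not_not, not_not] at hyz
    rcases hyz with hy | hz
    · subst hy
      have h4 := (d3_link hκ0 hG hC h1 h2 h3 (facet_perm1 hF)).2
      have h5 := (facet_ne hF).2.2
      rcases h4 with h4 | h4 | h4
      · exact absurd h4.symm h5
      · exact Or.inl ⟨rfl, h4⟩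
      · exact Or.inr (Or.inl ⟨rfl, h4⟩)
    · subst hz
      have h4 := (d3_link hκ0 hG hC h1 h2 h3 (facet_perm2 (facet_perm2 hF))).2
      have h5 := (facet_ne hF).1
      rcases h4 with h4 | h4 | h4
      · exact absurd h4.symm h5
      · exact Or.inr (Or.inr (Or.inl ⟨h4, rfl⟩))
      · exact Or.inr (Or.inr (Or.inr ⟨h4, rfl⟩))
  have hle := Finset.sum_le_sum_of_subset_of_nonneg (f := fun t : Fin 9 × Fin 9 × Fin 9 =>
    ang (p t.1) (p t.2.1) (p t.2.2)) hsub
    (fun t _ _ => InnerProductGeometry.angle_nonneg _ _)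
  have heq : ∑ t ∈ ({(a, v, b), (a, v, c), (a, b, v), (a, c, v)} :
      Finset (Fin 9 × Fin 9 × Fin 9)), ang (p t.1) (p t.2.1) (p t.2.2) =
      ang (p a) (p v) (p b) + (ang (p a) (p v) (p c) + (ang (p a) (p b) (p v) +
        ang (p a) (p c) (p v))) := by
    rw [Finset.sum_insert, Finset.sum_insert, Finset.sum_insert, Finset.sum_singleton]
    · simp only [Finset.mem_singleton, Prod.mk.injEq, true_and, not_and]
      intro h _
      exact hbc h
    · simp only [Finset.mem_insert, Finset.mem_singleton, Prod.mk.injEq, true_and, not_or,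
        not_and]
      exact ⟨fun h => absurd h hvb, fun h => absurd h hvc⟩
    · simp only [Finset.mem_insert, Finset.mem_singleton, Prod.mk.injEq, true_and, not_or,
        not_and]
      exact ⟨hbc, fun h => absurd h hvb, fun h => absurd h hvc⟩
  rw [heq, ang_symm (p a) (p v) (p b), ang_symm (p a) (p c) (p v)] at hle
  linarith

/-- the angle sums after the deletion of `v`. `F'` are the ordered facets without `v`.
PROOF. `angle_sum` at `i` for the ordered facets with first vertex `i` (`≥ 4π`); those containing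
`v` are, for `i = a`: `(a, v, b), (a, b, v), (a, v, c), (a, c, v)` (link of `v` is `a, b, c`:
`edge_two`; `a`, `b`, `c` distinct), with `ang_add` (`ang_symm`). -/
theorem d3_sum {p : Fin 9 → E3} {κ : ℝ} (hκ : kp ≤ κ) (hG : Gen p) (hC : Covers p κ)
    {v a b c : Fin 9} (h1 : Facet p (v, a, b)) (h2 : Facet p (v, b, c))
    (h3 : Facet p (v, c, a)) (i : Fin 9) (hi : i ≠ v) :
    4 * π ≤ (∑ t ∈ (facets p).filter (fun t => t.1 = i ∧ t.2.1 ≠ v ∧ t.2.2 ≠ v),
        ang (p t.1) (p t.2.1) (p t.2.2)) +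
      (if i = a then 2 * ang (p a) (p b) (p c) else 0) +
      (if i = b then 2 * ang (p b) (p c) (p a) else 0) +
      (if i = c then 2 * ang (p c) (p a) (p b) else 0) := by
  have hk := kp_lo
  have hκ0 : 0 < κ := by linarith
  have hab := (facet_ne h1).2.1
  have hbc := (facet_ne h2).2.1
  have hca := (facet_ne h3).2.1
  by_cases ha : i = a
  · subst ha
    have h4 := d3_suma hκ hG hC h1 h2 h3
    rw [if_pos rfl, if_neg hab, if_neg hca.symm]
    linarith
  by_cases hb : i = b
  · subst hb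
    have h4 := d3_suma hκ hG hC h2 h3 h1
    rw [if_neg ha, if_pos rfl, if_neg hbc]
    linarith
  by_cases hc : i = c
  · subst hc
    have h4 := d3_suma hκ hG hC h3 h1 h2
    rw [if_neg ha, if_neg hb, if_pos rfl]
    linarith
  rw [if_neg ha, if_neg hb, if_neg hc, add_zero, add_zero, add_zero]
  refine (angle_sum hκ0 hG hC i).trans_eq ?_
  congr 1
  ext ⟨x, y, z⟩
  rw [Finset.mem_filter, Finset.mem_filter, mem_facets]
  simp only
  constructor
  · rintro ⟨hF, rfl⟩
    refine ⟨hF, rfl, ?_, ?_⟩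
    · rintro rfl
      rcases (d3_link hκ0 hG hC h1 h2 h3 (facet_perm1 hF)).1 with h4 | h4 | h4
      · exact ha h4
      · exact hb h4
      · exact hc h4
    · rintro rfl
      rcases (d3_link hκ0 hG hC h1 h2 h3 (facet_perm2 (facet_perm2 hF))).1 with h4 | h4 | h4
      · exact ha h4
      · exact hb h4
      · exact hc h4
  · rintro ⟨hF, rfl, -, -⟩
    exact ⟨hF, rfl⟩

/-- ordered triples of distinct elements of `Fin 4` which contain `0` -/
private def T0 : Finset (Fin 4 × Fin 4 × Fin 4) :=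
  Finset.univ.filter fun s => (s.1 ≠ s.2.1 ∧ s.2.1 ≠ s.2.2 ∧ s.1 ≠ s.2.2) ∧
    (s.1 = 0 ∨ s.2.1 = 0 ∨ s.2.2 = 0)

private theorem T0_card : T0.card = 18 := by decide

/-- PROOF. `card_facets`: 84, and the ordered facets containing `v` are the 18 orders of the three
triangles. -/
theorem d3_card {p : Fin 9 → E3} {κ : ℝ} (hκ : kp ≤ κ) (hG : Gen p) (hC : Covers p κ)
    {v a b c : Fin 9} (h1 : Facet p (v, a, b)) (h2 : Facet p (v, b, c))
    (h3 : Facet p (v, c, a)) :
    ((facets p).filter (fun t => t.1 ≠ v ∧ t.2.1 ≠ v ∧ t.2.2 ≠ v)).card = 66 := by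
  classical
  have hk := kp_lo
  have hκ0 : 0 < κ := by linarith
  have hva := (facet_ne h1).1
  have hvb := (facet_ne h2).1
  have hvc := (facet_ne h3).1
  have hab := (facet_ne h1).2.1
  have hbc := (facet_ne h2).2.1
  have hca := (facet_ne h3).2.1
  have h84 := card_facets hκ hG hC
  obtain ⟨f, hf⟩ : ∃ f : Fin 4 → Fin 9, f = ![v, a, b, c] := ⟨_, rfl⟩
  have f0 : f 0 = v := by rw [hf]; rfl
  have f1 : f 1 = a := by rw [hf]; rfl
  have f2 : f 2 = b := by rw [hf]; rfl
  have f3 : f 3 = c := by rw [hf]; rfl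
  have hinj : Function.Injective f := by
    intro x y hxy
    fin_cases x <;> fin_cases y <;> simp [hf] at hxy ⊢ <;> first
      | exact absurd hxy hva
      | exact absurd hxy hvb
      | exact absurd hxy hvc
      | exact absurd hxy hab
      | exact absurd hxy hbc
      | exact absurd hxy hca
      | exact absurd hxy.symm hva
      | exact absurd hxy.symm hvb
      | exact absurd hxy.symm hvc
      | exact absurd hxy.symm hab
      | exact absurd hxy.symm hbc
      | exact absurd hxy.symm hca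
  have hsurj : ∀ x, (x = a ∨ x = b ∨ x = c) → ∃ i : Fin 4, i ≠ 0 ∧ f i = x := by
    rintro x (rfl | rfl | rfl)
    · exact ⟨1, by decide, f1⟩
    · exact ⟨2, by decide, f2⟩
    · exact ⟨3, by decide, f3⟩
  have hfac : ∀ i j : Fin 4, i ≠ 0 → j ≠ 0 → i ≠ j → Facet p (f 0, f i, f j) := by
    have sw : ∀ {i j k : Fin 9}, Facet p (i, j, k) → Facet p (i, k, j) := fun h =>
      facet_perm1 (facet_perm2 (facet_perm2 h))
    intro i j hi hj hij
    fin_cases i <;> fin_cases j <;> first
      | exact absurd rfl hi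
      | exact absurd rfl hj
      | exact absurd rfl hij
      | (rw [hf]; exact h1)
      | (rw [hf]; exact h2)
      | (rw [hf]; exact h3)
      | (rw [hf]; exact sw h1)
      | (rw [hf]; exact sw h2)
      | (rw [hf]; exact sw h3)
  have himg : (facets p).filter (fun t => ¬ (t.1 ≠ v ∧ t.2.1 ≠ v ∧ t.2.2 ≠ v)) =
      T0.image (fun s => (f s.1, f s.2.1, f s.2.2)) := by
    ext ⟨x, y, z⟩
    rw [Finset.mem_filter, mem_facets, Finset.mem_image]
    constructor
    · rintro ⟨hF, h4⟩
      simp only at h4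
      have hne := facet_ne hF
      have hcase : x = v ∨ y = v ∨ z = v := by
        by_contra h5
        rw [not_or, not_or] at h5
        exact h4 h5
      rcases hcase with h5 | h5 | h5
      · subst h5
        obtain ⟨h6, h7⟩ := d3_link hκ0 hG hC h1 h2 h3 hF
        obtain ⟨i, hi, hfi⟩ := hsurj y h6
        obtain ⟨j, hj, hfj⟩ := hsurj z h7
        refine ⟨(0, i, j), ?_, ?_⟩
        · have hij : i ≠ j := by
            rintro rfl
            exact hne.2.1 (hfi.symm.trans hfj)
          simp only [T0, Finset.mem_filter, Finset.mem_univ, true_and]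
          exact ⟨⟨hi.symm, hij, hj.symm⟩, Or.inl trivial⟩
        · simp only [f0, hfi, hfj]
      · subst h5
        obtain ⟨h6, h7⟩ := d3_link hκ0 hG hC h1 h2 h3 (facet_perm1 hF)
        obtain ⟨i, hi, hfi⟩ := hsurj x h6
        obtain ⟨j, hj, hfj⟩ := hsurj z h7
        refine ⟨(i, 0, j), ?_, ?_⟩
        · have hij : i ≠ j := by
            rintro rfl
            exact hne.2.2 (hfi.symm.trans hfj)
          simp only [T0, Finset.mem_filter, Finset.mem_univ, true_and]
          exact ⟨⟨hi, hj.symm, hij⟩, Or.inr (Or.inl trivial)⟩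
        · simp only [f0, hfi, hfj]
      · subst h5
        obtain ⟨h6, h7⟩ := d3_link hκ0 hG hC h1 h2 h3 (facet_perm2 (facet_perm2 hF))
        obtain ⟨i, hi, hfi⟩ := hsurj x h6
        obtain ⟨j, hj, hfj⟩ := hsurj y h7
        refine ⟨(i, j, 0), ?_, ?_⟩
        · have hij : i ≠ j := by
            rintro rfl
            exact hne.1 (hfi.symm.trans hfj)
          simp only [T0, Finset.mem_filter, Finset.mem_univ, true_and]
          exact ⟨⟨hij, hj, hi⟩, Or.inr (Or.inr trivial)⟩
        · simp only [f0, hfi, hfj]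
    · rintro ⟨⟨i, j, k⟩, hs, he⟩
      simp only [T0, Finset.mem_filter, Finset.mem_univ, true_and] at hs
      obtain ⟨⟨n1, n2, n3⟩, hz⟩ := hs
      rw [← he]
      simp only
      rcases hz with rfl | rfl | rfl
      · exact ⟨hfac j k n1.symm n3.symm n2, fun h => h.1 f0⟩
      · exact ⟨facet_perm1 (hfac i k n1 n2.symm n3), fun h => h.2.1 f0⟩
      · exact ⟨facet_perm2 (hfac i j n3 n2 n1), fun h => h.2.2 f0⟩
  have h18 : ((facets p).filter (fun t => ¬ (t.1 ≠ v ∧ t.2.1 ≠ v ∧ t.2.2 ≠ v))).card = 18 := by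
    rw [himg, Finset.card_image_of_injective, T0_card]
    rintro ⟨x, y, z⟩ ⟨x', y', z'⟩ h
    simp only [Prod.mk.injEq] at h
    rw [hinj h.1, hinj h.2.1, hinj h.2.2]
  have h5 := Finset.card_filter_add_card_filter_not (s := facets p)
    (fun t => t.1 ≠ v ∧ t.2.1 ≠ v ∧ t.2.2 ≠ v)
  omega

end Pool.Agent.C9
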