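import Pool.Agent.Lib.MP_488b8a_co_X.GwD

/-! # Project C9, module D3N: degree 3, facets (helper96)

After the deletion of a vertex of degree 3 the label of a vertex is `true` if its new degree is at
most `4` and `false` if it is at least `5`. -/

set_option autoImplicit false

namespace Pool.Agent.C9

open Real Pool.Agent.C32

/-- price of a label -/
noncomputable def Q3 (l : Bool) : ℝ := if l then 1.18 else 0.82

/-- share of a vertex in the bound of a face -/
noncomputable def G3 (l : Bool) : ℝ := if l then 1.6475 else 1.157

end Pool.Agent.C9
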