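import Pool.Agent.Lib.MP_488b8a_co_X.D3N
import Pool.Agent.Lib.MP_488b8a_co_N.CertD3

/-! # Project C9, module D3O: degree 3, the face inequality -/

set_option autoImplicit false

namespace Pool.Agent.C9

open Real Pool.Agent.C32

/-- The four unordered triples of labels are the certificates `D3a`, `D3b`, `D3c`, `D3d`. -/
theorem d3_face {c a b d : ℝ} (l₁ l₂ l₃ : Bool) (hc : kp ≤ c) (hc1 : c < 1) (ha : 0 ≤ a)
    (hb : 0 ≤ b) (hd : 0 ≤ d) (hs : a + b + d = π) :
    (Q3 l₁ + Q3 l₂) * ph c a + (Q3 l₂ + Q3 l₃) * ph c b + (Q3 l₃ + Q3 l₁) * ph c d ≤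
      G3 l₁ + G3 l₂ + G3 l₃ := by
  have hc' : 87 / 125 ≤ c := by linarith [kp_lo]
  have e1 : b + d + a = π := by linarith
  have e2 : d + a + b = π := by linarith
  have p0 := D3a hc' hc1.le ha hb hd hs
  have q0 := D3b hc' hc1.le ha hb hd hs
  have q1 := D3b hc' hc1.le hb hd ha e1
  have q2 := D3b hc' hc1.le hd ha hb e2
  have r0 := D3c hc' hc1.le ha hb hd hs
  have r1 := D3c hc' hc1.le hb hd ha e1
  have r2 := D3c hc' hc1.le hd ha hb e2
  have s0 := D3d hc' hc1.le ha hb hd hs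
  unfold Q3 G3
  cases l₁ <;> cases l₂ <;> cases l₃ <;>
    simp only [if_true, if_false, Bool.false_eq_true] <;> linarith

end Pool.Agent.C9
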