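import Pool.Agent.Lib.MP_488b8a_co_W.SumA
import Pool.Agent.Lib.MP_488b8a_co_W.Cnt
import Pool.Agent.Lib.MP_488b8a_co_W.Conc
import Pool.Agent.Lib.MP_488b8a_co_W.Apx

/-! # Project C9 (MP_488b8a_co): the exact value of `r_9`. Definitions.

Text: /team-store/R22_488b8a_n9_helper96.md. The library of project C32
(`Lib/MP_488b8a_co_W`) is used throughout. -/

set_option autoImplicit false

namespace Pool.Agent.C9

open Real Pool.Agent.C32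

noncomputable section

/-- PROOF. Intermediate value theorem. -/
theorem exists_uu : ∃ u : ℝ, 1.786020 < u ∧ u < 1.786021 ∧
    u ^ 4 + 2 * u ^ 3 - 3 * u ^ 2 - 12 = 0 := by
  have hc : ContinuousOn (fun u : ℝ => u ^ 4 + 2 * u ^ 3 - 3 * u ^ 2 - 12)
      (Set.Icc 1.786020 1.786021) := by fun_prop
  have h := intermediate_value_Ioo (by norm_num : (1.786020 : ℝ) ≤ 1.786021) hc
  obtain ⟨u, hu, he⟩ := h (show (0 : ℝ) ∈ Set.Ioo _ _ by constructor <;> norm_num)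
  exact ⟨u, hu.1, hu.2, he⟩

/-- `√3 tan r_9` (`1.786020...`) -/
def uu : ℝ := Classical.choose exists_uu

/-- `cos r_9` (`0.69617736...`) -/
def kp : ℝ := √3 / √(3 + uu ^ 2)

/-- `sin r_9` (`0.71786978...`) -/
def sn : ℝ := uu / √(3 + uu ^ 2)

/-- `150° - r_9` (`104.1211°`) -/
def us : ℝ := 5 * π / 6 - arctan (uu / √3)

/-- the price `ω = 1 - μ` (`1.3509165`) -/
def om : ℝ := dph kp us

/-- the coefficient `β` of `sin^4 (side/2)` (`4.05128`) -/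
def bt : ℝ := (om - kp * (kp ^ 2 + sn ^ 2 * cos us) / (1 - 3 / 4 * sn ^ 2)) * 4 /
  (3 * √3 * kp ^ 2 * sn ^ 3)

/-- `(x, y, z)` with the phase equal to half of the (signed) area of the triangle -/
def hB (x y z : E3) : ℂ := ⟨1 + inner ℝ x y + inner ℝ y z + inner ℝ z x, dt x y z⟩

/-- `sin^4` of half of the side `x y` (unit vectors) -/
def s4 (x y : E3) : ℝ := ((1 - inner ℝ x y) / 2) ^ 2

/-- a combinatorial triangulation of the sphere with (at most) 9 vertices: ordered triangles -/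
structure Tri (F : Fin 9 → Fin 9 → Fin 9 → Prop) : Prop where
  p1 : ∀ i j k, F i j k → F j i k
  p2 : ∀ i j k, F i j k → F j k i
  ne : ∀ i j k, F i j k → i ≠ j
  two : ∀ i j k, F i j k → ∃ k', k' ≠ k ∧ F i j k' ∧ ∀ l, F i j l → l = k ∨ l = k'
  conn : ∀ (i : Fin 9) (S : Fin 9 → Prop) (j k : Fin 9), S j → F i j k →
    (∀ a b, S a → F i a b → S b) → ∀ a b, F i a b → S a
  card : ∀ T : Finset (Fin 9 × Fin 9 × Fin 9), (∀ t, t ∈ T ↔ F t.1 t.2.1 t.2.2) → T.card = 84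
  occ : ∀ i, ∃ j k, F i j k

/-- the unordered triple `{i, j, k}` is in the list -/
def Has (L : List (Fin 9 × Fin 9 × Fin 9)) (i j k : Fin 9) : Prop :=
  (L.any fun t => t == (i, j, k) || t == (j, k, i) || t == (k, i, j) || t == (j, i, k) ||
    t == (i, k, j) || t == (k, j, i)) = true

instance (L : List (Fin 9 × Fin 9 × Fin 9)) (i j k : Fin 9) : Decidable (Has L i j k) := by
  unfold Has
  infer_instance

/-- `4^3 5^6`, the type of the optimal covering: `T_i = 0, 1, 2`, `B_i = 3, 4, 5`,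
`C = 6, 7, 8`, `C_k` adjacent to `T_i, T_j, B_i, B_j` -/
def L1 : List (Fin 9 × Fin 9 × Fin 9) :=
  [(0, 1, 2), (3, 4, 5), (8, 0, 1), (8, 1, 4), (8, 4, 3), (8, 3, 0), (6, 1, 2), (6, 2, 5),
    (6, 5, 4), (6, 4, 1), (7, 2, 0), (7, 0, 3), (7, 3, 5), (7, 5, 2)]

/-- `4^4 5^4 6`: `h_i = i` (`i = 0..5`), `w = 6`, `p = 7` (adjacent to `h_0, h_1, h_2, h_3`, `q`),
`q = 8` (adjacent to `h_3, h_4, h_5, h_0`, `p`) -/
def L2 : List (Fin 9 × Fin 9 × Fin 9) :=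
  [(6, 0, 1), (6, 1, 2), (6, 2, 3), (6, 3, 4), (6, 4, 5), (6, 5, 0), (7, 0, 1), (7, 1, 2),
    (7, 2, 3), (8, 3, 4), (8, 4, 5), (8, 5, 0), (7, 8, 0), (7, 8, 3)]

/-- `4^5 5^2 6^2`: `p = 7` adjacent to `h_0, h_1, h_2`, `q`; `q = 8` adjacent to
`h_2, h_3, h_4, h_5, h_0`, `p` -/
def L3 : List (Fin 9 × Fin 9 × Fin 9) :=
  [(6, 0, 1), (6, 1, 2), (6, 2, 3), (6, 3, 4), (6, 4, 5), (6, 5, 0), (7, 0, 1), (7, 1, 2),
    (8, 2, 3), (8, 3, 4), (8, 4, 5), (8, 5, 0), (7, 8, 0), (7, 8, 2)]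

/-- `4^6 6^3`: `p = 7` adjacent to `h_0, h_1, h_2, h_3`, `q = 8` adjacent to
`h_3, h_4, h_5, h_0`, chord `h_0 h_3` -/
def L4 : List (Fin 9 × Fin 9 × Fin 9) :=
  [(6, 0, 1), (6, 1, 2), (6, 2, 3), (6, 3, 4), (6, 4, 5), (6, 5, 0), (7, 0, 1), (7, 1, 2),
    (7, 2, 3), (8, 3, 4), (8, 4, 5), (8, 5, 0), (7, 0, 3), (8, 0, 3)]

/-- `4^7 7^2`, the bipyramid -/
def L5 : List (Fin 9 × Fin 9 × Fin 9) :=
  [(7, 0, 1), (7, 1, 2), (7, 2, 3), (7, 3, 4), (7, 4, 5), (7, 5, 6), (7, 6, 0), (8, 0, 1),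
    (8, 1, 2), (8, 2, 3), (8, 3, 4), (8, 4, 5), (8, 5, 6), (8, 6, 0)]

/-- the 9 centres: `T_i`, `B_i` at colatitude `r_9`, `π - r_9`, azimuth `60° + 120° i`, `C_i` on
the equator, azimuth `120° i` -/
def pt9 : Fin 9 → E3 := ![
  !₂[sn / 2, sn * √3 / 2, kp], !₂[-sn, 0, kp], !₂[sn / 2, -(sn * √3 / 2), kp],
  !₂[sn / 2, sn * √3 / 2, -kp], !₂[-sn, 0, -kp], !₂[sn / 2, -(sn * √3 / 2), -kp],
  !₂[-1 / 2, -(√3 / 2), 0], !₂[1, 0, 0], !₂[-1 / 2, √3 / 2, 0]]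

end

end Pool.Agent.C9
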