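import Pool.Agent.Lib.MP_488b8a_co_X.E9a

/-! # Project C9, module E9: the facet `T T T` of type `4^3 5^6` -/

set_option autoImplicit false

namespace Pool.Agent.C9

open Real Pool.Agent.C32

private theorem s4_gram {x y : E3} {c a : ℝ} (h : inner ℝ x y = gram c a) :
    s4 x y = ((1 - c ^ 2) * sin a ^ 2) ^ 2 := by
  unfold s4
  rw [h]
  unfold gram
  ring

/-- PROOF. `facet_par`, `ang_par`, `E_real`; `s4 = ((1 - gram)/2)^2 = ((1 - c^2) sin^2)^2`. -/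
theorem E_facet {p : Fin 9 → E3} {κ : ℝ} (hκ : kp < κ) (hG : Gen p) (hC : Covers p κ)
    {i j k : Fin 9} (h : Facet p (i, j, k)) :
    ang (p i) (p j) (p k) + ang (p j) (p k) (p i) + ang (p k) (p i) (p j) +
      bt * (s4 (p i) (p j) + s4 (p j) (p k) + s4 (p k) (p i)) <
        6 * ph kp (π / 3) + 27 / 16 * bt * sn ^ 4 := by
  obtain ⟨c, a, b, d, hκc, h0⟩ := facet_par hG.1 hC h
  have h1 := par_rot h0
  have h2 := par_rot h1
  rw [ang_par (hG.1 i) (hG.1 j) (hG.1 k) h0, ang_par (hG.1 j) (hG.1 k) (hG.1 i) h1,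
    ang_par (hG.1 k) (hG.1 i) (hG.1 j) h2]
  obtain ⟨hc, hc1, ha, hb, hd, hs, e1, e2, e3⟩ := h0
  rw [s4_gram e1, s4_gram e2, s4_gram e3]
  have h3 := E_real (lt_of_lt_of_le hκ hκc) hc1 ha hb hd hs
  linarith

end Pool.Agent.C9
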