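import Pool.Agent.Lib.MP_488b8a_co_X.E9c

/-! # Project C9, module E9a: real inequality for the facet `T T T` of type `4^3 5^6` -/

set_option autoImplicit false

namespace Pool.Agent.C9

open Real Pool.Agent.C32

private theorem ea_rhs : 3 * Hf (π / 3) = 6 * ph kp (π / 3) + 27 / 16 * bt * sn ^ 4 := by
  unfold Hf
  rw [sin_pi_div_three]
  have h3 : √3 ^ 2 = (3 : ℝ) := sq_sqrt (by norm_num)
  have h4 : (√3 / 2) ^ 4 = (9 / 16 : ℝ) := by
    have : (√3 / 2) ^ 4 = (√3 ^ 2) ^ 2 / 16 := by ring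
    rw [this, h3]
    norm_num
  rw [h4]
  ring

private theorem ea_sq {c : ℝ} (hc : kp < c) (hc1 : c < 1) (z : ℝ) :
    bt * ((1 - c ^ 2) * sin z ^ 2) ^ 2 ≤ bt * sn ^ 4 * sin z ^ 4 := by
  have hk := kp_pos
  have h1 := kp_sn
  have h2 : 1 - c ^ 2 ≤ sn ^ 2 := by nlinarith
  have h3 : 0 ≤ 1 - c ^ 2 := by nlinarith
  have h4 : (1 - c ^ 2) ^ 2 ≤ (sn ^ 2) ^ 2 := by gcongr
  have h5 : 0 ≤ sin z ^ 4 := by positivity
  have h6 : (1 - c ^ 2) ^ 2 * sin z ^ 4 ≤ (sn ^ 2) ^ 2 * sin z ^ 4 :=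
    mul_le_mul_of_nonneg_right h4 h5
  calc bt * ((1 - c ^ 2) * sin z ^ 2) ^ 2 = bt * ((1 - c ^ 2) ^ 2 * sin z ^ 4) := by ring
    _ ≤ bt * ((sn ^ 2) ^ 2 * sin z ^ 4) := mul_le_mul_of_nonneg_left h6 bt_pos.le
    _ = bt * sn ^ 4 * sin z ^ 4 := by ring

private theorem ea_obt {c a b d : ℝ} (hc : kp < c) (hc1 : c < 1) (ha : 0 < a) (hb : 0 < b)
    (hd : π / 2 ≤ d) (hs : a + b + d = π) :
    2 * (ph c a + ph c b + ph c d) +
      (bt * ((1 - c ^ 2) * sin a ^ 2) ^ 2 + bt * ((1 - c ^ 2) * sin b ^ 2) ^ 2 +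
        bt * ((1 - c ^ 2) * sin d ^ 2) ^ 2) < 3 * Hf (π / 3) := by
  have hp := pi_pos
  have hab : a + b ≤ π / 2 := by linarith
  have hde : d = π - (a + b) := by linarith
  have h1 : ph c d = -ph c (a + b) := by
    rw [hde]
    exact ph_pi_sub (kp_pos.trans hc) (by linarith) (by linarith)
  have h2 : sin d = sin (a + b) := by rw [hde, sin_pi_sub]
  have h3 := E_obt ha.le hb.le hab
  have h4 := ph_sub_mono (c := kp) (c' := c) (by linarith [kp_lo]) hc.le hc1.le ha.le hb.le hab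
  have s1 := ea_sq hc hc1 a
  have s2 := ea_sq hc hc1 b
  have s3 := ea_sq hc hc1 d
  rw [h2] at s3
  rw [h1, h2]
  linarith

private theorem ea_small {c a b d : ℝ} (hc : kp < c) (hc1 : c < 1) (ha : 0 < a) (ha' : a ≤ 0.58)
    (hb : 0 < b) (hb' : b ≤ π / 2) (hd : 0 < d) (hd' : d ≤ π / 2) (hs : a + b + d = π) :
    2 * (ph c a + ph c b + ph c d) +
      (bt * ((1 - c ^ 2) * sin a ^ 2) ^ 2 + bt * ((1 - c ^ 2) * sin b ^ 2) ^ 2 +
        bt * ((1 - c ^ 2) * sin d ^ 2) ^ 2) < 3 * Hf (π / 3) := by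
  have hp := pi_gt_three
  have h3 := E_small ha.le ha' hb.le hb' hd.le hd' hs
  have s1 := ea_sq hc hc1 a
  have s2 := ea_sq hc hc1 b
  have s3 := ea_sq hc hc1 d
  have m1 := ph_mono_c kp_pos hc.le ha.le (by norm_num at ha'; linarith)
  have m2 := ph_mono_c kp_pos hc.le hb.le hb'
  have m3 := ph_mono_c kp_pos hc.le hd.le hd'
  unfold Hf at h3 ⊢
  linarith

private theorem ea_tan {z : ℝ} (h0 : 0.58 ≤ z) (h1 : z ≤ π / 2) :
    Hf z ≤ Hf (π / 3) + hs60 * (z - π / 3) := by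
  rcases le_total z (π / 4) with h2 | h2
  · exact Hf_lo h0 h2
  rcases le_total z (π / 3) with h3 | h3
  · exact Hf_mid h2 h3
  · exact Hf_hi h3 h1

/-- PROOF. Assembly from `E9b`, `E9c`. `(1 - c^2)^2 ≤ sn^4`. If a half gap is at least `π/2`, say
`a = π - (b + d)`: `ph_pi_sub`, `ph_sub_mono` (`c` down to `kp`), `E_obt`. Otherwise `ph_mono_c`
(down to `kp`): the left side is at most `Hf a + Hf b + Hf d`; if some half gap is at most `0.58`:
`E_small`; else the sum of three tangent lines (`Hf_hi`, `Hf_mid`, `Hf_lo`), strict by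
`ph_mono_c_lt` (equality only for `c = kp`). `3 Hf (π/3)` is the right side. -/
theorem E_real {c a b d : ℝ} (hc : kp < c) (hc1 : c < 1) (ha : 0 < a) (hb : 0 < b) (hd : 0 < d)
    (hs : a + b + d = π) :
    2 * (ph c a + ph c b + ph c d) +
      bt * (((1 - c ^ 2) * sin a ^ 2) ^ 2 + ((1 - c ^ 2) * sin b ^ 2) ^ 2 +
        ((1 - c ^ 2) * sin d ^ 2) ^ 2) < 6 * ph kp (π / 3) + 27 / 16 * bt * sn ^ 4 := by
  rw [← ea_rhs, mul_add bt, mul_add bt]
  rcases le_or_gt (π / 2) a with h | a2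
  · have := ea_obt hc hc1 hb hd h (by linarith)
    linarith
  rcases le_or_gt (π / 2) b with h | b2
  · have := ea_obt hc hc1 hd ha h (by linarith)
    linarith
  rcases le_or_gt (π / 2) d with h | d2
  · have := ea_obt hc hc1 ha hb h hs
    linarith
  rcases le_total a 0.58 with h | a1
  · have := ea_small hc hc1 ha h hb b2.le hd d2.le hs
    linarith
  rcases le_total b 0.58 with h | b1
  · have := ea_small hc hc1 hb h hd d2.le ha a2.le (by linarith)
    linarith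
  rcases le_total d 0.58 with h | d1
  · have := ea_small hc hc1 hd h ha a2.le hb b2.le (by linarith)
    linarith
  have t1 := ea_tan a1 a2.le
  have t2 := ea_tan b1 b2.le
  have t3 := ea_tan d1 d2.le
  have s1 := ea_sq hc hc1 a
  have s2 := ea_sq hc hc1 b
  have s3 := ea_sq hc hc1 d
  have m1 := ph_mono_c_lt kp_pos hc ha a2
  have m2 := ph_mono_c kp_pos hc.le hb.le b2.le
  have m3 := ph_mono_c kp_pos hc.le hd.le d2.le
  have e : hs60 * (a - π / 3) + hs60 * (b - π / 3) + hs60 * (d - π / 3) = 0 := by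
    have : a + b + d - π = 0 := by linarith
    linear_combination hs60 * this
  have u1 : Hf a = 2 * ph kp a + bt * sn ^ 4 * sin a ^ 4 := rfl
  have u2 : Hf b = 2 * ph kp b + bt * sn ^ 4 * sin b ^ 4 := rfl
  have u3 : Hf d = 2 * ph kp d + bt * sn ^ 4 * sin d ^ 4 := rfl
  linarith

end Pool.Agent.C9
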