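import Pool.Agent.Lib.MP_488b8a_co_X.E9b

/-! # Project C9, module E9c: facet `T T T`, small angle and obtuse case (helper96) -/

set_option autoImplicit false

namespace Pool.Agent.C9

open Real Pool.Agent.C32

private theorem e9c_den (z : ℝ) : cos z ^ 2 + kp ^ 2 * sin z ^ 2 ≤ 1 ∧
    kp ^ 2 ≤ cos z ^ 2 + kp ^ 2 * sin z ^ 2 := by
  have h1 := sin_sq_add_cos_sq z
  have h2 : kp ^ 2 ≤ 1 := by nlinarith [kp_pos, kp_lt_one]
  constructor
  · nlinarith [sq_nonneg (sin z), sq_nonneg (cos z)]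
  · nlinarith [sq_nonneg (sin z), sq_nonneg (cos z)]

private theorem e9c_dph (z : ℝ) : kp ≤ dph kp z ∧ dph kp z ≤ 1 / kp := by
  have hk := kp_pos
  obtain ⟨h1, h2⟩ := e9c_den z
  have h3 : 0 < cos z ^ 2 + kp ^ 2 * sin z ^ 2 := lt_of_lt_of_le (by positivity) h2
  unfold dph
  constructor
  · rw [le_div_iff₀ h3]
    nlinarith
  · rw [div_le_div_iff₀ h3 hk]
    nlinarith

/-- `ph kp z ≤ π/2 - kp z` -/
private theorem e9c_lo {z : ℝ} (h0 : 0 ≤ z) (h1 : z ≤ π / 2) : ph kp z ≤ π / 2 - kp * z := by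
  have hp := pi_pos
  have hk := kp_pos
  have hm : AntitoneOn (fun z => ph kp z + kp * z) (Set.Icc 0 (π / 2)) := by
    refine antitoneOn_of_deriv_nonpos (convex_Icc 0 (π / 2)) ?_ ?_ ?_
    · exact ((ph_cont1 hk).mono (Set.Icc_subset_Icc le_rfl (by linarith))).add (by fun_prop)
    · rw [interior_Icc]
      intro s hs
      exact ((ph_deriv hk hs.1 (by linarith [hs.2])).add
        ((hasDerivAt_id s).const_mul kp)).differentiableAt.differentiableWithinAt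
    · rw [interior_Icc]
      intro s hs
      have hd := (ph_deriv hk hs.1 (by linarith [hs.2])).add ((hasDerivAt_id s).const_mul kp)
      have he : deriv (fun z => ph kp z + kp * z) s = -dph kp s + kp * 1 := hd.deriv
      rw [he]
      linarith [(e9c_dph s).1]
  have h2 := hm (⟨le_rfl, by linarith⟩ : (0 : ℝ) ∈ Set.Icc 0 (π / 2))
    (⟨h0, h1⟩ : z ∈ Set.Icc 0 (π / 2)) h0
  simp only [ph_zero, mul_zero, add_zero] at h2
  linarith

/-- `ph kp z + z / kp` is increasing -/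
private theorem e9c_hi {x y : ℝ} (h0 : 0 ≤ x) (hxy : x ≤ y) (h1 : y ≤ π / 2) :
    ph kp x + 1 / kp * x ≤ ph kp y + 1 / kp * y := by
  have hp := pi_pos
  have hk := kp_pos
  have hm : MonotoneOn (fun z => ph kp z + 1 / kp * z) (Set.Icc 0 (π / 2)) := by
    refine monotoneOn_of_deriv_nonneg (convex_Icc 0 (π / 2)) ?_ ?_ ?_
    · exact ((ph_cont1 hk).mono (Set.Icc_subset_Icc le_rfl (by linarith))).add (by fun_prop)
    · rw [interior_Icc]
      intro s hs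
      exact ((ph_deriv hk hs.1 (by linarith [hs.2])).add
        ((hasDerivAt_id s).const_mul (1 / kp))).differentiableAt.differentiableWithinAt
    · rw [interior_Icc]
      intro s hs
      have hd := (ph_deriv hk hs.1 (by linarith [hs.2])).add
        ((hasDerivAt_id s).const_mul (1 / kp))
      have he : deriv (fun z => ph kp z + 1 / kp * z) s = -dph kp s + 1 / kp * 1 := hd.deriv
      rw [he]
      linarith [(e9c_dph s).2]
  exact hm (⟨h0, by linarith⟩ : x ∈ Set.Icc 0 (π / 2)) (⟨by linarith, h1⟩ : y ∈ Set.Icc 0 (π / 2))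
    hxy

private theorem e9c_ikp : 1 / kp ≤ 1.43642 := by
  rw [div_le_iff₀ kp_pos]
  linarith [kp_lo]

private theorem e9c_B : bt * sn ^ 4 ≤ 1.076 ∧ 1.0757 ≤ bt * sn ^ 4 := by
  have h1 := bt_lo
  have h2 := bt_hi
  have h3 := sn_lo
  have h4 := sn_hi
  have h5 := sn_pos
  have h6 : sn ^ 4 ≤ 0.717871 ^ 4 := pow_le_pow_left₀ h5.le h4.le 4
  have h7 : (0.717869 : ℝ) ^ 4 ≤ sn ^ 4 := pow_le_pow_left₀ (by norm_num) h3.le 4
  constructor
  · calc bt * sn ^ 4 ≤ 4.0514 * 0.717871 ^ 4 :=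
        mul_le_mul h2.le h6 (by positivity) (by norm_num)
      _ ≤ 1.076 := by norm_num
  · calc (1.0757 : ℝ) ≤ 4.0512 * 0.717869 ^ 4 := by norm_num
      _ ≤ bt * sn ^ 4 := mul_le_mul h1.le h7 (by norm_num) (by linarith)

private theorem e9c_rhs : 5.969 < 3 * Hf (π / 3) := by
  have h1 := ph_third_lo
  have h2 := e9c_B.2
  have h3 : sin (π / 3) ^ 4 = 9 / 16 := by
    rw [sin_pi_div_three]
    have h4 : (√3 / 2) ^ 4 = (√3 ^ 2) ^ 2 / 16 := by ring
    rw [h4, Real.sq_sqrt (by norm_num)]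
    norm_num
  unfold Hf
  rw [h3]
  linarith

/-- `sin^4 b + sin^4 d ≤ (1 + cos a)^2 / 2` -/
private theorem e9c_sin {a b d : ℝ} (hc : 0.8 ≤ cos a) (hs : a + b + d = π) :
    sin b ^ 4 + sin d ^ 4 ≤ (1 + cos a) ^ 2 / 2 := by
  have h1 : cos (b + d) = -cos a := by
    rw [show b + d = π - a by linarith, cos_pi_sub]
  have e1 := cos_add b d
  have e2 := cos_sub b d
  have s1 := sin_sq_add_cos_sq b
  have s2 := sin_sq_add_cos_sq d
  obtain ⟨e, he⟩ : ∃ e, e = cos (b - d) := ⟨_, rfl⟩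
  obtain ⟨c, hce⟩ : ∃ c, c = cos a := ⟨_, rfl⟩
  have he1 : e ≤ 1 := by rw [he]; exact cos_le_one _
  have he2 : -1 ≤ e := by rw [he]; exact neg_one_le_cos _
  rw [← hce] at hc h1 ⊢
  rw [← he] at e2
  rw [h1] at e1
  have hc1 : c ≤ 1 := by rw [hce]; exact cos_le_one _
  have p1 : sin b * sin d = (e + c) / 2 := by linarith
  have p2 : cos b * cos d = (e - c) / 2 := by linarith
  have p3 : sin b ^ 2 + sin d ^ 2 = 1 + e * c := by
    have q1 : (cos b * cos d) ^ 2 = (1 - sin b ^ 2) * (1 - sin d ^ 2) := by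
      rw [mul_pow]
      have : cos b ^ 2 = 1 - sin b ^ 2 := by linarith
      have h' : cos d ^ 2 = 1 - sin d ^ 2 := by linarith
      rw [this, h']
    have q2 : (sin b * sin d) ^ 2 = sin b ^ 2 * sin d ^ 2 := by ring
    rw [p2] at q1
    rw [p1] at q2
    nlinarith
  have p4 : sin b ^ 4 + sin d ^ 4 = (1 + e * c) ^ 2 - (e + c) ^ 2 / 2 := by
    have : sin b ^ 4 + sin d ^ 4 = (sin b ^ 2 + sin d ^ 2) ^ 2 - 2 * (sin b * sin d) ^ 2 := by ring
    rw [this, p3, p1]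
    ring
  rw [p4]
  have h2 : 0 ≤ (1 - e) * (c + (1 + e) * (c ^ 2 - 1 / 2)) := by
    refine mul_nonneg (by linarith) ?_
    have : 0 ≤ (1 + e) * (c ^ 2 - 1 / 2) := mul_nonneg (by linarith) (by nlinarith)
    linarith
  nlinarith

/-- PROOF. Margin `0.06`; `3 Hf (π/3) = 6 ph kp (π/3) + 27/16 bt sn^4 > 5.9695`.
`bt sn^4 < 1.0760`. `b + d = π - a`, `|b - d| ≤ a` (both at most `π/2`).
(1) `sin^4 b + sin^4 d ≤ 2 cos^4 (a/2)`: with `e = cos (b - d) ∈ [cos a, 1]`,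
`sin^2 b + sin^2 d = 1 + e cos a`, `sin b sin d = (e + cos a)/2`, so the sum is
`(1 + e cos a)^2 - (e + cos a)^2/2`, increasing in `e` (`2 cos^2 a ≥ 1`), value at `e = 1`:
`(1 + cos a)^2/2 = 2 cos^4 (a/2)`. And `2 cos^4 (a/2) ≤ 2 (1 - 0.45 a^2)` for `a ≤ 0.58`
(`cos y ≤ 1 - y^2/2 + y^4/24`).
(2) `ph kp a ≤ π/2 - kp a` (tangent at `0`: the derivative of `π/2 - kp z - ph kp z` is
`dph kp z - kp ≥ 0`), `sin^4 a ≤ a^4 ≤ 0.3364 a^2`.
(3) `ph kp b + ph kp d ≤ 2 ph kp ((π - a)/2)` (`ph_mid`) and the tangent line at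
`z₀ = arctan (15/4) = 1.310194` (cotangent `q = 4/15`: `ph kp z₀ = arctan (q/kp) = 0.365805`,
`dph kp z₀ = kp (1+q^2)/(q^2+kp^2) = 1.341702`):
`ph kp ((π - a)/2) ≤ 0.36581 - 1.3417 ((π - a)/2 - 1.3102)`.
Total at most `π - 1.39235 a + 0.362 a^2 + 2.152 (1 - 0.45 a^2) + 4 (0.01644 + 0.67086 a)
≤ 5.3595 + 1.2912 a - 0.606 a^2 ≤ 5.905` for `a ≤ 0.58`. -/
theorem E_small {a b d : ℝ} (ha : 0 ≤ a) (ha' : a ≤ 0.58) (hb : 0 ≤ b) (hb' : b ≤ π / 2)
    (hd : 0 ≤ d) (hd' : d ≤ π / 2) (hs : a + b + d = π) :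
    Hf a + Hf b + Hf d < 3 * Hf (π / 3) := by
  have hp := pi_lt_d6
  have hp0 := pi_pos
  have hk := kp_lo
  have hk2 := kp_hi
  have hkp := kp_pos
  have h1 := e9c_rhs
  obtain ⟨hB, hB0⟩ := e9c_B
  have h2 := e9c_ikp
  have hpi3 := pi_gt_three
  have ha2 : a ≤ π / 2 := by linarith
  -- the part with `ph`
  have p1 := e9c_lo ha ha2
  have p2 := ph_mid (c := kp) (x := b) (y := d) hkp kp_lt_one.le hb hb' hd hd'
  have p3 : ph kp ((b + d) / 2) ≤ 1 / kp * (a / 2) := by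
    have h3 := e9c_hi (x := (b + d) / 2) (y := π / 2) (by linarith) (by linarith) le_rfl
    rw [ph_half hkp] at h3
    have h4 : 1 / kp * (π / 2) - 1 / kp * ((b + d) / 2) = 1 / kp * (a / 2) := by
      rw [← mul_sub]
      congr 1
      linarith
    linarith
  have p4 : 1 / kp * (a / 2) ≤ 1.43642 * (a / 2) :=
    mul_le_mul_of_nonneg_right h2 (by linarith)
  have p5 : 0.696177 * a ≤ kp * a := mul_le_mul_of_nonneg_right hk.le ha
  -- the part with `sin`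
  have c1 : 1 - a ^ 2 / 2 ≤ cos a := one_sub_sq_div_two_le_cos
  have ha3 : a ^ 2 ≤ 0.3364 := by nlinarith
  have ha4 : 0 ≤ a ^ 2 := sq_nonneg a
  have c2 : cos a ≤ 1 - a ^ 2 / 2 + a ^ 4 * (5 / 96) := by
    have h3 := cos_bound (x := a) (by rw [abs_of_nonneg ha]; linarith)
    rw [abs_of_nonneg ha] at h3
    have h4 := (abs_le.1 h3).2
    linarith
  have c3 := e9c_sin (a := a) (b := b) (d := d) (by linarith) hs
  have c4 : (1 + cos a) ^ 2 / 2 ≤ 2 * (1 - 0.45 * a ^ 2) := by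
    have h5 : 0 ≤ 1 + cos a := by linarith
    have h6 : 1 + cos a ≤ 2 - a ^ 2 / 2 + a ^ 4 * (5 / 96) := by linarith
    have h7 : (1 + cos a) ^ 2 ≤ (2 - a ^ 2 / 2 + a ^ 4 * (5 / 96)) ^ 2 :=
      pow_le_pow_left₀ h5 h6 2
    obtain ⟨q, hq⟩ : ∃ q, q = a ^ 2 := ⟨_, rfl⟩
    have e4 : a ^ 4 = q ^ 2 := by rw [hq]; ring
    rw [e4, ← hq] at h7
    rw [← hq] at ha3 ha4 ⊢
    have h8 : (2 - q / 2 + q ^ 2 * (5 / 96)) ^ 2 ≤ 4 - 1.8 * q := by
      have h9 : (2 - q / 2 + q ^ 2 * (5 / 96)) ≤ 2 - q * 0.48 := by nlinarith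
      have h10 : 0 ≤ 2 - q / 2 + q ^ 2 * (5 / 96) := by nlinarith
      have h11 := pow_le_pow_left₀ h10 h9 2
      nlinarith
    linarith
  have c5 : sin a ^ 4 ≤ 0.3364 * a ^ 2 := by
    have h5 : 0 ≤ sin a := sin_nonneg_of_nonneg_of_le_pi ha (by linarith)
    have h6 : sin a ≤ a := sin_le ha
    have h7 : sin a ^ 4 ≤ a ^ 4 := pow_le_pow_left₀ h5 h6 4
    have h8 : a ^ 4 = a ^ 2 * a ^ 2 := by ring
    nlinarith
  have c6 : bt * sn ^ 4 * (sin a ^ 4 + (sin b ^ 4 + sin d ^ 4)) ≤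
      1.076 * (2 - 0.5636 * a ^ 2) := by
    refine mul_le_mul hB (by linarith) (by positivity) (by norm_num)
  unfold Hf
  unfold Hf at h1
  nlinarith

private theorem e9c_quarter : ph kp (π / 4) ≤ 0.966 := by
  have hp := pi_pos
  have hk := kp_pos
  have hk1 := kp_lo
  have hk2 := kp_lt_one
  have h1 : ph kp (π / 4) = arctan (1 / kp) := by
    rw [ph_eq hk (by linarith) (by linarith), cos_pi_div_four, sin_pi_div_four]
    congr 1
    have : (√2 : ℝ) ≠ 0 := by positivity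
    field_simp
  obtain ⟨δ, hδ⟩ : ∃ δ, δ = (1 - kp) / (1 + kp) := ⟨_, rfl⟩
  have hδ0 : 0 ≤ δ := by
    rw [hδ]
    exact div_nonneg (by linarith) (by linarith)
  have hδ1 : δ ≤ 0.1792 := by
    rw [hδ, div_le_iff₀ (by linarith)]
    linarith
  have h2 : arctan 1 + arctan δ = arctan (1 / kp) := by
    have hδ2 : δ * (1 + kp) = 1 - kp := by
      rw [hδ, div_mul_cancel₀ _ (by linarith)]
    rw [arctan_add (by linarith)]
    congr 1
    rw [div_eq_div_iff (by linarith) hk.ne']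
    linarith
  have h3 : arctan δ ≤ δ := by
    have h4 : 0 ≤ arctan δ := by
      rw [← arctan_zero]
      exact arctan_mono hδ0
    have h5 := le_tan h4 (arctan_lt_pi_div_two δ)
    rwa [tan_arctan] at h5
  have h6 := pi_lt_d6
  rw [h1, ← h2, arctan_one]
  linarith

private theorem e9c_obt {a b : ℝ} (ha : 0 ≤ a) (hb : 0 ≤ b) (hle : a ≤ b) (hab : a + b ≤ π / 2) :
    2 * (ph kp a + ph kp b - ph kp (a + b)) +
      bt * sn ^ 4 * (sin a ^ 4 + sin b ^ 4 + sin (a + b) ^ 4) < 3 * Hf (π / 3) := by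
  have hp := pi_lt_d6
  have hp0 := pi_gt_three
  have hk := kp_lo
  have hkp := kp_pos
  have h1 := e9c_rhs
  obtain ⟨hB, hB0⟩ := e9c_B
  have h2 := e9c_ikp
  have s0 := sin_sq_add_cos_sq a
  have hsa : 0 ≤ sin a := sin_nonneg_of_nonneg_of_le_pi ha (by linarith)
  have hsb : 0 ≤ sin b := sin_nonneg_of_nonneg_of_le_pi hb (by linarith)
  have hsb2 : sin b ≤ cos a := by
    rw [← sin_pi_div_two_sub]
    exact sin_le_sin_of_le_of_le_pi_div_two (by linarith) (by linarith) (by linarith)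
  have hsb4 : sin b ^ 4 ≤ cos a ^ 4 := pow_le_pow_left₀ hsb hsb2 4
  have hsab : sin (a + b) ^ 4 ≤ 1 := by
    have h3 : 0 ≤ sin (a + b) := sin_nonneg_of_nonneg_of_le_pi (by linarith) (by linarith)
    exact pow_le_one₀ h3 (sin_le_one _)
  have hsum : sin a ^ 4 + cos a ^ 4 = 1 - 2 * (sin a * cos a) ^ 2 := by
    have : sin a ^ 4 + cos a ^ 4 = (sin a ^ 2 + cos a ^ 2) ^ 2 - 2 * (sin a * cos a) ^ 2 := by ring
    rw [this, s0]
    ring
  rcases le_total (π / 12) a with h | h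
  · have h3 : 1 / 2 ≤ sin (2 * a) := by
      rw [← sin_pi_div_six]
      exact sin_le_sin_of_le_of_le_pi_div_two (by linarith) (by linarith) (by linarith)
    rw [sin_two_mul] at h3
    have h4 : 1 / 16 ≤ (sin a * cos a) ^ 2 := by nlinarith
    have h5 := ph_mid (c := kp) (x := a) (y := b) hkp kp_lt_one.le ha (by linarith) hb
      (by linarith)
    have h6 : 2 * ph kp ((a + b) / 2) - ph kp (a + b) ≤
        2 * ph kp (π / 2 / 2) - ph kp (π / 2) :=
      two_half_mono hkp kp_lt_one (⟨by linarith, by linarith⟩ : a + b ∈ Set.Icc 0 (π / 2))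
        (⟨by linarith, le_rfl⟩ : π / 2 ∈ Set.Icc 0 (π / 2)) (by linarith)
    rw [ph_half hkp, show π / 2 / 2 = π / 4 by ring] at h6
    have h7 := e9c_quarter
    have h8 : bt * sn ^ 4 * (sin a ^ 4 + sin b ^ 4 + sin (a + b) ^ 4) ≤ 1.076 * 1.875 :=
      mul_le_mul hB (by linarith) (by positivity) (by norm_num)
    linarith
  · have h3 := e9c_lo ha (by linarith)
    have h4 := e9c_hi (x := b) (y := a + b) hb (by linarith) hab
    have h5 : 1 / kp * (a + b) - 1 / kp * b = 1 / kp * a := by ring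
    have h6 : 1 / kp * a ≤ 1.43642 * a := mul_le_mul_of_nonneg_right h2 ha
    have h7 : 0.696177 * a ≤ kp * a := mul_le_mul_of_nonneg_right hk.le ha
    have h8 : bt * sn ^ 4 * (sin a ^ 4 + sin b ^ 4 + sin (a + b) ^ 4) ≤ 1.076 * 2 :=
      mul_le_mul hB (by linarith [sq_nonneg (sin a * cos a)]) (by positivity) (by norm_num)
    linarith

/-- PROOF. Margin `0.1`. Without loss of generality `a ≤ b`, so `a ≤ π/4`. `sin b ≤ cos a`, so
`sin^4 a + sin^4 b ≤ sin^4 a + cos^4 a = 1 - 2 sin^2 a cos^2 a = 1 - sin^2 (2a)/2`.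
(1) `a ≥ π/12`: `sin 2a ≥ 1/2`, so the sum of the three fourth powers is at most `1.875`; and
`ph kp a + ph kp b - ph kp (a + b) ≤ 2 ph kp (π/4) < 1.9254` (`ph_mid`, `two_half_mono`, `ph_half`,
as in `ph_sum_le`; `ph kp (π/4) = arctan (1/kp)`): total `≤ 3.8508 + 1.0760 * 1.875 < 5.869`.
(2) `a ≤ π/12`: `ph kp a ≤ π/2 - kp a` and `ph kp b - ph kp (a + b) ≤ a dph kp (π/2) = a/kp`
(mean value, `dph_mono`), so the first part is at most `π + 2 a (1/kp - kp) ≤ π + 0.3876`, the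
second `≤ 2 * 1.0760`: total `≤ 5.682`. -/
theorem E_obt {a b : ℝ} (ha : 0 ≤ a) (hb : 0 ≤ b) (hab : a + b ≤ π / 2) :
    2 * (ph kp a + ph kp b - ph kp (a + b)) +
      bt * sn ^ 4 * (sin a ^ 4 + sin b ^ 4 + sin (a + b) ^ 4) < 3 * Hf (π / 3) := by
  rcases le_total a b with h | h
  · exact e9c_obt ha hb h hab
  · have h1 := e9c_obt hb ha h (by linarith)
    rw [add_comm b a] at h1
    linarith

end Pool.Agent.C9
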