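import Pool.Agent.Lib.MP_488b8a_co_W.Sec

/-! # Project C9, module Edge: every edge lies in exactly two facets (any number of points) -/

set_option autoImplicit false

namespace Pool.Agent.C9

open Real Pool.Agent.C32

variable {n : ℕ}

/-- two facets on the same side of an edge coincide.

PROOF. `sector_nonov` with the direction `u = p j + ε p k` for small `ε > 0`: it lies in the open
sector at `p i` of both facets (`dt (p i) (p j) u = ε dt (p i) (p j) (p k)` and
`dt (p i) u (p k') = dt (p i) (p j) (p k') + ε dt (p i) (p k) (p k')`); `facet_ne`. -/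
theorem same_side {p : Fin n → E3} {i j k l : Fin n} (h : Facet p (i, j, k))
    (h' : Facet p (i, j, l)) (hs : 0 < dt (p i) (p j) (p k) * dt (p i) (p j) (p l)) : k = l := by
  have hd : dt (p i) (p j) (p k) ≠ 0 := h.1
  have hd' : dt (p i) (p j) (p l) ≠ 0 := h'.1
  obtain ⟨D, hD⟩ : ∃ D, D = dt (p i) (p j) (p k) := ⟨_, rfl⟩
  obtain ⟨D', hD'⟩ : ∃ D', D' = dt (p i) (p j) (p l) := ⟨_, rfl⟩
  obtain ⟨E, hE⟩ : ∃ E, E = dt (p i) (p k) (p l) := ⟨_, rfl⟩
  rw [← hD] at hd hs
  rw [← hD'] at hd' hs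
  have hsq : 0 < D ^ 2 := by positivity
  have hsq' : 0 < D' ^ 2 := by positivity
  have hab : 0 < 2 * (1 + |D' * E|) := by positivity
  obtain ⟨ε, hε⟩ : ∃ ε, ε = D' ^ 2 / (2 * (1 + |D' * E|)) := ⟨_, rfl⟩
  have hε0 : 0 < ε := by
    rw [hε]
    positivity
  have hε1 : ε * (2 * (1 + |D' * E|)) = D' ^ 2 := by
    rw [hε]
    field_simp
  have hε2 : 0 < D' ^ 2 + ε * (D' * E) := by
    have h1 : -|D' * E| ≤ D' * E := neg_abs_le _
    nlinarith [mul_le_mul_of_nonneg_left h1 hε0.le]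
  have u1 : InO (p i) (p j) (p k) ((1 : ℝ) • p j + ε • p k) := by
    refine ⟨?_, ?_⟩
    · rw [dt_lin2, dt_self23, ← hD]
      nlinarith
    · rw [dt_lin3, dt_self23, ← hD]
      nlinarith [mul_pos hε0 hsq]
  have u2 : InO (p i) (p j) (p l) ((1 : ℝ) • p j + ε • p k) := by
    refine ⟨?_, ?_⟩
    · rw [dt_lin2, ← hD', ← hE]
      nlinarith
    · rw [dt_lin3, dt_self23, ← hD, ← hD']
      nlinarith [mul_pos hε0 hs]
  rcases sector_nonov h h' u1 u2 with h1 | h1
  · exact h1.2
  · exact absurd h1.2.symm (facet_ne h).2.1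

private theorem edge_closed (p q w : E3) : IsClosed {x : E3 | InC p q w x} := by
  have c1 : Continuous fun x : E3 => dt p q w * dt x q w := by
    unfold dt
    fun_prop
  have c2 : Continuous fun x : E3 => dt p q w * dt p x w := by
    unfold dt
    fun_prop
  have c3 : Continuous fun x : E3 => dt p q w * dt p q x := by
    unfold dt
    fun_prop
  exact (isClosed_le continuous_const c1).inter
    ((isClosed_le continuous_const c2).inter (isClosed_le continuous_const c3))

private theorem edge_le {p : Fin n → E3} {a b c : Fin n} {N : E3} (h1 : inner ℝ N (p a) = 1)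
    (h2 : inner ℝ N (p b) = 1) (h3 : inner ℝ N (p c) = 1)
    (h4 : ∀ l, l ≠ a → l ≠ b → l ≠ c → inner ℝ N (p l) < 1) (l : Fin n) :
    inner ℝ N (p l) ≤ 1 := by
  by_cases q1 : l = a
  · rw [q1, h1]
  by_cases q2 : l = b
  · rw [q2, h2]
  by_cases q3 : l = c
  · rw [q3, h3]
  exact (h4 l q1 q2 q3).le

private theorem edge_mem {p : Fin n → E3} {i j k a b c : Fin n} (h : Facet p (i, j, k))
    (hF : Facet p (a, b, c)) (h2 : InC (p a) (p b) (p c) (p i + p j)) :
    (i = a ∨ i = b ∨ i = c) ∧ (j = a ∨ j = b ∨ j = c) := by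
  obtain ⟨hd, N, n1, n2, n3, n4⟩ := h
  obtain ⟨hd', N', m1, m2, m3, m4⟩ := hF
  have e1 : inner ℝ N (p i) = 1 := n1
  have e2 : inner ℝ N (p j) = 1 := n2
  have f1 : inner ℝ N' (p a) = 1 := m1
  have f2 : inner ℝ N' (p b) = 1 := m2
  have f3 : inner ℝ N' (p c) = 1 := m3
  have hle := edge_le n1 n2 n3 n4
  have hle' := edge_le m1 m2 m3 m4
  obtain ⟨α, β, γ, ha, hb, hc, hu⟩ := inC_coeff hd' h2
  have g1 : inner ℝ N (p i + p j) = α * inner ℝ N (p a) + β * inner ℝ N (p b) +
      γ * inner ℝ N (p c) := by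
    rw [hu, inner_add_right, inner_add_right, real_inner_smul_right, real_inner_smul_right,
      real_inner_smul_right]
  have g2 : inner ℝ N' (p i + p j) = α * inner ℝ N' (p a) + β * inner ℝ N' (p b) +
      γ * inner ℝ N' (p c) := by
    rw [hu, inner_add_right, inner_add_right, real_inner_smul_right, real_inner_smul_right,
      real_inner_smul_right]
  rw [inner_add_right, e1, e2] at g1
  rw [inner_add_right, f1, f2, f3] at g2
  have k1 := mul_le_mul_of_nonneg_left (hle a) ha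
  have k2 := mul_le_mul_of_nonneg_left (hle b) hb
  have k3 := mul_le_mul_of_nonneg_left (hle c) hc
  have l1 := hle' i
  have l2 := hle' j
  have r1 : inner ℝ N' (p i) = 1 := by linarith
  have r2 : inner ℝ N' (p j) = 1 := by linarith
  constructor
  · by_contra hcon
    rw [not_or, not_or] at hcon
    exact absurd r1 (m4 i hcon.1 hcon.2.1 hcon.2.2).ne
  · by_contra hcon
    rw [not_or, not_or] at hcon
    exact absurd r2 (m4 j hcon.1 hcon.2.1 hcon.2.2).ne

private theorem edge_perm {p : Fin n → E3} {i j a b c : Fin n} {x : E3} (hij : i ≠ j)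
    (hF : Facet p (a, b, c)) (hI : InC (p a) (p b) (p c) x) (h1 : i = a ∨ i = b ∨ i = c)
    (h2 : j = a ∨ j = b ∨ j = c) :
    ∃ k', Facet p (i, j, k') ∧ InC (p i) (p j) (p k') x := by
  rcases h1 with h1 | h1 | h1 <;> rcases h2 with h2 | h2 | h2
  · exact absurd (h1.trans h2.symm) hij
  · rw [h1, h2]
    exact ⟨c, hF, hI⟩
  · rw [h1, h2]
    exact ⟨b, facet_perm1 (facet_perm2 (facet_perm2 hF)), inC_swap (inC_rot (inC_rot hI))⟩
  · rw [h1, h2]
    exact ⟨c, facet_perm1 hF, inC_swap hI⟩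
  · exact absurd (h1.trans h2.symm) hij
  · rw [h1, h2]
    exact ⟨a, facet_perm2 hF, inC_rot hI⟩
  · rw [h1, h2]
    exact ⟨b, facet_perm2 (facet_perm2 hF), inC_rot (inC_rot hI)⟩
  · rw [h1, h2]
    exact ⟨a, facet_perm1 (facet_perm2 hF), inC_swap (inC_rot hI)⟩
  · exact absurd (h1.trans h2.symm) hij

/-- PROOF. Let `D = dt (p i) (p j) (p k)`, `e = vx (p i) (p j)` (normal to the edge, `inner_vx`)
and `x m = p i + p j - (D / (m + 1)) • e`, so that `D * dt (p i) (p j) (x m) < 0`. By `cone_cover`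
and finiteness one facet `t` contains `x m` in its closed cone for infinitely many `m` (as in
`sec_cover` of `MP_488b8a_co_W/Sec.lean`), hence also the limit `p i + p j`. With the normals `N`
of `h` and `N'` of `t` and `p i + p j = α p a + β p b + γ p c` (`inC_coeff`, `t = (a, b, c)`):
`2 = inner N (p i + p j) = α inner N (p a) + ... ≤ α + β + γ = inner N' (p i + p j) ≤ 2`, so
`inner N' (p i) = 1 = inner N' (p j)` and `i`, `j` are vertices of `t` (strict inequality in
`Facet`). After a permutation `t = (i, j, k')`. As `x m` lies in the cone of `t`,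
`0 ≤ dt (p i) (p j) (p k') * dt (p i) (p j) (x m)`, and `dt (p i) (p j) (x m) ≠ 0` has the sign
opposite to `D`. The uniqueness is `same_side`. -/
theorem edge_two {p : Fin n → E3} {κ : ℝ} (hκ : 0 < κ) (hG : Gen p) (hC : Covers p κ)
    {i j k : Fin n} (h : Facet p (i, j, k)) :
    ∃ k', Facet p (i, j, k') ∧ dt (p i) (p j) (p k) * dt (p i) (p j) (p k') < 0 ∧
      ∀ l, Facet p (i, j, l) → l = k ∨ l = k' := by
  have hd : dt (p i) (p j) (p k) ≠ 0 := h.1
  have hij : i ≠ j := (facet_ne h).1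
  obtain ⟨D, hD⟩ : ∃ D, D = dt (p i) (p j) (p k) := ⟨_, rfl⟩
  rw [← hD] at hd
  obtain ⟨e, he⟩ : ∃ e : E3, e = vx (p i) (p j) := ⟨_, rfl⟩
  have he0 : e ≠ 0 := by
    intro h0
    apply hd
    rw [hD, dt_rot, ← inner_vx, ← he, h0, inner_zero_right]
  have hee : dt (p i) (p j) e = ‖e‖ ^ 2 := by
    rw [he, ← real_inner_self_eq_norm_sq, inner_vx, dt_rot]
  have hen : 0 < ‖e‖ ^ 2 := by
    have := norm_pos_iff.2 he0
    positivity
  obtain ⟨x, hx⟩ : ∃ x : ℕ → E3, x = fun m : ℕ =>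
      (1 : ℝ) • (p i + p j) + (-(D / ((m : ℝ) + 1))) • e := ⟨_, rfl⟩
  have hxt : Filter.Tendsto x Filter.atTop (nhds (p i + p j)) := by
    have h0 : Filter.Tendsto (fun m : ℕ => -(D / ((m : ℝ) + 1))) Filter.atTop (nhds 0) := by
      have h2 := (tendsto_one_div_add_atTop_nhds_zero_nat (𝕜 := ℝ)).const_mul (-D)
      rw [mul_zero] at h2
      refine h2.congr fun m => ?_
      ring
    have h1 : Filter.Tendsto (fun m : ℕ => (1 : ℝ) • (p i + p j) + (-(D / ((m : ℝ) + 1))) • e)
        Filter.atTop (nhds ((1 : ℝ) • (p i + p j) + (0 : ℝ) • e)) :=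
      tendsto_const_nhds.add (h0.smul_const e)
    rw [hx]
    simpa only [zero_smul, add_zero, one_smul] using h1
  have hxd : ∀ m : ℕ, dt (p i) (p j) (x m) = -(D / ((m : ℝ) + 1)) * ‖e‖ ^ 2 := by
    intro m
    rw [hx]
    simp only
    have h1 : dt (p i) (p j) (p i + p j) = 0 := by
      have h2 := dt_lin3 1 1 (p i) (p j) (p i) (p j)
      rw [one_smul, one_smul, dt_self13, dt_self23] at h2
      linarith
    rw [dt_lin3, h1, hee]
    ring
  have h1 : ∀ m, ∃ t : Fin n × Fin n × Fin n, Facet p t ∧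
      InC (p t.1) (p t.2.1) (p t.2.2) (x m) := fun m => by
    obtain ⟨i, j, k, h2, h3⟩ := cone_cover hκ hG hC (x m)
    exact ⟨(i, j, k), h2, h3⟩
  choose T hT hTC using h1
  obtain ⟨t, ht⟩ : ∃ t, ∃ᶠ m in Filter.atTop, T m = t := by
    by_contra hcon
    have h2 : ∀ t, ∀ᶠ m in Filter.atTop, T m ≠ t := fun t => by
      by_contra h3
      exact hcon ⟨t, fun h4 => h3 h4⟩
    obtain ⟨m, hm⟩ := (Filter.eventually_all.2 h2).exists
    exact hm (T m) rfl
  have h2 : InC (p t.1) (p t.2.1) (p t.2.2) (p i + p j) := by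
    have h3 : ∃ᶠ m in Filter.atTop, x m ∈ {x : E3 | InC (p t.1) (p t.2.1) (p t.2.2) x} :=
      ht.mono fun m hm => by
        have := hTC m
        rw [hm] at this
        exact this
    exact (edge_closed _ _ _).mem_of_frequently_of_tendsto h3 hxt
  obtain ⟨m, hm⟩ := ht.exists
  have hF := hT m
  have hI := hTC m
  rw [hm] at hF hI
  obtain ⟨a, b, c⟩ := t
  have hmem := edge_mem h hF h2
  obtain ⟨k', hF', hI'⟩ := edge_perm hij hF hI hmem.1 hmem.2
  have hd' : dt (p i) (p j) (p k') ≠ 0 := hF'.1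
  obtain ⟨D', hD'⟩ : ∃ D', D' = dt (p i) (p j) (p k') := ⟨_, rfl⟩
  have hneg : D * D' < 0 := by
    have h3 : 0 ≤ dt (p i) (p j) (p k') * dt (p i) (p j) (x m) := hI'.2.2
    rw [hxd, ← hD'] at h3
    rw [← hD'] at hd'
    have hm0 : (0 : ℝ) < (m : ℝ) + 1 := by positivity
    have h4 : D' * (-(D / ((m : ℝ) + 1)) * ‖e‖ ^ 2) = -(D * D') * (‖e‖ ^ 2 / ((m : ℝ) + 1)) := by
      ring
    rw [h4] at h3
    have h5 : 0 < ‖e‖ ^ 2 / ((m : ℝ) + 1) := by positivity
    have h6 : 0 ≤ -(D * D') := nonneg_of_mul_nonneg_left h3 h5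
    have h7 : D * D' ≠ 0 := mul_ne_zero hd hd'
    rcases lt_or_eq_of_le h6 with h8 | h8
    · linarith
    · exact absurd (by linarith) h7
  refine ⟨k', hF', ?_, fun l hl => ?_⟩
  · rw [← hD, ← hD']
    exact hneg
  · have hdl : dt (p i) (p j) (p l) ≠ 0 := hl.1
    rcases lt_or_gt_of_ne (mul_ne_zero hd hdl) with h3 | h3
    · right
      refine (same_side hF' hl ?_).symm
      rw [← hD']
      have h4 : 0 < (D * D') * (D * dt (p i) (p j) (p l)) := mul_pos_of_neg_of_neg hneg h3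
      have h5 : (D * D') * (D * dt (p i) (p j) (p l)) = (D' * dt (p i) (p j) (p l)) * D ^ 2 := by
        ring
      rw [h5] at h4
      exact pos_of_mul_pos_left h4 (sq_nonneg D)
    · left
      refine (same_side h hl ?_).symm
      rw [← hD]
      exact h3

end Pool.Agent.C9
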