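import Pool.Agent.Lib.MP_488b8a_co_X.FaceL

/-! # Project C9, module FChk: a Bool certificate for the inequality of a facet

All numbers of a certificate are integers in units `10^-5`. -/

set_option autoImplicit false

namespace Pool.Agent.C9

open Real Pool.Agent.C32

/-- certificate: prices, edge coefficients (sides `12`, `23`, `31`), bound `B`; acute case `lam`,
`A1`, `A2`, `A3`; obtuse case with the long side `12` (`L1`, `u1` for the side `23`, `v1` for the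
side `31`, `N1`), with the long side `23` (`L2`, `u2` for `31`, `v2` for `12`, `N2`), with the long
side `31` (`L3`, `u3` for `12`, `v3` for `23`, `N3`) -/
structure FD where
  P1 : ℤ
  P2 : ℤ
  P3 : ℤ
  K1 : ℤ
  K2 : ℤ
  K3 : ℤ
  B : ℤ
  lam : ℤ
  A1 : ℤ
  A2 : ℤ
  A3 : ℤ
  L1 : ℤ
  u1 : ℤ
  v1 : ℤ
  N1 : ℤ
  L2 : ℤ
  u2 : ℤ
  v2 : ℤ
  N2 : ℤ
  L3 : ℤ
  u3 : ℤ
  v3 : ℤ
  N3 : ℤ

/-- acute part of the check -/
def achk (D : FD) : Bool :=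
  decide (0 ≤ D.P1) && decide (0 ≤ D.P2) && decide (0 ≤ D.P3) && decide (0 ≤ D.lam) &&
    chk 0 (D.P1 + D.P2) D.lam D.K1 D.A1 && chk 0 (D.P2 + D.P3) D.lam D.K2 D.A2 &&
    chk 0 (D.P3 + D.P1) D.lam D.K3 D.A3 &&
    decide ((D.A1 + D.A2 + D.A3 - D.B) * 1000000 ≤ D.lam * 3141592) &&
    decide ((D.P1 + D.P2) * 3141593 ≤ D.B * 2000000) &&
    decide ((D.P2 + D.P3) * 3141593 ≤ D.B * 2000000) &&
    decide ((D.P3 + D.P1) * 3141593 ≤ D.B * 2000000)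

/-- obtuse part: long side `12`, `sg` in units `10^-3`, `x₀ = j₀/50` -/
def ochk (j₀ : ℕ) (sg P1 P2 P3 K1 K2 K3 B L u v N : ℤ) : Bool :=
  decide (((P1 + P2) * sg) % 1000 = 0) && chk 0 (P2 + P3) L K2 u && chk 0 (P3 + P1) L K3 v &&
    chk j₀ 0 ((P1 + P2) * sg / 1000 - L) K1 N &&
    decide ((u + v + N - B) * 2000000000 ≤ (P1 + P2) * sg * 3141592) &&
    decide (P3 * (3141593 * 50 - 1000000 * j₀) + P1 * (1000000 * j₀) ≤ B * 50000000) &&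
    decide (P3 * (3141593 * 50 - 1000000 * j₀) + P2 * (1000000 * j₀) ≤ B * 50000000)

/-- the complete check -/
def fchk (j₀ : ℕ) (sg : ℤ) (D : FD) : Bool :=
  achk D && decide (0 ≤ sg) && decide (j₀ ≤ 78) &&
    ochk j₀ sg D.P1 D.P2 D.P3 D.K1 D.K2 D.K3 D.B D.L1 D.u1 D.v1 D.N1 &&
    ochk j₀ sg D.P2 D.P3 D.P1 D.K2 D.K3 D.K1 D.B D.L2 D.u2 D.v2 D.N2 &&
    ochk j₀ sg D.P3 D.P1 D.P2 D.K3 D.K1 D.K2 D.B D.L3 D.u3 D.v3 D.N3

private theorem fchk_sl {P Q lam K A : ℤ} (hP : 0 ≤ P) (hQ : 0 ≤ Q)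
    (h : chk 0 (P + Q) lam K A = true) :
    SL 0 ((P : ℝ) / 100000 + Q / 100000) (lam / 100000) (K / 100000) (A / 100000) := by
  have h1 := SL_of_chk (by omega) h
  push_cast at h1
  rw [zero_div] at h1
  rw [← add_div]
  exact h1

private theorem fchk_pi {P Q B : ℤ} (hP : 0 ≤ P) (hQ : 0 ≤ Q)
    (h : (P + Q) * 3141593 ≤ B * 2000000) :
    ((P : ℝ) / 100000 + Q / 100000) * (π / 2) ≤ (B : ℝ) / 100000 := by
  have h1 : ((P : ℝ) + Q) * 3141593 ≤ B * 2000000 := by exact_mod_cast h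
  have h2 : (0 : ℝ) ≤ (P : ℝ) + Q := by exact_mod_cast (by omega : (0 : ℤ) ≤ P + Q)
  have h3 : ((P : ℝ) + Q) * π ≤ ((P : ℝ) + Q) * 3.141593 :=
    mul_le_mul_of_nonneg_left pi_lt_d6.le h2
  rw [← add_div]
  linarith

private theorem fchk_ac {D : FD} (h : achk D = true) :
    (0 ≤ D.P1 ∧ 0 ≤ D.P2 ∧ 0 ≤ D.P3) ∧
    Ac ((D.P1 : ℝ) / 100000) (D.P2 / 100000) (D.P3 / 100000) (D.K1 / 100000) (D.K2 / 100000)
      (D.K3 / 100000) (D.B / 100000) := by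
  unfold achk at h
  simp only [Bool.and_eq_true, decide_eq_true_eq] at h
  obtain ⟨⟨⟨⟨⟨⟨⟨⟨⟨⟨h1, h2⟩, h3⟩, h4⟩, h5⟩, h6⟩, h7⟩, h8⟩, h9⟩, h10⟩, h11⟩ := h
  refine ⟨⟨h1, h2, h3⟩, D.lam / 100000, D.A1 / 100000, D.A2 / 100000, D.A3 / 100000,
    fchk_sl h1 h2 h5, fchk_sl h2 h3 h6, fchk_sl h3 h1 h7, ?_, fchk_pi h1 h2 h9, fchk_pi h2 h3 h10,
    fchk_pi h3 h1 h11⟩
  have e1 : ((D.A1 : ℝ) + D.A2 + D.A3 - D.B) * 1000000 ≤ D.lam * 3141592 := by exact_mod_cast h8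
  have e2 : (0 : ℝ) ≤ D.lam := by exact_mod_cast h4
  have e3 : (D.lam : ℝ) * 3.141592 ≤ D.lam * π := mul_le_mul_of_nonneg_left pi_gt_d6.le e2
  linarith

private theorem fchk_ob {j₀ : ℕ} {sg P1 P2 P3 K1 K2 K3 B L u v N : ℤ}
    (h : ochk j₀ sg P1 P2 P3 K1 K2 K3 B L u v N = true) (h1 : 0 ≤ P1) (h2 : 0 ≤ P2) (h3 : 0 ≤ P3)
    (h0 : 0 ≤ sg)
    (h31 : ((P3 : ℝ) / 100000 + P1 / 100000) * (π / 2) ≤ (B : ℝ) / 100000)
    (h23 : ((P2 : ℝ) / 100000 + P3 / 100000) * (π / 2) ≤ (B : ℝ) / 100000) :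
    Ob ((j₀ : ℝ) / 50) ((sg : ℝ) / 1000) ((P1 : ℝ) / 100000) (P2 / 100000) (P3 / 100000)
      (K1 / 100000) (K2 / 100000) (K3 / 100000) (B / 100000) := by
  unfold ochk at h
  simp only [Bool.and_eq_true, decide_eq_true_eq] at h
  obtain ⟨⟨⟨⟨⟨⟨g1, g2⟩, g3⟩, g4⟩, g5⟩, g6⟩, g7⟩ := h
  have r1 : (0 : ℝ) ≤ P1 := by exact_mod_cast h1
  have r2 : (0 : ℝ) ≤ P2 := by exact_mod_cast h2
  have r3 : (0 : ℝ) ≤ P3 := by exact_mod_cast h3
  have r0 : (0 : ℝ) ≤ sg := by exact_mod_cast h0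
  refine ⟨L / 100000, u / 100000, v / 100000, N / 100000, fchk_sl h2 h3 g2, fchk_sl h3 h1 g3, ?_,
    ?_, ?_, ?_, h31, h23⟩
  · have e1 := SL_of_chk le_rfl g4
    have e2 : (P1 + P2) * sg / 1000 * 1000 = (P1 + P2) * sg :=
      Int.ediv_mul_cancel (Int.dvd_of_emod_eq_zero g1)
    have e3 : (((P1 + P2) * sg / 1000 : ℤ) : ℝ) * 1000 = ((P1 : ℝ) + P2) * sg := by
      exact_mod_cast e2
    have e4 : (((P1 + P2) * sg / 1000 - L : ℤ) : ℝ) / 100000 =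
        ((P1 : ℝ) / 100000 + P2 / 100000) * (sg / 1000) - L / 100000 := by
      rw [Int.cast_sub]
      linear_combination (1 / 100000000 : ℝ) * e3
    rw [e4, Int.cast_zero, zero_div] at e1
    exact e1
  · have e1 : ((u : ℝ) + v + N - B) * 2000000000 ≤ (P1 + P2) * sg * 3141592 := by
      exact_mod_cast g5
    have e2 : ((P1 : ℝ) + P2) * sg * 3.141592 ≤ (P1 + P2) * sg * π :=
      mul_le_mul_of_nonneg_left pi_gt_d6.le (by positivity)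
    have e3 : ((P1 : ℝ) / 100000 + P2 / 100000) * (sg / 1000) * (π / 2) =
        ((P1 : ℝ) + P2) * sg * π / 200000000 := by ring
    rw [e3]
    linarith
  · have e1 := (Int.cast_le (R := ℝ)).2 g6
    push_cast at e1
    have e2 : (P3 : ℝ) * π ≤ P3 * 3.141593 := mul_le_mul_of_nonneg_left pi_lt_d6.le r3
    have e3 : (P3 : ℝ) / 100000 * (π - j₀ / 50) + P1 / 100000 * (j₀ / 50) =
        (P3 * π) / 100000 - P3 * j₀ / 5000000 + P1 * j₀ / 5000000 := by ring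
    rw [e3]
    linarith
  · have e1 := (Int.cast_le (R := ℝ)).2 g7
    push_cast at e1
    have e2 : (P3 : ℝ) * π ≤ P3 * 3.141593 := mul_le_mul_of_nonneg_left pi_lt_d6.le r3
    have e3 : (P3 : ℝ) / 100000 * (π - j₀ / 50) + P2 / 100000 * (j₀ / 50) =
        (P3 * π) / 100000 - P3 * j₀ / 5000000 + P2 * j₀ / 5000000 := by ring
    rw [e3]
    linarith

/-- PROOF. `face_acute`, or `face_obtuse` for the three positions of the long side (rotate), with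
`SL_of_chk` for the conditions `SL` (`push_cast`, `norm_num` to move the casts), `π > 3.141592`,
`π < 3.141593`. -/
theorem face_chk {j₀ : ℕ} {sg : ℤ} {D : FD} (h : fchk j₀ sg D = true)
    (hsg : ((sg : ℝ) / 1000 - 1) * (π / 2 - j₀ / 50) ≤
      sn ^ 2 * (sin (j₀ / 50) * cos (j₀ / 50) / 2)) {c a b d : ℝ} (hc : kp ≤ c) (hc1 : c < 1)
    (ha : 0 < a) (hb : 0 < b) (hd : 0 < d) (hs : a + b + d = π)
    (oa : π / 2 < a → (j₀ : ℝ) / 50 ≤ b + d) (ob : π / 2 < b → (j₀ : ℝ) / 50 ≤ d + a)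
    (od : π / 2 < d → (j₀ : ℝ) / 50 ≤ a + b) :
    ((D.P1 : ℝ) / 100000 + D.P2 / 100000) * ph c a +
      ((D.P2 : ℝ) / 100000 + D.P3 / 100000) * ph c b +
      ((D.P3 : ℝ) / 100000 + D.P1 / 100000) * ph c d +
      (D.K1 : ℝ) / 100000 * ((1 - c ^ 2) / sn ^ 2 * sin a ^ 2) +
      (D.K2 : ℝ) / 100000 * ((1 - c ^ 2) / sn ^ 2 * sin b ^ 2) +
      (D.K3 : ℝ) / 100000 * ((1 - c ^ 2) / sn ^ 2 * sin d ^ 2) ≤ (D.B : ℝ) / 100000 := by
  unfold fchk at h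
  simp only [Bool.and_eq_true, decide_eq_true_eq] at h
  obtain ⟨⟨⟨⟨⟨hA, hs0⟩, hj⟩, o1⟩, o2⟩, o3⟩ := h
  obtain ⟨⟨h1, h2, h3⟩, hAc⟩ := fchk_ac hA
  have r1 : (0 : ℝ) ≤ (D.P1 : ℝ) / 100000 := by
    have : (0 : ℝ) ≤ D.P1 := by exact_mod_cast h1
    positivity
  have r2 : (0 : ℝ) ≤ (D.P2 : ℝ) / 100000 := by
    have : (0 : ℝ) ≤ D.P2 := by exact_mod_cast h2
    positivity
  have r3 : (0 : ℝ) ≤ (D.P3 : ℝ) / 100000 := by
    have : (0 : ℝ) ≤ D.P3 := by exact_mod_cast h3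
    positivity
  have hx0 : (0 : ℝ) ≤ (j₀ : ℝ) / 50 := by positivity
  have hx1 : (j₀ : ℝ) / 50 < π / 2 := by
    have e : (j₀ : ℝ) ≤ 78 := by exact_mod_cast hj
    have := pi_gt_d6
    linarith
  obtain ⟨lam, A1, A2, A3, -, -, -, -, b12, b23, b31⟩ := id hAc
  have p1 := fchk_ob o1 h1 h2 h3 hs0 b31 b23
  have p2 := fchk_ob o2 h2 h3 h1 hs0 b12 b31
  have p3 := fchk_ob o3 h3 h1 h2 hs0 b23 b12
  by_cases ha' : a ≤ π / 2
  · by_cases hb' : b ≤ π / 2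
    · by_cases hd' : d ≤ π / 2
      · exact face_acute r1 r2 r3 hAc hc hc1 ha hb hd hs ha' hb' hd'
      · push Not at hd'
        have e := face_obtuse r3 r1 r2 hx0 hx1 hsg p3 hc hc1 hd' ha hb (by linarith) (od hd')
        linarith
    · push Not at hb'
      have e := face_obtuse r2 r3 r1 hx0 hx1 hsg p2 hc hc1 hb' hd ha (by linarith) (ob hb')
      linarith
  · push Not at ha'
    exact face_obtuse r1 r2 r3 hx0 hx1 hsg p1 hc hc1 ha' hb hd hs (oa ha')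

/-- `sin^2` of half of the side, divided by `sn^2` -/
noncomputable def yy (x y : E3) : ℝ := (1 - inner ℝ x y) / (2 * sn ^ 2)

theorem yy_comm (x y : E3) : yy x y = yy y x := by
  unfold yy
  rw [real_inner_comm]

private theorem yy_gram {x y : E3} {c a : ℝ} (h : inner ℝ x y = gram c a) :
    yy x y = (1 - c ^ 2) / sn ^ 2 * sin a ^ 2 := by
  have h0 : sn ≠ 0 := by
    have := sn_lo
    intro h1
    linarith
  unfold yy
  rw [h]
  unfold gram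
  field_simp
  ring

/-- the inequality of a facet of which it is known that it is not thin. PROOF. As `E_facet` in
`E9.lean`: `ang_par`, `par_rot`; `yy = (1 - gram)/(2 sn^2) = (1 - c^2)/sn^2 * sin^2`. -/
theorem par_chk {j₀ : ℕ} {sg : ℤ} {D : FD} (h : fchk j₀ sg D = true)
    (hsg : ((sg : ℝ) / 1000 - 1) * (π / 2 - j₀ / 50) ≤
      sn ^ 2 * (sin (j₀ / 50) * cos (j₀ / 50) / 2)) {x y z : E3} (hx : ‖x‖ = 1) (hy : ‖y‖ = 1)
    (hz : ‖z‖ = 1) {c a b d : ℝ} (hc : kp ≤ c) (hp : Par x y z c a b d)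
    (oa : π / 2 < a → (j₀ : ℝ) / 50 ≤ b + d) (ob : π / 2 < b → (j₀ : ℝ) / 50 ≤ d + a)
    (od : π / 2 < d → (j₀ : ℝ) / 50 ≤ a + b) :
    (D.P1 : ℝ) / 100000 * ang x y z + (D.P2 : ℝ) / 100000 * ang y z x +
      (D.P3 : ℝ) / 100000 * ang z x y + (D.K1 : ℝ) / 100000 * yy x y +
      (D.K2 : ℝ) / 100000 * yy y z + (D.K3 : ℝ) / 100000 * yy z x ≤ (D.B : ℝ) / 100000 := by
  have h1 := par_rot hp
  have h2 := par_rot h1
  rw [ang_par hx hy hz hp, ang_par hy hz hx h1, ang_par hz hx hy h2]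
  obtain ⟨hc0, hc1, ha, hb, hd, hs, e1, e2, e3⟩ := hp
  rw [yy_gram e1, yy_gram e2, yy_gram e3]
  have h3 := face_chk h hsg hc hc1 ha hb hd hs oa ob od
  linarith

/-- PROOF. `facet_par`, `par_chk` with `j₀ = 0`, `sg = 1000` (the hypotheses `hsg`, `oa`, `ob`, `od`
are trivial). -/
theorem facet_chk {D : FD} (hD : fchk 0 1000 D = true) {p : Fin 9 → E3} {κ : ℝ} (hκ : kp < κ)
    (hG : Gen p) (hC : Covers p κ) {i j k : Fin 9} (h : Facet p (i, j, k)) :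
    (D.P1 : ℝ) / 100000 * ang (p i) (p j) (p k) + (D.P2 : ℝ) / 100000 * ang (p j) (p k) (p i) +
      (D.P3 : ℝ) / 100000 * ang (p k) (p i) (p j) + (D.K1 : ℝ) / 100000 * yy (p i) (p j) +
      (D.K2 : ℝ) / 100000 * yy (p j) (p k) + (D.K3 : ℝ) / 100000 * yy (p k) (p i) ≤
        (D.B : ℝ) / 100000 := by
  obtain ⟨c, a, b, d, hκc, h0⟩ := facet_par hG.1 hC h
  obtain ⟨hc0, hc1, ha, hb, hd, hs, e1, e2, e3⟩ := id h0
  refine par_chk hD ?_ (hG.1 i) (hG.1 j) (hG.1 k) (hκ.le.trans hκc) h0 ?_ ?_ ?_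
  · norm_num
  · intro
    rw [Nat.cast_zero, zero_div]
    linarith
  · intro
    rw [Nat.cast_zero, zero_div]
    linarith
  · intro
    rw [Nat.cast_zero, zero_div]
    linarith

end Pool.Agent.C9
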