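import Pool.Agent.Lib.MP_488b8a_co_X.Cst

/-! # Project C9, module FaceG: reduction of the face inequalities to one variable -/

set_option autoImplicit false

namespace Pool.Agent.C9

open Real Pool.Agent.C32

/-- side function in `y = sin^2 (side/2)` -/
def ey (k l y : ℝ) : ℝ := k * y + l * y ^ 2

/-- the one-variable condition for a side -/
def SS (q lam k l A : ℝ) : Prop :=
  (∀ x : ℝ, 0 ≤ x → x ≤ π / 2 → q * ph kp x + lam * x + ey k l (sn ^ 2 * sin x ^ 2) ≤ A) ∧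
    ∀ y : ℝ, 0 ≤ y → y ≤ sn ^ 2 → lam * (π / 2) + ey k l y ≤ A

private theorem FaceG_hs (C b : ℝ) (hC : 0 ≤ C) (hC1 : C ≤ 1) (hb : 0 < b) (hb' : b < π / 2) :
    0 < 1 - (C * sin b) ^ 2 := by
  have h1 : 0 < cos b := cos_pos_of_mem_Ioo ⟨by linarith, hb'⟩
  have h2 := sin_sq_add_cos_sq b
  have h3 : C ^ 2 ≤ 1 := by nlinarith
  have h4 : C ^ 2 * sin b ^ 2 ≤ 1 * sin b ^ 2 := mul_le_mul_of_nonneg_right h3 (sq_nonneg _)
  nlinarith [pow_pos h1 2]

private theorem FaceG_deriv {C b : ℝ} (hC : 0 ≤ C) (hC1 : C ≤ 1) (hb : 0 < b) (hb' : b < π / 2) :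
    HasDerivAt (fun b => arccos (C * sin b))
      (-(C * cos b / √(1 - (C * sin b) ^ 2))) b := by
  have h1 := FaceG_hs C b hC hC1 hb hb'
  have h2 : C * sin b ≠ -1 := by
    intro h
    rw [h] at h1
    norm_num at h1
  have h3 : C * sin b ≠ 1 := by
    intro h
    rw [h] at h1
    norm_num at h1
  have h4 := (hasDerivAt_arccos h2 h3).comp b ((hasDerivAt_sin b).const_mul C)
  have h5 : -(1 / √(1 - (C * sin b) ^ 2)) * (C * cos b) =
      -(C * cos b / √(1 - (C * sin b) ^ 2)) := by ring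
  rw [h5] at h4
  exact h4

private theorem FaceG_convex {C : ℝ} (hC : 0 ≤ C) (hC1 : C ≤ 1) :
    ConvexOn ℝ (Set.Icc 0 (π / 2)) (fun b => arccos (C * sin b)) := by
  have hp := pi_pos
  refine MonotoneOn.convexOn_of_deriv (convex_Icc 0 (π / 2)) ?_ ?_ ?_
  · exact (continuous_arccos.comp (continuous_const.mul continuous_sin)).continuousOn
  · rw [interior_Icc]
    intro b hb
    exact (FaceG_deriv hC hC1 hb.1 hb.2).differentiableAt.differentiableWithinAt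
  · rw [interior_Icc]
    intro x hx y hy hxy
    rw [(FaceG_deriv hC hC1 hx.1 hx.2).deriv, (FaceG_deriv hC hC1 hy.1 hy.2).deriv]
    apply neg_le_neg
    have hx1 := FaceG_hs C x hC hC1 hx.1 hx.2
    have hy1 := FaceG_hs C y hC hC1 hy.1 hy.2
    have hcx : 0 < cos x := cos_pos_of_mem_Ioo ⟨by linarith [hx.1], hx.2⟩
    have hcy : 0 < cos y := cos_pos_of_mem_Ioo ⟨by linarith [hy.1], hy.2⟩
    have hsx : 0 ≤ sin x := sin_nonneg_of_nonneg_of_le_pi hx.1.le (by linarith [hx.2])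
    have hs : sin x ≤ sin y := (strictMonoOn_sin.monotoneOn
      ⟨by linarith [hx.1], hx.2.le⟩ ⟨by linarith [hy.1], hy.2.le⟩ hxy)
    have hss : sin x ^ 2 ≤ sin y ^ 2 := by nlinarith
    have hC2 : C ^ 2 ≤ 1 := by nlinarith
    rw [div_le_div_iff₀ (Real.sqrt_pos.2 hy1) (Real.sqrt_pos.2 hx1)]
    have e1 : C * cos y * √(1 - (C * sin x) ^ 2) = C * √(cos y ^ 2 * (1 - (C * sin x) ^ 2)) := by
      rw [Real.sqrt_mul (sq_nonneg _), Real.sqrt_sq hcy.le]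
      ring
    have e2 : C * cos x * √(1 - (C * sin y) ^ 2) = C * √(cos x ^ 2 * (1 - (C * sin y) ^ 2)) := by
      rw [Real.sqrt_mul (sq_nonneg _), Real.sqrt_sq hcx.le]
      ring
    rw [e1, e2]
    apply mul_le_mul_of_nonneg_left _ hC
    apply Real.sqrt_le_sqrt
    have c1 : cos x ^ 2 = 1 - sin x ^ 2 := by linarith [sin_sq_add_cos_sq x]
    have c2 : cos y ^ 2 = 1 - sin y ^ 2 := by linarith [sin_sq_add_cos_sq y]
    rw [c1, c2]
    nlinarith [mul_nonneg (sub_nonneg.2 hC2) (sub_nonneg.2 hss)]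

private theorem FaceG_sn_pos : 0 < sn := by linarith [sn_lo]

private theorem FaceG_kp_pos : 0 < kp := by linarith [kp_lo]

private theorem FaceG_y {c z : ℝ} (hc : kp ≤ c) (hc1 : c < 1) :
    0 ≤ (1 - c ^ 2) * sin z ^ 2 ∧ (1 - c ^ 2) * sin z ^ 2 ≤ sn ^ 2 := by
  have hk := FaceG_kp_pos
  have h1 : 0 ≤ 1 - c ^ 2 := by nlinarith
  have h2 : 1 - c ^ 2 ≤ sn ^ 2 := by nlinarith [kp_sn]
  have h3 : sin z ^ 2 ≤ 1 := by nlinarith [sin_sq_add_cos_sq z, sq_nonneg (cos z)]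
  have h4 := sq_nonneg (sin z)
  refine ⟨mul_nonneg h1 h4, ?_⟩
  calc (1 - c ^ 2) * sin z ^ 2 ≤ (1 - c ^ 2) * 1 := mul_le_mul_of_nonneg_left h3 h1
    _ ≤ sn ^ 2 := by linarith

private theorem FaceG_arccos {c z y : ℝ} (hc : 0 < c) (hz : 0 ≤ z) (hz' : z ≤ π / 2)
    (hy : y < 1) (h : cos z ^ 2 + c ^ 2 * sin z ^ 2 = 1 - y) :
    √(1 - y) * sin (ph c z) = cos z ∧ arccos (√(1 - y) * sin (ph c z)) = z := by
  have hp := pi_pos
  have h1 : 0 < √(1 - y) := Real.sqrt_pos.2 (by linarith)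
  have h2 : √(1 - y) * sin (ph c z) = cos z := by
    rw [sin_ph hc, h]
    field_simp
  refine ⟨h2, ?_⟩
  rw [h2, arccos_cos hz (by linarith)]

private theorem FaceG_one {z : ℝ} (hz : 0 < z) (hz' : z ≤ π / 2) : ph 1 z = π / 2 - z := by
  have hp := pi_pos
  rw [ph_eq one_pos hz (by linarith), one_mul]
  have h1 : cos z / sin z = tan (π / 2 - z) := by
    rw [tan_eq_sin_div_cos, sin_pi_div_two_sub, cos_pi_div_two_sub]
  rw [h1, arctan_tan (by linarith) (by linarith)]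

private theorem FaceG_obt {c a b d : ℝ} (hc : kp ≤ c) (hc1 : c < 1) (ha : π / 2 < a)
    (hb : 0 < b) (hd : 0 < d) (hs : a + b + d = π) : ph c a ≤ b + d - π / 2 := by
  have hk := FaceG_kp_pos
  have h1 : a = π - (b + d) := by linarith
  have h2 := ph_pi_sub (c := c) (z := b + d) (by linarith) (by linarith) (by linarith)
  have h3 := ph_mono_c (c := c) (c' := 1) (z := b + d) (by linarith) hc1.le (by linarith)
    (by linarith)
  rw [FaceG_one (by linarith) (by linarith)] at h3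
  rw [h1, h2]
  linarith

/-- PROOF. Let `y = (1 - c^2) sin^2 z`, `C = √(1 - y) = cos (s/2)`, `b = ph c z ∈ [0, π/2]`. Then
`cos z = C sin b` (`sin_ph`: `sin b = cos z / √(cos^2 z + c^2 sin^2 z)` and
`cos^2 z + c^2 sin^2 z = 1 - y`), so `z = arccos (C sin b)`. Let `x = arcsin (√y / sn)` and
`b₁ = ph kp x`; in the same way `x = arccos (C sin b₁)`, and `b ≤ b₁` (`x ≤ z` because
`sin x = √y/sn ≤ √y/√(1-c^2) = sin z`; so `C sin b = cos z ≤ cos x = C sin b₁`; `C > 0` unless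
`z = π/2, ...`, `y < 1`). The function `b ↦ q b + lam arccos (C sin b)` is convex on `[0, π/2]`
(derivative of `arccos (C sin b)`: `- C cos b / √(1 - C^2 sin^2 b)`, which is monotone), so at
`b ∈ [0, b₁]` it is at most the maximum of its values at `0` (`lam π/2`) and at `b₁`
(`q ph kp x + lam x`). -/
theorem side_le {q lam k l A c z : ℝ} (hq : 0 ≤ q) (hl : 0 ≤ lam) (hc : kp ≤ c) (hc1 : c < 1)
    (hz : 0 ≤ z) (hz' : z ≤ π / 2) (h : SS q lam k l A) :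
    q * ph c z + lam * z + ey k l ((1 - c ^ 2) * sin z ^ 2) ≤ A := by
  have hp := pi_pos
  have hk := FaceG_kp_pos
  have hsn := FaceG_sn_pos
  have hks := kp_sn
  have hc0 : 0 < c := by linarith
  obtain ⟨hy0, hy1⟩ := FaceG_y (z := z) hc hc1
  obtain ⟨y, hy⟩ : ∃ y, y = (1 - c ^ 2) * sin z ^ 2 := ⟨_, rfl⟩
  rw [← hy] at hy0 hy1 ⊢
  have hyl : y < 1 := by nlinarith
  have hsz : 0 ≤ sin z := sin_nonneg_of_nonneg_of_le_pi hz (by linarith)
  -- the point `x`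
  have hr0 : 0 ≤ √y / sn := by positivity
  have hr1 : √y / sn ≤ sin z := by
    rw [div_le_iff₀ hsn]
    apply Real.sqrt_le_iff.2 ⟨by positivity, ?_⟩
    rw [hy, mul_pow]
    nlinarith [mul_nonneg (sub_nonneg.2 (by nlinarith : 1 - c ^ 2 ≤ sn ^ 2)) (sq_nonneg (sin z))]
  have hr2 : √y / sn ≤ 1 := hr1.trans (sin_le_one z)
  obtain ⟨x, hx⟩ : ∃ x, x = arcsin (√y / sn) := ⟨_, rfl⟩
  have hsx : sin x = √y / sn := by rw [hx, sin_arcsin (by linarith) hr2]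
  have hx0 : 0 ≤ x := by rw [hx]; exact arcsin_nonneg.2 hr0
  have hx1 : x ≤ π / 2 := by rw [hx]; exact arcsin_le_pi_div_two _
  have hsx2 : sn ^ 2 * sin x ^ 2 = y := by
    rw [hsx, div_pow, Real.sq_sqrt hy0]
    field_simp
  have hxz : x ≤ z := by
    by_contra hlt
    push Not at hlt
    have := strictMonoOn_sin (⟨by linarith, hz'⟩ : z ∈ Set.Icc (-(π / 2)) (π / 2))
      ⟨by linarith, hx1⟩ hlt
    linarith
  -- the convex function
  obtain ⟨e1, e2⟩ := FaceG_arccos (c := c) (z := z) (y := y) hc0 hz hz' hyl (by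
    rw [hy]
    linear_combination sin_sq_add_cos_sq z)
  obtain ⟨f1, f2⟩ := FaceG_arccos (c := kp) (z := x) (y := y) hk hx0 hx1 hyl (by
    rw [← hsx2]
    linear_combination sin_sq_add_cos_sq x + sin x ^ 2 * hks)
  have hC0 : 0 < √(1 - y) := Real.sqrt_pos.2 (by linarith)
  have hC1 : √(1 - y) ≤ 1 := Real.sqrt_le_one.2 (by linarith)
  have hb0 := ph_nonneg hc0 hz hz'
  have hb1 := ph_le hc0 hz (by linarith)
  have hc2 := ph_nonneg hk hx0 hx1
  have hc3 := ph_le hk hx0 (by linarith)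
  have hbb : ph c z ≤ ph kp x := by
    by_contra hlt
    push Not at hlt
    have h1 := strictMonoOn_sin (⟨by linarith, hc3⟩ : ph kp x ∈ Set.Icc (-(π / 2)) (π / 2))
      ⟨by linarith, hb1⟩ hlt
    have h2 : cos z ≤ cos x := cos_le_cos_of_nonneg_of_le_pi hx0 (by linarith) hxz
    have h3 := mul_lt_mul_of_pos_left h1 hC0
    rw [e1, f1] at h3
    linarith
  have hconv : ConvexOn ℝ (Set.Icc 0 (π / 2))
      (fun b => q * b + lam * arccos (√(1 - y) * sin b)) := by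
    have h1 := (FaceG_convex hC0.le hC1).smul hl
    have h2 : ConvexOn ℝ (Set.Icc 0 (π / 2)) (fun b : ℝ => q • b) :=
      (convexOn_id (convex_Icc 0 (π / 2))).smul hq
    exact h2.add h1
  have hmax := hconv.le_max_of_mem_Icc (x := 0) (y := ph kp x) (z := ph c z)
    ⟨le_rfl, by linarith⟩ ⟨hc2, hc3⟩ ⟨hb0, hbb⟩
  simp only [e2, f2, sin_zero, mul_zero, arccos_zero, zero_add] at hmax
  obtain ⟨h1, h2⟩ := h
  have h3 := h1 x hx0 hx1
  rw [hsx2] at h3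
  have h4 := h2 y hy0 hy1
  rcases le_max_iff.1 hmax with h5 | h5
  · linarith
  · linarith

/-- PROOF. Acute: `side_le` three times. Obtuse, say `a > π/2`: `ph c a = - ph c (b + d)`
(`ph_pi_sub`), `ph c (b + d) ≥ ph 1 (b + d) = π/2 - b - d` (`ph_mono_c`), `side_le` for `b` and `d`
with `lam = Pa + Pb` (the weight of the side `a`), and the bound `Ma` for the third side function.
-/
theorem face_gen {P₁ P₂ P₃ k₁ l₁ k₂ l₂ k₃ l₃ lam A₁ A₂ A₃ B M₁ M₂ M₃ : ℝ}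
    {A₁₂ A₁₃ A₂₁ A₂₃ A₃₁ A₃₂ : ℝ}
    (h1 : 0 ≤ P₁) (h2 : 0 ≤ P₂) (h3 : 0 ≤ P₃) (hl : 0 ≤ lam)
    (s1 : SS (P₁ + P₂) lam k₁ l₁ A₁) (s2 : SS (P₂ + P₃) lam k₂ l₂ A₂)
    (s3 : SS (P₃ + P₁) lam k₃ l₃ A₃) (hB : A₁ + A₂ + A₃ - lam * π ≤ B)
    (m1 : ∀ y, 0 ≤ y → y ≤ sn ^ 2 → ey k₁ l₁ y ≤ M₁)
    (m2 : ∀ y, 0 ≤ y → y ≤ sn ^ 2 → ey k₂ l₂ y ≤ M₂)
    (m3 : ∀ y, 0 ≤ y → y ≤ sn ^ 2 → ey k₃ l₃ y ≤ M₃)
    (o12 : SS (P₂ + P₃) (P₁ + P₂) k₂ l₂ A₁₂) (o13 : SS (P₃ + P₁) (P₁ + P₂) k₃ l₃ A₁₃)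
    (o1 : A₁₂ + A₁₃ + M₁ - (P₁ + P₂) * (π / 2) ≤ B)
    (o21 : SS (P₁ + P₂) (P₂ + P₃) k₁ l₁ A₂₁) (o23 : SS (P₃ + P₁) (P₂ + P₃) k₃ l₃ A₂₃)
    (o2 : A₂₁ + A₂₃ + M₂ - (P₂ + P₃) * (π / 2) ≤ B)
    (o31 : SS (P₁ + P₂) (P₃ + P₁) k₁ l₁ A₃₁) (o32 : SS (P₂ + P₃) (P₃ + P₁) k₂ l₂ A₃₂)
    (o3 : A₃₁ + A₃₂ + M₃ - (P₃ + P₁) * (π / 2) ≤ B)
    {c a b d : ℝ} (hc : kp ≤ c) (hc1 : c < 1) (ha : 0 < a) (hb : 0 < b) (hd : 0 < d)
    (hs : a + b + d = π) :
    (P₁ + P₂) * ph c a + (P₂ + P₃) * ph c b + (P₃ + P₁) * ph c d +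
      ey k₁ l₁ ((1 - c ^ 2) * sin a ^ 2) + ey k₂ l₂ ((1 - c ^ 2) * sin b ^ 2) +
      ey k₃ l₃ ((1 - c ^ 2) * sin d ^ 2) ≤ B := by
  have hp := pi_pos
  have y1 := FaceG_y (z := a) hc hc1
  have y2 := FaceG_y (z := b) hc hc1
  have y3 := FaceG_y (z := d) hc hc1
  have q1 : 0 ≤ P₁ + P₂ := by linarith
  have q2 : 0 ≤ P₂ + P₃ := by linarith
  have q3 : 0 ≤ P₃ + P₁ := by linarith
  rcases lt_or_ge (π / 2) a with ha' | ha'
  · have g1 := side_le q2 q1 hc hc1 hb.le (by linarith : b ≤ π / 2) o12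
    have g2 := side_le q3 q1 hc hc1 hd.le (by linarith : d ≤ π / 2) o13
    have g3 := m1 _ y1.1 y1.2
    have g4 := mul_le_mul_of_nonneg_left (FaceG_obt hc hc1 ha' hb hd hs) q1
    linarith
  rcases lt_or_ge (π / 2) b with hb' | hb'
  · have g1 := side_le q1 q2 hc hc1 ha.le ha' o21
    have g2 := side_le q3 q2 hc hc1 hd.le (by linarith : d ≤ π / 2) o23
    have g3 := m2 _ y2.1 y2.2
    have g4 := mul_le_mul_of_nonneg_left (FaceG_obt hc hc1 hb' ha hd (by linarith)) q2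
    linarith
  rcases lt_or_ge (π / 2) d with hd' | hd'
  · have g1 := side_le q1 q3 hc hc1 ha.le ha' o31
    have g2 := side_le q2 q3 hc hc1 hb.le hb' o32
    have g3 := m3 _ y3.1 y3.2
    have g4 := mul_le_mul_of_nonneg_left (FaceG_obt hc hc1 hd' ha hb (by linarith)) q3
    linarith
  have g1 := side_le q1 hl hc hc1 ha.le ha' s1
  have g2 := side_le q2 hl hc hc1 hb.le hb' s2
  have g3 := side_le q3 hl hc hc1 hd.le hd' s3
  have g4 : lam * a + lam * b + lam * d = lam * π := by rw [← hs]; ring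
  linarith

/-- the one-variable condition without side function. PROOF. `ph_tan` at `z₀` (any point of
`(0, π/2)`): `q ph kp x + lam x ≤ q (ph kp z₀ - dph kp z₀ (x - z₀)) + lam x`, a linear function of
`x`; its values at `0` and `π/2` are at most `A`. Second part: `lam π/2 ≤ q ph kp (π/2) + lam π/2`,
`ph_half`, is the first part at `x = π/2`. -/
theorem SS_zero {q lam A z₀ : ℝ} (hq : 0 ≤ q) (h0 : 0 < z₀) (h1 : z₀ < π / 2)
    (e0 : q * (ph kp z₀ + dph kp z₀ * z₀) ≤ A)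
    (e1 : q * (ph kp z₀ + dph kp z₀ * (z₀ - π / 2)) + lam * (π / 2) ≤ A) :
    SS q lam 0 0 A := by
  have hp := pi_pos
  have hk := FaceG_kp_pos
  have hk1 : kp < 1 := by linarith [kp_hi]
  have first : ∀ x : ℝ, 0 ≤ x → x ≤ π / 2 → q * ph kp x + lam * x ≤ A := by
    intro x hx hx'
    have h2 := mul_le_mul_of_nonneg_left (ph_tan hk hk1 h0 h1 hx hx') hq
    have h3 : (π / 2) * (A - (q * (ph kp z₀ - dph kp z₀ * (x - z₀)) + lam * x)) =
        (π / 2 - x) * (A - q * (ph kp z₀ + dph kp z₀ * z₀)) +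
          x * (A - (q * (ph kp z₀ + dph kp z₀ * (z₀ - π / 2)) + lam * (π / 2))) := by ring
    have h4 : 0 ≤ (π / 2) * (A - (q * (ph kp z₀ - dph kp z₀ * (x - z₀)) + lam * x)) := by
      rw [h3]
      exact add_nonneg (mul_nonneg (by linarith) (by linarith)) (mul_nonneg hx (by linarith))
    have h5 := nonneg_of_mul_nonneg_right h4 (by positivity : 0 < π / 2)
    linarith
  constructor
  · intro x hx hx'
    have h2 := first x hx hx'
    unfold ey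
    linarith
  · intro y _ _
    have h2 := first (π / 2) (by positivity) le_rfl
    rw [ph_half hk, mul_zero, zero_add] at h2
    unfold ey
    linarith

end Pool.Agent.C9
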