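import Pool.Agent.Lib.MP_488b8a_co_X.Msh

/-! # Project C9, module FaceL: face inequalities with linear edge functions

`m = 1 - c^2`, `θ = m / sn^2 ∈ [0, 1]` for `kp ≤ c ≤ 1`. -/

set_option autoImplicit false

namespace Pool.Agent.C9

open Real Pool.Agent.C32

private theorem fl_den {c : ℝ} (hc : 0 < c) (z : ℝ) : 0 < cos z ^ 2 + c ^ 2 * sin z ^ 2 := by
  have h7 := sin_sq_add_cos_sq z
  rcases eq_or_ne (sin z) 0 with h | h
  · rw [h] at h7 ⊢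
    nlinarith
  · have h2 : 0 < sin z ^ 2 := by positivity
    have h3 : 0 < c ^ 2 * sin z ^ 2 := by positivity
    have h4 := sq_nonneg (cos z)
    linarith

private theorem fl_one {z : ℝ} (hz : 0 ≤ z) (hz' : z ≤ π / 2) : ph 1 z = π / 2 - z := by
  have hp := pi_pos
  unfold ph
  have h1 : (⟨1 * sin z, cos z⟩ : ℂ) =
      Complex.cos ((π / 2 - z : ℝ) : ℂ) + Complex.sin ((π / 2 - z : ℝ) : ℂ) * Complex.I := by
    rw [← Complex.ofReal_cos, ← Complex.ofReal_sin, Real.cos_pi_div_two_sub,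
      Real.sin_pi_div_two_sub, one_mul]
    exact Complex.mk_eq_add_mul_I _ _
  rw [h1, Complex.arg_cos_add_sin_mul_I ⟨by linarith, by linarith⟩]

private theorem fl_dc {c z : ℝ} (hc : 0 < c) (h0 : 0 < z) (h1 : z < π) :
    HasDerivAt (fun c => ph c z) (-(sin z * cos z / (cos z ^ 2 + c ^ 2 * sin z ^ 2))) c := by
  have h2 : 0 < sin z := sin_pos_of_pos_of_lt_pi h0 h1
  have h3 : c * sin z ≠ 0 := (mul_pos hc h2).ne'
  have h4 : HasDerivAt (fun c : ℝ => c * sin z) (1 * sin z) c :=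
    (hasDerivAt_id c).mul_const (sin z)
  have h5 := ((hasDerivAt_const c (cos z)).div h4 h3).arctan
  have h6 : (fun c => ph c z) =ᶠ[nhds c] fun c => arctan (cos z / (c * sin z)) := by
    filter_upwards [lt_mem_nhds hc] with y hy
    exact ph_eq hy h0 h1
  refine (h5.congr_of_eventuallyEq h6).congr_deriv ?_
  have h8 := fl_den hc z
  simp only [Pi.div_apply]
  have h9 : 1 + (cos z / (c * sin z)) ^ 2 = (cos z ^ 2 + c ^ 2 * sin z ^ 2) /
      (c * sin z) ^ 2 := by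
    field_simp
    ring
  rw [h9]
  field_simp
  ring

private theorem fl_dm {m z : ℝ} (hm : m < 1) (h0 : 0 < z) (h1 : z < π) :
    HasDerivAt (fun m => ph √(1 - m) z)
      (sin z * cos z / (2 * √(1 - m) * (cos z ^ 2 + (1 - m) * sin z ^ 2))) m := by
  have hm' : 0 < 1 - m := by linarith
  have hs : 0 < √(1 - m) := Real.sqrt_pos.2 hm'
  have h2 : HasDerivAt (fun m : ℝ => √(1 - m)) (-1 / (2 * √(1 - m))) m := by
    have h3 : HasDerivAt (fun m : ℝ => 1 - m) (-1) m := by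
      simpa using (hasDerivAt_id m).const_sub 1
    exact h3.sqrt hm'.ne'
  have h4 := HasDerivAt.comp (h := fun m : ℝ => √(1 - m)) (h₂ := fun c => ph c z) m
    (fl_dc hs h0 h1) h2
  refine h4.congr_deriv ?_
  have h5 : 0 < cos z ^ 2 + √(1 - m) ^ 2 * sin z ^ 2 := fl_den hs z
  rw [Real.sq_sqrt hm'.le] at h5 ⊢
  field_simp

private theorem fl_mono {z m m' : ℝ} (h0 : 0 < z) (h1 : z < π / 2) (hm : m ≤ m') (hm' : m' < 1) :
    sin z * cos z / (2 * √(1 - m) * (cos z ^ 2 + (1 - m) * sin z ^ 2)) ≤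
      sin z * cos z / (2 * √(1 - m') * (cos z ^ 2 + (1 - m') * sin z ^ 2)) := by
  have hp := pi_pos
  have h2 : 0 < sin z := sin_pos_of_pos_of_lt_pi h0 (by linarith)
  have h3 : 0 < cos z := cos_pos_of_mem_Ioo ⟨by linarith, h1⟩
  have h4 : 0 < √(1 - m') := Real.sqrt_pos.2 (by linarith)
  have h5 : √(1 - m') ≤ √(1 - m) := Real.sqrt_le_sqrt (by linarith)
  have h6 : 0 < 1 - m' := by linarith
  have h7 : (1 - m') * sin z ^ 2 ≤ (1 - m) * sin z ^ 2 :=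
    mul_le_mul_of_nonneg_right (by linarith) (by positivity)
  refine div_le_div_of_nonneg_left (by positivity) (by positivity) ?_
  refine mul_le_mul (by linarith) (by linarith) (by positivity) ?_
  have := h4.trans_le h5
  positivity

private theorem fl_kp : 0 < kp := by linarith [kp_lo]

private theorem fl_th {c : ℝ} (hc : kp ≤ c) (hc1 : c ≤ 1) :
    0 ≤ (1 - c ^ 2) / sn ^ 2 ∧ (1 - c ^ 2) / sn ^ 2 ≤ 1 := by
  have h0 := fl_kp
  have h1 : 0 < sn := by linarith [sn_lo]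
  have h2 := kp_sn
  have h3 : 0 < sn ^ 2 := by positivity
  refine ⟨div_nonneg (by nlinarith) h3.le, ?_⟩
  rw [div_le_one h3]
  nlinarith

private theorem fl_conv {z : ℝ} (h0 : 0 < z) (h1 : z < π / 2) :
    ConvexOn ℝ (Set.Icc 0 (sn ^ 2)) (fun m => ph √(1 - m) z) := by
  have hp := pi_pos
  have hk := fl_kp
  have h2 := kp_sn
  have h3 : sn ^ 2 < 1 := by nlinarith
  refine MonotoneOn.convexOn_of_deriv (convex_Icc 0 (sn ^ 2)) ?_ ?_ ?_
  · intro m hm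
    exact (fl_dm (by linarith [hm.2]) h0 (by linarith)).continuousAt.continuousWithinAt
  · intro m hm
    rw [interior_Icc] at hm
    exact (fl_dm (by linarith [hm.2]) h0 (by linarith)).differentiableAt.differentiableWithinAt
  · rw [interior_Icc]
    intro m hm m' hm' hmm
    rw [(fl_dm (by linarith [hm.2]) h0 (by linarith : z < π)).deriv,
      (fl_dm (by linarith [hm'.2]) h0 (by linarith : z < π)).deriv]
    exact fl_mono h0 h1 hmm (by linarith [hm'.2])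

private theorem fl_low {c z : ℝ} (hc : kp ≤ c) (hc1 : c ≤ 1) (h0 : 0 < z) (h1 : z < π / 2) :
    (π / 2 - z) + (1 - c ^ 2) * (sin z * cos z / 2) ≤ ph c z := by
  have hp := pi_pos
  have hk := fl_kp
  have h2 := kp_sn
  have hc0 : 0 < c := hk.trans_le hc
  have hm : 0 ≤ 1 - c ^ 2 := by nlinarith
  have hmono : MonotoneOn (fun m => ph √(1 - m) z - m * (sin z * cos z / 2)) (Set.Ico 0 1) := by
    have hd : ∀ m ∈ Set.Ico (0 : ℝ) 1,
        HasDerivAt (fun m => ph √(1 - m) z - m * (sin z * cos z / 2))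
          (sin z * cos z / (2 * √(1 - m) * (cos z ^ 2 + (1 - m) * sin z ^ 2)) -
            1 * (sin z * cos z / 2)) m := fun m hm =>
      (fl_dm hm.2 h0 (by linarith)).sub ((hasDerivAt_id m).mul_const _)
    refine monotoneOn_of_deriv_nonneg (convex_Ico 0 1)
      (fun m hm => (hd m hm).continuousAt.continuousWithinAt) ?_ ?_
    · rw [interior_Ico]
      exact fun m hm => (hd m ⟨hm.1.le, hm.2⟩).differentiableAt.differentiableWithinAt
    · rw [interior_Ico]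
      intro m hm
      rw [(hd m ⟨hm.1.le, hm.2⟩).deriv]
      have h3 := fl_mono h0 h1 hm.1.le hm.2
      have h4 : sin z * cos z / (2 * √(1 - 0) * (cos z ^ 2 + (1 - 0) * sin z ^ 2)) =
          sin z * cos z / 2 := by
        rw [sub_zero, Real.sqrt_one, one_mul, cos_sq_add_sin_sq]
        norm_num
      rw [h4] at h3
      linarith
  have h5 := hmono (⟨le_rfl, one_pos⟩ : (0 : ℝ) ∈ Set.Ico (0 : ℝ) 1)
    (⟨hm, by nlinarith⟩ : 1 - c ^ 2 ∈ Set.Ico (0 : ℝ) 1) hm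
  have h6 : √(1 - (1 - c ^ 2)) = c := by
    rw [sub_sub_cancel, Real.sqrt_sq hc0.le]
  simp only [sub_zero, zero_mul, Real.sqrt_one] at h5
  rw [h6, fl_one h0.le h1.le] at h5
  linarith

/-- PROOF. For `0 < z < π/2` let `t = cot z > 0`; `ph c z = arctan (t/c) = g (1 - c^2)`,
`g m = arctan (t / √(1 - m))`, and `g' m = (t/2) (1 - m)^(-1/2) / ((1 - m) + t^2)` is increasing on
`[0, 1)`, so `g` is convex there; `g 0 = π/2 - z`, `g (sn^2) = ph kp z`. The end points `z = 0`,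
`z = π/2` are trivial (`ph_zero`, `ph_half`). -/
theorem ph_interp {c z : ℝ} (hc : kp ≤ c) (hc1 : c ≤ 1) (h0 : 0 ≤ z) (h1 : z ≤ π / 2) :
    ph c z ≤ (1 - (1 - c ^ 2) / sn ^ 2) * (π / 2 - z) + (1 - c ^ 2) / sn ^ 2 * ph kp z := by
  have hp := pi_pos
  have hk := fl_kp
  have h2 := kp_sn
  have hc0 : 0 < c := hk.trans_le hc
  obtain ⟨ht0, ht1⟩ := fl_th hc hc1
  rcases eq_or_lt_of_le h0 with h | h
  · rw [← h, ph_zero, ph_zero]
    linarith
  rcases eq_or_lt_of_le h1 with h' | h'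
  · rw [h', ph_half hc0, ph_half hk]
    linarith
  have hs : 0 < sn ^ 2 := by
    have : 0 < sn := by linarith [sn_lo]
    positivity
  have h3 := (fl_conv h h').2 (⟨le_rfl, hs.le⟩ : (0 : ℝ) ∈ Set.Icc 0 (sn ^ 2))
    (⟨hs.le, le_rfl⟩ : sn ^ 2 ∈ Set.Icc 0 (sn ^ 2)) (sub_nonneg.2 ht1) ht0 (by ring)
  simp only [smul_eq_mul, mul_zero, zero_add, sub_zero, Real.sqrt_one] at h3
  have h4 : (1 - c ^ 2) / sn ^ 2 * sn ^ 2 = 1 - c ^ 2 := div_mul_cancel₀ _ hs.ne'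
  rw [h4, sub_sub_cancel, Real.sqrt_sq hc0.le, fl_one h.le h'.le,
    show 1 - sn ^ 2 = kp ^ 2 by linarith, Real.sqrt_sq hk.le] at h3
  exact h3

/-- PROOF. By convexity of `g` (see `ph_interp`) and `g' 0 = (t/2)/(1 + t^2) = sin x₀ cos x₀ / 2`:
`ph c x₀ ≥ (π/2 - x₀) + (1 - c^2) sin x₀ cos x₀ / 2 ≥ (1 + θ (sg - 1)) (π/2 - x₀)` (`x₀ = 0`:
`ph_zero`), and `ph c` is concave on `[x₀, π/2]` (`ph_conc`, for `c = 1` it is linear) with
`ph c (π/2) = 0`. -/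
theorem ph_low {c x₀ x sg : ℝ} (hc : kp ≤ c) (hc1 : c ≤ 1) (h0 : 0 ≤ x₀) (h1 : x₀ ≤ x)
    (h2 : x ≤ π / 2) (h3 : x₀ < π / 2)
    (hs : (sg - 1) * (π / 2 - x₀) ≤ sn ^ 2 * (sin x₀ * cos x₀ / 2)) :
    (1 + (1 - c ^ 2) / sn ^ 2 * (sg - 1)) * (π / 2 - x) ≤ ph c x := by
  have hp := pi_pos
  have hk := fl_kp
  have hc0 : 0 < c := hk.trans_le hc
  obtain ⟨ht0, ht1⟩ := fl_th hc hc1
  have hsn : 0 < sn ^ 2 := by
    have : 0 < sn := by linarith [sn_lo]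
    positivity
  have h4 : (1 - c ^ 2) / sn ^ 2 * sn ^ 2 = 1 - c ^ 2 := div_mul_cancel₀ _ hsn.ne'
  have h5 : (π / 2 - x₀) + (1 - c ^ 2) * (sin x₀ * cos x₀ / 2) ≤ ph c x₀ := by
    rcases eq_or_lt_of_le h0 with h | h
    · rw [← h, ph_zero, sin_zero]
      linarith
    · exact fl_low hc hc1 h h3
  have h6 := mul_le_mul_of_nonneg_left hs ht0
  have h7 : (1 + (1 - c ^ 2) / sn ^ 2 * (sg - 1)) * (π / 2 - x₀) ≤ ph c x₀ := by
    have h8 : (1 - c ^ 2) / sn ^ 2 * (sn ^ 2 * (sin x₀ * cos x₀ / 2)) =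
        (1 - c ^ 2) * (sin x₀ * cos x₀ / 2) := by
      rw [← mul_assoc, h4]
    rw [h8] at h6
    linarith
  have hd : 0 < π / 2 - x₀ := by linarith
  have h9 : (π / 2 - x) / (π / 2 - x₀) * ph c x₀ ≤ ph c x := by
    rcases eq_or_lt_of_le hc1 with h | h
    · rw [h, fl_one h0 h3.le, fl_one (h0.trans h1) h2]
      rw [div_mul_cancel₀ _ hd.ne']
    · have h10 := (ph_conc hc0 h).concaveOn.2 (⟨h0, h3.le⟩ : x₀ ∈ Set.Icc 0 (π / 2))
        (⟨by linarith, le_rfl⟩ : π / 2 ∈ Set.Icc 0 (π / 2))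
        (div_nonneg (by linarith) hd.le : 0 ≤ (π / 2 - x) / (π / 2 - x₀))
        (div_nonneg (by linarith) hd.le : 0 ≤ (x - x₀) / (π / 2 - x₀))
        (by rw [← add_div, div_eq_one_iff_eq hd.ne']; ring)
      simp only [smul_eq_mul] at h10
      rw [ph_half hc0, mul_zero, add_zero] at h10
      refine h10.trans (le_of_eq ?_)
      congr 1
      rw [div_mul_eq_mul_div, div_mul_eq_mul_div, ← add_div, div_eq_iff hd.ne']
      ring
  refine le_trans ?_ h9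
  generalize (1 - c ^ 2) / sn ^ 2 = θ at h7 ⊢
  rw [div_mul_eq_mul_div, le_div_iff₀ hd]
  have h11 := mul_le_mul_of_nonneg_left h7 (by linarith : 0 ≤ π / 2 - x)
  linarith

/-- conditions for acute triangles -/
def Ac (P₁ P₂ P₃ K₁ K₂ K₃ B : ℝ) : Prop :=
  ∃ lam A₁ A₂ A₃ : ℝ, SL 0 (P₁ + P₂) lam K₁ A₁ ∧ SL 0 (P₂ + P₃) lam K₂ A₂ ∧
    SL 0 (P₃ + P₁) lam K₃ A₃ ∧ A₁ + A₂ + A₃ - lam * π ≤ B ∧
    (P₁ + P₂) * (π / 2) ≤ B ∧ (P₂ + P₃) * (π / 2) ≤ B ∧ (P₃ + P₁) * (π / 2) ≤ B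

/-- conditions for triangles that are obtuse at the vertex `3` (`a > π/2`) -/
def Ob (x₀ sg P₁ P₂ P₃ K₁ K₂ K₃ B : ℝ) : Prop :=
  ∃ L A₂ A₃ N : ℝ, SL 0 (P₂ + P₃) L K₂ A₂ ∧ SL 0 (P₃ + P₁) L K₃ A₃ ∧
    SL x₀ 0 ((P₁ + P₂) * sg - L) K₁ N ∧ A₂ + A₃ + N - (P₁ + P₂) * sg * (π / 2) ≤ B ∧
    P₃ * (π - x₀) + P₁ * x₀ ≤ B ∧ P₃ * (π - x₀) + P₂ * x₀ ≤ B ∧
    (P₃ + P₁) * (π / 2) ≤ B ∧ (P₂ + P₃) * (π / 2) ≤ B

/-- PROOF. Acute. With `θ ∈ [0, 1]` and `ph_interp` the left side is at most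
`(1 - θ) E + θ F`, `E = ∑ (weights) (π/2 - z)`, `F = ∑ (weight ph kp z + K sin^2 z)`.
`F ≤ A₁ + A₂ + A₃ - lam π ≤ B`. `E = P₁ (π - a - d) + P₂ (π - a - b) + P₃ (π - b - d) =
P₁ b + P₂ d + P₃ a` with `a, b, d ∈ [0, π/2]`, sum `π`: the maximum is attained at
`(π/2, π/2, 0)` and its permutations (write the point as the convex combination with coefficients
`1 - 2a/π`, ...), so `E ≤ B`. -/
theorem face_acute {P₁ P₂ P₃ K₁ K₂ K₃ B : ℝ} (h1 : 0 ≤ P₁) (h2 : 0 ≤ P₂) (h3 : 0 ≤ P₃)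
    (h : Ac P₁ P₂ P₃ K₁ K₂ K₃ B) {c a b d : ℝ} (hc : kp ≤ c) (hc1 : c < 1)
    (ha : 0 < a) (hb : 0 < b) (hd : 0 < d) (hs : a + b + d = π) (ha' : a ≤ π / 2)
    (hb' : b ≤ π / 2) (hd' : d ≤ π / 2) :
    (P₁ + P₂) * ph c a + (P₂ + P₃) * ph c b + (P₃ + P₁) * ph c d +
      K₁ * ((1 - c ^ 2) / sn ^ 2 * sin a ^ 2) + K₂ * ((1 - c ^ 2) / sn ^ 2 * sin b ^ 2) +
      K₃ * ((1 - c ^ 2) / sn ^ 2 * sin d ^ 2) ≤ B := by
  have hp := pi_pos
  obtain ⟨lam, A₁, A₂, A₃, s1, s2, s3, hA, hB1, hB2, hB3⟩ := h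
  obtain ⟨ht0, ht1⟩ := fl_th hc hc1.le
  set θ := (1 - c ^ 2) / sn ^ 2 with hθ
  have i1 := mul_le_mul_of_nonneg_left (ph_interp hc hc1.le ha.le ha') (add_nonneg h1 h2)
  have i2 := mul_le_mul_of_nonneg_left (ph_interp hc hc1.le hb.le hb') (add_nonneg h2 h3)
  have i3 := mul_le_mul_of_nonneg_left (ph_interp hc hc1.le hd.le hd') (add_nonneg h3 h1)
  rw [← hθ] at i1 i2 i3
  have j1 := s1 a ha.le ha'
  have j2 := s2 b hb.le hb'
  have j3 := s3 d hd.le hd'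
  have hF : (P₁ + P₂) * ph kp a + (P₂ + P₃) * ph kp b + (P₃ + P₁) * ph kp d +
      K₁ * sin a ^ 2 + K₂ * sin b ^ 2 + K₃ * sin d ^ 2 ≤ B := by
    have : lam * a + lam * b + lam * d = lam * π := by rw [← hs]; ring
    linarith
  have hE : (P₁ + P₂) * (π / 2 - a) + (P₂ + P₃) * (π / 2 - b) + (P₃ + P₁) * (π / 2 - d) ≤ B := by
    have k1 := mul_nonneg (sub_nonneg.2 ha') (sub_nonneg.2 hB1)
    have k2 := mul_nonneg (sub_nonneg.2 hb') (sub_nonneg.2 hB2)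
    have k3 := mul_nonneg (sub_nonneg.2 hd') (sub_nonneg.2 hB3)
    have hd2 : d = π - a - b := by linarith
    have k4 : 0 ≤ (π / 2) * (B - ((P₁ + P₂) * (π / 2 - a) + (P₂ + P₃) * (π / 2 - b) +
        (P₃ + P₁) * (π / 2 - d))) := by
      have e : (π / 2) * (B - ((P₁ + P₂) * (π / 2 - a) + (P₂ + P₃) * (π / 2 - b) +
          (P₃ + P₁) * (π / 2 - d))) = (π / 2 - a) * (B - (P₁ + P₂) * (π / 2)) +
          (π / 2 - b) * (B - (P₂ + P₃) * (π / 2)) +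
          (π / 2 - d) * (B - (P₃ + P₁) * (π / 2)) := by
        rw [hd2]
        ring
      rw [e]
      linarith
    have k5 := nonneg_of_mul_nonneg_right k4 (by linarith : 0 < π / 2)
    linarith
  have hF' := mul_le_mul_of_nonneg_left hF ht0
  have hE' := mul_le_mul_of_nonneg_left hE (sub_nonneg.2 ht1)
  linarith

/-- PROOF. Let `x = b + d = π - a ∈ [x₀, π/2)`; `ph c a = - ph c x` (`ph_pi_sub`),
`sin a = sin x`. By `ph_interp` (for `b` and `d`) and `ph_low` (for `x`) the left side is at most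
`(1 - θ) E + θ F`, `E = (P₂ + P₃)(π/2 - b) + (P₃ + P₁)(π/2 - d) - (P₁ + P₂)(π/2 - x) =
P₃ (π - x) + P₂ d + P₁ b ≤ P₃ (π - x) + max P₁ P₂ x ≤ B` (linear in `x ∈ [x₀, π/2]`), and
`F = (P₂ + P₃) ph kp b + (P₃ + P₁) ph kp d - (P₁ + P₂) sg (π/2 - x) + ∑ K sin^2`; add and
subtract `L x = L b + L d`: `F ≤ A₂ + A₃ + N - (P₁ + P₂) sg (π/2) ≤ B`. -/
theorem face_obtuse {x₀ sg P₁ P₂ P₃ K₁ K₂ K₃ B : ℝ} (h1 : 0 ≤ P₁) (h2 : 0 ≤ P₂) (h3 : 0 ≤ P₃)
    (h0 : 0 ≤ x₀) (h0' : x₀ < π / 2)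
    (hsg : (sg - 1) * (π / 2 - x₀) ≤ sn ^ 2 * (sin x₀ * cos x₀ / 2))
    (h : Ob x₀ sg P₁ P₂ P₃ K₁ K₂ K₃ B) {c a b d : ℝ} (hc : kp ≤ c) (hc1 : c < 1)
    (ha : π / 2 < a) (hb : 0 < b) (hd : 0 < d) (hs : a + b + d = π) (hx : x₀ ≤ b + d) :
    (P₁ + P₂) * ph c a + (P₂ + P₃) * ph c b + (P₃ + P₁) * ph c d +
      K₁ * ((1 - c ^ 2) / sn ^ 2 * sin a ^ 2) + K₂ * ((1 - c ^ 2) / sn ^ 2 * sin b ^ 2) +
      K₃ * ((1 - c ^ 2) / sn ^ 2 * sin d ^ 2) ≤ B := by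
  have hp := pi_pos
  have hk := fl_kp
  have hc0 : 0 < c := hk.trans_le hc
  obtain ⟨L, A₂, A₃, N, s2, s3, s1, hA, hB1, hB2, hB3, hB4⟩ := h
  obtain ⟨ht0, ht1⟩ := fl_th hc hc1.le
  set θ := (1 - c ^ 2) / sn ^ 2 with hθ
  obtain ⟨x, hxd⟩ : ∃ x, x = b + d := ⟨_, rfl⟩
  have hax : a = π - x := by linarith
  have hx1 : x₀ ≤ x := by linarith
  have hx2 : x ≤ π / 2 := by linarith
  have hx0 : 0 < x := by linarith
  have i1 := mul_le_mul_of_nonneg_left (ph_low hc hc1.le h0 hx1 hx2 h0' hsg) (add_nonneg h1 h2)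
  have i2 := mul_le_mul_of_nonneg_left
    (ph_interp hc hc1.le hb.le (by linarith : b ≤ π / 2)) (add_nonneg h2 h3)
  have i3 := mul_le_mul_of_nonneg_left
    (ph_interp hc hc1.le hd.le (by linarith : d ≤ π / 2)) (add_nonneg h3 h1)
  rw [← hθ] at i1 i2 i3
  rw [hax, ph_pi_sub hc0 hx0.le (by linarith), sin_pi_sub]
  have j1 := s1 x hx1 hx2
  have j2 := s2 b hb.le (by linarith)
  have j3 := s3 d hd.le (by linarith)
  have hF : (P₂ + P₃) * ph kp b + (P₃ + P₁) * ph kp d - (P₁ + P₂) * sg * (π / 2 - x) +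
      K₁ * sin x ^ 2 + K₂ * sin b ^ 2 + K₃ * sin d ^ 2 ≤ B := by
    have : L * x = L * b + L * d := by rw [hxd]; ring
    linarith
  have hE : (P₂ + P₃) * (π / 2 - b) + (P₃ + P₁) * (π / 2 - d) - (P₁ + P₂) * (π / 2 - x) ≤ B := by
    have hd0 : 0 < π / 2 - x₀ := by linarith
    have k1 : P₃ * (π - x) + P₁ * x ≤ B := by
      have m1 := mul_nonneg (sub_nonneg.2 hx2) (sub_nonneg.2 hB1)
      have m2 := mul_nonneg (sub_nonneg.2 hx1) (sub_nonneg.2 hB3)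
      have m3 : 0 ≤ (π / 2 - x₀) * (B - (P₃ * (π - x) + P₁ * x)) := by
        have e : (π / 2 - x₀) * (B - (P₃ * (π - x) + P₁ * x)) =
            (π / 2 - x) * (B - (P₃ * (π - x₀) + P₁ * x₀)) +
            (x - x₀) * (B - (P₃ + P₁) * (π / 2)) := by ring
        rw [e]
        linarith
      have m4 := nonneg_of_mul_nonneg_right m3 hd0
      linarith
    have k2 : P₃ * (π - x) + P₂ * x ≤ B := by
      have m1 := mul_nonneg (sub_nonneg.2 hx2) (sub_nonneg.2 hB2)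
      have m2 := mul_nonneg (sub_nonneg.2 hx1) (sub_nonneg.2 hB4)
      have m3 : 0 ≤ (π / 2 - x₀) * (B - (P₃ * (π - x) + P₂ * x)) := by
        have e : (π / 2 - x₀) * (B - (P₃ * (π - x) + P₂ * x)) =
            (π / 2 - x) * (B - (P₃ * (π - x₀) + P₂ * x₀)) +
            (x - x₀) * (B - (P₂ + P₃) * (π / 2)) := by ring
        rw [e]
        linarith
      have m4 := nonneg_of_mul_nonneg_right m3 hd0
      linarith
    have n1 := mul_nonneg hb.le (sub_nonneg.2 k1)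
    have n2 := mul_nonneg hd.le (sub_nonneg.2 k2)
    have n3 : 0 ≤ x * (B - ((P₂ + P₃) * (π / 2 - b) + (P₃ + P₁) * (π / 2 - d) -
        (P₁ + P₂) * (π / 2 - x))) := by
      have e : x * (B - ((P₂ + P₃) * (π / 2 - b) + (P₃ + P₁) * (π / 2 - d) -
          (P₁ + P₂) * (π / 2 - x))) = b * (B - (P₃ * (π - x) + P₁ * x)) +
          d * (B - (P₃ * (π - x) + P₂ * x)) := by
        rw [hxd]
        ring
      rw [e]
      linarith
    have n4 := nonneg_of_mul_nonneg_right n3 hx0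
    linarith
  have hF' := mul_le_mul_of_nonneg_left hF ht0
  have hE' := mul_le_mul_of_nonneg_left hE (sub_nonneg.2 ht1)
  linarith

end Pool.Agent.C9
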