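import Pool.Agent.Lib.MP_488b8a_co_X.Cst

/-! # Project C9, module Oc: the centre `O` of the circle of radius `r_9` through `T` and `B` -/

set_option autoImplicit false

namespace Pool.Agent.C9

open Real Pool.Agent.C32

/-- PROOF. Let `m = inner T B`; from `Par` (`hc`), `inner T B = gram c b ≥ 2 kp^2 - 1 > -1`. Take
`O = α • (T + B) + γ • vx T B` with `α (1 + m) = kp` and `γ ≥ 0` such that `‖O‖ = 1`
(`‖vx T B‖^2 = 1 - m^2`, `vx` is orthogonal to `T + B`; `kp^2 * 2 / (1 + m) ≤ 1`, with equality only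
if `m = 2 kp^2 - 1`: then `γ = 0`, see below). `dt O T B = γ (1 - m^2)`. The circumcentre of
`C`, `T`, `B` is `n = α' • (T + B) + γ' • vx T B` with `inner n T = inner n B = inner n C = c`
(`α' (1 + m) = c`, so `α' ≥ α`, and `‖n‖ = 1`, so `|γ'| ≤ γ`). As `dt C T B = inner C (vx T B) > 0`:
`c = inner n C = α' inner C (T + B) + γ' dt C T B` and
`inner O C = α inner C (T + B) + γ dt C T B = (α/α') (c - γ' dt C T B) + γ dt C T B ≥ (α/α') c = kp`
because `γ ≥ (α/α') γ'` (`γ' ≤ γ`, `0 < α/α' ≤ 1`, `γ ≥ 0`).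
The existence of `n`: the unit vector of the circumcentre, see `exists_par` in
`MP_488b8a_co_W/Pln.lean` (the hypothesis `hN` gives it directly: `n = c • N`, `c = 1/‖N‖`). If
`γ = 0` is a problem: `c > kp` (hypothesis `hc` strict) and `inner T B = gram c b > 2 kp^2 - 1`. -/
theorem exists_O {C T B N : E3} (hC : ‖C‖ = 1) (hT : ‖T‖ = 1) (hB : ‖B‖ = 1)
    (h1 : inner ℝ N C = 1) (h2 : inner ℝ N T = 1) (h3 : inner ℝ N B = 1)
    (hc : kp < 1 / ‖N‖) (hd : 0 < dt C T B) :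
    ∃ O : E3, ‖O‖ = 1 ∧ inner ℝ O T = kp ∧ inner ℝ O B = kp ∧ 0 < dt O T B ∧
      kp ≤ inner ℝ O C := by
  obtain ⟨m, hm⟩ : ∃ m : ℝ, m = inner ℝ T B := ⟨_, rfl⟩
  obtain ⟨V, hV⟩ : ∃ V : E3, V = vx T B := ⟨_, rfl⟩
  have hTT : inner ℝ T T = 1 := by rw [real_inner_self_eq_norm_sq, hT, one_pow]
  have hBB : inner ℝ B B = 1 := by rw [real_inner_self_eq_norm_sq, hB, one_pow]
  have hBT : inner ℝ B T = m := by rw [real_inner_comm, hm]
  have hTB : inner ℝ T B = m := hm.symm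
  have hTV : inner ℝ T V = 0 := by rw [hV, inner_vx_left]
  have hBV : inner ℝ B V = 0 := by rw [hV, inner_vx_right]
  have hVT : inner ℝ V T = 0 := by rw [real_inner_comm, hTV]
  have hVB : inner ℝ V B = 0 := by rw [real_inner_comm, hBV]
  have hCV : inner ℝ C V = dt C T B := by rw [hV, inner_vx]
  have hVC : inner ℝ V C = dt C T B := by rw [real_inner_comm, hCV]
  have hV2 : ‖V‖ ^ 2 = 1 - m ^ 2 := by rw [hV, vx_norm_sq, hTT, hBB, hTB, one_mul]
  have hVV : inner ℝ V V = 1 - m ^ 2 := by rw [real_inner_self_eq_norm_sq, hV2]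
  have hVne : V ≠ 0 := by
    intro h0
    rw [h0, inner_zero_right] at hCV
    linarith
  have h1m2 : 0 < 1 - m ^ 2 := by
    rw [← hV2]
    exact pow_pos (norm_pos_iff.2 hVne) 2
  have h1m : 0 < 1 + m := by nlinarith
  obtain ⟨s, hs⟩ : ∃ s : ℝ, s = (1 + m)⁻¹ := ⟨_, rfl⟩
  have hs1 : s * (1 + m) = 1 := by rw [hs, inv_mul_cancel₀ h1m.ne']
  obtain ⟨z, hz⟩ : ∃ z : ℝ, N - s • (T + B) = z • V := by
    rw [hV]
    refine eq_smul_vx (by rwa [← hV]) ?_ ?_
    · rw [inner_sub_left, real_inner_smul_left, inner_add_left, h2, hTT, hBT, hs1, sub_self]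
    · rw [inner_sub_left, real_inner_smul_left, inner_add_left, h3, hTB, hBB, add_comm m 1, hs1,
        sub_self]
  have hN : N = s • (T + B) + z • V := by
    rw [← hz]
    abel
  have hsq : ∀ x y : ℝ, ‖(x * s) • (T + B) + y • V‖ ^ 2 = 2 * x ^ 2 * s + y ^ 2 * (1 - m ^ 2) := by
    intro x y
    rw [← real_inner_self_eq_norm_sq]
    simp only [inner_add_left, inner_add_right, real_inner_smul_left, real_inner_smul_right,
      hTT, hBB, hBT, hTB, hTV, hBV, hVT, hVB, hVV]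
    linear_combination (2 * x ^ 2 * s) * hs1
  have hN2 : ‖N‖ ^ 2 = 2 * s + z ^ 2 * (1 - m ^ 2) := by
    have h4 := hsq 1 z
    rw [one_mul, ← hN] at h4
    rw [h4]
    ring
  have hNC : s * inner ℝ (T + B) C + z * dt C T B = 1 := by
    rw [← hVC, ← real_inner_smul_left, ← real_inner_smul_left, ← inner_add_left, ← hN, h1]
  have hkp : 0 < kp := by
    unfold kp
    positivity
  have hNne : N ≠ 0 := by
    intro h0
    rw [h0, inner_zero_left] at h1
    exact zero_ne_one h1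
  have hNpos : 0 < ‖N‖ := norm_pos_iff.2 hNne
  have hkN : kp * ‖N‖ < 1 := by rwa [lt_div_iff₀ hNpos] at hc
  have hkN2 : kp ^ 2 * (2 * s + z ^ 2 * (1 - m ^ 2)) < 1 := by
    rw [← hN2, ← mul_pow]
    exact pow_lt_one₀ (by positivity) hkN (by norm_num)
  have hX : kp ^ 2 * z ^ 2 * (1 - m ^ 2) < 1 - 2 * kp ^ 2 * s := by linarith
  have hX0 : 0 ≤ kp ^ 2 * z ^ 2 * (1 - m ^ 2) := by positivity
  obtain ⟨g, hg⟩ : ∃ g : ℝ, g = √((1 - 2 * kp ^ 2 * s) / (1 - m ^ 2)) := ⟨_, rfl⟩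
  have hXp : 0 < (1 - 2 * kp ^ 2 * s) / (1 - m ^ 2) := div_pos (by linarith) h1m2
  have hg0 : 0 < g := by
    rw [hg]
    exact Real.sqrt_pos.2 hXp
  have hg2 : g ^ 2 * (1 - m ^ 2) = 1 - 2 * kp ^ 2 * s := by
    rw [hg, Real.sq_sqrt hXp.le, div_mul_cancel₀ _ h1m2.ne']
  have hgz : kp * z ≤ g := by
    rw [hg]
    refine (le_abs_self _).trans (Real.abs_le_sqrt ?_)
    rw [le_div_iff₀ h1m2, mul_pow]
    exact hX.le
  refine ⟨(kp * s) • (T + B) + g • V, ?_, ?_, ?_, ?_, ?_⟩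
  · have h4 : ‖(kp * s) • (T + B) + g • V‖ ^ 2 = 1 := by
      rw [hsq kp g, hg2]
      ring
    exact (pow_eq_one_iff_of_nonneg (norm_nonneg _) (by norm_num)).1 h4
  · rw [inner_add_left, real_inner_smul_left, real_inner_smul_left, inner_add_left, hTT, hBT, hVT]
    linear_combination kp * hs1
  · rw [inner_add_left, real_inner_smul_left, real_inner_smul_left, inner_add_left, hTB, hBB, hVB]
    linear_combination kp * hs1
  · rw [← inner_vx, ← hV, inner_add_left, real_inner_smul_left, real_inner_smul_left,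
      inner_add_left, hTV, hBV, hVV, add_zero, mul_zero, zero_add]
    exact mul_pos hg0 h1m2
  · rw [inner_add_left, real_inner_smul_left, real_inner_smul_left, hVC]
    have h4 : 0 ≤ (g - kp * z) * dt C T B := mul_nonneg (by linarith) hd.le
    have h5 : kp * s * inner ℝ (T + B) C = kp * (1 - z * dt C T B) := by
      rw [mul_assoc, ← hNC]
      ring
    rw [h5]
    linarith

/-- PROOF. `O = a C + o`, `O' = a' C + o'` with `o`, `o'` orthogonal to `C`, `a, a' ≥ kp`,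
`‖o‖^2 = 1 - a^2 ≤ sn^2`: `inner O O' = a a' + inner o o' ≥ kp^2 - sn^2`. -/
theorem inner_OO {C O O' : E3} (hC : ‖C‖ = 1) (hO : ‖O‖ = 1) (hO' : ‖O'‖ = 1)
    (h : kp ≤ inner ℝ O C) (h' : kp ≤ inner ℝ O' C) : 2 * kp ^ 2 - 1 ≤ inner ℝ O O' := by
  obtain ⟨a, ha⟩ : ∃ a : ℝ, a = inner ℝ O C := ⟨_, rfl⟩
  obtain ⟨b, hb⟩ : ∃ b : ℝ, b = inner ℝ O' C := ⟨_, rfl⟩
  have hCC : inner ℝ C C = 1 := by rw [real_inner_self_eq_norm_sq, hC, one_pow]
  have hOO : inner ℝ O O = 1 := by rw [real_inner_self_eq_norm_sq, hO, one_pow]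
  have hOO' : inner ℝ O' O' = 1 := by rw [real_inner_self_eq_norm_sq, hO', one_pow]
  have h1 : inner ℝ C O = a := by rw [real_inner_comm, ha]
  have h2 : inner ℝ C O' = b := by rw [real_inner_comm, hb]
  rw [← ha] at h
  rw [← hb] at h'
  have hkp : 0 < kp := by
    unfold kp
    positivity
  have h3 : 0 ≤ ‖(O - a • C) + (O' - b • C)‖ ^ 2 := sq_nonneg _
  have h4 : ‖(O - a • C) + (O' - b • C)‖ ^ 2 =
      2 + 2 * inner ℝ O O' - (a + b) ^ 2 := by
    rw [← real_inner_self_eq_norm_sq]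
    simp only [inner_add_left, inner_add_right, inner_sub_left, inner_sub_right,
      real_inner_smul_left, real_inner_smul_right, hCC, hOO, hOO', h1, h2, ← ha, ← hb,
      real_inner_comm O O']
    ring
  nlinarith [mul_self_nonneg (a - kp), mul_self_nonneg (b - kp), mul_nonneg hkp.le
    (sub_nonneg.2 h), mul_nonneg hkp.le (sub_nonneg.2 h'),
    mul_nonneg (sub_nonneg.2 h) (sub_nonneg.2 h')]

end Pool.Agent.C9
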