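import Pool.Agent.Lib.MP_488b8a_co_X.GwB

/-! # Project C9, module GwA: increase `x` at fixed `S` -/

set_option autoImplicit false

namespace Pool.Agent.C9

open Real Pool.Agent.C32 ComplexConjugate

/-- the cosine of `u` for given `S` and `x = y` -/
private noncomputable def aF (S y : ℝ) : ℝ := (kp * sin y - S) / (sn * cos y)

/-- the cosine of the argument -/
private noncomputable def aG (S y : ℝ) : ℝ := (sin y - kp * S) / (sn * √(1 - S ^ 2))

private theorem aF_lt {S y : ℝ} (hS : 0.48 ≤ S) (h0 : 0 ≤ y) (h1 : y ≤ arccos kp) :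
    aF S y < 1 := by
  obtain ⟨a1, a2, a3, a4⟩ := cs_bounds h0 h1
  have hk := kp_lo
  have hk' := kp_hi
  have hs := sn_lo
  have hs' := sn_hi
  have hcx : 0 < cos y := kp_pos.trans_le a3
  unfold aF
  rw [div_lt_one (mul_pos sn_pos hcx)]
  have e1 : kp * sin y ≤ 0.4999 := by nlinarith [kp_pos, sn_pos]
  have e2 : 0.49 ≤ sn * cos y := by nlinarith
  linarith

private theorem aF_sum {S y : ℝ} (hS' : S ≤ sn) (h0 : 0 ≤ y) (h1 : y ≤ arccos kp) :
    S ≤ kp * sin y + sn * cos y ∧ (0 < y → S < kp * sin y + sn * cos y) := by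
  obtain ⟨a1, a2, a3, a4⟩ := cs_bounds h0 h1
  have hk := kp_lo
  have hs := sn_lo
  have hs' := sn_hi
  have hcx : 0 < cos y := kp_pos.trans_le a3
  have hsc := sin_sq_add_cos_sq y
  have e1 : (kp * sin y + sn * cos y - sn) * (1 + cos y) =
      sin y * (kp * (1 + cos y) - sn * sin y) := by
    linear_combination sn * hsc
  have e2 : 0 < kp * (1 + cos y) - sn * sin y := by nlinarith
  have e3 : 0 < 1 + cos y := by linarith
  constructor
  · have e4 : 0 ≤ (kp * sin y + sn * cos y - sn) * (1 + cos y) := by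
      rw [e1]
      exact mul_nonneg a1 e2.le
    have e5 := nonneg_of_mul_nonneg_left e4 e3
    linarith
  · intro hy
    have hsy : 0 < sin y := sin_pos_of_pos_of_lt_pi hy (by linarith [r_lt, pi_pos])
    have e4 : 0 < (kp * sin y + sn * cos y - sn) * (1 + cos y) := by
      rw [e1]
      exact mul_pos hsy e2
    have e5 := (mul_pos_iff_of_pos_right e3).1 e4
    linarith

private theorem aF_ge {S y : ℝ} (hS' : S ≤ sn) (h0 : 0 ≤ y) (h1 : y ≤ arccos kp) :
    -1 ≤ aF S y ∧ (0 < y → -1 < aF S y) := by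
  obtain ⟨a1, a2, a3, a4⟩ := cs_bounds h0 h1
  have hcx : 0 < cos y := kp_pos.trans_le a3
  obtain ⟨e1, e2⟩ := aF_sum hS' h0 h1
  unfold aF
  constructor
  · rw [le_div_iff₀ (mul_pos sn_pos hcx)]
    linarith
  · intro hy
    rw [lt_div_iff₀ (mul_pos sn_pos hcx)]
    linarith [e2 hy]

private theorem a_Sf {S y : ℝ} (hy : 0 < cos y) (h0 : -1 ≤ aF S y) (h1 : aF S y ≤ 1) :
    Sf (arccos (aF S y)) y = S := by
  unfold Sf
  rw [cos_arccos h0 h1]
  unfold aF
  have := sn_pos
  field_simp
  ring

private theorem a_arg {S y : ℝ} (hS : 0 < S) (hS' : S < 1) (hy : 0 < cos y) (h0 : -1 ≤ aF S y)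
    (h1 : aF S y ≤ 1) : Complex.arg (Pf (arccos (aF S y)) 0 y) = arccos (aG S y) := by
  have hn : Complex.normSq (Pf (arccos (aF S y)) 0 y) = 1 - S ^ 2 := by
    rw [normSq_Pf0, a_Sf hy h0 h1]
  have hp : 0 < 1 - S ^ 2 := by nlinarith
  have hne : Pf (arccos (aF S y)) 0 y ≠ 0 := by
    intro h
    rw [h, map_zero] at hn
    linarith
  have him : 0 ≤ (Pf (arccos (aF S y)) 0 y).im := by
    unfold Pf
    exact mul_nonneg hy.le (sin_nonneg_of_nonneg_of_le_pi (arccos_nonneg _) (arccos_le_pi _))
  rw [Complex.arg_of_im_nonneg_of_ne_zero him hne]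
  congr 1
  have hnorm : ‖Pf (arccos (aF S y)) 0 y‖ = √(1 - S ^ 2) := by
    rw [← hn, Complex.normSq_eq_norm_sq, sqrt_sq (norm_nonneg _)]
  rw [hnorm]
  have hre : (Pf (arccos (aF S y)) 0 y).re = (sin y - kp * S) / sn := by
    unfold Pf
    show kp * cos y * cos (arccos (aF S y)) + sn * sin y * cos 0 = _
    rw [cos_arccos h0 h1, cos_zero]
    unfold aF
    have h3 := kp_sn
    have := sn_pos
    field_simp
    linear_combination (sin y) * h3
  rw [hre]
  unfold aG
  rw [div_div]

private theorem aF_deriv {S y : ℝ} (hy : 0 < cos y) :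
    HasDerivAt (aF S) ((kp - S * sin y) / (sn * cos y ^ 2)) y := by
  have h1 := (((hasDerivAt_sin y).const_mul kp).sub_const S).div
    ((hasDerivAt_cos y).const_mul sn) (mul_pos sn_pos hy).ne'
  refine h1.congr_deriv ?_
  have hsc := sin_sq_add_cos_sq y
  have := sn_pos
  field_simp
  linear_combination kp * hsc

private theorem aG_deriv (S y : ℝ) :
    HasDerivAt (aG S) (cos y / (sn * √(1 - S ^ 2))) y :=
  ((hasDerivAt_sin y).sub_const (kp * S)).div_const _


/-- PROOF (helper96). For fixed `S` put `cos u = f y = (kp sin y - S)/(sn cos y)`,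
`cos (arg) = g y = (sin y - kp S)/(sn √(1 - S^2))`, `y ∈ [x, r]`.
`d/dy (om arccos f - arccos g) = (cos^2 y - om kp + om S sin y) / (sn sin u cos^2 y) > 0`. -/
theorem gw_A {u x : ℝ} (hu : 0 ≤ u) (hu' : u ≤ π) (h0 : 0 ≤ x) (h1 : x ≤ arccos kp)
    (hS : 0.48 ≤ Sf u x) (hS' : Sf u x ≤ sn) :
    ∃ u', 0 ≤ u' ∧ u' ≤ π ∧ 1 - 1 / kp ≤ cos u' ∧ Wf u x ≤ Wf u' (arccos kp) := by
  obtain ⟨S, hSe⟩ : ∃ S, S = Sf u x := ⟨_, rfl⟩
  rw [← hSe] at hS hS'
  have hk := kp_lo
  have hk' := kp_hi
  have hs := sn_lo
  have hs' := sn_hi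
  have hS0 : 0 < S := lt_of_lt_of_le (by norm_num) hS
  have hS1 : S < 1 := lt_of_le_of_lt hS' (by linarith)
  have hcos : ∀ y, 0 ≤ y → y ≤ arccos kp → 0 < cos y := fun y y0 y1 =>
    kp_pos.trans_le (cs_bounds y0 y1).2.2.1
  have hcx := hcos x h0 h1
  have hux : u = arccos (aF S x) := by
    have : aF S x = cos u := by
      rw [hSe]
      unfold aF Sf
      have := sn_pos
      field_simp
      ring
    rw [this, arccos_cos hu hu']
  have hW : ∀ y, 0 ≤ y → y ≤ arccos kp → Wf (arccos (aF S y)) y =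
      om * arccos (aF S y) - arccos (aG S y) - bt / 2 * S ^ 4 := by
    intro y y0 y1
    have b0 := (aF_ge hS' y0 y1).1
    have b1 := (aF_lt hS y0 y1).le
    unfold Wf
    rw [a_Sf (hcos y y0 y1) b0 b1, a_arg hS0 hS1 (hcos y y0 y1) b0 b1]
  have hfr : aF S (arccos kp) = 1 - S / (kp * sn) := by
    unfold aF
    rw [sin_r, cos_r]
    have := sn_pos
    have := kp_pos
    field_simp
  have b0 := (aF_ge hS' (h0.trans h1) le_rfl).1
  have b1 := (aF_lt hS (h0.trans h1) le_rfl).le
  refine ⟨arccos (aF S (arccos kp)), arccos_nonneg _, arccos_le_pi _, ?_, ?_⟩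
  · rw [cos_arccos b0 b1, hfr]
    have h2 : S / (kp * sn) ≤ 1 / kp := by
      rw [div_le_div_iff₀ (mul_pos kp_pos sn_pos) kp_pos]
      nlinarith [kp_pos, sn_pos]
    linarith
  · have hmono : MonotoneOn (fun y => om * arccos (aF S y) - arccos (aG S y))
        (Set.Icc x (arccos kp)) := by
      have hp : 0 < 1 - S ^ 2 := by nlinarith
      have hd : ∀ y ∈ Set.Ioo x (arccos kp), HasDerivAt
          (fun y => om * arccos (aF S y) - arccos (aG S y))
          ((cos y ^ 2 - om * kp + om * S * sin y) /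
            (sn * cos y ^ 2 * √(1 - aF S y ^ 2))) y := by
        intro y hy
        have y0 : 0 ≤ y := h0.trans hy.1.le
        have y1 : y ≤ arccos kp := hy.2.le
        have hcy := hcos y y0 y1
        have f0 := (aF_ge hS' y0 y1).2 (lt_of_le_of_lt h0 hy.1)
        have f1 := aF_lt hS y0 y1
        have hf : 0 < 1 - aF S y ^ 2 := by nlinarith
        have hge : 1 - aG S y ^ 2 = cos y ^ 2 * (1 - aF S y ^ 2) / (1 - S ^ 2) := by
          have hn : Complex.normSq (Pf (arccos (aF S y)) 0 y) = 1 - S ^ 2 := by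
            rw [normSq_Pf0, a_Sf hcy f0.le f1.le]
          rw [normSq_Pf, cos_arccos f0.le f1.le, sin_arccos, cos_zero, mul_pow (cos y),
            sq_sqrt hf.le] at hn
          have h3 := kp_sn
          have hsn := sn_pos
          have e1 : kp * cos y * aF S y + sn * sin y * 1 = (sin y - kp * S) / sn := by
            unfold aF
            field_simp
            linear_combination (sin y) * h3
          rw [e1] at hn
          have e2 : aG S y ^ 2 = ((sin y - kp * S) / sn) ^ 2 / (1 - S ^ 2) := by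
            unfold aG
            rw [div_pow, mul_pow, sq_sqrt hp.le, div_pow, div_div]
          rw [e2, eq_div_iff hp.ne', sub_mul, div_mul_cancel₀ _ hp.ne']
          linarith
        have hg : 0 < 1 - aG S y ^ 2 := by
          rw [hge]
          positivity
        have g1 : aG S y ≠ 1 := by
          intro h
          rw [h] at hg
          norm_num at hg
        have g2 : aG S y ≠ -1 := by
          intro h
          rw [h] at hg
          norm_num at hg
        have d1 := (((Real.hasDerivAt_arccos f0.ne' f1.ne).comp y (aF_deriv (S := S) hcy)).const_mul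
          om).sub ((Real.hasDerivAt_arccos g2 g1).comp y (aG_deriv S y))
        refine d1.congr_deriv ?_
        have hsg : √(1 - aG S y ^ 2) = cos y * √(1 - aF S y ^ 2) / √(1 - S ^ 2) := by
          rw [hge, sqrt_div (by positivity), sqrt_mul (by positivity), sqrt_sq hcy.le]
        rw [hsg]
        have hq : 0 < √(1 - S ^ 2) := sqrt_pos.2 hp
        have hq2 : 0 < √(1 - aF S y ^ 2) := sqrt_pos.2 hf
        have hsn := sn_pos
        field_simp
        ring
      refine monotoneOn_of_deriv_nonneg (convex_Icc _ _) ?_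
        (fun y hy => ?_) (fun y hy => ?_)
      · intro y hy
        have y0 : 0 ≤ y := h0.trans hy.1
        have c1 : ContinuousAt (aF S) y := (aF_deriv (hcos y y0 hy.2)).continuousAt
        have c2 : ContinuousAt (aG S) y := (aG_deriv S y).continuousAt
        exact ((continuousAt_const.mul (Real.continuous_arccos.continuousAt.comp c1)).sub
          (Real.continuous_arccos.continuousAt.comp c2)).continuousWithinAt
      · rw [interior_Icc] at hy
        exact (hd y hy).differentiableAt.differentiableWithinAt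
      · rw [interior_Icc] at hy
        rw [(hd y hy).deriv]
        have y0 : 0 ≤ y := h0.trans hy.1.le
        obtain ⟨a1, a2, a3, a4⟩ := cs_bounds y0 hy.2.le
        have hcy := hcos y y0 hy.2.le
        have hsn := sn_pos
        refine div_nonneg ?_ (by positivity)
        have ho := om_eq
        have h3 := kp_sn
        have e1 : om * sn ^ 2 = kp := by
          rw [ho]
          field_simp
        have hsc := sin_sq_add_cos_sq y
        have hol := om_lo
        have hoh := om_hi
        have q1 : om * kp ≤ 0.9406 := by nlinarith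
        have q2 : 0.6484 ≤ om * S := by nlinarith
        have q3 : 0.6484 * sin y ≤ om * S * sin y := mul_le_mul_of_nonneg_right q2 a1
        have q4 : sin y ≤ 0.717871 := a2.trans hs'.le
        nlinarith
    have h2 := hmono (⟨le_rfl, h1⟩ : x ∈ Set.Icc x (arccos kp)) ⟨h1, le_rfl⟩ h1
    have h3 := hW x h0 h1
    rw [← hux] at h3
    rw [h3, hW (arccos kp) (h0.trans h1) le_rfl]
    simp only [← hux] at h2
    linarith

end Pool.Agent.C9
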