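import Pool.Agent.Lib.MP_488b8a_co_X.GwD

/-! # Project C9, module GwB: increase `x` at fixed `u` -/

set_option autoImplicit false

namespace Pool.Agent.C9

open Real Pool.Agent.C32 ComplexConjugate

theorem gw_arg_eq {a b : ℝ} (hb : 0 < b) : Complex.arg ⟨a, b⟩ = π / 2 - arctan (a / b) := by
  have h1 : (0 : ℝ) < (⟨a, b⟩ : ℂ).im := hb
  rw [Complex.arg_of_im_pos h1, Real.arccos_eq_pi_div_two_sub_arcsin, Real.arctan_eq_arcsin,
    Complex.norm_eq_sqrt_sq_add_sq]
  congr 2
  have h2 : a ^ 2 + b ^ 2 = (1 + (a / b) ^ 2) * b ^ 2 := by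
    field_simp
    ring
  show a / √(a ^ 2 + b ^ 2) = a / b / √(1 + (a / b) ^ 2)
  rw [h2, sqrt_mul (by positivity), sqrt_sq hb.le, div_div, mul_comm b]

theorem gw_arg_Pf {u y : ℝ} (hu : 0 < sin u) (hy : 0 < cos y) :
    Complex.arg (Pf u 0 y) = π / 2 - arctan ((kp * cos u + sn * tan y) / sin u) := by
  unfold Pf
  rw [gw_arg_eq (mul_pos hy hu), cos_zero, tan_eq_sin_div_cos]
  congr 2
  field_simp

theorem Sf_deriv (u y : ℝ) :
    HasDerivAt (fun y => Sf u y) (kp * cos y + sn * sin y * cos u) y := by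
  have h1 := ((hasDerivAt_sin y).const_mul kp).sub
    (((hasDerivAt_cos y).const_mul sn).mul_const (cos u))
  refine h1.congr_deriv ?_
  ring

theorem Wf_deriv {u y : ℝ} (hu : 0 < sin u) (hy : 0 < cos y) :
    HasDerivAt (fun y => Wf u y) (sn * sin u / (1 - Sf u y ^ 2) -
      2 * bt * Sf u y ^ 3 * (kp * cos y + sn * sin y * cos u)) y := by
  have h1 : HasDerivAt (fun y => (kp * cos u + sn * tan y) / sin u)
      ((sn * (1 / cos y ^ 2)) / sin u) y :=
    (((Real.hasDerivAt_tan hy.ne').const_mul sn).const_add (kp * cos u)).div_const (sin u)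
  have h2 := h1.arctan
  have h3 := ((Sf_deriv u y).pow 4).const_mul (bt / 2)
  have h4 := ((hasDerivAt_const y (om * u)).sub ((hasDerivAt_const y (π / 2)).sub h2)).sub h3
  have hev : (fun y => Wf u y) =ᶠ[nhds y] fun y => om * u - (π / 2 -
      arctan ((kp * cos u + sn * tan y) / sin u)) - bt / 2 * Sf u y ^ 4 := by
    have hc : ∀ᶠ z in nhds y, 0 < cos z := continuous_cos.continuousAt.eventually_const_lt hy
    filter_upwards [hc] with z hz
    unfold Wf
    rw [gw_arg_Pf hu hz]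
  refine (h4.congr_of_eventuallyEq hev).congr_deriv ?_
  have h5 : 1 - Sf u y ^ 2 = cos y ^ 2 * (sin u ^ 2 + (kp * cos u + sn * tan y) ^ 2) := by
    rw [← normSq_Pf0, normSq_Pf, cos_zero, tan_eq_sin_div_cos]
    field_simp
    ring
  have h6 : 0 < sin u ^ 2 + (kp * cos u + sn * tan y) ^ 2 := by positivity
  rw [h5]
  have h7 : 1 + ((kp * cos u + sn * tan y) / sin u) ^ 2 =
      (sin u ^ 2 + (kp * cos u + sn * tan y) ^ 2) / sin u ^ 2 := by
    field_simp
  rw [h7]
  push_cast
  field_simp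
  ring

private theorem b_cub {S : ℝ} (h0 : 0 ≤ S) (h1 : S ≤ 0.48) : S ^ 3 * (1 - S ^ 2) ≤ 0.0852 := by
  have h2 : S ^ 2 ≤ 0.2304 := by nlinarith
  nlinarith [mul_nonneg h0 (sub_nonneg.2 h1), mul_nonneg (mul_nonneg h0 h0) (sub_nonneg.2 h1),
    mul_nonneg (mul_nonneg (mul_nonneg h0 h0) h0) (sub_nonneg.2 h2), sq_nonneg (S - 0.48),
    mul_nonneg h0 (sq_nonneg (S - 0.48))]


theorem cs_bounds {y : ℝ} (h0 : 0 ≤ y) (h1 : y ≤ arccos kp) :
    0 ≤ sin y ∧ sin y ≤ sn ∧ kp ≤ cos y ∧ cos y ≤ 1 := by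
  have hr := r_lt
  have hp := pi_pos
  refine ⟨sin_nonneg_of_nonneg_of_le_pi h0 (by linarith), ?_, ?_, cos_le_one y⟩
  · rw [← sin_r]
    exact sin_le_sin_of_le_of_le_pi_div_two (by linarith) hr.le h1
  · rw [← cos_r]
    exact cos_le_cos_of_nonneg_of_le_pi h0 (by linarith) h1

private theorem b_cos {u x : ℝ} (h0 : 0 ≤ x) (h1 : x ≤ arccos kp) (hS : Sf u x ≤ 0.48) :
    -0.669 ≤ cos u := by
  by_contra hc
  push Not at hc
  obtain ⟨a1, a2, a3, a4⟩ := cs_bounds h0 h1
  have hs := sn_lo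
  have hk := kp_lo
  unfold Sf at hS
  have hcs := sin_sq_add_cos_sq x
  have e1 : 1 ≤ cos x + sin x := by nlinarith [mul_nonneg a1 (kp_pos.le.trans a3)]
  have hcx : 0 < cos x := kp_pos.trans_le a3
  have e2 : 0.48025 * cos x ≤ -(sn * cos x * cos u) := by
    have h2 : 0.48025 ≤ sn * -cos u := by nlinarith
    have h3 := mul_le_mul_of_nonneg_right h2 hcx.le
    linarith
  have e3 : 0.48025 * sin x ≤ kp * sin x := mul_le_mul_of_nonneg_right (by linarith) a1
  linarith

private theorem b_M {u y : ℝ} (hc : -0.669 ≤ cos u) (h0 : 0 ≤ y) (h1 : y ≤ arccos kp) :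
    0 < kp * cos y + sn * sin y * cos u := by
  obtain ⟨a1, a2, a3, a4⟩ := cs_bounds h0 h1
  have hs := sn_lo
  have hs' := sn_hi
  have hk := kp_lo
  have e1 : 0.48 ≤ kp * cos y := by nlinarith
  have e2 : sn * sin y ≤ 0.516 := by nlinarith
  have e3 : 0 ≤ sn * sin y := mul_nonneg sn_pos.le a1
  have e4 : -0.669 * 0.516 ≤ sn * sin y * cos u := by nlinarith
  linarith

private theorem b_key {u y : ℝ} (hu0 : 0 < sin u) (hc : -0.669 ≤ cos u) (h0 : 0 ≤ y)
    (h1 : y ≤ arccos kp) (hS : Sf u y ≤ 0.48) :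
    0 ≤ sn * sin u / (1 - Sf u y ^ 2) -
      2 * bt * Sf u y ^ 3 * (kp * cos y + sn * sin y * cos u) := by
  obtain ⟨a1, a2, a3, a4⟩ := cs_bounds h0 h1
  have hs := sn_lo
  have hs' := sn_hi
  have hk := kp_lo
  have hk' := kp_hi
  have hb := bt_hi
  have hb0 := bt_pos
  have hM := b_M hc h0 h1
  have hcx : 0 < cos y := kp_pos.trans_le a3
  have hD : 0 < 1 - Sf u y ^ 2 := by
    rw [← normSq_Pf0, normSq_Pf]
    have := mul_pos hcx hu0
    positivity
  have hsc := sin_sq_add_cos_sq u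
  obtain ⟨M, hMe⟩ : ∃ M, M = kp * cos y + sn * sin y * cos u := ⟨_, rfl⟩
  rw [← hMe] at hM ⊢
  rcases le_total (Sf u y) 0 with hS0 | hS0
  · have e1 : Sf u y ^ 3 ≤ 0 := by
      have : Sf u y ^ 3 = Sf u y * Sf u y ^ 2 := by ring
      rw [this]
      exact mul_nonpos_of_nonpos_of_nonneg hS0 (sq_nonneg _)
    have e2 : 2 * bt * Sf u y ^ 3 * M ≤ 0 := by
      have : 2 * bt * Sf u y ^ 3 * M = (2 * bt * M) * Sf u y ^ 3 := by ring
      rw [this]
      exact mul_nonpos_of_nonneg_of_nonpos (by positivity) e1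
    have e3 : 0 ≤ sn * sin u / (1 - Sf u y ^ 2) := by
      have := sn_pos
      positivity
    linarith
  · have e1 := b_cub hS0 hS
    have key : 2 * bt * (Sf u y ^ 3 * (1 - Sf u y ^ 2)) * M ≤ sn * sin u := by
      obtain ⟨K, hK⟩ : ∃ K, K = Sf u y ^ 3 * (1 - Sf u y ^ 2) := ⟨_, rfl⟩
      have hK0 : 0 ≤ K := by
        rw [hK]
        positivity
      rw [← hK] at e1 ⊢
      have g1 : 2 * bt * K ≤ 8.1028 * K := by nlinarith
      rcases le_total (cos u) 0 with hcu | hcu
      · have f1 : M ≤ kp := by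
          rw [hMe]
          have f2 : sn * sin y * cos u ≤ 0 :=
            mul_nonpos_of_nonneg_of_nonpos (mul_nonneg sn_pos.le a1) hcu
          nlinarith [kp_pos]
        have f3 : 0.743 ≤ sin u := by nlinarith
        calc 2 * bt * K * M ≤ (8.1028 * 0.0852) * 0.696178 :=
              mul_le_mul (g1.trans (by linarith)) (f1.trans hk'.le) hM.le (by norm_num)
          _ ≤ 0.717869 * 0.743 := by norm_num
          _ ≤ sn * sin u := mul_le_mul hs.le f3 (by norm_num) sn_pos.le
      · have f0 : 1 - cos u ≤ sin u := by nlinarith [cos_le_one u]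
        rcases le_total (1 - cos u) 0.8 with hz | hz
        · have f1 : M ≤ 1 := by
            have h3 : M = cos (arccos kp) * cos y * 1 + sin (arccos kp) * sin y * cos u := by
              rw [hMe, cos_r, sin_r]
              ring
            have h4 : M ≤ cos (arccos kp - y) := by
              rw [h3, cos_sub]
              have : sin (arccos kp) * sin y * cos u ≤ sin (arccos kp) * sin y * 1 := by
                refine mul_le_mul_of_nonneg_left (cos_le_one u) ?_
                rw [sin_r]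
                exact mul_nonneg sn_pos.le a1
              linarith
            exact h4.trans (cos_le_one _)
          have f2 : Sf u y ≤ kp * sn * (1 - cos u) := by
            unfold Sf
            have f3 : kp * sin y ≤ kp * sn := mul_le_mul_of_nonneg_left a2 kp_pos.le
            have f4 : sn * kp * cos u ≤ sn * cos y * cos u :=
              mul_le_mul_of_nonneg_right (mul_le_mul_of_nonneg_left a3 sn_pos.le) hcu
            linarith
          have f5 : kp * sn ≤ 0.49977 := by nlinarith [kp_pos, sn_pos]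
          have hz0 : 0 ≤ 1 - cos u := by linarith [cos_le_one u]
          have f6 : Sf u y ≤ 0.49977 * (1 - cos u) :=
            f2.trans (mul_le_mul_of_nonneg_right f5 hz0)
          have f7 : K ≤ (0.49977 * (1 - cos u)) ^ 3 := by
            rw [hK]
            have f8 : Sf u y ^ 3 ≤ (0.49977 * (1 - cos u)) ^ 3 := pow_le_pow_left₀ hS0 f6 3
            have f9 : 0 ≤ Sf u y ^ 3 := by positivity
            have f10 : Sf u y ^ 3 * (1 - Sf u y ^ 2) ≤ Sf u y ^ 3 * 1 :=
              mul_le_mul_of_nonneg_left (by linarith [sq_nonneg (Sf u y)]) f9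
            linarith
          have f11 : (0.49977 * (1 - cos u)) ^ 3 ≤ 0.0799 * (1 - cos u) := by
            have h5 : (1 - cos u) ^ 2 ≤ 0.64 := by nlinarith
            have h6 : (0.49977 * (1 - cos u)) ^ 3 =
              0.49977 ^ 3 * ((1 - cos u) ^ 2 * (1 - cos u)) := by ring
            rw [h6]
            have h7 := mul_le_mul_of_nonneg_right h5 hz0
            nlinarith
          calc 2 * bt * K * M ≤ (8.1028 * K) * 1 :=
                mul_le_mul g1 f1 hM.le (by positivity)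
            _ ≤ 0.717869 * (1 - cos u) := by nlinarith
            _ ≤ sn * sin u := mul_le_mul hs.le f0 hz0 sn_pos.le
        · have f1 : M ≤ 0.8 := by
            rw [hMe]
            have f2 : kp * cos y ≤ kp := by nlinarith [kp_pos]
            have f3 : sn * sin y ≤ 0.516 := by nlinarith
            have f4 : sn * sin y * cos u ≤ 0.516 * 0.2 :=
              mul_le_mul f3 (by linarith) hcu (by norm_num)
            linarith
          calc 2 * bt * K * M ≤ (8.1028 * 0.0852) * 0.8 :=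
                mul_le_mul (g1.trans (by linarith)) f1 hM.le (by norm_num)
            _ ≤ 0.717869 * 0.8 := by norm_num
            _ ≤ sn * sin u := mul_le_mul hs.le (hz.trans f0) (by norm_num) sn_pos.le
    have e2 : 2 * bt * Sf u y ^ 3 * M ≤ sn * sin u / (1 - Sf u y ^ 2) := by
      rw [le_div_iff₀ hD]
      linarith
    linarith

/-- PROOF (helper96). For fixed `u ∈ (0, π)` the derivative of `y ↦ Wf u y` is
`sn sin u / (1 - S^2) - 2 bt S^3 M`, `S = Sf u y`, `M = kp cos y + sn sin y cos u = dS/dy`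
(`d arg = -sn sin u/(1 - S^2)`). It is `≥ 0` as long as `S ≤ 0.48`. -/
theorem gw_B {u x : ℝ} (hu : 0 ≤ u) (hu' : u ≤ π) (h0 : 0 ≤ x) (h1 : x ≤ arccos kp)
    (hS : Sf u x ≤ 0.48) :
    ∃ x', x ≤ x' ∧ x' ≤ arccos kp ∧ Sf u x' ≤ 0.48 ∧ (x' = arccos kp ∨ Sf u x' = 0.48) ∧
      Wf u x ≤ Wf u x' := by
  have hc := b_cos h0 h1 hS
  have hr := r_lt
  have hp := pi_pos
  have hmono : MonotoneOn (fun y => Sf u y) (Set.Icc x (arccos kp)) := by
    refine monotoneOn_of_deriv_nonneg (convex_Icc _ _)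
      (fun y _ => (Sf_deriv u y).continuousAt.continuousWithinAt)
      (fun y _ => (Sf_deriv u y).differentiableAt.differentiableWithinAt) ?_
    intro y hy
    rw [interior_Icc] at hy
    rw [(Sf_deriv u y).deriv]
    exact (b_M hc (h0.trans hy.1.le) hy.2.le).le
  obtain ⟨x', g1, g2, g3, g4⟩ : ∃ x', x ≤ x' ∧ x' ≤ arccos kp ∧ Sf u x' ≤ 0.48 ∧
      (x' = arccos kp ∨ Sf u x' = 0.48) := by
    rcases le_total (Sf u (arccos kp)) 0.48 with h | h
    · exact ⟨arccos kp, h1, le_rfl, h, Or.inl rfl⟩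
    · have hcont : ContinuousOn (fun y => Sf u y) (Set.Icc x (arccos kp)) :=
        fun y _ => (Sf_deriv u y).continuousAt.continuousWithinAt
      have hmem : (0.48 : ℝ) ∈ Set.Icc (Sf u x) (Sf u (arccos kp)) := ⟨hS, h⟩
      obtain ⟨y, hy, he⟩ := intermediate_value_Icc h1 hcont hmem
      exact ⟨y, hy.1, hy.2, le_of_eq he, Or.inr he⟩
  refine ⟨x', g1, g2, g3, g4, ?_⟩
  rcases eq_or_lt_of_le hu with hu0 | hu0
  · -- `u = 0`
    have hW : ∀ y, 0 ≤ y → y ≤ arccos kp → Wf u y = -(bt / 2 * Sf u y ^ 4) := by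
      intro y y0 y1
      obtain ⟨a1, a2, a3, a4⟩ := cs_bounds y0 y1
      unfold Wf Pf
      rw [← hu0, sin_zero, cos_zero, mul_zero, mul_zero]
      have hre : 0 ≤ kp * cos y * 1 + sn * sin y * 1 := by
        have := kp_pos
        have := sn_pos
        have : 0 ≤ cos y := (kp_pos.trans_le a3).le
        positivity
      have : (⟨kp * cos y * 1 + sn * sin y * 1, 0⟩ : ℂ) =
          ((kp * cos y * 1 + sn * sin y * 1 : ℝ) : ℂ) := rfl
      rw [this, Complex.arg_ofReal_of_nonneg hre]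
      ring
    have hneg : Sf u x' ≤ 0 := by
      obtain ⟨a1, a2, a3, a4⟩ := cs_bounds (h0.trans g1) g2
      unfold Sf
      rw [← hu0, cos_zero]
      have k1 : kp * sin x' ≤ kp * sn := mul_le_mul_of_nonneg_left a2 kp_pos.le
      have k2 : sn * kp ≤ sn * cos x' := mul_le_mul_of_nonneg_left a3 sn_pos.le
      linarith
    have hle : Sf u x ≤ Sf u x' := hmono ⟨le_rfl, h1⟩ ⟨g1, g2⟩ g1
    rw [hW x h0 h1, hW x' (h0.trans g1) g2]
    have h4 : Sf u x' ^ 4 ≤ Sf u x ^ 4 := by
      have e1 : Sf u x' ^ 4 = (-Sf u x') ^ 4 := by ring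
      have e2 : Sf u x ^ 4 = (-Sf u x) ^ 4 := by ring
      rw [e1, e2]
      exact pow_le_pow_left₀ (by linarith) (by linarith) 4
    have := mul_le_mul_of_nonneg_left h4 (show 0 ≤ bt / 2 by linarith [bt_pos])
    linarith
  · have hu1 : u < π := by
      rcases eq_or_lt_of_le hu' with h | h
      · exfalso
        rw [h, cos_pi] at hc
        norm_num at hc
      · exact h
    have hsu : 0 < sin u := sin_pos_of_pos_of_lt_pi hu0 hu1
    have hcos : ∀ y, 0 ≤ y → y ≤ arccos kp → 0 < cos y := fun y y0 y1 =>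
      kp_pos.trans_le (cs_bounds y0 y1).2.2.1
    have hm : MonotoneOn (fun y => Wf u y) (Set.Icc x x') := by
      refine monotoneOn_of_deriv_nonneg (convex_Icc _ _)
        (fun y hy => (Wf_deriv hsu (hcos y (h0.trans hy.1)
          (hy.2.trans g2))).continuousAt.continuousWithinAt) ?_ ?_
      · intro y hy
        rw [interior_Icc] at hy
        exact (Wf_deriv hsu (hcos y (h0.trans hy.1.le)
          (hy.2.le.trans g2))).differentiableAt.differentiableWithinAt
      · intro y hy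
        rw [interior_Icc] at hy
        rw [(Wf_deriv hsu (hcos y (h0.trans hy.1.le) (hy.2.le.trans g2))).deriv]
        have hSy : Sf u y ≤ 0.48 :=
          (hmono ⟨hy.1.le, hy.2.le.trans g2⟩ ⟨g1, g2⟩ hy.2.le).trans g3
        exact b_key hsu hc (h0.trans hy.1.le) (hy.2.le.trans g2) hSy
    exact hm ⟨le_rfl, g1⟩ ⟨g1, le_rfl⟩ g1

end Pool.Agent.C9
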