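import Pool.Agent.Lib.MP_488b8a_co_X.GwD

/-! # Project C9, module GwN: reduction of the main inequality to `v = 0`, and `cos v ≤ 0` -/

set_option autoImplicit false

namespace Pool.Agent.C9

open Real Pool.Agent.C32 ComplexConjugate

/-- PROOF. `x' = arctan (tan x cos v)`, so `0 ≤ x' ≤ x` (`0 ≤ cos v ≤ 1`, `0 ≤ x < π/2`), and
`Pf u v x = (cos x / cos x') • Pf u 0 x'` (`Pf u v x = cos x (kp cos u + sn tan x cos v + i sin u)`),
the factor is in `(0, 1]` (`cos` is decreasing). The arguments are equal (`Complex.arg_real_mul`),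
`normSq (Pf u v x) ≤ normSq (Pf u 0 x') = 1 - S^2` (`normSq_Pf0`), so `S^2 ≤ 1 - kp^2 = sn^2` and
`(1 - normSq (Pf u v x))^2 ≥ S^4`. -/
theorem gw_v {u v x : ℝ} (h0 : 0 ≤ x) (h1 : x ≤ arccos kp) (hv : 0 ≤ cos v)
    (hP : kp ^ 2 ≤ Complex.normSq (Pf u v x)) :
    ∃ x', 0 ≤ x' ∧ x' ≤ arccos kp ∧ Sf u x' ≤ sn ∧
      om * u - Complex.arg (Pf u v x) - bt / 2 * (1 - Complex.normSq (Pf u v x)) ^ 2 ≤
        Wf u x' := by
  have hr := r_lt
  have hxp : x < π / 2 := lt_of_le_of_lt h1 hr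
  have hcx : 0 < cos x := cos_pos_of_mem_Ioo ⟨by linarith [pi_pos], hxp⟩
  have hc1 : cos v ≤ 1 := cos_le_one v
  have htx : 0 ≤ tan x := tan_nonneg_of_nonneg_of_le_pi_div_two h0 hxp.le
  have ht0 : 0 ≤ tan x * cos v := mul_nonneg htx hv
  have ht1 : tan x * cos v ≤ tan x := mul_le_of_le_one_right htx hc1
  obtain ⟨x', hx'⟩ : ∃ x', x' = arctan (tan x * cos v) := ⟨_, rfl⟩
  have hx0 : 0 ≤ x' := by
    rw [hx']
    exact arctan_nonneg.2 ht0
  have hxx : x' ≤ x := by
    rw [hx']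
    calc arctan (tan x * cos v) ≤ arctan (tan x) := arctan_mono ht1
      _ = x := arctan_tan (by linarith [pi_pos]) hxp
  have hcx' : 0 < cos x' := cos_pos_of_mem_Ioo ⟨by linarith [pi_pos], by linarith⟩
  have hcc : cos x ≤ cos x' := cos_le_cos_of_nonneg_of_le_pi hx0 (by linarith [pi_pos]) hxx
  have htan : sin x' = tan x * cos v * cos x' := by
    have h : tan x' = tan x * cos v := by rw [hx', tan_arctan]
    rw [← h, tan_mul_cos hcx'.ne']
  have hsx : tan x * cos x = sin x := tan_mul_cos hcx.ne'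
  obtain ⟨l, hl⟩ : ∃ l, l = cos x / cos x' := ⟨_, rfl⟩
  have hl0 : 0 < l := by
    rw [hl]
    positivity
  have hl1 : l ≤ 1 := by
    rw [hl]
    exact (div_le_one hcx').2 hcc
  have hlc : l * cos x' = cos x := by
    rw [hl]
    field_simp
  have hls : l * sin x' = sin x * cos v := by
    rw [htan, ← hsx]
    calc l * (tan x * cos v * cos x') = tan x * cos v * (l * cos x') := by ring
      _ = tan x * cos x * cos v := by rw [hlc]; ring
  have hPf : Pf u v x = (l : ℂ) * Pf u 0 x' := by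
    unfold Pf
    apply Complex.ext
    · simp only [Complex.re_ofReal_mul, cos_zero]
      linear_combination (-(kp * cos u)) * hlc - sn * hls
    · simp only [Complex.im_ofReal_mul]
      linear_combination (-(sin u)) * hlc
  have harg : Complex.arg (Pf u v x) = Complex.arg (Pf u 0 x') := by
    rw [hPf, Complex.arg_real_mul _ hl0]
  have hN : Complex.normSq (Pf u v x) = l ^ 2 * (1 - Sf u x' ^ 2) := by
    rw [hPf, Complex.normSq_mul, normSq_Pf0, Complex.normSq_ofReal]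
    ring
  have hN0 : 0 ≤ 1 - Sf u x' ^ 2 := by
    rw [← normSq_Pf0]
    exact Complex.normSq_nonneg _
  have hN1 : Complex.normSq (Pf u v x) ≤ 1 - Sf u x' ^ 2 := by
    rw [hN]
    have : l ^ 2 ≤ 1 := by nlinarith
    nlinarith
  have hS : Sf u x' ^ 2 ≤ sn ^ 2 := by linarith [kp_sn]
  refine ⟨x', hx0, hxx.trans h1, ?_, ?_⟩
  · by_contra hlt
    push Not at hlt
    nlinarith [sn_pos]
  · unfold Wf
    rw [harg]
    have h4 : Sf u x' ^ 4 ≤ (1 - Complex.normSq (Pf u v x)) ^ 2 := by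
      have h5 : 0 ≤ Sf u x' ^ 2 := sq_nonneg _
      have h6 : Sf u x' ^ 2 ≤ 1 - Complex.normSq (Pf u v x) := by linarith
      calc Sf u x' ^ 4 = (Sf u x' ^ 2) ^ 2 := by ring
        _ ≤ (1 - Complex.normSq (Pf u v x)) ^ 2 := pow_le_pow_left₀ h5 h6 2
    have h7 := mul_le_mul_of_nonneg_left h4 (by linarith [bt_pos] : 0 ≤ bt / 2)
    linarith

private theorem neg_num : 0.0104 < Ws - (om - 1) * π := by
  have h1 := om_lo
  have h2 := om_hi
  have h3 := us_lo
  have h4 := us_hi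
  have h5 := ph_us_hi
  have h6 := ph_third_hi
  have h7 := bt_hi
  have h8 := sn_hi
  have h9 := bt_pos
  have h10 := sn_pos
  have hp := pi_lt_d6
  have e1 : (1.3509 : ℝ) * 1.81725 < om * us :=
    mul_lt_mul h1 h3.le (by norm_num) (by linarith)
  have e2 : sn ^ 4 ≤ 0.717871 ^ 4 := pow_le_pow_left₀ h10.le h8.le 4
  have e3 : bt * sn ^ 4 ≤ 4.0514 * 0.717871 ^ 4 :=
    mul_le_mul h7.le e2 (by positivity) (by norm_num)
  have e4 : (om - 1) * π ≤ 0.3510 * 3.141593 :=
    mul_le_mul (by linarith) hp.le pi_pos.le (by norm_num)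
  unfold Ws
  norm_num at e1 e3 e4 h5 h6 ⊢
  linarith

private theorem neg_dph : dph kp (π - us) = om := by
  unfold om dph
  rw [cos_pi_sub, sin_pi_sub, neg_sq]

/-- case `u ≤ π / 2` -/
private theorem neg_small {u x a : ℝ} (hu : 0 < u) (hu' : u ≤ π / 2)
    (hx : 0 < cos x) (ha : a ≤ kp * cos x * cos u) :
    u ≤ Complex.arg ⟨a, cos x * sin u⟩ := by
  by_contra hlt
  push Not at hlt
  have hk := kp_lt_one
  have hsu : 0 < sin u := sin_pos_of_pos_of_lt_pi hu (by linarith [pi_pos])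
  have hcu : 0 ≤ cos u := cos_nonneg_of_mem_Icc ⟨by linarith [pi_pos], hu'⟩
  have hb : 0 < cos x * sin u := mul_pos hx hsu
  obtain ⟨z, hz⟩ : ∃ z : ℂ, z = ⟨a, cos x * sin u⟩ := ⟨_, rfl⟩
  rw [← hz] at hlt
  have hre : z.re = a := by rw [hz]
  have him : z.im = cos x * sin u := by rw [hz]
  have harg : 0 ≤ Complex.arg z := Complex.arg_nonneg_iff.2 (by rw [him]; exact hb.le)
  have hz0 : 0 < ‖z‖ := by
    rw [norm_pos_iff]
    intro h
    rw [h] at him
    simp only [Complex.zero_im] at him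
    linarith
  have h1 := Complex.norm_mul_cos_arg z
  have h2 := Complex.norm_mul_sin_arg z
  rw [hre] at h1
  rw [him] at h2
  have h3 : 0 < sin (u - Complex.arg z) :=
    sin_pos_of_pos_of_lt_pi (by linarith) (by linarith [pi_pos])
  have h4 : 0 < ‖z‖ * sin (u - Complex.arg z) := mul_pos hz0 h3
  have h5 : ‖z‖ * sin (u - Complex.arg z) = sin u * (a - cos x * cos u) := by
    rw [sin_sub]
    linear_combination (sin u) * h1 - (cos u) * h2
  have h6 : a - cos x * cos u ≤ 0 := by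
    have : kp * (cos x * cos u) ≤ 1 * (cos x * cos u) :=
      mul_le_mul_of_nonneg_right hk.le (mul_nonneg hx.le hcu)
    linarith
  have h7 : sin u * (a - cos x * cos u) ≤ 0 := mul_nonpos_of_nonneg_of_nonpos hsu.le h6
  linarith

/-- step (1) -/
private theorem neg_ph {w x a k r : ℝ} (hw : 0 ≤ w) (hw' : w ≤ π / 2)
    (ha : kp * cos x * cos w ≤ a) (hr : 0 < r) (hk' : k ≤ π / 2)
    (h1 : r * cos k = a) (h2 : r * sin k = cos x * sin w) :
    k ≤ ph kp (π / 2 - w) := by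
  by_contra hlt
  push Not at hlt
  have hkp := kp_pos
  have hsw : 0 ≤ sin w := sin_nonneg_of_nonneg_of_le_pi hw (by linarith [pi_pos])
  have hcw : 0 ≤ cos w := cos_nonneg_of_mem_Icc ⟨by linarith [pi_pos], hw'⟩
  have h3 := sin_ph (c := kp) (z := π / 2 - w) hkp
  have h4 := cos_ph (c := kp) (z := π / 2 - w) hkp
  have h0 : 0 ≤ ph kp (π / 2 - w) := ph_nonneg hkp (by linarith) (by linarith)
  rw [cos_pi_div_two_sub, sin_pi_div_two_sub] at h3 h4
  have hD : 0 < sin w ^ 2 + kp ^ 2 * cos w ^ 2 := by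
    have hsc := sin_sq_add_cos_sq w
    have hkn := kp_sn
    have hc2 : cos w ^ 2 ≤ 1 := by linarith [sq_nonneg (sin w)]
    have hsc2 : sn ^ 2 * cos w ^ 2 ≤ sn ^ 2 * 1 := mul_le_mul_of_nonneg_left hc2 (sq_nonneg sn)
    have hkc : kp ^ 2 * cos w ^ 2 = cos w ^ 2 - sn ^ 2 * cos w ^ 2 := by
      linear_combination (cos w ^ 2) * hkn
    have hkp2 : 0 < kp ^ 2 := pow_pos hkp 2
    linarith
  have hDs : 0 < √(sin w ^ 2 + kp ^ 2 * cos w ^ 2) := sqrt_pos.2 hD
  obtain ⟨D, hDD⟩ : ∃ D, D = √(sin w ^ 2 + kp ^ 2 * cos w ^ 2) := ⟨_, rfl⟩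
  rw [← hDD] at h3 h4 hDs
  have h5 : D * sin (ph kp (π / 2 - w)) = sin w := by
    rw [h3]
    field_simp
  have h6 : D * cos (ph kp (π / 2 - w)) = kp * cos w := by
    rw [h4]
    field_simp
  have h7 : 0 < sin (k - ph kp (π / 2 - w)) :=
    sin_pos_of_pos_of_lt_pi (by linarith) (by linarith [pi_pos])
  have h8 : 0 < r * D * sin (k - ph kp (π / 2 - w)) := mul_pos (mul_pos hr hDs) h7
  have h9 : r * D * sin (k - ph kp (π / 2 - w)) = sin w * (kp * cos x * cos w - a) := by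
    rw [sin_sub]
    calc r * D * (sin k * cos (ph kp (π / 2 - w)) - cos k * sin (ph kp (π / 2 - w)))
        = (r * sin k) * (D * cos (ph kp (π / 2 - w))) -
          (r * cos k) * (D * sin (ph kp (π / 2 - w))) := by ring
      _ = sin w * (kp * cos x * cos w - a) := by
          rw [h1, h2, h5, h6]
          ring
  have h10 : sin w * (kp * cos x * cos w - a) ≤ 0 :=
    mul_nonpos_of_nonneg_of_nonpos hsw (by linarith)
  linarith

/-- steps (3), (4): `sin (om w) ≥ 1.025 sin w` -/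
private theorem neg_sin {w : ℝ} (hw : 0 < w) (hw' : om * w ≤ π / 2) :
    1.025 * sin w ≤ sin (om * w) := by
  have h1 := om_lo
  have h2 := om_hi
  have hp := pi_lt_d6
  have hw1 : w < 1.163 := by
    by_contra h
    push Not at h
    have : (1.3509 : ℝ) * 1.163 ≤ om * w :=
      mul_le_mul h1.le h (by norm_num) (by linarith)
    norm_num at this
    linarith
  have hsw : 0 ≤ sin w := sin_nonneg_of_nonneg_of_le_pi hw.le (by linarith [pi_gt_three])
  have hswl : sin w ≤ w := sin_le hw.le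
  obtain ⟨d, hd⟩ : ∃ d, d = om - 1 := ⟨_, rfl⟩
  have hd1 : 0.3509 < d := by rw [hd]; linarith
  have hd2 : d < 0.3510 := by rw [hd]; linarith
  have hdw0 : 0 < d * w := by
    apply mul_pos _ hw
    linarith
  have hdw1 : d * w ≤ 0.409 := by
    have : d * w ≤ 0.3510 * 1.163 := mul_le_mul hd2.le hw1.le hw.le (by norm_num)
    norm_num at this ⊢
    linarith
  have hdw2 : (d * w) ^ 2 ≤ 0.409 ^ 2 := pow_le_pow_left₀ hdw0.le hdw1 2
  have c1 := one_sub_sq_div_two_le_cos (x := d * w)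
  have c2 := sin_gt_sub_cube hdw0
  have c3 := one_sub_sq_div_two_le_cos (x := w)
  have hw2 : w ^ 2 ≤ 1.163 ^ 2 := pow_le_pow_left₀ hw.le hw1.le 2
  have c1' : 0.916 ≤ cos (d * w) := by
    norm_num at hdw2 ⊢
    linarith
  have c3' : 0.3236 ≤ cos w := by
    norm_num at hw2 ⊢
    linarith
  have c2' : 0.336 * sin w ≤ sin (d * w) := by
    have e1 : (d * w) ^ 3 = (d * w) * (d * w) ^ 2 := by ring
    have e2 : (d * w) * (d * w) ^ 2 ≤ (d * w) * 0.409 ^ 2 :=
      mul_le_mul_of_nonneg_left hdw2 hdw0.le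
    have e3 : 0.3509 * w ≤ d * w := mul_le_mul_of_nonneg_right hd1.le hw.le
    norm_num at e2 e3 ⊢
    nlinarith
  have e : om * w = w + d * w := by rw [hd]; ring
  rw [e, sin_add]
  have e4 : sin w * 0.916 ≤ sin w * cos (d * w) := mul_le_mul_of_nonneg_left c1' hsw
  have e5 : 0.3236 * (0.336 * sin w) ≤ cos w * sin (d * w) :=
    mul_le_mul c3' c2' (by positivity) (by linarith)
  norm_num at e4 e5 ⊢
  nlinarith

/-- the final case -/
private theorem neg_fin {w x r k : ℝ} (hw : 0 ≤ w) (hw' : w ≤ π / 2)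
    (hr : 0 < r) (hk' : k ≤ π / 2) (h2 : r * sin k = cos x * sin w)
    (hph : k ≤ ph kp (π / 2 - w)) :
    k ≤ 0.0104 + om * w + bt / 2 * (1 - r ^ 2) ^ 2 := by
  have hbt := bt_lo
  have hsq : 0 ≤ bt / 2 * (1 - r ^ 2) ^ 2 := mul_nonneg (by linarith [bt_pos]) (sq_nonneg _)
  rcases le_or_gt k (0.0104 + om * w) with hle | hgt
  · linarith
  have ho1 := om_lo
  have hus := us_lo
  have hus2 := us_hi
  have hpg := pi_gt_d6
  have hpl := pi_lt_d6
  have htan := ph_tan (c := kp) (z0 := π - us) (z := π / 2 - w) kp_pos kp_lt_one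
    (by norm_num at hus2 hpg ⊢; linarith) (by norm_num at hus hpl ⊢; linarith)
    (by linarith) (by linarith)
  rw [neg_dph] at htan
  have hup := ph_us_hi
  have hk1 : k ≤ om * w + 0.0139 := by
    have e1 : (1.3509 : ℝ) * (1.81725 - 3.141593 / 2) ≤ om * (us - π / 2) :=
      mul_le_mul ho1.le (by linarith) (by norm_num) (by linarith)
    norm_num at e1 hup ⊢
    linarith
  have hom0 : 0 ≤ om * w := mul_nonneg (by linarith) hw
  have hk0 : 0 < k := by linarith
  have hsk : 0 < sin k := sin_pos_of_pos_of_lt_pi hk0 (by linarith)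
  have hsw : 0 ≤ sin w := sin_nonneg_of_nonneg_of_le_pi hw (by linarith)
  have hsw0 : 0 < sin w := by
    rcases hsw.eq_or_lt with h | h
    · rw [← h, mul_zero] at h2
      have := mul_pos hr hsk
      linarith
    · exact h
  have hw0 : 0 < w := by
    rcases hw.eq_or_lt with h | h
    · rw [← h, sin_zero] at hsw0
      exact absurd hsw0 (lt_irrefl _)
    · exact h
  have hs1 := neg_sin hw0 (by linarith)
  have hs2 : sin (om * w) ≤ sin k :=
    sin_le_sin_of_le_of_le_pi_div_two (by linarith) hk' (by linarith)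
  have hs3 : r * (1.025 * sin w) ≤ sin w := by
    have e1 : r * (1.025 * sin w) ≤ r * sin k := mul_le_mul_of_nonneg_left (by linarith) hr.le
    have e2 : cos x * sin w ≤ 1 * sin w := mul_le_mul_of_nonneg_right (cos_le_one x) hsw
    linarith
  have hr1 : r * 1.025 ≤ 1 := by
    by_contra hcon
    push Not at hcon
    have : 1 * sin w < r * 1.025 * sin w := mul_lt_mul_of_pos_right hcon hsw0
    linarith
  have hr2 : r ≤ 0.97561 := by
    norm_num at hr1 ⊢
    linarith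
  have hr3 : r ^ 2 ≤ 0.97561 ^ 2 := pow_le_pow_left₀ hr.le hr2 2
  have hN : 0.048 ≤ 1 - r ^ 2 := by
    norm_num at hr3 ⊢
    linarith
  have hN2 : (0.048 : ℝ) ^ 2 ≤ (1 - r ^ 2) ^ 2 := pow_le_pow_left₀ (by norm_num) hN 2
  have hfin : (4.0512 : ℝ) / 2 * 0.048 ^ 2 ≤ bt / 2 * (1 - r ^ 2) ^ 2 :=
    mul_le_mul (by linarith) hN2 (by norm_num) (by linarith [bt_pos])
  norm_num at hfin hk1 ⊢
  linarith

/-- PROOF. Put `u₁ = π - u`, `P₁ = Pf (π - u) (π - v) x = - conj (Pf u v x)`, same `normSq`, and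
`k = arg P₁ = π - arg (Pf u v x)` (imaginary part `cos x sin u ≥ 0`; if it is `0` (`u = 0` or
`u = π`) check directly, `Complex.arg` of a real number; in fact for `u = 0`,
`arg (Pf u v x) ≥ 0` is enough: the left side is `≤ 0 ≤ Ws`). The claim becomes
`k ≤ om u₁ + bt/2 (1 - R^2)^2 + (Ws - (om - 1) π)`, `R^2 = normSq P₁`, and
`Ws - (om - 1) π > 0.0104` (`om_lo`, `om_hi`, `us_lo`, `ph_us_hi`, `ph_third_hi`, `bt_hi`, `sn_hi`:
`Ws > 1.11316`, `(om - 1) π < 1.10271`).
(1) As `cos (π - v) ≥ 0`, the real part of `P₁` is at least `kp cos x cos u₁`, so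
`k ≤ arg (kp cos u₁ + i sin u₁) = ph kp (π/2 - u₁)` (definition of `ph`).
(2) If `u₁ ≥ π/2`: `arg (kp cos u₁ + i sin u₁) ≤ u₁ ≤ om u₁` (`kp cos u₁ ≥ cos u₁`).
(3) If `1 ≤ u₁ ≤ π/2`: `ph kp (π/2 - u₁) ≤ om u₁`: for `u₁ ≥ 1.17` the left side is `≤ π/2 < 1.17 om`
(`ph_le`), for `1 ≤ u₁ ≤ 1.17` it is (`ph_anti`) at most `ph kp (π/2 - 1.17) < om`; or by (4).
(4) If `0 < u₁ ≤ π/2`: the tangent line (`ph_tan` at `π - us`, `dph kp (π - us) = om`) gives
`ph kp (π/2 - u₁) ≤ om u₁ + ph kp (π - us) - om (us - π/2) ≤ om u₁ + 0.0139`. So if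
`k > om u₁ + 0.0104` (otherwise done) it remains to show `bt/2 (1 - R^2)^2 ≥ 0.0035`, e.g.
`1 - R^2 ≥ 0.05`. Here `k ≤ π/2` (the real part is `≥ 0`), `om u₁ < k ≤ π/2`, so
`sin k ≥ sin (om u₁)`, and `R sin k = cos x sin u₁ ≤ sin u₁`, so `R ≤ sin u₁ / sin (om u₁)`, and
`sin (om u₁) ≥ 1.03 sin u₁` for `0 < om u₁ ≤ π/2`: `sin (om y) - sin y =
2 sin ((om-1) y/2) cos ((om+1) y/2)`; e.g. for `y ≤ 1`: `sin (om y) ≥ 1.04 sin y` by
`sin (om y) = sin y cos ((om-1) y) + cos y sin ((om-1) y)`, `cos ((om-1) y) ≥ 0.938`,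
`sin ((om-1) y) ≥ 0.34 y ≥ 0.34 sin y`, `cos y ≥ 0.54`: the ratio is at least
`0.938 + 0.54 * 0.34 = 1.12`; and `y ≥ 1` is (3). So `R^2 ≤ 1/1.03^2 < 0.943`. -/
theorem gw_neg {u v x : ℝ} (hu : 0 ≤ u) (hu' : u ≤ π) (h0 : 0 ≤ x) (h1 : x ≤ π / 2)
    (hx : kp ≤ cos x) (hv : cos v ≤ 0) :
    om * u - Complex.arg (Pf u v x) - bt / 2 * (1 - Complex.normSq (Pf u v x)) ^ 2 ≤ Ws := by
  have hnum := neg_num
  have ho1 := om_lo
  have ho2 := om_hi
  have hp := pi_pos
  have hcx : 0 < cos x := lt_of_lt_of_le kp_pos hx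
  have hsx : 0 ≤ sin x := sin_nonneg_of_nonneg_of_le_pi h0 (by linarith)
  have hsu : 0 ≤ sin u := sin_nonneg_of_nonneg_of_le_pi hu hu'
  have hsn := sn_pos
  have hsq : 0 ≤ bt / 2 * (1 - Complex.normSq (Pf u v x)) ^ 2 :=
    mul_nonneg (by linarith [bt_pos]) (sq_nonneg _)
  have hneg : sn * sin x * cos v ≤ 0 :=
    mul_nonpos_of_nonneg_of_nonpos (mul_nonneg hsn.le hsx) hv
  have him : (Pf u v x).im = cos x * sin u := rfl
  have hre : (Pf u v x).re = kp * cos x * cos u + sn * sin x * cos v := rfl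
  have harg0 : 0 ≤ Complex.arg (Pf u v x) :=
    Complex.arg_nonneg_iff.2 (by rw [him]; exact mul_nonneg hcx.le hsu)
  have hdp : 0 < (om - 1) * π := mul_pos (by linarith) hp
  rcases le_or_gt u (π / 2) with hle | hgt
  · -- case `u ≤ π / 2`
    have hub : u ≤ Complex.arg (Pf u v x) := by
      rcases hu.eq_or_lt with h | h
      · rw [← h]
        rw [← h] at harg0
        exact harg0
      · exact neg_small h hle hcx (by linarith)
    have e1 : (om - 1) * u ≤ (om - 1) * π := mul_le_mul_of_nonneg_left hu' (by linarith)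
    linarith
  · obtain ⟨w, hw⟩ : ∃ w, w = π - u := ⟨_, rfl⟩
    obtain ⟨k, hk⟩ : ∃ k, k = π - Complex.arg (Pf u v x) := ⟨_, rfl⟩
    have hw0 : 0 ≤ w := by linarith
    have hw1 : w < π / 2 := by linarith
    have hcw : 0 < cos w := cos_pos_of_mem_Ioo ⟨by linarith, hw1⟩
    have hcu : cos u = -cos w := by rw [hw, cos_pi_sub, neg_neg]
    have hsu' : sin u = sin w := by rw [hw, sin_pi_sub]
    have hre' : (Pf u v x).re ≤ -(kp * cos x * cos w) := by
      rw [hre, hcu]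
      linarith
    have hkc : 0 < kp * cos x * cos w := mul_pos (mul_pos kp_pos hcx) hcw
    have hz0 : 0 < ‖Pf u v x‖ := by
      rw [norm_pos_iff]
      intro h
      rw [h] at hre'
      simp only [Complex.zero_re] at hre'
      linarith
    have g1 := Complex.norm_mul_cos_arg (Pf u v x)
    have g2 := Complex.norm_mul_sin_arg (Pf u v x)
    rw [him, hsu'] at g2
    have hcos : cos k = -cos (Complex.arg (Pf u v x)) := by rw [hk, cos_pi_sub]
    have hsin : sin k = sin (Complex.arg (Pf u v x)) := by rw [hk, sin_pi_sub]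
    have g3 : ‖Pf u v x‖ * cos k = -(Pf u v x).re := by
      rw [hcos]
      linarith
    have g4 : ‖Pf u v x‖ * sin k = cos x * sin w := by rw [hsin, g2]
    have hkpi : k ≤ π := by linarith
    have hk' : k ≤ π / 2 := by
      by_contra h
      push Not at h
      have : cos k ≤ 0 := cos_nonpos_of_pi_div_two_le_of_le h.le (by linarith)
      have h5 : ‖Pf u v x‖ * cos k ≤ 0 := mul_nonpos_of_nonneg_of_nonpos hz0.le this
      linarith
    have hph := neg_ph hw0 hw1.le (by linarith : kp * cos x * cos w ≤ -(Pf u v x).re)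
      hz0 hk' g3 g4
    have hfin := neg_fin hw0 hw1.le hz0 hk' g4 hph
    have hN : Complex.normSq (Pf u v x) = ‖Pf u v x‖ ^ 2 := Complex.normSq_eq_norm_sq _
    rw [hN]
    have e1 : om * u = om * π - om * w := by rw [hw]; ring
    have e2 : Complex.arg (Pf u v x) = π - k := by rw [hk]; ring
    rw [e1, e2]
    linarith

end Pool.Agent.C9
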