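import Pool.Agent.Lib.MP_488b8a_co_X.GwE
import Pool.Agent.Lib.MP_488b8a_co_X.GwA
import Pool.Agent.Lib.MP_488b8a_co_X.GwB
import Pool.Agent.Lib.MP_488b8a_co_X.GwN

/-! # Project C9, module StarG: the main inequality -/

set_option autoImplicit false

namespace Pool.Agent.C9

open Real Pool.Agent.C32 ComplexConjugate

private theorem gw0 {u x : ℝ} (hu : 0 ≤ u) (hu' : u ≤ π) (h0 : 0 ≤ x) (h1 : x ≤ arccos kp)
    (hS : Sf u x ≤ sn) : Wf u x ≤ Ws := by
  have hk := kp_pos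
  have hs := sn_pos
  have key : ∀ y : ℝ, 0 ≤ y → y ≤ arccos kp → 0.48 ≤ Sf u y → Sf u y ≤ sn → Wf u y ≤ Ws := by
    intro y y0 y1 g1 g2
    obtain ⟨u', a1, a2, a3, a4⟩ := gw_A hu hu' y0 y1 g1 g2
    exact a4.trans (gw_end a1 a2 a3)
  rcases le_total (Sf u x) 0.48 with h | h
  · obtain ⟨x', b1, b2, b3, b4, b5⟩ := gw_B hu hu' h0 h1 h
    refine b5.trans ?_
    rcases b4 with b4 | b4
    · rw [b4]
      refine gw_end hu hu' ?_
      rw [b4] at b3
      unfold Sf at b3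
      rw [cos_r, sin_r] at b3
      have h2 : kp * sn * (1 - cos u) ≤ 0.48 := by linarith
      have h3 : 0.48 < sn := lt_trans (by norm_num) sn_lo
      have h4 : kp * (1 - cos u) * sn ≤ 1 * sn := by linarith
      have h5 : kp * (1 - cos u) ≤ 1 := le_of_mul_le_mul_right h4 hs
      have h6 : 1 - cos u ≤ 1 / kp := by
        rw [le_div_iff₀ hk]
        linarith
      linarith
    · exact key x' (h0.trans b1) b2 b4.ge (b4.le.trans (lt_trans (by norm_num) sn_lo).le)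
  · exact key x h0 h1 h hS

/-- half of the main inequality `W(u, v, x) ≤ W*`. PROOF. See the blueprint (helper96). -/
theorem good_W {u v x : ℝ} (hu : 0 ≤ u) (hu' : u ≤ π) (h0 : 0 ≤ x) (h1 : x ≤ π / 2)
    (hx : kp ≤ cos x) (hP : kp ^ 2 ≤ Complex.normSq (Pf u v x)) :
    om * u - Complex.arg (Pf u v x) - bt / 2 * (1 - Complex.normSq (Pf u v x)) ^ 2 ≤
      om * us - (ph kp (π - us) + ph kp (π / 3)) - 9 / 32 * bt * sn ^ 4 := by
  show _ ≤ Ws
  have hp := pi_pos
  have h2 : x ≤ arccos kp := by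
    have h3 := arccos_le_arccos hx
    rwa [arccos_cos h0 (by linarith)] at h3
  rcases le_total 0 (cos v) with hv | hv
  · obtain ⟨x', a1, a2, a3, a4⟩ := gw_v h0 h2 hv hP
    exact a4.trans (gw0 hu hu' a1 a2 a3)
  · exact gw_neg hu hu' h0 h1 hx hv

end Pool.Agent.C9
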