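import Pool.Agent.Lib.MP_488b8a_co_X.StarD

/-! # Project C9, module StarW: abnormal stars -/

set_option autoImplicit false

namespace Pool.Agent.C9

open Real Pool.Agent.C32 ComplexConjugate

private theorem kp_pos : 0 < kp := by linarith [kp_lo]

private theorem sn_pos : 0 < sn := by linarith [sn_lo]

private theorem sn_sq : sn ^ 2 = 1 - kp ^ 2 := by linarith [kp_sn]

private theorem sin_181 : 0.1792 < sin 0.181 := by
  have h := Real.sin_bound (x := 0.181) (by rw [abs_of_pos] <;> norm_num)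
  rw [abs_le, abs_of_pos (by norm_num : (0 : ℝ) < 0.181)] at h
  have h1 := h.1
  norm_num at h1 ⊢
  linarith

private theorem sin_4525 : 0.4365 < sin 0.4525 := by
  have h := Real.sin_bound (x := 0.4525) (by rw [abs_of_pos] <;> norm_num)
  rw [abs_le, abs_of_pos (by norm_num : (0 : ℝ) < 0.4525)] at h
  have h1 := h.1
  norm_num at h1 ⊢
  linarith

/-- `sin r ≥ 0.91 r` -/
private theorem sin_ge {r : ℝ} (h0 : 0 ≤ r) (h1 : r ≤ 0.71) : 0.91 * r ≤ sin r := by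
  have h := Real.sin_bound (x := r) (by rw [abs_of_nonneg h0]; linarith)
  rw [abs_le, abs_of_nonneg h0] at h
  have h2 := h.1
  have h3 : r ^ 3 / 6 + r ^ 5 / 100 ≤ 0.09 * r := by
    have e1 : r ^ 2 ≤ 0.71 ^ 2 := pow_le_pow_left₀ h0 h1 2
    have e2 : r ^ 4 ≤ 0.71 ^ 4 := pow_le_pow_left₀ h0 h1 4
    have e3 : r ^ 2 / 6 + r ^ 4 / 100 ≤ 0.09 := by
      norm_num at e1 e2 ⊢
      linarith
    have e4 : r ^ 3 / 6 + r ^ 5 / 100 = (r ^ 2 / 6 + r ^ 4 / 100) * r := by ring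
    rw [e4]
    exact mul_le_mul_of_nonneg_right e3 h0
  linarith

private theorem vf_le {w : ℝ} (w0 : 0 < w) (w1 : w < π) : vf w ≤ 0.181 := by
  obtain ⟨y, hy⟩ : ∃ y, y = w / 2 := ⟨_, rfl⟩
  have hy0 : 0 < y := by rw [hy]; linarith
  have hy1 : y < π / 2 := by rw [hy]; linarith
  have hs : 0 < sin y := sin_pos_of_pos_of_lt_pi hy0 (by linarith [pi_pos])
  have hc : 0 < cos y := cos_pos_of_mem_Ioo ⟨by linarith [pi_pos], hy1⟩
  have hcs := sin_sq_add_cos_sq y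
  have hk := kp_pos
  have hk0 := kp_lo
  have hk1 := kp_hi
  have hp0 : 0 ≤ ph kp y := ph_nonneg hk hy0.le hy1.le
  have hp1 : ph kp y < π / 2 := ph_lt hk hy0 (by linarith [pi_pos])
  obtain ⟨N, hN⟩ : ∃ N, N = √(cos y ^ 2 + kp ^ 2 * sin y ^ 2) := ⟨_, rfl⟩
  have hNpos : 0 < cos y ^ 2 + kp ^ 2 * sin y ^ 2 := by positivity
  have hN0 : 0 < N := by rw [hN]; exact Real.sqrt_pos.2 hNpos
  have hN2 : N ^ 2 = cos y ^ 2 + kp ^ 2 * sin y ^ 2 := by rw [hN]; exact Real.sq_sqrt hNpos.le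
  have e1 : sin (y - π / 2 + ph kp y) = (1 - kp) * (sin y * cos y) / N := by
    have : y - π / 2 + ph kp y = (y + ph kp y) - π / 2 := by ring
    rw [this, sin_sub_pi_div_two, cos_add, cos_ph hk, sin_ph hk, ← hN]
    field_simp
    ring
  have e2 : (1 + kp) * (sin y * cos y) ≤ N := by
    refine le_of_sq_le_sq ?_ hN0.le
    rw [hN2]
    have : cos y ^ 2 + kp ^ 2 * sin y ^ 2 - ((1 + kp) * (sin y * cos y)) ^ 2 =
        (cos y ^ 2 - kp * sin y ^ 2) ^ 2 := by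
      linear_combination (-(cos y ^ 2 + kp ^ 2 * sin y ^ 2)) * hcs
    nlinarith [sq_nonneg (cos y ^ 2 - kp * sin y ^ 2)]
  have e3 : sin (y - π / 2 + ph kp y) ≤ 0.1792 := by
    rw [e1, div_le_iff₀ hN0]
    have h1 : 0 < sin y * cos y := mul_pos hs hc
    nlinarith
  unfold vf
  rw [← hy]
  by_contra hlt
  rw [not_le] at hlt
  have h4 : sin 0.181 < sin (y - π / 2 + ph kp y) :=
    sin_lt_sin_of_lt_of_le_pi_div_two (by linarith [pi_pos]) (by linarith) hlt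
  linarith [sin_181]

/-- `arg` of `(1 + k)/2 q + b/2 e^{it}` -/
private theorem arg_V {q b t : ℝ} (hq : kp ≤ q) (hb : 0 ≤ b) (hb1 : b ≤ sn ^ 2) :
    Complex.arg ⟨(1 + kp) / 2 * q + b / 2 * cos t, b / 2 * sin t⟩ ≤ 0.4525 ∧
    (sin t ≤ 0 → Complex.arg ⟨(1 + kp) / 2 * q + b / 2 * cos t, b / 2 * sin t⟩ ≤ 0) := by
  have hk0 := kp_lo
  have hk1 := kp_hi
  have hcs := sin_sq_add_cos_sq t
  have hc1 := neg_one_le_cos t
  have hsn := sn_sq
  obtain ⟨V, hV⟩ : ∃ V : ℂ, V = ⟨(1 + kp) / 2 * q + b / 2 * cos t, b / 2 * sin t⟩ := ⟨_, rfl⟩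
  have hre : V.re = (1 + kp) / 2 * q + b / 2 * cos t := by rw [hV]
  have him : V.im = b / 2 * sin t := by rw [hV]
  rw [← hV]
  have hb2 : b ≤ 0.5154 := by
    rw [hsn] at hb1
    nlinarith
  have hqk : 0.59 ≤ (1 + kp) / 2 * q := by nlinarith
  have hrepos : 0 < V.re := by
    rw [hre]
    nlinarith
  have harg : |Complex.arg V| < π / 2 := Complex.abs_arg_lt_pi_div_two_iff.2 (Or.inl hrepos)
  rw [abs_lt] at harg
  have hV0 : V ≠ 0 := by
    intro h
    rw [h, Complex.zero_re] at hrepos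
    exact lt_irrefl _ hrepos
  have hn : 0 < ‖V‖ := norm_pos_iff.2 hV0
  constructor
  · by_contra hlt
    rw [not_le] at hlt
    have h4 : sin 0.4525 < sin (Complex.arg V) :=
      sin_lt_sin_of_lt_of_le_pi_div_two (by linarith [pi_pos]) (by linarith) hlt
    have h5 : sin (Complex.arg V) ≤ 0.4365 := by
      rw [Complex.sin_arg, div_le_iff₀ hn]
      have hn2 : ‖V‖ ^ 2 = V.re ^ 2 + V.im ^ 2 := by
        rw [Complex.sq_norm, Complex.normSq_apply]
        ring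
      obtain ⟨A, hA⟩ : ∃ A, A = (1 + kp) / 2 * q := ⟨_, rfl⟩
      rw [← hA] at hqk hre
      have e1 : (A * sin t) ^ 2 ≤ ‖V‖ ^ 2 := by
        rw [hn2, hre, him]
        have : (A + b / 2 * cos t) ^ 2 + (b / 2 * sin t) ^ 2 - (A * sin t) ^ 2 =
            (A * cos t + b / 2) ^ 2 := by
          linear_combination (b ^ 2 / 4 - A ^ 2) * hcs
        nlinarith [sq_nonneg (A * cos t + b / 2)]
      have e2 : A * sin t ≤ ‖V‖ := by
        by_contra h
        rw [not_le] at h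
        nlinarith
      rw [him]
      by_cases hs : sin t ≤ 0
      · nlinarith
      · rw [not_le] at hs
        have e3 : b / 2 ≤ 0.4365 * A := by
          rw [hA]
          rw [hsn] at hb1
          have e4 : (1 + kp) / 2 * kp ≤ (1 + kp) / 2 * q :=
            mul_le_mul_of_nonneg_left hq (by linarith)
          nlinarith
        nlinarith
    linarith [sin_4525]
  · intro hs
    have h6 : V.im ≤ 0 := by
      rw [him]
      nlinarith
    by_contra hlt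
    rw [not_le] at hlt
    have h7 : 0 < sin (Complex.arg V) := sin_pos_of_pos_of_lt_pi hlt (by linarith [pi_pos])
    rw [Complex.sin_arg] at h7
    have h8 : V.im / ‖V‖ ≤ 0 := div_nonpos_of_nonpos_of_nonneg h6 hn.le
    linarith

private theorem key_poly (k E1 E2 F1 F2 : ℝ)
    (h : F1 ^ 2 + F2 ^ 2 = (1 - k ^ 2) * (1 - E1 ^ 2 - E2 ^ 2)) (X Y V1 V2 : ℝ)
    (hX : X = k * E1 + F1) (hY : Y = E2) (hV1 : V1 = ((1 + k) * E1 + F1) / 2)
    (hV2 : V2 = (-(1 + k) * E2 + F2) / 2) :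
    (1 - k ^ 2) * (1 - (X ^ 2 + Y ^ 2)) * (V1 ^ 2 + V2 ^ 2) =
      ((1 + k) * (V2 * X + V1 * Y)) ^ 2 +
      ((1 + k) * (X * V1 - Y * V2) - 2 * (V1 ^ 2 + V2 ^ 2)) ^ 2 := by
  rw [hX, hY, hV1, hV2]
  linear_combination (-((((1 + k) * E1 + F1) / 2) ^ 2 + ((-(1 + k) * E2 + F2) / 2) ^ 2)) * h

private theorem poly_s {s c : ℝ} (h1 : s ≤ 0.5154) (hc : 2.0256 ≤ c) :
    0.1792 * s ≤ (1 - s) * (0.91 * (0.165 + c * s ^ 2)) ^ 2 := by
  have e1 : 0.0171 + 0.825 * s ^ 2 ≤ (0.91 * (0.165 + 2.0256 * s ^ 2)) ^ 2 := by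
    nlinarith [sq_nonneg (s ^ 2 - 0.04), sq_nonneg s]
  have e2 : (0.91 * (0.165 + 2.0256 * s ^ 2)) ^ 2 ≤ (0.91 * (0.165 + c * s ^ 2)) ^ 2 := by
    refine pow_le_pow_left₀ (by positivity) ?_ 2
    nlinarith [sq_nonneg s]
  have e3 : 0.1792 * s ≤ (1 - s) * (0.0171 + 0.825 * s ^ 2) := by
    nlinarith [mul_nonneg (sub_nonneg.2 h1) (sq_nonneg (s - 0.16))]
  have e4 : (1 - s) * (0.0171 + 0.825 * s ^ 2) ≤
      (1 - s) * (0.91 * (0.165 + c * s ^ 2)) ^ 2 :=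
    mul_le_mul_of_nonneg_left (e1.trans e2) (by linarith)
  linarith

/-- if `cos v > cos u`, `cos v' > cos u'` -/
private theorem no_pos {u u' v v' W d : ℝ} (hu : 0 ≤ u) (hu' : 0 ≤ u') (hW : u + u' = π - W)
    (hd : |d| < W) (hv : cos v' = -cos (v - d)) (h1 : cos u < cos v) (h2 : cos u' < cos v') :
    False := by
  have hW0 : 0 < W := lt_of_le_of_lt (abs_nonneg d) hd
  obtain ⟨n, hn⟩ : ∃ n : ℤ, |v - n * (2 * π)| ≤ π := by
    refine ⟨round (v / (2 * π)), ?_⟩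
    have h := abs_sub_round (v / (2 * π))
    have h3 : v - (round (v / (2 * π)) : ℝ) * (2 * π) =
        (v / (2 * π) - round (v / (2 * π))) * (2 * π) := by
      field_simp
    rw [h3, abs_mul, abs_of_pos (by positivity : 0 < 2 * π)]
    nlinarith [pi_pos]
  obtain ⟨v0, hv0⟩ : ∃ v0, v0 = v - n * (2 * π) := ⟨_, rfl⟩
  rw [← hv0] at hn
  have c1 : cos v0 = cos v := by rw [hv0]; exact cos_sub_int_mul_two_pi v n
  have c2 : cos (v - d) = cos (v0 - d) := by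
    have : v0 - d = v - d - n * (2 * π) := by rw [hv0]; ring
    rw [this, cos_sub_int_mul_two_pi]
  have h4 : |v0| < u := by
    by_contra h
    rw [not_lt] at h
    have := cos_le_cos_of_nonneg_of_le_pi hu hn h
    rw [cos_abs, c1] at this
    linarith
  have h5 : |v0 - d| ≤ u + W := by
    have := abs_sub v0 d
    linarith
  have h6 : cos (u + W) ≤ cos (v0 - d) := by
    have := cos_le_cos_of_nonneg_of_le_pi (abs_nonneg (v0 - d)) (by linarith) h5
    rwa [cos_abs] at this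
  have h7 : cos u' = -cos (u + W) := by
    have : u' = π - (u + W) := by linarith
    rw [this, cos_pi_sub]
  rw [hv, c2, h7] at h2
  linarith

private theorem cos_lt_of {u v : ℝ} (hu : 0 ≤ u) (hu1 : u ≤ π) (h1 : 0 < sin (u + v))
    (h2 : 0 < sin (u - v)) : cos u < cos v := by
  rw [sin_add] at h1
  rw [sin_sub] at h2
  have hs : 0 ≤ sin u := sin_nonneg_of_nonneg_of_le_pi hu hu1
  have h3 : 0 < sin u * cos v := by linarith
  have h4 : 0 < cos v := by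
    by_contra h
    rw [not_lt] at h
    nlinarith
  by_contra h
  rw [not_lt] at h
  have e1 := sin_sq_add_cos_sq u
  have e2 := sin_sq_add_cos_sq v
  have h5 : (cos u * sin v) ^ 2 < (sin u * cos v) ^ 2 := by
    refine sq_lt_sq' ?_ ?_ <;> linarith
  have h6 : (sin u * cos v) ^ 2 ≤ (cos u * sin v) ^ 2 := by
    have : (cos u * sin v) ^ 2 - (sin u * cos v) ^ 2 = cos u ^ 2 - cos v ^ 2 := by
      linear_combination (cos u ^ 2) * e2 - (cos v ^ 2) * e1
    nlinarith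
  linarith

private theorem aux_V {q b t : ℝ} (hq : kp ≤ q) (hb : 0 ≤ b) (hb1 : b ≤ sn ^ 2) :
    0.33 < (1 + kp) / 2 * q + b / 2 * cos t := by
  have hk0 := kp_lo
  have hk1 := kp_hi
  have hc1 := neg_one_le_cos t
  have hb2 : b ≤ 0.5154 := by
    rw [sn_sq] at hb1
    nlinarith
  have hqk : 0.59 ≤ (1 + kp) / 2 * q := by nlinarith
  nlinarith

private theorem kp2_le : 1 - kp ^ 2 ≤ 0.5154 := by nlinarith [kp_lo]

private theorem kp2_pos : 0 < 1 - kp ^ 2 := by nlinarith [kp_lo, kp_hi]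

private theorem aux_c {n C : ℝ} (hn : 0.33 < n)
    (h4 : -((1 - kp ^ 2) * n) ≤ (1 + kp) * C - 2 * n ^ 2) : 0 < C := by
  by_contra h
  rw [not_lt] at h
  have h6 : (1 + kp) * C ≤ 0 := mul_nonpos_of_nonneg_of_nonpos (by linarith [kp_pos]) h
  have h7 : (1 - kp ^ 2) * n ≤ 0.5154 * n := mul_le_mul_of_nonneg_right kp2_le (by linarith)
  nlinarith

private theorem aux_s {A s : ℝ} (hs : 0 ≤ s) (h : (1 + kp) ^ 2 * A ≤ (1 - kp ^ 2) * s) :
    A ≤ 0.1792 * s := by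
  have hk := kp_pos
  have h8 : 1 - kp ^ 2 ≤ (1 + kp) ^ 2 * 0.1792 := by nlinarith [kp_lo, kp_hi]
  have h7 : (1 + kp) ^ 2 * A ≤ (1 + kp) ^ 2 * (0.1792 * s) := by
    refine h.trans ?_
    have := mul_le_mul_of_nonneg_right h8 hs
    linarith
  exact le_of_mul_le_mul_left h7 (by positivity)

private theorem aux_r {s : ℝ} (h0 : 0 ≤ s) (h1 : s ≤ 0.5154) : 0.165 + bt / 2 * s ^ 2 ≤ 0.71 := by
  have h2 : s ^ 2 ≤ 0.5154 ^ 2 := pow_le_pow_left₀ h0 h1 2
  have h3 : bt / 2 ≤ 2.0257 := by linarith [bt_hi]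
  have h4 : 0 ≤ bt / 2 := by linarith [bt_lo]
  have h5 := mul_le_mul h3 h2 (sq_nonneg s) (by norm_num)
  norm_num at h5 ⊢
  linarith

/-- the two angles of a star -/
private theorem star_le {u v x : ℝ} (hu : 0 ≤ u) (hu1 : u ≤ π) (h0 : 0 ≤ x) (h1 : x ≤ π / 2)
    (hx : kp ≤ cos x) (hP : kp ^ 2 ≤ Complex.normSq (Pf u v x)) :
    u - Complex.arg (Pf u v x) ≤ 0.4525 + 0.165 +
      bt / 2 * (1 - Complex.normSq (Pf u v x)) ^ 2 ∧
    (sin (u + v) ≤ 0 → u - Complex.arg (Pf u v x) ≤ 0.165 +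
      bt / 2 * (1 - Complex.normSq (Pf u v x)) ^ 2) := by
  have hk0 := kp_lo
  have hk1 := kp_hi
  have hsn := sn_sq
  have hsn0 := sn_pos
  have hcsu := sin_sq_add_cos_sq u
  have hcsv := sin_sq_add_cos_sq v
  have hcsx := sin_sq_add_cos_sq x
  have hsx : 0 ≤ sin x := sin_nonneg_of_nonneg_of_le_pi h0 (by linarith [pi_pos])
  have hsu : 0 ≤ sin u := sin_nonneg_of_nonneg_of_le_pi hu hu1
  obtain ⟨q, hq⟩ : ∃ q, q = cos x := ⟨_, rfl⟩
  obtain ⟨b, hb⟩ : ∃ b, b = sn * sin x := ⟨_, rfl⟩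
  have hb0 : 0 ≤ b := by rw [hb]; exact mul_nonneg hsn0.le hsx
  have hsxs : sin x ≤ sn := by
    refine le_of_sq_le_sq ?_ hsn0.le
    rw [hsn]
    have : sin x ^ 2 = 1 - cos x ^ 2 := by linarith
    rw [this]
    have h5 := pow_le_pow_left₀ kp_pos.le hx 2
    linarith
  have hb1 : b ≤ sn ^ 2 := by
    rw [hb, sq]
    exact mul_le_mul_of_nonneg_left hsxs hsn0.le
  have hqb : b ^ 2 = (1 - kp ^ 2) * (1 - q ^ 2) := by
    rw [hb, hq, mul_pow, hsn]
    have : sin x ^ 2 = 1 - cos x ^ 2 := by linarith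
    rw [this]
  rw [← hq] at hx
  obtain ⟨P, hPd⟩ : ∃ P : ℂ, P = Pf u v x := ⟨_, rfl⟩
  have hPre : P.re = kp * q * cos u + b * cos v := by rw [hPd, hq, hb]; rfl
  have hPim : P.im = q * sin u := by rw [hPd, hq]; rfl
  rw [← hPd] at hP ⊢
  have hPn : Complex.normSq P = P.re ^ 2 + P.im ^ 2 := by
    rw [Complex.normSq_apply]
    ring
  obtain ⟨V, hV⟩ : ∃ V : ℂ, V = ⟨(1 + kp) / 2 * q + b / 2 * cos (u + v),
    b / 2 * sin (u + v)⟩ := ⟨_, rfl⟩
  have hre : V.re = (1 + kp) / 2 * q + b / 2 * cos (u + v) := by rw [hV]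
  have him : V.im = b / 2 * sin (u + v) := by rw [hV]
  have hargV := arg_V (t := u + v) hx hb0 hb1
  rw [← hV] at hargV
  have hrepos : 0.33 < V.re := by
    rw [hre]
    exact aux_V hx hb0 hb1
  have harg : |Complex.arg V| < π / 2 :=
    Complex.abs_arg_lt_pi_div_two_iff.2 (Or.inl (by linarith))
  rw [abs_lt] at harg
  have hV0 : V ≠ 0 := by
    intro h
    rw [h, Complex.zero_re] at hrepos
    linarith
  have hn : 0 < ‖V‖ := norm_pos_iff.2 hV0
  have hn2 : ‖V‖ ^ 2 = V.re ^ 2 + V.im ^ 2 := by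
    rw [Complex.sq_norm, Complex.normSq_apply]
    ring
  have hn3 : 0.33 < ‖V‖ := by
    have := Complex.re_le_norm V
    linarith
  have hR2 : ‖P‖ ^ 2 = P.re ^ 2 + P.im ^ 2 := by
    rw [Complex.sq_norm, hPn]
  have hPk : kp ^ 2 ≤ ‖P‖ ^ 2 := by rw [Complex.sq_norm]; exact hP
  have hR : 0 < ‖P‖ := by
    have h2 : 0 < ‖P‖ ^ 2 := lt_of_lt_of_le (pow_pos kp_pos 2) hPk
    refine lt_of_le_of_ne (norm_nonneg P) fun h => ?_
    rw [← h] at h2
    norm_num at h2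
  have hP0 : P ≠ 0 := norm_pos_iff.1 hR
  obtain ⟨V1, hV1⟩ : ∃ V1, V1 = (1 + kp) / 2 * q * cos u + b / 2 * cos v := ⟨_, rfl⟩
  obtain ⟨V2, hV2⟩ : ∃ V2, V2 = -((1 + kp) / 2 * q * sin u) + b / 2 * sin v := ⟨_, rfl⟩
  have e1 : cos u * V.re + sin u * V.im = V1 := by
    rw [hre, him, hV1, cos_add, sin_add]
    linear_combination (b / 2 * cos v) * hcsu
  have e2 : cos u * V.im - sin u * V.re = V2 := by
    rw [hre, him, hV2, cos_add, sin_add]
    linear_combination (b / 2 * sin v) * hcsu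
  have hVn : V1 ^ 2 + V2 ^ 2 = ‖V‖ ^ 2 := by
    rw [hn2, ← e1, ← e2]
    linear_combination (V.re ^ 2 + V.im ^ 2) * hcsu
  have key : (1 - kp ^ 2) * (1 - ‖P‖ ^ 2) * ‖V‖ ^ 2 =
      ((1 + kp) * (V2 * P.re + V1 * P.im)) ^ 2 +
      ((1 + kp) * (P.re * V1 - P.im * V2) - 2 * ‖V‖ ^ 2) ^ 2 := by
    rw [← hVn, hR2]
    refine key_poly kp (q * cos u) (q * sin u) (b * cos v) (b * sin v) ?_ _ _ _ _ ?_ ?_ ?_ ?_
    · linear_combination b ^ 2 * hcsv + hqb + (1 - kp ^ 2) * q ^ 2 * hcsu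
    · rw [hPre]; ring
    · rw [hPim]
    · rw [hV1]; ring
    · rw [hV2]; ring
  obtain ⟨s, hs⟩ : ∃ s, s = 1 - Complex.normSq P := ⟨_, rfl⟩
  have hs1 : ‖P‖ ^ 2 = 1 - s := by rw [Complex.sq_norm, hs]; ring
  have hkk : 0 < 1 - kp ^ 2 := kp2_pos
  have hs0 : 0 ≤ s := by
    have h1 : 0 ≤ (1 - kp ^ 2) * (1 - ‖P‖ ^ 2) * ‖V‖ ^ 2 := by
      rw [key]
      positivity
    have h2 : 0 < (1 - kp ^ 2) * ‖V‖ ^ 2 := by positivity
    have h3 : (1 - kp ^ 2) * (1 - ‖P‖ ^ 2) * ‖V‖ ^ 2 = ((1 - kp ^ 2) * ‖V‖ ^ 2) * s := by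
      rw [hs1]; ring
    rw [h3] at h1
    exact nonneg_of_mul_nonneg_right h1 h2
  have hs2 : s ≤ 1 - kp ^ 2 := by rw [hs]; linarith
  have hs3 : s ≤ 0.5154 := hs2.trans kp2_le
  obtain ⟨ps, hps⟩ : ∃ ps, ps = u - Complex.arg P - Complex.arg V := ⟨_, rfl⟩
  have hPc : ‖P‖ * cos (Complex.arg P) = P.re := Complex.norm_mul_cos_arg P
  have hPs : ‖P‖ * sin (Complex.arg P) = P.im := Complex.norm_mul_sin_arg P
  have hVc : ‖V‖ * cos (Complex.arg V) = V.re := Complex.norm_mul_cos_arg V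
  have hVs : ‖V‖ * sin (Complex.arg V) = V.im := Complex.norm_mul_sin_arg V
  have ecos : ‖P‖ * ‖V‖ * cos ps = P.re * V1 - P.im * V2 := by
    have : ps = (u - Complex.arg V) - Complex.arg P := by rw [hps]; ring
    rw [this, cos_sub, cos_sub, sin_sub, ← e1, ← e2, ← hPc, ← hPs, ← hVc, ← hVs]
    ring
  have esin : ‖P‖ * ‖V‖ * sin ps = -(V2 * P.re + V1 * P.im) := by
    have : ps = (u - Complex.arg V) - Complex.arg P := by rw [hps]; ring
    rw [this, sin_sub, cos_sub, sin_sub, ← e1, ← e2, ← hPc, ← hPs, ← hVc, ← hVs]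
    ring
  have hcpos : 0 < cos ps := by
    have h2 : ((1 + kp) * (P.re * V1 - P.im * V2) - 2 * ‖V‖ ^ 2) ^ 2 ≤
        ((1 - kp ^ 2) * ‖V‖) ^ 2 := by
      have h3 : (1 - kp ^ 2) * (1 - ‖P‖ ^ 2) * ‖V‖ ^ 2 ≤
          (1 - kp ^ 2) * (1 - kp ^ 2) * ‖V‖ ^ 2 := by
        refine mul_le_mul_of_nonneg_right (mul_le_mul_of_nonneg_left ?_ hkk.le) (sq_nonneg _)
        linarith
      rw [key] at h3
      have h5 := sq_nonneg ((1 + kp) * (V2 * P.re + V1 * P.im))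
      have h6 : ((1 - kp ^ 2) * ‖V‖) ^ 2 = (1 - kp ^ 2) * (1 - kp ^ 2) * ‖V‖ ^ 2 := by ring
      rw [h6]
      linarith
    have h4 := (abs_le_of_sq_le_sq' h2 (by positivity)).1
    rw [← ecos] at h4
    have h5 : 0 < ‖P‖ * ‖V‖ * cos ps := aux_c hn3 h4
    exact pos_of_mul_pos_right h5 (by positivity)
  have hargP : 0 ≤ Complex.arg P := by
    rw [Complex.arg_nonneg_iff, hPim]
    exact mul_nonneg (by linarith) hsu
  have hps1 : ps < π / 2 := by
    by_contra h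
    rw [not_lt] at h
    have := cos_nonpos_of_pi_div_two_le_of_le h (by rw [hps]; linarith)
    linarith
  obtain ⟨rho, hrho⟩ : ∃ rho, rho = 0.165 + bt / 2 * s ^ 2 := ⟨_, rfl⟩
  have hbt0 := bt_lo
  have hbt1 := bt_hi
  have hrho0 : 0 ≤ rho := by rw [hrho]; positivity
  have hrho1 : rho ≤ 0.71 := by
    rw [hrho]
    exact aux_r hs0 hs3
  have hsin : sin ps ≤ 0.91 * rho := by
    by_contra h
    rw [not_le] at h
    have h2 : (1 + kp) ^ 2 * ((1 - s) * sin ps ^ 2) ≤ (1 - kp ^ 2) * s := by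
      have h3 : ((1 + kp) * (‖P‖ * ‖V‖ * sin ps)) ^ 2 ≤
          (1 - kp ^ 2) * (1 - ‖P‖ ^ 2) * ‖V‖ ^ 2 := by
        rw [key, esin]
        have h5 := sq_nonneg ((1 + kp) * (P.re * V1 - P.im * V2) - 2 * ‖V‖ ^ 2)
        have h6 : ((1 + kp) * -(V2 * P.re + V1 * P.im)) ^ 2 =
            ((1 + kp) * (V2 * P.re + V1 * P.im)) ^ 2 := by ring
        rw [h6]
        linarith
      have h4 : ((1 + kp) * (‖P‖ * ‖V‖ * sin ps)) ^ 2 =
          (1 + kp) ^ 2 * ((1 - s) * sin ps ^ 2) * ‖V‖ ^ 2 := by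
        rw [← hs1]; ring
      have h5 : (1 - kp ^ 2) * (1 - ‖P‖ ^ 2) * ‖V‖ ^ 2 = (1 - kp ^ 2) * s * ‖V‖ ^ 2 := by
        rw [hs1]; ring
      rw [h4, h5] at h3
      exact le_of_mul_le_mul_right h3 (by positivity)
    have h6 : (1 - s) * sin ps ^ 2 ≤ 0.1792 * s := aux_s hs0 h2
    have h9 := poly_s hs3 (by linarith : 2.0256 ≤ bt / 2)
    rw [← hrho] at h9
    have h10 : (0.91 * rho) ^ 2 < sin ps ^ 2 := by
      refine pow_lt_pow_left₀ h (by positivity) (by norm_num)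
    have h11 : (1 - s) * (0.91 * rho) ^ 2 < (1 - s) * sin ps ^ 2 :=
      mul_lt_mul_of_pos_left h10 (by linarith)
    linarith
  have hle : ps ≤ rho := by
    by_contra h
    rw [not_le] at h
    have h2 : sin rho < sin ps :=
      sin_lt_sin_of_lt_of_le_pi_div_two (by linarith [pi_pos]) hps1.le h
    have h3 := sin_ge hrho0 hrho1
    linarith
  rw [← hs]
  constructor
  · have := hargV.1
    linarith
  · intro h
    have := hargV.2 h
    linarith

/-- the abnormal case. PROOF. See the blueprint (helper49, 20:15; the left side is in fact at most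
`0.13 +` the last term, the right side `1.1516 +` the last term). With `Ω = (w + w')/2`,
`δ = (w' - w)/2`, `R^2 = normSq (Pf u v x)`, `R'^2 = normSq (Pf u' v' x)`:
`- conj (Pf u' v' x) = Pf (u + Ω) (v - δ) x =: P'`, so with `P = Pf u v x` the left side is
`ph kp (w/2) + ph kp (w'/2) - π + (arg P' - arg P)`. (A) `arg P ≥ arcsin (im P) ≥ arcsin (kp sin u)`
and `π - arg P' ≥ arcsin (kp sin (u + Ω))`. (B) `|P' - P| ≤ 2 sin (Ω/2)` and the law of cosines. -/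
theorem weird {u u' v v' x w w' : ℝ} (hu : 0 ≤ u) (hu' : 0 ≤ u') (w0 : 0 < w) (w1 : w < π)
    (w0' : 0 < w') (w1' : w' < π) (hs : u + u' = π - (w + w') / 2)
    (hv : cos v' = -cos (v - (w' - w) / 2)) (h0 : 0 ≤ x) (h1 : x ≤ π / 2) (hx : kp ≤ cos x)
    (hP : kp ^ 2 ≤ Complex.normSq (Pf u v x)) (hP' : kp ^ 2 ≤ Complex.normSq (Pf u' v' x)) :
    u - Complex.arg (Pf u v x) + (u' - Complex.arg (Pf u' v' x)) + vf w + vf w' ≤
      π - 2 * ph kp (π / 3) - 9 / 16 * bt * sn ^ 4 +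
        bt / 2 * ((1 - Complex.normSq (Pf u v x)) ^ 2 +
          (1 - Complex.normSq (Pf u' v' x)) ^ 2) := by
  have hneg : ∀ a b : ℝ, Pf a b x = Pf a (-b) x := by
    intro a b
    unfold Pf
    rw [cos_neg]
  have hu1 : u ≤ π := by linarith
  have hu1' : u' ≤ π := by linarith
  have s1 := star_le hu hu1 h0 h1 hx hP
  have s2 := star_le hu' hu1' h0 h1 hx hP'
  have s3 := star_le (v := -v) hu hu1 h0 h1 hx (by rw [← hneg]; exact hP)
  have s4 := star_le (v := -v') hu' hu1' h0 h1 hx (by rw [← hneg]; exact hP')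
  rw [← hneg] at s3 s4
  have hw := vf_le w0 w1
  have hw' := vf_le w0' w1'
  have hsn4 : sn ^ 4 ≤ 0.2656 := by
    have := pow_le_pow_left₀ sn_pos.le sn_hi.le 4
    norm_num at this ⊢
    linarith
  have hc1 : 9 / 16 * bt * sn ^ 4 ≤ 0.60529 := by
    have h3 : 0 ≤ sn ^ 4 := by positivity
    have hb1 := bt_hi
    have hb0 := bt_lo
    nlinarith
  have hc2 := ph_third_hi
  have hpi := pi_gt_d4
  rcases le_or_gt (sin (u + v)) 0 with h | ha
  · have := s1.2 h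
    have := s2.1
    linarith
  rcases le_or_gt (sin (u + -v)) 0 with h | hb
  · have := s3.2 h
    have := s2.1
    linarith
  rcases le_or_gt (sin (u' + v')) 0 with h | hc
  · have := s2.2 h
    have := s1.1
    linarith
  rcases le_or_gt (sin (u' + -v')) 0 with h | hd
  · have := s4.2 h
    have := s1.1
    linarith
  exfalso
  refine no_pos hu hu' hs ?_ hv (cos_lt_of hu hu1 ha (by rwa [← sub_eq_add_neg] at hb))
    (cos_lt_of hu' hu1' hc (by rwa [← sub_eq_add_neg] at hd))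
  rw [abs_lt]
  constructor <;> linarith

end Pool.Agent.C9
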