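import Pool.Agent.Lib.MP_488b8a_co_X.StarP
import Pool.Agent.Lib.MP_488b8a_co_X.StarR
import Pool.Agent.Lib.MP_488b8a_co_X.Oc
import Pool.Agent.Lib.MP_488b8a_co_X.ArgA
import Pool.Agent.Lib.MP_488b8a_co_X.Edge

/-! # Project C9, module Star: the star of a vertex of degree 4 -/

set_option autoImplicit false

namespace Pool.Agent.C9

open Real Pool.Agent.C32 ComplexConjugate

/-- the sum of the three angles of a triangle -/
noncomputable def asum (x y z : E3) : ℝ := ang x y z + ang y z x + ang z x y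

private theorem star_gram {c z : ℝ} (hc : kp ≤ c) : 2 * kp ^ 2 - 1 ≤ gram c z := by
  have h0 : 0 < kp := by
    have := kp_lo
    linarith
  have h1 : kp ^ 2 ≤ c ^ 2 := pow_le_pow_left₀ h0.le hc 2
  have h2 := sin_sq_le_one z
  have h3 := sq_nonneg (sin z)
  unfold gram
  rcases le_or_gt (c ^ 2) 1 with h4 | h4
  · nlinarith [mul_nonneg (sub_nonneg.2 h4) (sub_nonneg.2 h2)]
  · have h5 : kp ^ 2 ≤ 1 := by
      have := kp_hi
      nlinarith
    nlinarith [mul_nonneg (sub_nonneg.2 h4.le) h3]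

private theorem star_face {x y z : E3} (hx : ‖x‖ = 1) (hy : ‖y‖ = 1) (hz : ‖z‖ = 1)
    (h : 0 < dt x y z ∧ ∃ N : E3, inner ℝ N x = 1 ∧ inner ℝ N y = 1 ∧ inner ℝ N z = 1 ∧
      kp < 1 / ‖N‖) :
    asum x y z = π + 2 * Complex.arg (hB x y z) ∧ 0 < Complex.arg (hB x y z) ∧
      Complex.arg (hB x y z) ≤ 3 * ph kp (π / 3) - π / 2 ∧ 2 * kp ^ 2 - 1 ≤ inner ℝ x y ∧
      2 * kp ^ 2 - 1 ≤ inner ℝ y z ∧ 2 * kp ^ 2 - 1 ≤ inner ℝ x z := by
  obtain ⟨hd, N, h1, h2, h3, hc⟩ := h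
  obtain ⟨a, b, d, hP⟩ := exists_par hx hy hz hd.ne' h1 h2 h3
  obtain ⟨g1, g2, g3⟩ := ang_sum_arg hx hy hz hc.le hP hd
  refine ⟨g1, g2, g3, ?_, ?_, ?_⟩
  · rw [hP.2.2.2.2.2.2.1]
    exact star_gram hc.le
  · rw [hP.2.2.2.2.2.2.2.1]
    exact star_gram hc.le
  · rw [real_inner_comm, hP.2.2.2.2.2.2.2.2]
    exact star_gram hc.le

private theorem star_exp {z : ℂ} (h : 0 < z.im) :
    0 < ‖z‖ ∧ (‖z‖ : ℂ) * Complex.exp (Complex.arg z * Complex.I) = z := by
  refine ⟨norm_pos_iff.2 ?_, Complex.norm_mul_exp_arg_mul_I z⟩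
  rintro rfl
  simp at h

private theorem star_prod {z1 z2 z3 z4 : ℂ} (h1 : 0 < z1.im) (h2 : 0 < z2.im) (h3 : 0 < z3.im)
    (h4 : 0 < z4.im) : ∃ k : ℝ, 0 < k ∧ Complex.exp ((Complex.arg z1 + Complex.arg z2 +
      Complex.arg z3 + Complex.arg z4 : ℝ) * Complex.I) = k * (z1 * z2 * z3 * z4) := by
  obtain ⟨a1, b1⟩ := star_exp h1
  obtain ⟨a2, b2⟩ := star_exp h2
  obtain ⟨a3, b3⟩ := star_exp h3
  obtain ⟨a4, b4⟩ := star_exp h4
  refine ⟨(‖z1‖ * ‖z2‖ * ‖z3‖ * ‖z4‖)⁻¹, by positivity, ?_⟩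
  have c1 : (‖z1‖ : ℂ) ≠ 0 := by exact_mod_cast a1.ne'
  have c2 : (‖z2‖ : ℂ) ≠ 0 := by exact_mod_cast a2.ne'
  have c3 : (‖z3‖ : ℂ) ≠ 0 := by exact_mod_cast a3.ne'
  have c4 : (‖z4‖ : ℂ) ≠ 0 := by exact_mod_cast a4.ne'
  have e : Complex.exp ((Complex.arg z1 + Complex.arg z2 +
      Complex.arg z3 + Complex.arg z4 : ℝ) * Complex.I) =
      Complex.exp (Complex.arg z1 * Complex.I) * Complex.exp (Complex.arg z2 * Complex.I) *
      Complex.exp (Complex.arg z3 * Complex.I) * Complex.exp (Complex.arg z4 * Complex.I) := by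
    rw [← Complex.exp_add, ← Complex.exp_add, ← Complex.exp_add]
    congr 1
    push_cast
    ring
  have g : z1 * z2 * z3 * z4 = ((‖z1‖ : ℂ) * Complex.exp (Complex.arg z1 * Complex.I)) *
      ((‖z2‖ : ℂ) * Complex.exp (Complex.arg z2 * Complex.I)) *
      ((‖z3‖ : ℂ) * Complex.exp (Complex.arg z3 * Complex.I)) *
      ((‖z4‖ : ℂ) * Complex.exp (Complex.arg z4 * Complex.I)) := by
    rw [b1, b2, b3, b4]
  rw [e, g]
  push_cast
  field_simp

/-- PROOF. `O` and `O'` from `exists_O` (for `C, T, B` and for `C, B', T'`), `inner_OO`,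
`star_phase`, and `star_real` with `h` the sum of the four arguments of `hB` (`ang_sum_arg`; `h` is
at most `4 (3 ph kp (π/3) - π/2) < 2.03`, `ph_third_hi`); the sides `T T'` and `B B'` belong to
facets of circumradius at most `r_9`, so `inner T T' = gram c z ≥ 2 kp^2 - 1`, which is
`normSq Zf ≥ kp^2`; `(1 - normSq)^2 = s4`. The hypotheses are stated with `N` for the four facets:
`Face x y z` says that the circumradius is less than `r_9`. -/
theorem star_le {C T T' B B' : E3} (hC : ‖C‖ = 1) (hT : ‖T‖ = 1) (hT' : ‖T'‖ = 1)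
    (hB : ‖B‖ = 1) (hB' : ‖B'‖ = 1)
    (f : ∀ x y z : E3, (x, y, z) ∈ [(C, T', T), (C, T, B), (C, B, B'), (C, B', T')] →
      0 < dt x y z ∧ ∃ N : E3, inner ℝ N x = 1 ∧ inner ℝ N y = 1 ∧ inner ℝ N z = 1 ∧
        kp < 1 / ‖N‖) :
    asum C T' T + asum C T B + asum C B B' + asum C B' T' ≤
      4 * π + 2 * (π - 2 * ph kp (π / 3) - 9 / 16 * bt * sn ^ 4) +
        bt * (s4 T T' + s4 B B') := by
  have F1 := star_face hC hT' hT (f C T' T (by simp))
  have F2 := star_face hC hT hB (f C T B (by simp))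
  have F3 := star_face hC hB hB' (f C B B' (by simp))
  have F4 := star_face hC hB' hT' (f C B' T' (by simp))
  have d1 := (f C T' T (by simp)).1
  have d2 := (f C T B (by simp)).1
  have d3 := (f C B B' (by simp)).1
  have d4 := (f C B' T' (by simp)).1
  obtain ⟨-, N, n1, n2, n3, nc⟩ := f C T B (by simp)
  obtain ⟨-, N', n1', n2', n3', nc'⟩ := f C B' T' (by simp)
  obtain ⟨O, O1, O2, O3, O4, O5⟩ := exists_O hC hT hB n1 n2 n3 nc d2
  obtain ⟨O', O1', O2', O3', O4', O5'⟩ := exists_O hC hB' hT' n1' n2' n3' nc' d4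
  have hOO := inner_OO hC O1 O1' O5 O5'
  obtain ⟨s1, p1, u1, i1, i2, i3⟩ := F1
  obtain ⟨s2, p2, u2, i4, i5, i6⟩ := F2
  obtain ⟨s3, p3, u3, i7, i8, i9⟩ := F3
  obtain ⟨s4', p4, u4, i10, i11, i12⟩ := F4
  have hk0 : 0 < kp := by
    have := kp_lo
    linarith
  have hk2 : 0 < kp ^ 2 := by positivity
  obtain ⟨t, b, t', b', w, w', x, k, -, -, -, -, -, -, -, -, w0, w1, w0', w1', x0, x1, hx, htb,
    htb', hk, hprod, hn, hn'⟩ := star_phase hC hT hT' hB hB' O1 O1' (by linarith) (by linarith)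
    (by linarith) (by linarith) O2 O3 O3' O2' O4 O4' hOO
  obtain ⟨k1, hk1, hexp⟩ := star_prod (z1 := C9.hB C T' T) (z2 := C9.hB C T B) (z3 := C9.hB C B B')
    (z4 := C9.hB C B' T') d1 d2 d3 d4
  have hth := ph_third_hi
  have hpi := pi_gt_d2
  have hZ : kp ^ 2 ≤ Complex.normSq (Zf t t' x) := by
    rw [hn, real_inner_comm]
    linarith
  have hZ' : kp ^ 2 ≤ Complex.normSq (Zf b b' x) := by
    rw [hn']
    linarith
  have key := star_real (t := t) (b := b) (t' := t') (b' := b') (w := w) (w' := w') (x := x)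
    (h := Complex.arg (C9.hB C T' T) + Complex.arg (C9.hB C T B) + Complex.arg (C9.hB C B B') +
      Complex.arg (C9.hB C B' T')) (k := k1 * k) w0 w1 w0' w1' x0 x1 hx htb htb' hZ hZ'
    (by linarith) (by linarith) (mul_pos hk1 hk) (by
      rw [hexp, hprod]
      push_cast
      ring)
  rw [hn, hn'] at key
  rw [s1, s2, s3, s4']
  unfold s4
  have e1 : (1 - (1 + inner ℝ T T') / 2) ^ 2 = ((1 - inner ℝ T T') / 2) ^ 2 := by ring
  have e2 : (1 - (1 + inner ℝ B B') / 2) ^ 2 = ((1 - inner ℝ B B') / 2) ^ 2 := by ring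
  rw [e1, e2] at key
  linarith

private theorem star_asum (x y z : E3) : asum x z y = asum x y z := by
  unfold asum
  rw [ang_symm x z y, ang_symm z y x, ang_symm y x z]
  ring

private theorem star_s4 (x y : E3) : s4 x y = s4 y x := by
  unfold s4
  rw [real_inner_comm]

private theorem star_swap {p : Fin 9 → E3} {i j k : Fin 9} (h : Facet p (i, j, k)) :
    Facet p (i, k, j) := facet_perm1 (facet_perm2 (facet_perm2 h))

private theorem star_sign {p : Fin 9 → E3} {κ : ℝ} (hκ : kp < κ) (hG : Gen p)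
    (hC : Covers p κ) {i j k l : Fin 9} (h : Facet p (i, k, j)) (h' : Facet p (i, j, l))
    (hkl : k ≠ l) : 0 < dt (p i) (p k) (p j) * dt (p i) (p j) (p l) := by
  have hk0 : 0 < κ := by
    have := kp_lo
    linarith
  obtain ⟨k', h1, h2, h3⟩ := edge_two hk0 hG hC (star_swap h)
  rcases h3 l h' with h4 | h4
  · exact absurd h4.symm hkl
  · rw [dt_swap', ← h4] at h2
    linarith

private theorem star_N {p : Fin 9 → E3} {κ : ℝ} (hκ : kp < κ) (hC : Covers p κ)
    {i j k : Fin 9} (h : Facet p (i, j, k)) : ∃ N : E3, inner ℝ N (p i) = 1 ∧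
      inner ℝ N (p j) = 1 ∧ inner ℝ N (p k) = 1 ∧ kp < 1 / ‖N‖ := by
  obtain ⟨hd, N, h1, h2, h3, h4⟩ := h
  have hN : N ≠ 0 := by
    rintro rfl
    rw [inner_zero_left] at h1
    exact zero_ne_one h1
  refine ⟨N, h1, h2, h3, hκ.trans_le (norm_le hC hN fun l => ?_)⟩
  by_cases e1 : l = i
  · rw [e1]
    exact h1.le
  by_cases e2 : l = j
  · rw [e2]
    exact h2.le
  by_cases e3 : l = k
  · rw [e3]
    exact h3.le
  exact (h4 l e1 e2 e3).le

/-- the same for the facets of a covering, no orientation. PROOF. The product of the determinants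
of neighbouring facets at `i` is negative/positive by `edge_two`: all four have the same sign;
if they are negative, exchange `a`, `b` and `d`, `e`. Here `a, b, d, e` are the neighbours of `i` in
cyclic order. -/
theorem star_facets {p : Fin 9 → E3} {κ : ℝ} (hκ : kp < κ) (hG : Gen p) (hC : Covers p κ)
    {i a b d e : Fin 9} (h1 : Facet p (i, a, b)) (h2 : Facet p (i, b, d))
    (h3 : Facet p (i, d, e)) (h4 : Facet p (i, e, a)) (n1 : a ≠ d) (n2 : b ≠ e) :
    asum (p i) (p a) (p b) + asum (p i) (p b) (p d) + asum (p i) (p d) (p e) +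
      asum (p i) (p e) (p a) ≤ 4 * π + 2 * (π - 2 * ph kp (π / 3) - 9 / 16 * bt * sn ^ 4) +
        bt * (s4 (p a) (p b) + s4 (p d) (p e)) := by
  have g1 := star_sign hκ hG hC h1 h2 n1
  have g2 := star_sign hκ hG hC h2 h3 n2
  have g3 := star_sign hκ hG hC h3 h4 n1.symm
  rcases lt_or_gt_of_ne (show dt (p i) (p a) (p b) ≠ 0 from h1.1) with hs | hs
  · have k2 : dt (p i) (p b) (p d) < 0 := (neg_iff_neg_of_mul_pos g1).1 hs
    have k3 : dt (p i) (p d) (p e) < 0 := (neg_iff_neg_of_mul_pos g2).1 k2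
    have k4 : dt (p i) (p e) (p a) < 0 := (neg_iff_neg_of_mul_pos g3).1 k3
    have := star_le (C := p i) (T := p a) (T' := p b) (B := p e) (B' := p d) (hG.1 i) (hG.1 a)
      (hG.1 b) (hG.1 e) (hG.1 d) (fun x y z hm => by
        simp only [List.mem_cons, Prod.mk.injEq, List.mem_nil_iff, or_false] at hm
        rcases hm with ⟨rfl, rfl, rfl⟩ | ⟨rfl, rfl, rfl⟩ | ⟨rfl, rfl, rfl⟩ | ⟨rfl, rfl, rfl⟩
        · exact ⟨by rw [dt_swap']; linarith, star_N hκ hC (star_swap h1)⟩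
        · exact ⟨by rw [dt_swap']; linarith, star_N hκ hC (star_swap h4)⟩
        · exact ⟨by rw [dt_swap']; linarith, star_N hκ hC (star_swap h3)⟩
        · exact ⟨by rw [dt_swap']; linarith, star_N hκ hC (star_swap h2)⟩)
    rw [star_asum (p i) (p a) (p b), star_asum (p i) (p e) (p a), star_asum (p i) (p d) (p e),
      star_asum (p i) (p b) (p d), star_s4 (p e) (p d)] at this
    linarith
  · have k2 : 0 < dt (p i) (p b) (p d) := (pos_iff_pos_of_mul_pos g1).1 hs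
    have k3 : 0 < dt (p i) (p d) (p e) := (pos_iff_pos_of_mul_pos g2).1 k2
    have k4 : 0 < dt (p i) (p e) (p a) := (pos_iff_pos_of_mul_pos g3).1 k3
    have := star_le (C := p i) (T := p b) (T' := p a) (B := p d) (B' := p e) (hG.1 i) (hG.1 b)
      (hG.1 a) (hG.1 d) (hG.1 e) (fun x y z hm => by
        simp only [List.mem_cons, Prod.mk.injEq, List.mem_nil_iff, or_false] at hm
        rcases hm with ⟨rfl, rfl, rfl⟩ | ⟨rfl, rfl, rfl⟩ | ⟨rfl, rfl, rfl⟩ | ⟨rfl, rfl, rfl⟩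
        · exact ⟨hs, star_N hκ hC h1⟩
        · exact ⟨k2, star_N hκ hC h2⟩
        · exact ⟨k3, star_N hκ hC h3⟩
        · exact ⟨k4, star_N hκ hC h4⟩)
    rw [star_s4 (p b) (p a)] at this
    linarith

end Pool.Agent.C9
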