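import Pool.Agent.Lib.MP_488b8a_co_X.Price
import Pool.Agent.Lib.MP_488b8a_co_X.Star
import Pool.Agent.Lib.MP_488b8a_co_X.E9

/-! # Project C9, module T1: the type `4^3 5^6` -/

set_option autoImplicit false

namespace Pool.Agent.C9

open Real Pool.Agent.C32

private theorem s4_comm' (x y : E3) : s4 x y = s4 y x := by
  unfold s4
  rw [real_inner_comm]

/-- PROOF. `price_sum` with all prices `1`: `18 π ≤` the sum of the 14 angle sums. The three stars
(`star_facets` at `8`: `0, 1, 4, 3`; at `6`: `1, 2, 5, 4`; at `7`: `2, 0, 3, 5`, with the first pair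
an edge of `{0,1,2}` and the third an edge of `{3,4,5}`) and `E_facet` for `(0,1,2)` and `(3,4,5)`:
the terms with `s4` cancel, `3 (4π + 2 (π - 2ρ - 9/16 bt sn^4)) + 2 (6ρ + 27/16 bt sn^4) = 18 π`
(`ρ = ph kp (π/3)`), and `E_facet` is strict. (`ang_symm`, permutations of the vertices of a
facet.) -/
theorem t1_false {p : Fin 9 → E3} {κ : ℝ} (hκ : kp < κ) (hG : Gen p) (hC : Covers p κ)
    (hF : ∀ i j k, Facet p (i, j, k) ↔ Has L1 i j k) : False := by
  have hk0 : 0 < kp := by
    unfold kp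
    positivity
  have hL : (L1.flatMap fun t => [(t.1, t.2.1, t.2.2), (t.2.1, t.2.2, t.1),
      (t.2.2, t.1, t.2.1), (t.2.1, t.1, t.2.2), (t.1, t.2.2, t.2.1),
      (t.2.2, t.2.1, t.1)]).Nodup := by
    decide
  have h0 := price_sum (hk0.trans hκ) hG hC hF hL (fun _ => 1) (fun _ => zero_le_one)
  have s8 := star_facets hκ hG hC (i := 8) (a := 0) (b := 1) (d := 4) (e := 3)
    ((hF _ _ _).2 (by decide)) ((hF _ _ _).2 (by decide)) ((hF _ _ _).2 (by decide))
    ((hF _ _ _).2 (by decide)) (by decide) (by decide)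
  have s6 := star_facets hκ hG hC (i := 6) (a := 1) (b := 2) (d := 5) (e := 4)
    ((hF _ _ _).2 (by decide)) ((hF _ _ _).2 (by decide)) ((hF _ _ _).2 (by decide))
    ((hF _ _ _).2 (by decide)) (by decide) (by decide)
  have s7 := star_facets hκ hG hC (i := 7) (a := 2) (b := 0) (d := 3) (e := 5)
    ((hF _ _ _).2 (by decide)) ((hF _ _ _).2 (by decide)) ((hF _ _ _).2 (by decide))
    ((hF _ _ _).2 (by decide)) (by decide) (by decide)
  have e1 := E_facet hκ hG hC (i := 0) (j := 1) (k := 2) ((hF _ _ _).2 (by decide))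
  have e2 := E_facet hκ hG hC (i := 3) (j := 4) (k := 5) ((hF _ _ _).2 (by decide))
  simp only [L1, List.map_cons, List.map_nil, List.sum_cons, List.sum_nil, Finset.sum_const,
    Finset.card_univ, Fintype.card_fin, nsmul_eq_mul, one_mul, mul_one] at h0
  simp only [asum] at s8 s6 s7
  rw [s4_comm' (p 4) (p 3)] at s8
  rw [s4_comm' (p 5) (p 4)] at s6
  rw [s4_comm' (p 3) (p 5)] at s7
  push_cast at h0
  linarith

end Pool.Agent.C9
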