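import Pool.Agent.Lib.MP_488b8a_co_X.FChk
import Pool.Agent.Lib.MP_488b8a_co_X.Edge
import Pool.Agent.Lib.MP_488b8a_co_X.Area
import Pool.Agent.Lib.MP_488b8a_co_X.E9b

/-! # Project C9, module Thin: there is no thin obtuse facet -/

set_option autoImplicit false

namespace Pool.Agent.C9

open Real Pool.Agent.C32

/-- certificate: all prices `1`, edge coefficient `-1.1` at the side `12` -/
def DT : FD :=
  ⟨100000, 100000, 100000, -110000, 0, 0, 358410, 264664, 349125, 420001, 420001,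
    140497, 314275, 314275, 8342, 200000, 350207, 322356, 0, 200000, 322356, 350207, 0⟩

theorem DT_ok : fchk 0 1000 DT = true := by decide +kernel

/-- the ordered triples -/
private abbrev ThinT := Fin 9 × Fin 9 × Fin 9

private def thin_rt : ThinT ≃ ThinT where
  toFun t := (t.2.1, t.2.2, t.1)
  invFun t := (t.2.2, t.1, t.2.1)
  left_inv _ := rfl
  right_inv _ := rfl

private theorem thin_rt_mem (p : Fin 9 → E3) (t : ThinT) :
    t ∈ facets p ↔ thin_rt t ∈ facets p := by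
  rw [mem_facets, mem_facets]
  obtain ⟨i, j, k⟩ := t
  exact ⟨fun h => facet_perm2 h, fun h => facet_perm2 (facet_perm2 h)⟩

private theorem thin_rt_sum {M : Type*} [AddCommMonoid M] (p : Fin 9 → E3) (g : ThinT → M) :
    ∑ t ∈ facets p, g (thin_rt t) = ∑ t ∈ facets p, g t :=
  Finset.sum_equiv thin_rt (thin_rt_mem p) (fun _ _ => rfl)

private theorem thin_three (p : Fin 9 → E3) (g : ThinT → ℝ) :
    ∑ t ∈ facets p, (g t + g (thin_rt t) + g (thin_rt (thin_rt t))) =
      3 * ∑ t ∈ facets p, g t := by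
  rw [Finset.sum_add_distrib, Finset.sum_add_distrib, thin_rt_sum p g,
    thin_rt_sum p (fun t => g (thin_rt t)), thin_rt_sum p g]
  ring

/-- the six orders of a triple -/
private def th6 (a b c : Fin 9) : Finset ThinT :=
  {(a, b, c), (b, c, a), (c, a, b), (b, a, c), (c, b, a), (a, c, b)}

private theorem th6_sum (g : ThinT → ℝ) {a b c : Fin 9} (h1 : a ≠ b) (h2 : b ≠ c) (h3 : a ≠ c) :
    ∑ t ∈ th6 a b c, g t = g (a, b, c) + g (b, c, a) + g (c, a, b) +
      (g (b, a, c) + g (c, b, a) + g (a, c, b)) := by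
  unfold th6
  rw [Finset.sum_insert, Finset.sum_insert, Finset.sum_insert, Finset.sum_insert,
    Finset.sum_insert, Finset.sum_singleton]
  · ring
  all_goals simp [h1, h2, h3, h1.symm, h2.symm, h3.symm]

private theorem th6_has {a b c w : Fin 9} (hw : w = a ∨ w = b ∨ w = c) {t : ThinT}
    (h : t ∈ th6 a b c) : w = t.1 ∨ w = t.2.1 ∨ w = t.2.2 := by
  unfold th6 at h
  simp only [Finset.mem_insert, Finset.mem_singleton] at h
  rcases h with h | h | h | h | h | h <;> rw [h] <;> rcases hw with e | e | e <;> rw [e] <;> simp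

private theorem th6_sub {a b c x : Fin 9} {t : ThinT} (h : t ∈ th6 a b c)
    (hx : x = t.1 ∨ x = t.2.1 ∨ x = t.2.2) : x = a ∨ x = b ∨ x = c := by
  unfold th6 at h
  simp only [Finset.mem_insert, Finset.mem_singleton] at h
  rcases h with h | h | h | h | h | h <;> rw [h] at hx <;> simp only at hx <;> tauto

private theorem th6_disj {a b c x y z w : Fin 9} (hw : w = a ∨ w = b ∨ w = c) (h1 : w ≠ x)
    (h2 : w ≠ y) (h3 : w ≠ z) : Disjoint (th6 a b c) (th6 x y z) := by
  rw [Finset.disjoint_left]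
  intro t ht ht'
  rcases th6_sub ht' (th6_has hw ht) with h | h | h
  · exact h1 h
  · exact h2 h
  · exact h3 h

private theorem th6_facet {p : Fin 9 → E3} {a b c : Fin 9} (h : Facet p (a, b, c)) :
    th6 a b c ⊆ facets p := by
  intro t ht
  rw [mem_facets]
  unfold th6 at ht
  simp only [Finset.mem_insert, Finset.mem_singleton] at ht
  have h1 := facet_perm1 h
  rcases ht with h' | h' | h' | h' | h' | h' <;> rw [h']
  · exact h
  · exact facet_perm2 h
  · exact facet_perm2 (facet_perm2 h)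
  · exact h1
  · exact facet_perm2 (facet_perm2 h1)
  · exact facet_perm2 h1

/-- the angle sum of a triple -/
private noncomputable def thS (p : Fin 9 → E3) (t : ThinT) : ℝ :=
  ang (p t.1) (p t.2.1) (p t.2.2) + ang (p t.2.1) (p t.2.2) (p t.1) +
    ang (p t.2.2) (p t.1) (p t.2.1)

private theorem thS_six (p : Fin 9 → E3) (r : ℝ) {a b c : Fin 9} (h1 : a ≠ b) (h2 : b ≠ c)
    (h3 : a ≠ c) : ∑ t ∈ th6 a b c, (r - thS p t) = 6 * (r - thS p (a, b, c)) := by
  rw [th6_sum _ h1 h2 h3]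
  unfold thS
  simp only
  rw [ang_symm (p b) (p a) (p c), ang_symm (p a) (p c) (p b), ang_symm (p c) (p b) (p a)]
  ring

/-- `S t`, the angle sum of the triangle `t`, is at most `6 ρ`, `ρ = ph kp (π/3)` (`ang_face_le`);
three different facets have together at least `18 π - 66 ρ`. PROOF. The 84 ordered facets
(`card_facets`) and `∑_{t ∈ facets} ang t ≥ 9 * 4 π` (`angle_sum`, as in `card_facets`); the sum of
`S t` over the ordered facets is three times that, `≥ 108 π`; the `18` ordered triples of the three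
facets (each unordered facet has six orders with the same `S`, `ang_symm`) and `66` others with
`S ≤ 6 ρ`: `108 π ≤ 66 * 6 ρ + 6 (S₁ + S₂ + S₃)`. -/
theorem three_facets {p : Fin 9 → E3} {κ : ℝ} (hκ : kp ≤ κ) (hG : Gen p) (hC : Covers p κ)
    {i j k m n : Fin 9} (h : Facet p (i, j, k)) (hm : Facet p (j, k, m)) (hn : Facet p (k, i, n))
    (hmi : m ≠ i) (hnj : n ≠ j) :
    18 * π - 66 * ph kp (π / 3) ≤
      (ang (p i) (p j) (p k) + ang (p j) (p k) (p i) + ang (p k) (p i) (p j)) +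
      (ang (p j) (p k) (p m) + ang (p k) (p m) (p j) + ang (p m) (p j) (p k)) +
      (ang (p k) (p i) (p n) + ang (p i) (p n) (p k) + ang (p n) (p k) (p i)) := by
  classical
  obtain ⟨n1, n2, n3⟩ := facet_ne h
  obtain ⟨m1, m2, m3⟩ := facet_ne hm
  obtain ⟨l1, l2, l3⟩ := facet_ne hn
  have hu := hG.1
  have hκ0 : 0 < κ := kp_pos.trans_le hκ
  obtain ⟨r, hr⟩ : ∃ r, r = 6 * ph kp (π / 3) := ⟨_, rfl⟩
  have hnn : ∀ t ∈ facets p, 0 ≤ r - thS p t := by
    intro t ht
    rw [mem_facets] at ht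
    obtain ⟨x, y, z⟩ := t
    obtain ⟨c, a, b, d, hc, hpar⟩ := facet_par hu hC ht
    have := ang_face_le (hu x) (hu y) (hu z) (hκ.trans hc) hpar
    unfold thS
    simp only
    rw [hr]
    linarith
  have d1 : Disjoint (th6 i j k) (th6 j k m) := th6_disj (Or.inl rfl) n1 n3 hmi.symm
  have d2 : Disjoint (th6 i j k) (th6 k i n) :=
    th6_disj (Or.inr (Or.inl rfl)) n2 n1.symm hnj.symm
  have d3 : Disjoint (th6 j k m) (th6 k i n) := th6_disj (Or.inl rfl) n2 n1.symm hnj.symm
  have hsub : th6 i j k ∪ th6 j k m ∪ th6 k i n ⊆ facets p :=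
    Finset.union_subset (Finset.union_subset (th6_facet h) (th6_facet hm)) (th6_facet hn)
  have h1 := Finset.sum_le_sum_of_subset_of_nonneg hsub (f := fun t => r - thS p t)
    (fun t ht _ => hnn t ht)
  rw [Finset.sum_union (Finset.disjoint_union_left.2 ⟨d2, d3⟩), Finset.sum_union d1,
    thS_six p r n1 n2 n3, thS_six p r m1 m2 m3, thS_six p r l1 l2 l3, Finset.sum_sub_distrib,
    Finset.sum_const, card_facets hκ hG hC, nsmul_eq_mul] at h1
  have h2 : ∑ t ∈ facets p, thS p t =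
      3 * ∑ t ∈ facets p, ang (p t.1) (p t.2.1) (p t.2.2) :=
    thin_three p (fun t => ang (p t.1) (p t.2.1) (p t.2.2))
  have h3 : ∑ t ∈ facets p, ang (p t.1) (p t.2.1) (p t.2.2) =
      ∑ i, ∑ t ∈ (facets p).filter (fun t => t.1 = i), ang (p t.1) (p t.2.1) (p t.2.2) :=
    (Finset.sum_fiberwise (facets p) (fun t => t.1) _).symm
  have h4 : 9 * (4 * π) ≤ ∑ t ∈ facets p, ang (p t.1) (p t.2.1) (p t.2.2) := by
    rw [h3]
    have h5 : ∑ _i : Fin 9, (4 * π) = 9 * (4 * π) := by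
      rw [Finset.sum_const, Finset.card_univ, Fintype.card_fin, nsmul_eq_mul]
      norm_num
    rw [← h5]
    exact Finset.sum_le_sum fun i _ => angle_sum hκ0 hG hC i
  rw [h2] at h1
  unfold thS at h1
  simp only at h1
  rw [hr] at h1
  norm_num at h1
  linarith

private theorem thin_mono (f g : ℝ → ℝ) (hd : ∀ x, HasDerivAt f (g x) x) (hg : ∀ x, 0 ≤ g x)
    (h0 : f 0 = 0) {x : ℝ} (hx : 0 ≤ x) : 0 ≤ f x := by
  have h1 : Monotone f := monotone_of_deriv_nonneg (fun y => (hd y).differentiableAt)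
    (fun y => by rw [(hd y).deriv]; exact hg y)
  have h2 := h1 hx
  rw [h0] at h2
  exact h2

private theorem thin_at {x : ℝ} (hx : 0 ≤ x) : arctan x ≤ x - x ^ 3 / 3 + x ^ 5 / 5 := by
  have h1 : 0 ≤ (fun y : ℝ => (y - y ^ 3 / 3 + y ^ 5 / 5) - arctan y) x := by
    refine thin_mono (fun y : ℝ => (y - y ^ 3 / 3 + y ^ 5 / 5) - arctan y)
      (fun y => y ^ 6 / (1 + y ^ 2)) ?_ ?_ ?_ hx
    · intro y
      have h2 : (0 : ℝ) < 1 + y ^ 2 := by positivity
      have h3 := (((hasDerivAt_id y).sub ((hasDerivAt_pow 3 y).div_const 3)).add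
        ((hasDerivAt_pow 5 y).div_const 5)).sub (hasDerivAt_arctan y)
      have h4 : 1 - ((3 : ℕ) : ℝ) * y ^ (3 - 1) / 3 + ((5 : ℕ) : ℝ) * y ^ (5 - 1) / 5 -
          1 / (1 + y ^ 2) = y ^ 6 / (1 + y ^ 2) := by
        push_cast
        norm_num
        field_simp
        ring
      rw [h4] at h3
      exact h3
    · intro y
      positivity
    · simp
  simp only at h1
  linarith

/-- PROOF. `ph_sub_mono`, `ph_mid`, `two_half_mono` (compare with `0.64`):
`2 (ph c b + ph c d - ph c (b + d)) ≤ 2 (2 ph kp 0.32 - ph kp 0.64) < 3.1912`;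
`ph kp 0.32 ≤` the table at `j = 16`, `ph kp 0.64 ≥` ... (lower bound: `ph_eq`, or `ph_tan`,
`dph` table: `ph kp 0.64 = 1.09023...`; the true value of the sum is `3.19106`; only `< 3.28` is
needed, margin `0.1` in `no_thin`). -/
theorem thin_sum {c b d : ℝ} (hc : kp ≤ c) (hc1 : c < 1) (hb : 0 < b) (hd : 0 < d)
    (h : b + d ≤ 0.64) : 2 * (ph c b + ph c d - ph c (b + d)) ≤ 3.21 := by
  have hp := pi_gt_d6
  have hk := kp_pos
  have hk1 := kp_lo
  have hk2 := kp_hi
  have hp0 := pi_pos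
  obtain ⟨x, hx⟩ : ∃ x, x = b + d := ⟨_, rfl⟩
  have hx0 : 0 < x := by linarith
  have hx1 : x ≤ 32 / 50 := by
    rw [hx]
    norm_num at h ⊢
    exact h
  have hp2 : x ≤ π / 2 := by
    norm_num at hp
    linarith
  have h1 := ph_sub_mono (c := kp) (c' := c) (x := b) (y := d) (by linarith) hc hc1.le hb.le
    hd.le (by linarith)
  have h2 := ph_mid (c := kp) (x := b) (y := d) hk (by linarith) hb.le (by linarith) hd.le
    (by linarith)
  rw [← hx] at h1 h2 ⊢
  have h3 : 2 * ph kp (x / 2) - ph kp x ≤ 2 * ph kp (32 / 50 / 2) - ph kp (32 / 50) :=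
    two_half_mono hk (by linarith) (⟨hx0.le, hp2⟩ : x ∈ Set.Icc 0 (π / 2))
      (⟨by norm_num, by norm_num at hp ⊢; linarith⟩ : (32 / 50 : ℝ) ∈ Set.Icc 0 (π / 2)) hx1
  have r16 := tab_good ⟨16, 1344061, 733582, 98951, 98954, 597194, 597197⟩ (by simp [tab])
  have r32 := tab_good ⟨32, 1092592, 852937, 356641, 356644, 958014, 958017⟩ (by simp [tab])
  have g1 := r16.1
  have g2 := r32.2.2.2.1
  norm_num at g1 g2
  have h4 : (1.085 : ℝ) ≤ ph kp (32 / 50) := by
    rw [ph_eq hk (by norm_num) (by norm_num at hp ⊢; linarith)]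
    have hs : 0 < sin (32 / 50 : ℝ) :=
      sin_pos_of_pos_of_lt_pi (by norm_num) (by norm_num at hp ⊢; linarith)
    have hc' : 0 < cos (32 / 50 : ℝ) :=
      cos_pos_of_mem_Ioo ⟨by norm_num at hp ⊢; linarith, by norm_num at hp ⊢; linarith⟩
    have h5 : (19 / 10 : ℝ) ≤ cos (32 / 50) / (kp * sin (32 / 50)) := by
      rw [le_div_iff₀ (mul_pos hk hs)]
      have h6 : (19 / 10 * (kp * sin (32 / 50))) ^ 2 ≤ cos (32 / 50 : ℝ) ^ 2 := by
        have h7 : kp ^ 2 ≤ 0.484665 := by nlinarith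
        have h8 : kp ^ 2 * sin (32 / 50) ^ 2 ≤ 0.484665 * 0.356644 :=
          mul_le_mul h7 (by norm_num at g2 ⊢; exact g2) (sq_nonneg _) (by norm_num)
        have h9 : (19 / 10 * (kp * sin (32 / 50))) ^ 2 =
            361 / 100 * (kp ^ 2 * sin (32 / 50 : ℝ) ^ 2) := by ring
        have h12 : cos (16 / 25 : ℝ) ^ 2 = 1 - sin (16 / 25) ^ 2 := cos_sq' _
        rw [h9]
        norm_num at g2 h8 ⊢
        linarith
      exact (sq_le_sq₀ (by positivity) hc'.le).1 h6
    refine le_trans ?_ (arctan_strictMono.monotone h5)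
    have h10 : arctan (10 / 19 : ℝ) = π / 2 - arctan (19 / 10) := by
      rw [← arctan_inv_of_pos (by norm_num)]
      norm_num
    have h11 := thin_at (x := (10 / 19 : ℝ)) (by norm_num)
    norm_num at h10 h11 hp ⊢
    linarith
  norm_num at h3 h4 g1 h1 h2 ⊢
  linarith

/-- `a` is the half gap of the long side `i j`. PROOF. Suppose `x = b + d < 0.64`. `edge_two` gives
facets `(j, k, m)`, `m ≠ i`, and `(k, i, n)`, `n ≠ j`. `three_facets`; the first angle sum is
`2 (ph c b + ph c d - ph c x) ≤ 3.21` (`thin_sum`, `ph_pi_sub`); the other two are at most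
`DT.B / 100000 + 1.1 yy` (`facet_chk` with `DT`), `yy (p j) (p k) + yy (p k) (p i) =
(1 - c^2)/sn^2 (sin^2 b + sin^2 d) ≤ sin^2 b + sin^2 d ≤ sin^2 (b + d) ≤ sin^2 0.64 < 0.3567`
(`sin^2 (b+d) - sin^2 b - sin^2 d = 2 sin b sin d cos (b + d)`). Sum
`≤ 3.21 + 2 * 3.584... + 0.3924 < 18 π - 66 * 0.69237` (`ph_third_hi`). -/
theorem no_thin {p : Fin 9 → E3} {κ : ℝ} (hκ : kp < κ) (hG : Gen p) (hC : Covers p κ)
    {i j k : Fin 9} (h : Facet p (i, j, k)) {c a b d : ℝ} (hc : kp ≤ c)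
    (hp : Par (p i) (p j) (p k) c a b d) (ha : π / 2 < a) : 0.64 ≤ b + d := by
  have _ := ha
  by_contra hlt
  push Not at hlt
  have hpi := pi_gt_d6
  have hpi' := pi_lt_d6
  have hκ0 : 0 < κ := kp_pos.trans hκ
  have hu := hG.1
  have h1 : Facet p (j, k, i) := facet_perm2 h
  have h2 : Facet p (k, i, j) := facet_perm2 h1
  obtain ⟨m, hm, hm', -⟩ := edge_two hκ0 hG hC h1
  obtain ⟨n, hn, hn', -⟩ := edge_two hκ0 hG hC h2
  have hmi : m ≠ i := by
    rintro rfl
    exact absurd hm' (not_lt.2 (mul_self_nonneg _))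
  have hnj : n ≠ j := by
    rintro rfl
    exact absurd hn' (not_lt.2 (mul_self_nonneg _))
  have h3 := three_facets hκ.le hG hC h hm hn hmi hnj
  have e1 := par_rot hp
  have e2 := par_rot e1
  rw [ang_par (hu i) (hu j) (hu k) hp, ang_par (hu j) (hu k) (hu i) e1,
    ang_par (hu k) (hu i) (hu j) e2] at h3
  obtain ⟨hc0, hc1, ha0, hb, hd, hs, f1, f2, f3⟩ := hp
  have h4 := thin_sum hc hc1 hb hd hlt.le
  have h5 : ph c a = -ph c (b + d) := by
    have : a = π - (b + d) := by linarith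
    rw [this]
    exact ph_pi_sub hc0 (by linarith) (by linarith)
  have h6 := facet_chk DT_ok hκ hG hC hm
  have h7 := facet_chk DT_ok hκ hG hC hn
  have hsn : 0 < sn ^ 2 := pow_pos sn_pos 2
  have hcc : (1 - c ^ 2) / sn ^ 2 ≤ 1 := by
    rw [div_le_one hsn]
    have := kp_sn
    have := kp_pos
    nlinarith
  have y1 : yy (p j) (p k) ≤ sin b ^ 2 := by
    unfold yy
    rw [f2]
    unfold gram
    have : (1 - (1 - 2 * (1 - c ^ 2) * sin b ^ 2)) / (2 * sn ^ 2) =
        (1 - c ^ 2) / sn ^ 2 * sin b ^ 2 := by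
      field_simp
      ring
    rw [this]
    exact mul_le_of_le_one_left (sq_nonneg _) hcc
  have y2 : yy (p k) (p i) ≤ sin d ^ 2 := by
    unfold yy
    rw [f3]
    unfold gram
    have : (1 - (1 - 2 * (1 - c ^ 2) * sin d ^ 2)) / (2 * sn ^ 2) =
        (1 - c ^ 2) / sn ^ 2 * sin d ^ 2 := by
      field_simp
      ring
    rw [this]
    exact mul_le_of_le_one_left (sq_nonneg _) hcc
  have r32 := tab_good ⟨32, 1092592, 852937, 356641, 356644, 958014, 958017⟩ (by simp [tab])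
  have g2 := r32.2.2.2.1
  norm_num at g2
  have hbd : b + d ≤ 16 / 25 := by
    norm_num at hlt
    exact hlt.le
  have y3 : sin b ^ 2 + sin d ^ 2 ≤ sin (16 / 25) ^ 2 := by
    have s1 : 0 < sin b := sin_pos_of_pos_of_lt_pi hb (by linarith)
    have s2 : 0 < sin d := sin_pos_of_pos_of_lt_pi hd (by linarith)
    have s3 : 0 < cos (b + d) :=
      cos_pos_of_mem_Ioo ⟨by linarith, by norm_num at hpi; linarith⟩
    have s4 : sin (b + d) ≤ sin (16 / 25) := strictMonoOn_sin.monotoneOn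
      ⟨by linarith, by norm_num at hpi; linarith⟩
      ⟨by norm_num at hpi ⊢; linarith, by norm_num at hpi ⊢; linarith⟩ hbd
    have s5 : 0 < sin (b + d) := sin_pos_of_pos_of_lt_pi (by linarith)
      (by norm_num at hpi; linarith)
    have s6 : sin (b + d) ^ 2 = sin b ^ 2 + sin d ^ 2 + 2 * (sin b * sin d) * cos (b + d) := by
      have c1 := sin_sq_add_cos_sq b
      have c2 := sin_sq_add_cos_sq d
      rw [sin_add, cos_add]
      have c3 : cos b ^ 2 = 1 - sin b ^ 2 := by linarith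
      have c4 : cos d ^ 2 = 1 - sin d ^ 2 := by linarith
      have c5 : (sin b * cos d + cos b * sin d) ^ 2 = sin b ^ 2 * cos d ^ 2 +
          cos b ^ 2 * sin d ^ 2 + 2 * (sin b * sin d) * (cos b * cos d) := by ring
      rw [c5, c3, c4]
      ring
    have s7 : sin (b + d) ^ 2 ≤ sin (16 / 25) ^ 2 := pow_le_pow_left₀ s5.le s4 2
    have s8 : 0 < 2 * (sin b * sin d) * cos (b + d) := by positivity
    linarith
  have hth := ph_third_hi
  rw [h5] at h3
  unfold DT at h6 h7
  norm_num at h6 h7 h3 h4 hth hpi hpi' g2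
  linarith

/-- PROOF. `facet_par`, `par_chk` with `j₀ = 32`, `sg = 1130`; `oa`, `ob`, `od` are `no_thin` for
the three rotations (`par_rot`, `facet_perm2`). `hsg`: `0.13 (π/2 - 0.64) < 0.1210 ≤
sn^2 sin 0.64 cos 0.64 / 2 = 0.1234` (`sin 1.28 / 4`; the table has `sin (2 * 32/50)` bounds). -/
theorem facet_thin_chk {D : FD} (hD : fchk 32 1130 D = true) {p : Fin 9 → E3} {κ : ℝ}
    (hκ : kp < κ) (hG : Gen p) (hC : Covers p κ) {i j k : Fin 9} (h : Facet p (i, j, k)) :
    (D.P1 : ℝ) / 100000 * ang (p i) (p j) (p k) + (D.P2 : ℝ) / 100000 * ang (p j) (p k) (p i) +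
      (D.P3 : ℝ) / 100000 * ang (p k) (p i) (p j) + (D.K1 : ℝ) / 100000 * yy (p i) (p j) +
      (D.K2 : ℝ) / 100000 * yy (p j) (p k) + (D.K3 : ℝ) / 100000 * yy (p k) (p i) ≤
        (D.B : ℝ) / 100000 := by
  have hpi := pi_gt_d6
  have hpi' := pi_lt_d6
  have hu := hG.1
  obtain ⟨c, a, b, d, hc, hp⟩ := facet_par hu hC h
  have hck : kp ≤ c := hκ.le.trans hc
  have e1 := par_rot hp
  have e2 := par_rot e1
  have h1 : Facet p (j, k, i) := facet_perm2 h
  have h2 : Facet p (k, i, j) := facet_perm2 h1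
  have r32 := tab_good ⟨32, 1092592, 852937, 356641, 356644, 958014, 958017⟩ (by simp [tab])
  have g2 := r32.2.2.2.2.1
  have hs := sn_lo
  have hsg : ((1130 : ℤ) / 1000 - 1 : ℝ) * (π / 2 - (32 : ℕ) / 50) ≤
      sn ^ 2 * (sin ((32 : ℕ) / 50) * cos ((32 : ℕ) / 50) / 2) := by
    rw [sin_two_mul] at g2
    norm_num at g2 hpi' ⊢
    have h3 : (0.5153 : ℝ) ≤ sn ^ 2 := by nlinarith
    have h4 : (0.2395 : ℝ) ≤ sin (16 / 25) * cos (16 / 25) / 2 := by
      norm_num at g2 ⊢
      linarith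
    have h5 : (0.5153 : ℝ) * 0.2395 ≤ sn ^ 2 * (sin (16 / 25) * cos (16 / 25) / 2) :=
      mul_le_mul h3 h4 (by norm_num) (sq_nonneg _)
    norm_num at h5
    linarith
  refine par_chk hD hsg (hu i) (hu j) (hu k) hck hp ?_ ?_ ?_
  · intro ho
    have := no_thin hκ hG hC h hck hp ho
    norm_num at this ⊢
    exact this
  · intro ho
    have := no_thin hκ hG hC h1 hck e1 ho
    norm_num at this ⊢
    exact this
  · intro ho
    have := no_thin hκ hG hC h2 hck e2 ho
    norm_num at this ⊢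
    exact this

end Pool.Agent.C9
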