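import Pool.Agent.Lib.MP_488b8a_co_X.Price
import Pool.Agent.Lib.MP_488b8a_co_X.Thin

/-! # Project C9, module T2: the type `4^4 5^4 6` -/

set_option autoImplicit false

namespace Pool.Agent.C9

open Real Pool.Agent.C32

private def t2D0 : FD :=
  ⟨30700, 73400, 128100, 0, 53600, 28300, 391224,
    142218, 224473, 332690, 280729,
    117633, 316517, 259481, 0, 108291, 252927, 186063, 242297, 120638, 198461, 316517, 121234⟩

private theorem t2D0_ok : fchk 32 1130 t2D0 = true := by decide +kernel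

private def t2D1 : FD :=
  ⟨30700, 128100, 128100, -28300, 61100, -28300, 402545,
    211037, 309944, 445646, 309944,
    160077, 404205, 265921, 2303, 177664, 278283, 278283, 237855, 160077, 265921, 404205, 2303⟩

private theorem t2D1_ok : fchk 32 1130 t2D1 = true := by decide +kernel

private def t2D2 : FD :=
  ⟨105100, 73400, 128100, -35000, -53600, 37800, 391553,
    248137, 358305, 362221, 450283,
    177754, 322469, 383071, 2847, 190998, 393762, 304940, 4386, 221756, 330132, 343016, 103808⟩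

private theorem t2D2_ok : fchk 32 1130 t2D2 = true := by decide +kernel

private def t2D3 : FD :=
  ⟨105100, 128100, 128100, -37800, -61100, -37800, 402507,
    312223, 460839, 461703, 460839,
    237648, 414951, 393472, 3075, 247690, 400423, 400423, 4975, 237648, 393472, 414951, 3075⟩

private theorem t2D3_ok : fchk 32 1130 t2D3 = true := by decide +kernel

private def t2D4 : FD :=
  ⟨105100, 105100, 73400, 0, 35000, 35000, 453841,
    197432, 357434, 358327, 358327,
    132815, 293677, 293677, 165444, 169069, 326955, 338397, 86590, 169069, 338397, 326955, 86590⟩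

private theorem t2D4_ok : fchk 32 1130 t2D4 = true := by decide +kernel

/-- the prices -/
private noncomputable def t2P : Fin 9 → ℝ :=
  ![73400 / 100000, 128100 / 100000, 128100 / 100000, 73400 / 100000, 128100 / 100000,
    128100 / 100000, 30700 / 100000, 105100 / 100000, 105100 / 100000]

theorem t2_false {p : Fin 9 → E3} {κ : ℝ} (hκ : kp < κ) (hG : Gen p) (hC : Covers p κ)
    (hF : ∀ i j k, Facet p (i, j, k) ↔ Has L2 i j k) : False := by
  have hk0 : 0 < kp := by
    unfold kp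
    positivity
  have hL : (L2.flatMap fun t => [(t.1, t.2.1, t.2.2), (t.2.1, t.2.2, t.1),
      (t.2.2, t.1, t.2.1), (t.2.1, t.1, t.2.2), (t.1, t.2.2, t.2.1),
      (t.2.2, t.2.1, t.1)]).Nodup := by
    decide
  have hP : ∀ i, 0 ≤ t2P i := by
    intro i
    fin_cases i <;> norm_num [t2P]
  have e0 : t2P 0 = 73400 / 100000 := rfl
  have e1 : t2P 1 = 128100 / 100000 := rfl
  have e2 : t2P 2 = 128100 / 100000 := rfl
  have e3 : t2P 3 = 73400 / 100000 := rfl
  have e4 : t2P 4 = 128100 / 100000 := rfl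
  have e5 : t2P 5 = 128100 / 100000 := rfl
  have e6 : t2P 6 = 30700 / 100000 := rfl
  have e7 : t2P 7 = 105100 / 100000 := rfl
  have e8 : t2P 8 = 105100 / 100000 := rfl
  have h0 := price_sum (hk0.trans hκ) hG hC hF hL t2P hP
  have hs : ∑ i, t2P i = 900100 / 100000 := by
    have h : ∑ i, t2P i = t2P 0 + (t2P 1 + (t2P 2 + (t2P 3 + (t2P 4 + (t2P 5 + (t2P 6 +
        (t2P 7 + (t2P 8 + 0)))))))) := by
      simp only [Fin.sum_univ_succ, Fin.sum_univ_zero]
      rfl
    rw [h, e0, e1, e2, e3, e4, e5, e6, e7, e8]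
    norm_num
  rw [hs] at h0
  simp only [L2, List.map_cons, List.map_nil, List.sum_cons, List.sum_nil,
    e0, e1, e2, e3, e4, e5, e6, e7, e8] at h0
  have f0 := facet_thin_chk t2D0_ok hκ hG hC (i := 6) (j := 0) (k := 1)
    ((hF _ _ _).2 (by decide))
  have f1 := facet_thin_chk t2D1_ok hκ hG hC (i := 6) (j := 1) (k := 2)
    ((hF _ _ _).2 (by decide))
  have f2 := facet_thin_chk t2D0_ok hκ hG hC (i := 6) (j := 3) (k := 2)
    ((hF _ _ _).2 (by decide))
  have f3 := facet_thin_chk t2D0_ok hκ hG hC (i := 6) (j := 3) (k := 4)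
    ((hF _ _ _).2 (by decide))
  have f4 := facet_thin_chk t2D1_ok hκ hG hC (i := 6) (j := 4) (k := 5)
    ((hF _ _ _).2 (by decide))
  have f5 := facet_thin_chk t2D0_ok hκ hG hC (i := 6) (j := 0) (k := 5)
    ((hF _ _ _).2 (by decide))
  have f6 := facet_thin_chk t2D2_ok hκ hG hC (i := 7) (j := 0) (k := 1)
    ((hF _ _ _).2 (by decide))
  have f7 := facet_thin_chk t2D3_ok hκ hG hC (i := 7) (j := 1) (k := 2)
    ((hF _ _ _).2 (by decide))
  have f8 := facet_thin_chk t2D2_ok hκ hG hC (i := 7) (j := 3) (k := 2)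
    ((hF _ _ _).2 (by decide))
  have f9 := facet_thin_chk t2D2_ok hκ hG hC (i := 8) (j := 3) (k := 4)
    ((hF _ _ _).2 (by decide))
  have f10 := facet_thin_chk t2D3_ok hκ hG hC (i := 8) (j := 4) (k := 5)
    ((hF _ _ _).2 (by decide))
  have f11 := facet_thin_chk t2D2_ok hκ hG hC (i := 8) (j := 0) (k := 5)
    ((hF _ _ _).2 (by decide))
  have f12 := facet_thin_chk t2D4_ok hκ hG hC (i := 7) (j := 8) (k := 0)
    ((hF _ _ _).2 (by decide))
  have f13 := facet_thin_chk t2D4_ok hκ hG hC (i := 7) (j := 8) (k := 3)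
    ((hF _ _ _).2 (by decide))
  push_cast [t2D0, t2D1, t2D2, t2D3, t2D4] at f0 f1 f2 f3 f4 f5 f6 f7 f8 f9 f10 f11 f12 f13
  rw [yy_comm (p 6) (p 0)] at f0
  rw [yy_comm (p 6) (p 1)] at f1
  rw [ang_symm (p 6) (p 3) (p 2), ang_symm (p 3) (p 2) (p 6), ang_symm (p 2) (p 6) (p 3),
    yy_comm (p 6) (p 3), yy_comm (p 3) (p 2)] at f2
  rw [yy_comm (p 6) (p 3)] at f3
  rw [yy_comm (p 6) (p 4)] at f4
  rw [ang_symm (p 6) (p 0) (p 5), ang_symm (p 0) (p 5) (p 6), ang_symm (p 5) (p 6) (p 0),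
    yy_comm (p 6) (p 0)] at f5
  rw [yy_comm (p 7) (p 0)] at f6
  rw [yy_comm (p 7) (p 1)] at f7
  rw [ang_symm (p 7) (p 3) (p 2), ang_symm (p 3) (p 2) (p 7), ang_symm (p 2) (p 7) (p 3),
    yy_comm (p 7) (p 3), yy_comm (p 3) (p 2)] at f8
  rw [yy_comm (p 8) (p 3)] at f9
  rw [yy_comm (p 8) (p 4)] at f10
  rw [ang_symm (p 8) (p 0) (p 5), ang_symm (p 0) (p 5) (p 8), ang_symm (p 5) (p 8) (p 0),
    yy_comm (p 8) (p 0)] at f11
  rw [yy_comm (p 8) (p 0)] at f12
  rw [yy_comm (p 8) (p 3)] at f13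
  have hpi := pi_gt_d6
  linarith

end Pool.Agent.C9
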