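import Pool.Agent.Lib.MP_488b8a_co_X.Price
import Pool.Agent.Lib.MP_488b8a_co_X.FChk

/-! # Project C9, module T3: the type `4^5 5^2 6^2` -/

set_option autoImplicit false

namespace Pool.Agent.C9

open Real Pool.Agent.C32

private def t3D0 : FD :=
  ⟨131400, 92300, 131400, -42800, -42800, 0, 427746,
    294070, 430806, 430806, 489979,
    192908, 358244, 414962, 5856, 192908, 414962, 358244, 5856, 253220, 392863, 392863, 15137⟩

private theorem t3D0_ok : fchk 0 1000 t3D0 = true := by decide +kernel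

private def t3D1 : FD :=
  ⟨52000, 92300, 131400, -1300, 42800, 0, 418429,
    191360, 302356, 388905, 328340,
    143365, 351715, 293143, 178, 153672, 298786, 260415, 153475, 150687, 257624, 356152, 51687⟩

private theorem t3D1_ok : fchk 0 1000 t3D1 = true := by decide +kernel

private def t3D2 : FD :=
  ⟨52000, 92300, 115200, 1300, 0, 15900, 382480,
    188925, 301627, 348276, 326099,
    145239, 325997, 283087, 5, 137326, 276843, 247492, 110875, 164886, 273596, 332993, 19568⟩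

private theorem t3D2_ok : fchk 0 1000 t3D2 = true := by decide +kernel

private def t3D3 : FD :=
  ⟨52000, 115200, 118200, -15900, 0, 0, 392427,
    216422, 331194, 394702, 346429,
    155762, 366625, 286261, 2175, 166857, 295141, 284235, 105138, 170200, 286736, 368188, 0⟩

private theorem t3D3_ok : fchk 0 1000 t3D3 = true := by decide +kernel

/-- the prices -/
private noncomputable def t3P : Fin 9 → ℝ :=
  ![92300 / 100000, 131400 / 100000, 92300 / 100000, 115200 / 100000, 118200 / 100000,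
    115200 / 100000, 52000 / 100000, 131400 / 100000, 52000 / 100000]

theorem t3_false {p : Fin 9 → E3} {κ : ℝ} (hκ : kp < κ) (hG : Gen p) (hC : Covers p κ)
    (hF : ∀ i j k, Facet p (i, j, k) ↔ Has L3 i j k) : False := by
  have hk0 : 0 < kp := by
    unfold kp
    positivity
  have hL : (L3.flatMap fun t => [(t.1, t.2.1, t.2.2), (t.2.1, t.2.2, t.1),
      (t.2.2, t.1, t.2.1), (t.2.1, t.1, t.2.2), (t.1, t.2.2, t.2.1),
      (t.2.2, t.2.1, t.1)]).Nodup := by
    decide
  have hP : ∀ i, 0 ≤ t3P i := by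
    intro i
    fin_cases i <;> norm_num [t3P]
  have e0 : t3P 0 = 92300 / 100000 := rfl
  have e1 : t3P 1 = 131400 / 100000 := rfl
  have e2 : t3P 2 = 92300 / 100000 := rfl
  have e3 : t3P 3 = 115200 / 100000 := rfl
  have e4 : t3P 4 = 118200 / 100000 := rfl
  have e5 : t3P 5 = 115200 / 100000 := rfl
  have e6 : t3P 6 = 52000 / 100000 := rfl
  have e7 : t3P 7 = 131400 / 100000 := rfl
  have e8 : t3P 8 = 52000 / 100000 := rfl
  have h0 := price_sum (hk0.trans hκ) hG hC hF hL t3P hP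
  have hs : ∑ i, t3P i = 900000 / 100000 := by
    have h : ∑ i, t3P i = t3P 0 + (t3P 1 + (t3P 2 + (t3P 3 + (t3P 4 + (t3P 5 + (t3P 6 +
        (t3P 7 + (t3P 8 + 0)))))))) := by
      simp only [Fin.sum_univ_succ, Fin.sum_univ_zero]
      rfl
    rw [h, e0, e1, e2, e3, e4, e5, e6, e7, e8]
    norm_num
  rw [hs] at h0
  simp only [L3, List.map_cons, List.map_nil, List.sum_cons, List.sum_nil,
    e0, e1, e2, e3, e4, e5, e6, e7, e8] at h0
  have f0 := facet_chk t3D1_ok hκ hG hC (i := 6) (j := 0) (k := 1)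
    ((hF _ _ _).2 (by decide))
  have f1 := facet_chk t3D1_ok hκ hG hC (i := 6) (j := 2) (k := 1)
    ((hF _ _ _).2 (by decide))
  have f2 := facet_chk t3D2_ok hκ hG hC (i := 6) (j := 2) (k := 3)
    ((hF _ _ _).2 (by decide))
  have f3 := facet_chk t3D3_ok hκ hG hC (i := 6) (j := 3) (k := 4)
    ((hF _ _ _).2 (by decide))
  have f4 := facet_chk t3D3_ok hκ hG hC (i := 6) (j := 5) (k := 4)
    ((hF _ _ _).2 (by decide))
  have f5 := facet_chk t3D2_ok hκ hG hC (i := 6) (j := 0) (k := 5)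
    ((hF _ _ _).2 (by decide))
  have f6 := facet_chk t3D0_ok hκ hG hC (i := 7) (j := 0) (k := 1)
    ((hF _ _ _).2 (by decide))
  have f7 := facet_chk t3D0_ok hκ hG hC (i := 1) (j := 2) (k := 7)
    ((hF _ _ _).2 (by decide))
  have f8 := facet_chk t3D2_ok hκ hG hC (i := 8) (j := 2) (k := 3)
    ((hF _ _ _).2 (by decide))
  have f9 := facet_chk t3D3_ok hκ hG hC (i := 8) (j := 3) (k := 4)
    ((hF _ _ _).2 (by decide))
  have f10 := facet_chk t3D3_ok hκ hG hC (i := 8) (j := 5) (k := 4)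
    ((hF _ _ _).2 (by decide))
  have f11 := facet_chk t3D2_ok hκ hG hC (i := 8) (j := 0) (k := 5)
    ((hF _ _ _).2 (by decide))
  have f12 := facet_chk t3D1_ok hκ hG hC (i := 8) (j := 0) (k := 7)
    ((hF _ _ _).2 (by decide))
  have f13 := facet_chk t3D1_ok hκ hG hC (i := 8) (j := 2) (k := 7)
    ((hF _ _ _).2 (by decide))
  push_cast [t3D0, t3D1, t3D2, t3D3] at f0 f1 f2 f3 f4 f5 f6 f7 f8 f9 f10 f11 f12 f13
  rw [yy_comm (p 6) (p 0)] at f0
  rw [ang_symm (p 6) (p 2) (p 1), ang_symm (p 2) (p 1) (p 6), ang_symm (p 1) (p 6) (p 2),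
    yy_comm (p 6) (p 2), yy_comm (p 2) (p 1)] at f1
  rw [yy_comm (p 6) (p 2)] at f2
  rw [yy_comm (p 6) (p 3)] at f3
  rw [ang_symm (p 6) (p 5) (p 4), ang_symm (p 5) (p 4) (p 6), ang_symm (p 4) (p 6) (p 5),
    yy_comm (p 6) (p 5), yy_comm (p 5) (p 4)] at f4
  rw [ang_symm (p 6) (p 0) (p 5), ang_symm (p 0) (p 5) (p 6), ang_symm (p 5) (p 6) (p 0),
    yy_comm (p 6) (p 0)] at f5
  rw [yy_comm (p 7) (p 0)] at f6
  rw [yy_comm (p 7) (p 1)] at f7
  rw [yy_comm (p 8) (p 2)] at f8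
  rw [yy_comm (p 8) (p 3)] at f9
  rw [ang_symm (p 8) (p 5) (p 4), ang_symm (p 5) (p 4) (p 8), ang_symm (p 4) (p 8) (p 5),
    yy_comm (p 8) (p 5), yy_comm (p 5) (p 4)] at f10
  rw [ang_symm (p 8) (p 0) (p 5), ang_symm (p 0) (p 5) (p 8), ang_symm (p 5) (p 8) (p 0),
    yy_comm (p 8) (p 0)] at f11
  rw [yy_comm (p 8) (p 0)] at f12
  rw [yy_comm (p 8) (p 2)] at f13
  have hpi := pi_gt_d6
  linarith

end Pool.Agent.C9
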