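import Pool.Agent.Lib.MP_488b8a_co_X.Price
import Pool.Agent.Lib.MP_488b8a_co_X.FChk

/-! # Project C9, module T4: the type `4^6 6^3` -/

set_option autoImplicit false

namespace Pool.Agent.C9

open Real Pool.Agent.C32

private def t4D0 : FD :=
  ⟨122300, 122300, 122300, -45200, -45200, -45200, 406605,
    317171, 467636, 467636, 467636,
    212082, 392317, 392317, 6184, 212082, 392317, 392317, 6184, 212082, 392317, 392317, 6184⟩

private theorem t4D0_ok : fchk 0 1000 t4D0 = true := by decide +kernel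

private def t4D1 : FD :=
  ⟨55400, 122300, 122300, -37300, 45200, -37300, 393528,
    234277, 340425, 448677, 340425,
    154234, 384218, 284551, 3857, 204443, 313015, 313015, 108681, 154234, 284551, 384218, 3857⟩

private theorem t4D1_ok : fchk 0 1000 t4D1 = true := by decide +kernel

private def t4D2 : FD :=
  ⟨55400, 55400, 122300, 0, 37300, 37300, 384223,
    147974, 234425, 307311, 307311,
    110800, 279132, 279132, 0, 115385, 281331, 198154, 135785, 115385, 198154, 281331, 135785⟩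

private theorem t4D2_ok : fchk 0 1000 t4D2 = true := by decide +kernel

/-- the prices -/
private noncomputable def t4P : Fin 9 → ℝ :=
  ![55400 / 100000, 122300 / 100000, 122300 / 100000, 55400 / 100000, 122300 / 100000,
    122300 / 100000, 55400 / 100000, 122300 / 100000, 122300 / 100000]

theorem t4_false {p : Fin 9 → E3} {κ : ℝ} (hκ : kp < κ) (hG : Gen p) (hC : Covers p κ)
    (hF : ∀ i j k, Facet p (i, j, k) ↔ Has L4 i j k) : False := by
  have hk0 : 0 < kp := by
    unfold kp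
    positivity
  have hL : (L4.flatMap fun t => [(t.1, t.2.1, t.2.2), (t.2.1, t.2.2, t.1),
      (t.2.2, t.1, t.2.1), (t.2.1, t.1, t.2.2), (t.1, t.2.2, t.2.1),
      (t.2.2, t.2.1, t.1)]).Nodup := by
    decide
  have hP : ∀ i, 0 ≤ t4P i := by
    intro i
    fin_cases i <;> norm_num [t4P]
  have e0 : t4P 0 = 55400 / 100000 := rfl
  have e1 : t4P 1 = 122300 / 100000 := rfl
  have e2 : t4P 2 = 122300 / 100000 := rfl
  have e3 : t4P 3 = 55400 / 100000 := rfl
  have e4 : t4P 4 = 122300 / 100000 := rfl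
  have e5 : t4P 5 = 122300 / 100000 := rfl
  have e6 : t4P 6 = 55400 / 100000 := rfl
  have e7 : t4P 7 = 122300 / 100000 := rfl
  have e8 : t4P 8 = 122300 / 100000 := rfl
  have h0 := price_sum (hk0.trans hκ) hG hC hF hL t4P hP
  have hs : ∑ i, t4P i = 900000 / 100000 := by
    have h : ∑ i, t4P i = t4P 0 + (t4P 1 + (t4P 2 + (t4P 3 + (t4P 4 + (t4P 5 + (t4P 6 +
        (t4P 7 + (t4P 8 + 0)))))))) := by
      simp only [Fin.sum_univ_succ, Fin.sum_univ_zero]
      rfl
    rw [h, e0, e1, e2, e3, e4, e5, e6, e7, e8]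
    norm_num
  rw [hs] at h0
  simp only [L4, List.map_cons, List.map_nil, List.sum_cons, List.sum_nil,
    e0, e1, e2, e3, e4, e5, e6, e7, e8] at h0
  have f0 := facet_chk t4D2_ok hκ hG hC (i := 6) (j := 0) (k := 1)
    ((hF _ _ _).2 (by decide))
  have f1 := facet_chk t4D1_ok hκ hG hC (i := 6) (j := 1) (k := 2)
    ((hF _ _ _).2 (by decide))
  have f2 := facet_chk t4D2_ok hκ hG hC (i := 3) (j := 6) (k := 2)
    ((hF _ _ _).2 (by decide))
  have f3 := facet_chk t4D2_ok hκ hG hC (i := 6) (j := 3) (k := 4)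
    ((hF _ _ _).2 (by decide))
  have f4 := facet_chk t4D1_ok hκ hG hC (i := 6) (j := 4) (k := 5)
    ((hF _ _ _).2 (by decide))
  have f5 := facet_chk t4D2_ok hκ hG hC (i := 0) (j := 6) (k := 5)
    ((hF _ _ _).2 (by decide))
  have f6 := facet_chk t4D1_ok hκ hG hC (i := 0) (j := 1) (k := 7)
    ((hF _ _ _).2 (by decide))
  have f7 := facet_chk t4D0_ok hκ hG hC (i := 7) (j := 1) (k := 2)
    ((hF _ _ _).2 (by decide))
  have f8 := facet_chk t4D1_ok hκ hG hC (i := 3) (j := 7) (k := 2)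
    ((hF _ _ _).2 (by decide))
  have f9 := facet_chk t4D1_ok hκ hG hC (i := 3) (j := 4) (k := 8)
    ((hF _ _ _).2 (by decide))
  have f10 := facet_chk t4D0_ok hκ hG hC (i := 8) (j := 4) (k := 5)
    ((hF _ _ _).2 (by decide))
  have f11 := facet_chk t4D1_ok hκ hG hC (i := 0) (j := 8) (k := 5)
    ((hF _ _ _).2 (by decide))
  have f12 := facet_chk t4D2_ok hκ hG hC (i := 0) (j := 3) (k := 7)
    ((hF _ _ _).2 (by decide))
  have f13 := facet_chk t4D2_ok hκ hG hC (i := 0) (j := 3) (k := 8)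
    ((hF _ _ _).2 (by decide))
  push_cast [t4D0, t4D1, t4D2] at f0 f1 f2 f3 f4 f5 f6 f7 f8 f9 f10 f11 f12 f13
  rw [yy_comm (p 6) (p 0)] at f0
  rw [yy_comm (p 6) (p 1)] at f1
  rw [yy_comm (p 6) (p 2)] at f2
  rw [yy_comm (p 6) (p 3)] at f3
  rw [yy_comm (p 6) (p 4)] at f4
  rw [yy_comm (p 6) (p 5), yy_comm (p 5) (p 0)] at f5
  rw [yy_comm (p 7) (p 0)] at f6
  rw [yy_comm (p 7) (p 1)] at f7
  rw [yy_comm (p 7) (p 2)] at f8
  rw [yy_comm (p 8) (p 3)] at f9
  rw [yy_comm (p 8) (p 4)] at f10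
  rw [yy_comm (p 8) (p 5), yy_comm (p 5) (p 0)] at f11
  rw [yy_comm (p 7) (p 0)] at f12
  rw [yy_comm (p 8) (p 0)] at f13
  have hpi := pi_gt_d6
  linarith

end Pool.Agent.C9
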