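import Pool.Agent.Lib.MP_488b8a_co_X.Price
import Pool.Agent.Lib.MP_488b8a_co_X.FChk

/-! # Project C9, module T5: the type `4^7 7^2` -/

set_option autoImplicit false

namespace Pool.Agent.C9

open Real Pool.Agent.C32

private def t5D0 : FD :=
  ⟨40800, 116900, 116900, 0, 0, 0, 395727,
    202508, 323403, 385115, 323403,
    157700, 367254, 276138, 0, 148286, 268289, 268289, 135113, 157700, 276138, 367254, 0⟩

private theorem t5D0_ok : fchk 0 1000 t5D0 = true := by decide +kernel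

/-- the prices -/
private noncomputable def t5P : Fin 9 → ℝ :=
  ![116900 / 100000, 116900 / 100000, 116900 / 100000, 116900 / 100000, 116900 / 100000,
    116900 / 100000, 116900 / 100000, 40800 / 100000, 40800 / 100000]

theorem t5_false {p : Fin 9 → E3} {κ : ℝ} (hκ : kp < κ) (hG : Gen p) (hC : Covers p κ)
    (hF : ∀ i j k, Facet p (i, j, k) ↔ Has L5 i j k) : False := by
  have hk0 : 0 < kp := by
    unfold kp
    positivity
  have hL : (L5.flatMap fun t => [(t.1, t.2.1, t.2.2), (t.2.1, t.2.2, t.1),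
      (t.2.2, t.1, t.2.1), (t.2.1, t.1, t.2.2), (t.1, t.2.2, t.2.1),
      (t.2.2, t.2.1, t.1)]).Nodup := by
    decide
  have hP : ∀ i, 0 ≤ t5P i := by
    intro i
    fin_cases i <;> norm_num [t5P]
  have e0 : t5P 0 = 116900 / 100000 := rfl
  have e1 : t5P 1 = 116900 / 100000 := rfl
  have e2 : t5P 2 = 116900 / 100000 := rfl
  have e3 : t5P 3 = 116900 / 100000 := rfl
  have e4 : t5P 4 = 116900 / 100000 := rfl
  have e5 : t5P 5 = 116900 / 100000 := rfl
  have e6 : t5P 6 = 116900 / 100000 := rfl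
  have e7 : t5P 7 = 40800 / 100000 := rfl
  have e8 : t5P 8 = 40800 / 100000 := rfl
  have h0 := price_sum (hk0.trans hκ) hG hC hF hL t5P hP
  have hs : ∑ i, t5P i = 899900 / 100000 := by
    have h : ∑ i, t5P i = t5P 0 + (t5P 1 + (t5P 2 + (t5P 3 + (t5P 4 + (t5P 5 + (t5P 6 +
        (t5P 7 + (t5P 8 + 0)))))))) := by
      simp only [Fin.sum_univ_succ, Fin.sum_univ_zero]
      rfl
    rw [h, e0, e1, e2, e3, e4, e5, e6, e7, e8]
    norm_num
  rw [hs] at h0
  simp only [L5, List.map_cons, List.map_nil, List.sum_cons, List.sum_nil,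
    e0, e1, e2, e3, e4, e5, e6, e7, e8] at h0
  have f0 := facet_chk t5D0_ok hκ hG hC (i := 7) (j := 0) (k := 1)
    ((hF _ _ _).2 (by decide))
  have f1 := facet_chk t5D0_ok hκ hG hC (i := 7) (j := 1) (k := 2)
    ((hF _ _ _).2 (by decide))
  have f2 := facet_chk t5D0_ok hκ hG hC (i := 7) (j := 2) (k := 3)
    ((hF _ _ _).2 (by decide))
  have f3 := facet_chk t5D0_ok hκ hG hC (i := 7) (j := 3) (k := 4)
    ((hF _ _ _).2 (by decide))
  have f4 := facet_chk t5D0_ok hκ hG hC (i := 7) (j := 4) (k := 5)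
    ((hF _ _ _).2 (by decide))
  have f5 := facet_chk t5D0_ok hκ hG hC (i := 7) (j := 5) (k := 6)
    ((hF _ _ _).2 (by decide))
  have f6 := facet_chk t5D0_ok hκ hG hC (i := 7) (j := 6) (k := 0)
    ((hF _ _ _).2 (by decide))
  have f7 := facet_chk t5D0_ok hκ hG hC (i := 8) (j := 0) (k := 1)
    ((hF _ _ _).2 (by decide))
  have f8 := facet_chk t5D0_ok hκ hG hC (i := 8) (j := 1) (k := 2)
    ((hF _ _ _).2 (by decide))
  have f9 := facet_chk t5D0_ok hκ hG hC (i := 8) (j := 2) (k := 3)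
    ((hF _ _ _).2 (by decide))
  have f10 := facet_chk t5D0_ok hκ hG hC (i := 8) (j := 3) (k := 4)
    ((hF _ _ _).2 (by decide))
  have f11 := facet_chk t5D0_ok hκ hG hC (i := 8) (j := 4) (k := 5)
    ((hF _ _ _).2 (by decide))
  have f12 := facet_chk t5D0_ok hκ hG hC (i := 8) (j := 5) (k := 6)
    ((hF _ _ _).2 (by decide))
  have f13 := facet_chk t5D0_ok hκ hG hC (i := 8) (j := 6) (k := 0)
    ((hF _ _ _).2 (by decide))
  push_cast [t5D0] at f0 f1 f2 f3 f4 f5 f6 f7 f8 f9 f10 f11 f12 f13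
  rw [yy_comm (p 7) (p 0)] at f0
  rw [yy_comm (p 7) (p 1)] at f1
  rw [yy_comm (p 7) (p 2)] at f2
  rw [yy_comm (p 7) (p 3)] at f3
  rw [yy_comm (p 7) (p 4)] at f4
  rw [yy_comm (p 7) (p 5)] at f5
  rw [yy_comm (p 7) (p 6), yy_comm (p 6) (p 0)] at f6
  rw [yy_comm (p 8) (p 0)] at f7
  rw [yy_comm (p 8) (p 1)] at f8
  rw [yy_comm (p 8) (p 2)] at f9
  rw [yy_comm (p 8) (p 3)] at f10
  rw [yy_comm (p 8) (p 4)] at f11
  rw [yy_comm (p 8) (p 5)] at f12
  rw [yy_comm (p 8) (p 6), yy_comm (p 6) (p 0)] at f13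
  have hpi := pi_gt_d6
  linarith

end Pool.Agent.C9
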