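import Pool.Agent.Lib.MP_488b8a_co_X.Cst
import Pool.Agent.Lib.MP_488b8a_co_W.CovI

/-! # Project C9, module Up9: the nine points `pt9` cover -/

set_option autoImplicit false

namespace Pool.Agent.C9

open Real Pool.Agent.C32

/-- the sector `0 ≤ Y ≤ √3 X`, `0 ≤ Z`: the nearest centre is `C_7` or `T_0` -/
private theorem up_sector {X Y Z k s r : ℝ} (hk : 0 < k) (hs : 2 / 3 < s) (hks : k ^ 2 + s ^ 2 = 1)
    (hr : r ^ 2 = 3) (hr0 : 0 < r) (hrel : s * k + r * s ^ 2 = 2 * k)
    (h : X ^ 2 + Y ^ 2 + Z ^ 2 = 1) (hY : 0 ≤ Y) (hYX : Y ≤ r * X) (hZ : 0 ≤ Z) :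
    k ≤ X ∨ k ≤ s * X / 2 + s * r * Y / 2 + k * Z := by
  by_contra hcon
  push Not at hcon
  obtain ⟨c1, c2⟩ := hcon
  have hs0 : 0 < s := by linarith
  have hs1 : s < 1 := by nlinarith
  have hX : 0 ≤ X := by
    by_contra h1
    push Not at h1
    nlinarith
  obtain ⟨t, ht⟩ : ∃ t : ℝ, t = s * X / 2 + s * r * Y / 2 + k * Z := ⟨_, rfl⟩
  rw [← ht] at c2
  obtain ⟨b, hb⟩ : ∃ b : ℝ, b = 2 * r * Y / (3 * s) := ⟨_, rfl⟩
  have hbs : b * s = 2 * r * Y / 3 := by
    rw [hb]
    field_simp
  have hbr : b * s * r = 2 * Y := by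
    rw [hbs]
    linear_combination (2 * Y / 3) * hr
  have hb0 : 0 ≤ b := by
    rw [hb]
    positivity
  have hrY : 0 ≤ r * Y := mul_nonneg hr0.le hY
  have hrX : r * Y ≤ 3 * X := by nlinarith
  rcases le_or_gt Z (k * b) with h1 | h1
  · -- the triangle `C_7 T_0 B_0`
    obtain ⟨a, ha⟩ : ∃ a : ℝ, a = X - r * Y / 3 := ⟨_, rfl⟩
    have ha0 : 0 ≤ a := by
      rw [ha]
      linarith
    have e1 : k * (a + b) = k * X + s * Y := by
      have e0 : s * (k * (a + b)) = s * (k * X + s * Y) := by
        rw [ha]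
        linear_combination k * hbs + (-(r * Y / 3)) * hrel + (Y * s ^ 2 / 3) * hr
      exact mul_left_cancel₀ hs0.ne' e0
    have e2 : k * (a + b) ≤ 1 := by
      rw [e1]
      nlinarith [sq_nonneg (k * Y - s * X), sq_nonneg Z]
    have e3 : 1 = a * X + b * t - Z * (k * b - Z) := by
      rw [ht, ha]
      linear_combination (-1) * h + (-(X / 2)) * hbs + (-(Y / 2)) * hbr
    have e4 : 0 ≤ Z * (k * b - Z) := mul_nonneg hZ (by linarith)
    have e5 : a * X ≤ a * k := mul_le_mul_of_nonneg_left c1.le ha0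
    have e6 : b * t ≤ b * k := mul_le_mul_of_nonneg_left c2.le hb0
    rcases hb0.lt_or_eq with h2 | h2
    · have e7 : b * t < b * k := mul_lt_mul_of_pos_left c2 h2
      linarith
    · rcases ha0.lt_or_eq with h3 | h3
      · have e7 : a * X < a * k := mul_lt_mul_of_pos_left c1 h3
        linarith
      · rw [← h2, ← h3] at e3
        rw [← h2] at h1
        nlinarith
  · obtain ⟨m, hm⟩ : ∃ m : ℝ, m = Z / k := ⟨_, rfl⟩
    have hmk : m * k = Z := by
      rw [hm]
      field_simp
    have hbm : b < m := by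
      by_contra h2
      push Not at h2
      nlinarith
    have hm0 : 0 < m := lt_of_le_of_lt hb0 hbm
    rcases le_or_gt (m * s / 2) X with h2 | h2
    · -- the triangle `C_7 T_0 T_2`
      obtain ⟨a, ha⟩ : ∃ a : ℝ, a = X - m * s / 2 := ⟨_, rfl⟩
      have ha0 : 0 ≤ a := by
        rw [ha]
        linarith
      have e1 : k * (a + m) = k * X + (1 - s / 2) * Z := by
        rw [ha, ← hmk]
        ring
      have e2 : k * (a + m) ≤ 1 := by
        rw [e1]
        have h3 : (k * X + (1 - s / 2) * Z) ^ 2 ≤ 1 := by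
          have h4 : (1 - s / 2) ^ 2 ≤ s ^ 2 := by nlinarith
          nlinarith [sq_nonneg (k * Z - (1 - s / 2) * X), sq_nonneg Y, sq_nonneg X, sq_nonneg Z,
            mul_le_mul_of_nonneg_right h4 (sq_nonneg X),
            mul_le_mul_of_nonneg_right h4 (sq_nonneg Z)]
        nlinarith
      have e3 : 1 = a * X + m * t - (m - b) / 2 * (s * (r * Y)) := by
        rw [ht, ha]
        linear_combination (-1) * h + (-(Y / 2)) * hbr + (-Z) * hmk
      have e4 : 0 ≤ (m - b) / 2 * (s * (r * Y)) :=
        mul_nonneg (by linarith) (mul_nonneg hs0.le hrY)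
      have e5 : a * X ≤ a * k := mul_le_mul_of_nonneg_left c1.le ha0
      have e6 : m * t < m * k := mul_lt_mul_of_pos_left c2 hm0
      linarith
    · -- the triangle `T_0 T_1 T_2`
      have e1 : 0 ≤ (m - 2 * X / s) / 3 * (3 * s * X / 2 + s * (r * Y) / 2) := by
        refine mul_nonneg ?_ (by positivity)
        have h3 : 2 * X / s ≤ m := by
          rw [div_le_iff₀ hs0]
          linarith
        linarith
      have e2 : 0 ≤ (m + X / s - r * Y / s) / 3 * (s * (r * Y)) := by
        refine mul_nonneg ?_ (mul_nonneg hs0.le hrY)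
        have h3 : r * Y / s - X / s ≤ m := by
          rw [← sub_div, div_le_iff₀ hs0]
          linarith
        linarith
      have e3 : m * t - 1 = (m - 2 * X / s) / 3 * (3 * s * X / 2 + s * (r * Y) / 2) +
          (m + X / s - r * Y / s) / 3 * (s * (r * Y)) := by
        have h3 : (m - 2 * X / s) / 3 * (3 * s * X / 2 + s * (r * Y) / 2) =
            (m * s - 2 * X) / 3 * (3 * X / 2 + r * Y / 2) := by
          field_simp
        have h4 : (m + X / s - r * Y / s) / 3 * (s * (r * Y)) =
            (m * s + X - r * Y) / 3 * (r * Y) := by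
          field_simp
        rw [h3, h4, ht]
        linear_combination h + Z * hmk + (Y ^ 2 / 3) * hr
      have e4 : m * t < m * k := mul_lt_mul_of_pos_left c2 hm0
      have e5 : Z ≤ 1 := by nlinarith [sq_nonneg X, sq_nonneg Y]
      linarith

private theorem up_half {X Y Z k s r : ℝ} (hk : 0 < k) (hs : 2 / 3 < s) (hks : k ^ 2 + s ^ 2 = 1)
    (hr : r ^ 2 = 3) (hr0 : 0 < r) (hrel : s * k + r * s ^ 2 = 2 * k)
    (h : X ^ 2 + Y ^ 2 + Z ^ 2 = 1) (hZ : 0 ≤ Z) :
    (k ≤ X ∨ k ≤ -X / 2 + r * Y / 2 ∨ k ≤ -X / 2 - r * Y / 2) ∨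
      k ≤ s * X / 2 + s * r * Y / 2 + k * Z ∨ k ≤ -(s * X) + k * Z ∨
        k ≤ s * X / 2 - s * r * Y / 2 + k * Z := by
  have key : ∀ A B : ℝ, A ^ 2 + B ^ 2 = X ^ 2 + Y ^ 2 → 0 ≤ B → B ≤ r * A →
      k ≤ A ∨ k ≤ s * A / 2 + s * r * B / 2 + k * Z := by
    intro A B hAB h1 h2
    exact up_sector hk hs hks hr hr0 hrel (by linarith) h1 h2 hZ
  rcases le_total 0 Y with hY | hY
  · rcases le_total Y (r * X) with h1 | h1
    · rcases key X Y rfl hY h1 with h2 | h2
      · exact Or.inl (Or.inl h2)
      · exact Or.inr (Or.inl h2)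
    · -- azimuth between `60` and `180`
      rcases le_total 0 (r * X + Y) with h3 | h3
      · rcases key (-X / 2 + r * Y / 2) (r * X / 2 + Y / 2)
          (by linear_combination ((Y ^ 2 + X ^ 2) / 4) * hr) (by linarith)
          (by nlinarith) with h2 | h2
        · exact Or.inl (Or.inr (Or.inl h2))
        · refine Or.inr (Or.inl (h2.trans (le_of_eq ?_)))
          linear_combination (s * X / 4) * hr
      · rcases key (-X / 2 + r * Y / 2) (-(r * X / 2 + Y / 2))
          (by linear_combination ((Y ^ 2 + X ^ 2) / 4) * hr) (by linarith)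
          (by nlinarith) with h2 | h2
        · exact Or.inl (Or.inr (Or.inl h2))
        · refine Or.inr (Or.inr (Or.inl (h2.trans (le_of_eq ?_))))
          linear_combination (-(s * X / 4)) * hr
  · rcases le_total (-Y) (r * X) with h1 | h1
    · rcases key X (-Y) (by ring) (by linarith) h1 with h2 | h2
      · exact Or.inl (Or.inl h2)
      · refine Or.inr (Or.inr (Or.inr (h2.trans (le_of_eq ?_))))
        ring
    · rcases le_total 0 (r * X - Y) with h3 | h3
      · rcases key (-X / 2 - r * Y / 2) (r * X / 2 - Y / 2)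
          (by linear_combination ((Y ^ 2 + X ^ 2) / 4) * hr) (by linarith)
          (by nlinarith) with h2 | h2
        · exact Or.inl (Or.inr (Or.inr h2))
        · refine Or.inr (Or.inr (Or.inr (h2.trans (le_of_eq ?_))))
          linear_combination (s * X / 4) * hr
      · rcases key (-X / 2 - r * Y / 2) (-(r * X / 2 - Y / 2))
          (by linear_combination ((Y ^ 2 + X ^ 2) / 4) * hr) (by linarith)
          (by nlinarith) with h2 | h2
        · exact Or.inl (Or.inr (Or.inr h2))
        · refine Or.inr (Or.inr (Or.inl (h2.trans (le_of_eq ?_))))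
          linear_combination (-(s * X / 4)) * hr

theorem pt9_norm (i : Fin 9) : ‖pt9 i‖ = 1 := by
  have h1 := kp_sn
  have h2 : √3 ^ 2 = 3 := Real.sq_sqrt (by norm_num)
  rw [norm_one_iff]
  fin_cases i <;> simp only [pt9, Fin.zero_eta, Fin.mk_one, Fin.reduceFinMk, Matrix.cons_val_zero,
    Matrix.cons_val_one, Matrix.cons_val]
  · linear_combination h1 + (sn ^ 2 / 4) * h2
  · linear_combination h1
  · linear_combination h1 + (sn ^ 2 / 4) * h2
  · linear_combination h1 + (sn ^ 2 / 4) * h2
  · linear_combination h1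
  · linear_combination h1 + (sn ^ 2 / 4) * h2
  · linear_combination (1 / 4 : ℝ) * h2
  · norm_num
  · linear_combination (1 / 4 : ℝ) * h2

/-- PROOF. Triangles of the list `L1` and `tile_max` (`MP_488b8a_co_W/CovI.lean`), by the symmetry
group (reflections in the equator and in the meridian planes, rotation by `120°`): it suffices to
treat `x 2 ≥ 0` and azimuth in `[0°, 60°]`; there `x` lies in the cone of `T_0, T_1, T_2`, of
`C_7, T_0, T_2` or of `C_7, T_0, B_0` (numbers of `pt9`: `T_i = 0, 1, 2`, `B_i = 3, 4, 5`,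
`C = 6, 7, 8`); the circumradii are `r_9` (cosine `kp`), `42.64°` and `r_9`. Alternatively
directly: in each of the three triangles the point farthest from the vertices is the
circumcentre. -/
theorem pt9_covers : Covers pt9 kp := by
  intro x hx
  rw [norm_one_iff] at hx
  have h2 : √3 ^ 2 = 3 := Real.sq_sqrt (by norm_num)
  have h3 : 0 < √3 := by positivity
  have hk := kp_lo
  have hs := sn_lo
  have hrel := rel
  have hin : ∀ l, inner ℝ x (pt9 l) = x 0 * pt9 l 0 + x 1 * pt9 l 1 + x 2 * pt9 l 2 := fun l =>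
    inner_eq x (pt9 l)
  rcases le_total 0 (x 2) with hZ | hZ
  · rcases up_half (X := x 0) (Y := x 1) (Z := x 2) (k := kp) (s := sn) (r := √3) (by linarith)
      (by linarith) kp_sn h2 h3 hrel hx hZ with (h | h | h) | h | h | h
    · refine ⟨7, ?_⟩
      rw [hin]
      simp only [pt9, Matrix.cons_val_zero, Matrix.cons_val_one, Matrix.cons_val]
      linarith
    · refine ⟨8, ?_⟩
      rw [hin]
      simp only [pt9, Matrix.cons_val_zero, Matrix.cons_val_one, Matrix.cons_val]
      linarith
    · refine ⟨6, ?_⟩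
      rw [hin]
      simp only [pt9, Matrix.cons_val_zero, Matrix.cons_val_one, Matrix.cons_val]
      linarith
    · refine ⟨0, ?_⟩
      rw [hin]
      simp only [pt9, Matrix.cons_val_zero, Matrix.cons_val_one, Matrix.cons_val]
      linarith
    · refine ⟨1, ?_⟩
      rw [hin]
      simp only [pt9, Matrix.cons_val_zero, Matrix.cons_val_one, Matrix.cons_val]
      linarith
    · refine ⟨2, ?_⟩
      rw [hin]
      simp only [pt9, Matrix.cons_val_zero, Matrix.cons_val_one, Matrix.cons_val]
      linarith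
  · rcases up_half (X := x 0) (Y := x 1) (Z := -x 2) (k := kp) (s := sn) (r := √3) (by linarith)
      (by linarith) kp_sn h2 h3 hrel (by linarith) (by linarith) with (h | h | h) | h | h | h
    · refine ⟨7, ?_⟩
      rw [hin]
      simp only [pt9, Matrix.cons_val_zero, Matrix.cons_val_one, Matrix.cons_val]
      linarith
    · refine ⟨8, ?_⟩
      rw [hin]
      simp only [pt9, Matrix.cons_val_zero, Matrix.cons_val_one, Matrix.cons_val]
      linarith
    · refine ⟨6, ?_⟩
      rw [hin]
      simp only [pt9, Matrix.cons_val_zero, Matrix.cons_val_one, Matrix.cons_val]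
      linarith
    · refine ⟨3, ?_⟩
      rw [hin]
      simp only [pt9, Matrix.cons_val_zero, Matrix.cons_val_one, Matrix.cons_val]
      linarith
    · refine ⟨4, ?_⟩
      rw [hin]
      simp only [pt9, Matrix.cons_val_zero, Matrix.cons_val_one, Matrix.cons_val]
      linarith
    · refine ⟨5, ?_⟩
      rw [hin]
      simp only [pt9, Matrix.cons_val_zero, Matrix.cons_val_one, Matrix.cons_val]
      linarith

end Pool.Agent.C9
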