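import Pool.Agent.Lib.MP_488b8a_co_X.Del3
import Pool.Agent.Lib.MP_488b8a_co_X.Cls
import Pool.Agent.Lib.MP_488b8a_co_X.Up9
import Pool.Agent.Lib.MP_488b8a_co_X.T1
import Pool.Agent.Lib.MP_488b8a_co_X.T2
import Pool.Agent.Lib.MP_488b8a_co_X.T3
import Pool.Agent.Lib.MP_488b8a_co_X.T4
import Pool.Agent.Lib.MP_488b8a_co_X.T5

/-! # Project C9, module Fin9: the theorem -/

set_option autoImplicit false

namespace Pool.Agent.C9

open Real Pool.Agent.C32

private theorem f9_facet {p : Fin 9 → E3} (σ : Equiv.Perm (Fin 9)) (i j k : Fin 9) :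
    Facet (p ∘ σ) (i, j, k) ↔ Facet p (σ i, σ j, σ k) := by
  unfold Facet
  refine and_congr Iff.rfl (exists_congr fun N => and_congr Iff.rfl (and_congr Iff.rfl
    (and_congr Iff.rfl ⟨fun h l h1 h2 h3 => ?_, fun h l h1 h2 h3 => ?_⟩)))
  · have := h (σ.symm l) (fun e => h1 (σ.symm_apply_eq.1 e)) (fun e => h2 (σ.symm_apply_eq.1 e))
      (fun e => h3 (σ.symm_apply_eq.1 e))
    simpa using this
  · exact h (σ l) (fun e => h1 (σ.injective e)) (fun e => h2 (σ.injective e))
      (fun e => h3 (σ.injective e))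

private theorem f9_gen {p : Fin 9 → E3} (hG : Gen p) (σ : Equiv.Perm (Fin 9)) : Gen (p ∘ σ) := by
  refine ⟨fun i => hG.1 _, hG.2.1.comp σ.injective, fun N i j k l h1 h2 h3 h4 h5 h6 => ?_⟩
  exact hG.2.2 N (σ i) (σ j) (σ k) (σ l) (fun e => h1 (σ.injective e))
    (fun e => h2 (σ.injective e)) (fun e => h3 (σ.injective e)) (fun e => h4 (σ.injective e))
    (fun e => h5 (σ.injective e)) (fun e => h6 (σ.injective e))

private theorem f9_covers {p : Fin 9 → E3} {κ : ℝ} (hC : Covers p κ) (σ : Equiv.Perm (Fin 9)) :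
    Covers (p ∘ σ) κ := by
  intro x hx
  obtain ⟨l, hl⟩ := hC x hx
  refine ⟨σ.symm l, ?_⟩
  simpa using hl

/-- no generic covering with cosine larger than `kp` -/
private theorem f9_generic {p : Fin 9 → E3} {κ : ℝ} (hκ : kp < κ) (hG : Gen p)
    (hC : Covers p κ) : False := by
  have ht := tri_facets hκ.le hG hC
  have key : ∀ L, IsoTo (fun i j k => Facet p (i, j, k)) L →
      (∀ q : Fin 9 → E3, Gen q → Covers q κ → (∀ i j k, Facet q (i, j, k) ↔ Has L i j k) → False) →
      False := by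
    rintro L ⟨σ, hσ⟩ h
    exact h (p ∘ σ) (f9_gen hG σ) (f9_covers hC σ) fun i j k => (f9_facet σ i j k).trans (hσ i j k)
  rcases classify ht (fun i a b c h1 h2 h3 => del3_false hκ hG hC h1 h2 h3) with
    h | h | h | h | h
  · exact key _ h fun q g c f => t1_false hκ g c f
  · exact key _ h fun q g c f => t2_false hκ g c f
  · exact key _ h fun q g c f => t3_false hκ g c f
  · exact key _ h fun q g c f => t4_false hκ g c f
  · exact key _ h fun q g c f => t5_false hκ g c f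

/-- PROOF. As `covers_le` of `MP_488b8a_co_W/LowB.lean` (perturbation to a generic covering with
cosine `κ' > kp`), then `classify`, `del3_false`, `t1_false`, ..., `t5_false`. -/
theorem covers_le9 {p : Fin 9 → E3} {κ : ℝ} (hp : ∀ i, ‖p i‖ = 1) (hC : Covers p κ) :
    κ ≤ kp := by
  by_contra hlt
  have hlt : kp < κ := not_le.1 hlt
  obtain ⟨q, hG, hq⟩ := gen_approx p hp (ε := (κ - kp) / 2) (by linarith)
  have hC' : Covers q (κ - (κ - kp) / 2) := covers_approx hC fun i => (hq i).le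
  exact f9_generic (by linarith) hG hC'

private theorem f9_angle {x y : E3} (hx : ‖x‖ = 1) (hy : ‖y‖ = 1) {r : ℝ} (h0 : 0 ≤ r)
    (h1 : r ≤ π) : InnerProductGeometry.angle x y ≤ r ↔ cos r ≤ inner ℝ x y := by
  have h : cos (InnerProductGeometry.angle x y) = inner ℝ x y := by
    rw [InnerProductGeometry.cos_angle, hx, hy]
    ring
  rw [← h]
  constructor
  · intro hr
    exact cos_le_cos_of_nonneg_of_le_pi (InnerProductGeometry.angle_nonneg x y) h1 hr
  · intro hr
    by_contra hc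
    push Not at hc
    have := cos_lt_cos_of_nonneg_of_le_pi h0 (InnerProductGeometry.angle_le_pi x y) hc
    linarith

theorem cap9_arccos : capRadius 9 = arccos kp := by
  have k0 : 0 < kp := by linarith [kp_lo]
  have k1 : kp < 1 := by linarith [kp_hi]
  have hmem : arccos kp ∈ {r : ℝ | 0 ≤ r ∧ ∃ p : Fin 9 → EuclideanSpace ℝ (Fin 3),
      (∀ i, ‖p i‖ = 1) ∧ ∀ x : EuclideanSpace ℝ (Fin 3), ‖x‖ = 1 →
        ∃ i, InnerProductGeometry.angle x (p i) ≤ r} := by
    refine ⟨arccos_nonneg _, pt9, pt9_norm, fun x hx => ?_⟩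
    obtain ⟨s, hs⟩ := pt9_covers x hx
    refine ⟨s, ?_⟩
    rw [f9_angle hx (pt9_norm s) (arccos_nonneg _) (arccos_le_pi _),
      cos_arccos (by linarith) k1.le]
    exact hs
  refine le_antisymm (csInf_le ⟨0, fun r hr => hr.1⟩ hmem) (le_csInf ⟨_, hmem⟩ ?_)
  rintro r ⟨h0, p, hp, hc⟩
  by_contra hlt
  push Not at hlt
  have hr : r ≤ π := hlt.le.trans (arccos_le_pi _)
  have h := covers_le9 (p := p) (κ := cos r) hp (fun x hx => by
    obtain ⟨i, hi⟩ := hc x hx
    exact ⟨i, (f9_angle hx (hp i) h0 hr).1 hi⟩)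
  have h2 : cos (arccos kp) < cos r := cos_lt_cos_of_nonneg_of_le_pi h0 (arccos_le_pi _) hlt
  rw [cos_arccos (by linarith) k1.le] at h2
  linarith

/-- PROOF. As `cap_arccos` of `MP_488b8a_co_W/Fin32.lean`, `arctan_uu`, `uu_unique`. -/
theorem cap9 {u : ℝ} (h0 : 0 < u) (h : u ^ 4 + 2 * u ^ 3 - 3 * u ^ 2 - 12 = 0) :
    capRadius 9 = arctan (u / √3) := by
  rw [cap9_arccos, uu_unique h0 h, arctan_uu]

end Pool.Agent.C9
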