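import Pool.Agent.Lib.MP_488b8a_co_X.StarD
import Pool.Agent.Lib.MP_488b8a_co_X.Cst

/-! # Project C9, module GwD: definitions for the main inequality `good_W` (helper96)

`S = Sf u x`, `1 - |Pf u 0 x|^2 = S^2`, `W = Wf u x`. Plan: `good_W` for `cos v ≥ 0` reduces to
`v = 0` (`GwN.lean`, `gw_v`), the case `cos v ≤ 0` is `gw_neg`. For `v = 0`: if `S ≤ 0.48` increase
`x` at fixed `u` until `S = 0.48` or `x = r` (`gw_B`); if `S ≥ 0.48` increase `x` to `r` at fixed `S`
(`gw_A`); at `x = r` (`r = arccos kp`) it is an inequality of one variable (`gw_end`). -/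

set_option autoImplicit false

namespace Pool.Agent.C9

open Real Pool.Agent.C32 ComplexConjugate

/-- sine of half of the side, symmetric position -/
noncomputable def Sf (u x : ℝ) : ℝ := kp * sin x - sn * cos x * cos u

/-- the left side of `good_W` for `v = 0` -/
noncomputable def Wf (u x : ℝ) : ℝ :=
  om * u - Complex.arg (Pf u 0 x) - bt / 2 * Sf u x ^ 4

/-- the right side of `good_W` -/
noncomputable def Ws : ℝ :=
  om * us - (ph kp (π - us) + ph kp (π / 3)) - 9 / 32 * bt * sn ^ 4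

theorem kp_pos : 0 < kp := lt_trans (by norm_num) kp_lo

theorem sn_pos : 0 < sn := lt_trans (by norm_num) sn_lo

theorem kp_lt_one : kp < 1 := lt_trans kp_hi (by norm_num)

theorem normSq_Pf (u v x : ℝ) : Complex.normSq (Pf u v x) =
    (kp * cos x * cos u + sn * sin x * cos v) ^ 2 + (cos x * sin u) ^ 2 := by
  unfold Pf
  rw [Complex.normSq_mk]
  ring

theorem normSq_Pf0 (u x : ℝ) : Complex.normSq (Pf u 0 x) = 1 - Sf u x ^ 2 := by
  have h1 := sin_sq_add_cos_sq u
  have h2 := sin_sq_add_cos_sq x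
  have h3 := kp_sn
  rw [normSq_Pf, cos_zero]
  unfold Sf
  have e1 : sin u ^ 2 = 1 - cos u ^ 2 := by linarith
  have e2 : sin x ^ 2 = 1 - cos x ^ 2 := by linarith
  have e3 : sn ^ 2 = 1 - kp ^ 2 := by linarith
  have : (kp * cos x * cos u + sn * sin x * 1) ^ 2 + (cos x * sin u) ^ 2 +
      (kp * sin x - sn * cos x * cos u) ^ 2 = 1 := by
    have : (kp * cos x * cos u + sn * sin x * 1) ^ 2 + (cos x * sin u) ^ 2 +
      (kp * sin x - sn * cos x * cos u) ^ 2 = (kp ^ 2 + sn ^ 2) * (cos x ^ 2 * cos u ^ 2 +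
        sin x ^ 2) + cos x ^ 2 * sin u ^ 2 := by ring
    rw [this, e1, e2, h3]
    ring
  linarith

/-- `om = kp / sn^2`. PROOF. `dph kp us = kp / (1 - sn^2 sin^2 us)`, `sin_us`, `kp_sn`. -/
theorem om_eq : om = kp / sn ^ 2 := by
  have h1 := sin_sq_add_cos_sq us
  have h2 := sin_us
  have h3 := kp_sn
  have h4 := sn_pos
  have h5 : sin us * sn = kp := by
    rw [h2]
    field_simp
  unfold om dph
  have e : cos us ^ 2 + kp ^ 2 * sin us ^ 2 = sn ^ 2 := by
    have h6 : sin us ^ 2 * sn ^ 2 = kp ^ 2 := by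
      rw [← h5]
      ring
    have h7 : cos us ^ 2 = 1 - sin us ^ 2 := by linarith
    have h8 : kp ^ 2 = 1 - sn ^ 2 := by linarith
    rw [h7]
    have : (1 - sin us ^ 2) + kp ^ 2 * sin us ^ 2 = 1 - sin us ^ 2 * sn ^ 2 := by
      rw [h8]
      ring
    rw [this, h6]
    linarith
  rw [e]

theorem cos_r : cos (arccos kp) = kp := cos_arccos (by linarith [kp_pos]) kp_lt_one.le

theorem sin_r : sin (arccos kp) = sn := by
  rw [sin_arccos]
  have h3 := kp_sn
  have h4 := sn_pos
  rw [show 1 - kp ^ 2 = sn ^ 2 by linarith, sqrt_sq h4.le]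

theorem r_pos : 0 < arccos kp := arccos_pos.2 kp_lt_one

theorem r_lt : arccos kp < π / 2 := arccos_lt_pi_div_two.2 kp_pos

theorem bt_pos : 0 < bt := lt_trans (by norm_num) bt_lo

end Pool.Agent.C9
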