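import Pool.Agent.Lib.MP_488b8a_co_X.Edge

/-! # Project C9, module Link: the link of a vertex is connected -/

set_option autoImplicit false

namespace Pool.Agent.C9

open Real Pool.Agent.C32

variable {n : ℕ}

private theorem link_closed (p q w : E3) : IsClosed {x : E3 | InS p q w x} := by
  have c2 : Continuous fun x : E3 => dt p q w * dt p x w := by
    unfold dt
    fun_prop
  have c3 : Continuous fun x : E3 => dt p q w * dt p q x := by
    unfold dt
    fun_prop
  exact (isClosed_le continuous_const c2).inter (isClosed_le continuous_const c3)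

private theorem link_union (p : Fin n → E3) (i : Fin n) (Q : Fin n → Fin n → Prop) :
    IsClosed {x : E3 | ∃ t : Fin n × Fin n, Q t.1 t.2 ∧ InS (p i) (p t.1) (p t.2) x} := by
  have e : {x : E3 | ∃ t : Fin n × Fin n, Q t.1 t.2 ∧ InS (p i) (p t.1) (p t.2) x} =
      ⋃ t ∈ {t : Fin n × Fin n | Q t.1 t.2}, {x : E3 | InS (p i) (p t.1) (p t.2) x} := by
    ext x
    simp only [Set.mem_ofPred_eq, Set.mem_iUnion, exists_prop]
  rw [e]
  exact (Set.toFinite _).isClosed_biUnion fun t _ => link_closed _ _ _

private theorem link_pre (q : E3) :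
    IsPreconnected ((Submodule.span ℝ {q} : Submodule ℝ E3) : Set E3)ᶜ := by
  refine (isConnected_compl_of_one_lt_codim ?_).isPreconnected
  have h1 := Submodule.finrank_quotient_add_finrank (Submodule.span ℝ {q} : Submodule ℝ E3)
  rw [finrank_euclideanSpace_fin] at h1
  have h2 : Module.finrank ℝ (Submodule.span ℝ {q} : Submodule ℝ E3) ≤ 1 := by
    have := finrank_span_finset_le_card (R := ℝ) ({q} : Finset E3)
    rwa [Finset.coe_singleton, Finset.card_singleton] at this
  rw [← Module.finrank_eq_rank]
  have h3 : 1 < Module.finrank ℝ (E3 ⧸ (Submodule.span ℝ {q} : Submodule ℝ E3)) := by omega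
  exact_mod_cast h3

private theorem link_le {p : Fin n → E3} {i a b : Fin n} {N : E3} (h1 : inner ℝ N (p i) = 1)
    (h2 : inner ℝ N (p a) = 1) (h3 : inner ℝ N (p b) = 1)
    (h4 : ∀ l, l ≠ i → l ≠ a → l ≠ b → inner ℝ N (p l) < 1) (m : Fin n) :
    inner ℝ N (p m) ≤ 1 := by
  by_cases q1 : m = i
  · rw [q1, h1]
  by_cases q2 : m = a
  · rw [q2, h2]
  by_cases q3 : m = b
  · rw [q3, h3]
  exact (h4 m q1 q2 q3).le

/-- a direction which is not in the line of `p i` and lies in two closed sectors: the facets have a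
common vertex besides `i` -/
private theorem link_common {p : Fin n → E3} {i a b c d : Fin n} (h : Facet p (i, a, b))
    (h' : Facet p (i, c, d)) {x : E3} (hx : x ∉ (Submodule.span ℝ {p i} : Submodule ℝ E3))
    (hu : InS (p i) (p a) (p b) x) (hu' : InS (p i) (p c) (p d) x) :
    (c = a ∨ c = b) ∨ (d = a ∨ d = b) := by
  have hne := facet_ne h'
  obtain ⟨hd, N, h1, h2, h3, h4⟩ := h
  obtain ⟨hd', N', h1', h2', h3', h4'⟩ := h'
  have e1 : inner ℝ N (p i) = 1 := h1
  have e2 : inner ℝ N (p a) = 1 := h2
  have e3 : inner ℝ N (p b) = 1 := h3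
  have e1' : inner ℝ N' (p i) = 1 := h1'
  have e2' : inner ℝ N' (p c) = 1 := h2'
  have e3' : inner ℝ N' (p d) = 1 := h3'
  obtain ⟨l, α, β, ha, hb, hu1⟩ := inS_coeff hd hu
  obtain ⟨l', α', β', ha', hb', hu2⟩ := inS_coeff hd' hu'
  have hle := link_le (p := p) e1 e2 e3 h4
  have hle' := link_le (p := p) e1' e2' e3' h4'
  have a1 : inner ℝ N x = l + α + β := by
    rw [hu1, inner_add_right, inner_add_right, real_inner_smul_right, real_inner_smul_right,
      real_inner_smul_right, e1, e2, e3]
    ring
  have a2 : inner ℝ N' x = l + α * inner ℝ N' (p a) + β * inner ℝ N' (p b) := by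
    rw [hu1, inner_add_right, inner_add_right, real_inner_smul_right, real_inner_smul_right,
      real_inner_smul_right, e1']
    ring
  have a3 : inner ℝ N' x = l' + α' + β' := by
    rw [hu2, inner_add_right, inner_add_right, real_inner_smul_right, real_inner_smul_right,
      real_inner_smul_right, e1', e2', e3']
    ring
  have a4 : inner ℝ N x = l' + α' * inner ℝ N (p c) + β' * inner ℝ N (p d) := by
    rw [hu2, inner_add_right, inner_add_right, real_inner_smul_right, real_inner_smul_right,
      real_inner_smul_right, e1]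
    ring
  have b1 : α' * inner ℝ N (p c) ≤ α' := mul_le_of_le_one_right ha' (hle c)
  have b2 : β' * inner ℝ N (p d) ≤ β' := mul_le_of_le_one_right hb' (hle d)
  have b3 : α * inner ℝ N' (p a) ≤ α := mul_le_of_le_one_right ha (hle' a)
  have b4 : β * inner ℝ N' (p b) ≤ β := mul_le_of_le_one_right hb (hle' b)
  have hmem : ∀ m, m ≠ i → inner ℝ N (p m) = 1 → m = a ∨ m = b := by
    intro m hm hm1
    by_contra hcon
    rw [not_or] at hcon
    exact absurd hm1 (h4 m hm hcon.1 hcon.2).ne
  by_cases hα : α' = 0
  · by_cases hβ : β' = 0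
    · exfalso
      apply hx
      rw [hu2, hα, hβ, zero_smul, zero_smul, add_zero, add_zero]
      exact Submodule.smul_mem _ _ (Submodule.mem_span_singleton_self _)
    · refine Or.inr (hmem d hne.2.2.symm ?_)
      have h5 : β' * inner ℝ N (p d) = β' := by linarith
      exact mul_left_cancel₀ hβ (by rw [h5, mul_one])
  · refine Or.inl (hmem c hne.1.symm ?_)
    have h5 : α' * inner ℝ N (p c) = α' := by linarith
    exact mul_left_cancel₀ hα (by rw [h5, mul_one])

private theorem link_span {p q w : E3} (hd : dt p q w ≠ 0) :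
    q ∉ (Submodule.span ℝ {p} : Submodule ℝ E3) := by
  intro h
  obtain ⟨c, hc⟩ := Submodule.mem_span_singleton.1 h
  apply hd
  rw [← hc]
  simp only [dt, PiLp.smul_apply, smul_eq_mul]
  ring

/-- PROOF. Suppose some facet `(i, a₀, b₀)` has `¬ S a₀`; then, `S` being closed under the
adjacency in the link of `i` (in both directions: `facet_perm2` etc. give `Facet p (i, b, a)`), no
facet at `i` has one vertex in `S` and one outside. Let `e`, `f` be such that `p i`, `e`, `f` are
orthonormal (see the private `frame` of `MP_488b8a_co_W/SumA.lean`), `u θ = cos θ • e + sin θ • f`,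
`A = {θ | ∃ a b, S a ∧ S b ∧ Facet p (i, a, b) ∧ InS (p i) (p a) (p b) (u θ)}` and `B` the same with
`¬ S a`, `¬ S b`. Both are closed (finite unions), `A ∪ B = ℝ` (`sec_cover`), and both are nonempty
(take `θ` with `u θ` a positive multiple of `pr (p i) (p a)`), so `A ∩ B` is nonempty (`ℝ` is
preconnected: `isPreconnected_closed_iff`). At `θ ∈ A ∩ B`: `u θ` lies in the closed sectors of
`(i, a, b)` (`S`) and `(i, a', b')` (not `S`). It is not in both open sectors
(`sector_nonov`). If it lies in one open sector and on the boundary of the other, or on two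
boundaries which are different rays, move `θ` a little / use the coefficients: a boundary ray of
`(i, a', b')` which is the direction of `p a'` in the open sector of `(i, a, b)` is excluded
because a direction near it lies in both open sectors. If it is on two boundary rays, they are the
same ray: `p a` and `p a'` (say) have proportional projections (positive factor), so `a = a'`
(otherwise one of them would be in the cone of the other facet, `cone_vertex`; or: `p a'` is a
positive combination `λ p i + μ p a`, which contradicts the supporting planes), a contradiction. -/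
theorem link_conn {p : Fin n → E3} {κ : ℝ} (hκ : 0 < κ) (hG : Gen p) (hC : Covers p κ)
    (i : Fin n) (S : Fin n → Prop) (j k : Fin n) (hj : S j) (hF : Facet p (i, j, k))
    (hS : ∀ a b, S a → Facet p (i, a, b) → S b) : ∀ a b, Facet p (i, a, b) → S a := by
  by_contra hcon
  push Not at hcon
  obtain ⟨a₀, b₀, hF₀, hn₀⟩ := hcon
  have hSn : ∀ a b, ¬ S a → Facet p (i, a, b) → ¬ S b := by
    intro a b ha hab hb
    exact ha (hS b a hb (facet_perm1 (facet_perm2 (facet_perm2 hab))))
  have hX := isPreconnected_closed_iff.1 (link_pre (p i)) _ _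
    (link_union p i (fun a b => S a ∧ S b ∧ Facet p (i, a, b)))
    (link_union p i (fun a b => ¬ S a ∧ ¬ S b ∧ Facet p (i, a, b)))
    (by
      intro x _
      obtain ⟨a, b, hab, hx⟩ := sec_cover hκ hG hC i x
      by_cases ha : S a
      · exact Or.inl ⟨(a, b), ⟨ha, hS a b ha hab, hab⟩, hx⟩
      · exact Or.inr ⟨(a, b), ⟨ha, hSn a b ha hab, hab⟩, hx⟩)
    (by
      refine ⟨p j, link_span hF.1, (j, k), ⟨hj, hS j k hj hF, hF⟩, ?_⟩
      have h1 := inS_of_coeff (p := p i) (q := p j) (w := p k) (l := 0) (zero_le_one' ℝ)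
        (le_refl (0 : ℝ))
      rwa [zero_smul, zero_smul, one_smul, zero_add, add_zero] at h1)
    (by
      refine ⟨p a₀, link_span hF₀.1, (a₀, b₀), ⟨hn₀, hSn a₀ b₀ hn₀ hF₀, hF₀⟩, ?_⟩
      have h1 := inS_of_coeff (p := p i) (q := p a₀) (w := p b₀) (l := 0) (zero_le_one' ℝ)
        (le_refl (0 : ℝ))
      rwa [zero_smul, zero_smul, one_smul, zero_add, add_zero] at h1)
  obtain ⟨x, hx, ⟨⟨a, b⟩, ⟨ha, hb, hab⟩, hxa⟩, ⟨⟨c, d⟩, ⟨hc, hd, hcd⟩, hxc⟩⟩ := hX
  rcases link_common hab hcd hx hxa hxc with (h | h) | (h | h)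
  · exact hc (h ▸ ha)
  · exact hc (h ▸ hb)
  · exact hd (h ▸ ha)
  · exact hd (h ▸ hb)

end Pool.Agent.C9
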