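import Pool.Agent.Lib.MP_488b8a_co_X.Tab

/-! # Project C9, module Msh: one-variable conditions checked on a mesh -/

set_option autoImplicit false

namespace Pool.Agent.C9

open Real Pool.Agent.C32

/-- the one-variable condition -/
def SL (x₀ q lam K A : ℝ) : Prop :=
  ∀ x : ℝ, x₀ ≤ x → x ≤ π / 2 → q * ph kp x + lam * x + K * sin x ^ 2 ≤ A

/-- `q`, `lam`, `K`, `A` in units `10^-5`; start at `x = j₀/50` -/
def chk (j₀ : ℕ) (q lam K A : ℤ) : Bool :=
  tab.all fun r => decide (r.j < j₀) ||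
    (decide ((q * r.pu + K * (if 0 ≤ K then r.s1 else r.s0)) * 2500 + lam * r.j * 50000000 ≤
        A * 2500000000) &&
      decide ((q * r.pu + K * (if 0 ≤ K then r.s1 else r.s0)) * 2500 + lam * r.j * 50000000 +
        50 * (-(q * r.dl) + K * (if 0 ≤ K then r.t1 else r.t0) + lam * 1000000) +
        |K| * 1000000 ≤ A * 2500000000))

private theorem msh_tan {c z0 z : ℝ} (hc : 0 < c) (hc1 : c < 1) (h0 : 0 ≤ z0) (h1 : z0 ≤ z)
    (hz : z ≤ π / 2) : ph c z ≤ ph c z0 - dph c z0 * (z - z0) := by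
  have hp := pi_pos
  rcases eq_or_lt_of_le h1 with h | h
  · rw [h, sub_self, mul_zero, sub_zero]
  · obtain ⟨w, hw, hw2⟩ := exists_hasDerivAt_eq_slope (ph c) (fun z => -dph c z) h
      ((ph_cont1 hc).mono (Set.Icc_subset_Icc h0 (by linarith)))
      (fun z hz => ph_deriv hc (by linarith [hz.1]) (by linarith [hz.2]))
    have h2 : z - z0 ≠ 0 := by linarith
    have h3 := dph_mono hc hc1 (⟨h0, by linarith⟩ : z0 ∈ Set.Icc 0 (π / 2))
      (⟨by linarith [hw.1], by linarith [hw.2]⟩ : w ∈ Set.Icc 0 (π / 2)) hw.1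
    have h4 : ph c z - ph c z0 = -dph c w * (z - z0) := by
      rw [hw2]
      field_simp
    have h5 : 0 < z - z0 := by linarith
    have h6 := mul_lt_mul_of_pos_right h3 h5
    linarith

private theorem msh_sin2 {y x : ℝ} (h : y ≤ x) : |sin (2 * x) - sin (2 * y)| ≤ 2 * (x - y) := by
  have h1 : sin (2 * x) - sin (2 * y) = 2 * (sin (x - y) * cos (x + y)) := by
    rw [Real.sin_sub_sin]
    ring_nf
  have h2 : |sin (x - y)| ≤ x - y := by
    have := Real.abs_sin_le_abs (x := x - y)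
    rwa [abs_of_nonneg (by linarith : 0 ≤ x - y)] at this
  rw [h1, abs_mul, abs_mul, abs_two]
  have h3 := abs_cos_le_one (x + y)
  have h4 := abs_nonneg (sin (x - y))
  have h5 := abs_nonneg (cos (x + y))
  nlinarith

private theorem msh_sq {y x : ℝ} (h : y ≤ x) :
    sin x ^ 2 ≤ sin y ^ 2 + sin (2 * y) * (x - y) + (x - y) ^ 2 ∧
      sin y ^ 2 + sin (2 * y) * (x - y) - (x - y) ^ 2 ≤ sin x ^ 2 := by
  have hd : ∀ s : ℝ, ∀ z : ℝ,
      HasDerivAt (fun z => sin z ^ 2 - sin (2 * y) * (z - y) - s * (z - y) ^ 2)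
        (sin (2 * z) - sin (2 * y) - s * (2 * (z - y))) z := by
    intro s z
    have h1 : HasDerivAt (fun z => sin z ^ 2) (sin (2 * z)) z := by
      refine ((hasDerivAt_sin z).pow 2).congr_deriv ?_
      rw [sin_two_mul]
      simp
    have h2 : HasDerivAt (fun z => sin (2 * y) * (z - y)) (sin (2 * y)) z := by
      refine (((hasDerivAt_id z).sub_const y).const_mul (sin (2 * y))).congr_deriv ?_
      simp
    have h3 : HasDerivAt (fun z => s * (z - y) ^ 2) (s * (2 * (z - y))) z := by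
      refine ((((hasDerivAt_id z).sub_const y).pow 2).const_mul s).congr_deriv ?_
      simp
    exact (h1.sub h2).sub h3
  constructor
  · have h1 : AntitoneOn (fun z => sin z ^ 2 - sin (2 * y) * (z - y) - 1 * (z - y) ^ 2)
        (Set.Ici y) := by
      refine antitoneOn_of_deriv_nonpos (convex_Ici y)
        (fun z _ => (hd 1 z).continuousAt.continuousWithinAt)
        (fun z _ => (hd 1 z).differentiableAt.differentiableWithinAt) fun z hz => ?_
      rw [(hd 1 z).deriv]
      rw [interior_Ici] at hz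
      have := (abs_le.1 (msh_sin2 (le_of_lt hz))).2
      linarith
    have h2 := h1 (Set.mem_Ici.2 le_rfl) (Set.mem_Ici.2 h) h
    simp only [sub_self, mul_zero, sub_zero, ne_eq, OfNat.ofNat_ne_zero, not_false_eq_true,
      zero_pow] at h2
    linarith
  · have h1 : MonotoneOn (fun z => sin z ^ 2 - sin (2 * y) * (z - y) - (-1) * (z - y) ^ 2)
        (Set.Ici y) := by
      refine monotoneOn_of_deriv_nonneg (convex_Ici y)
        (fun z _ => (hd (-1) z).continuousAt.continuousWithinAt)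
        (fun z _ => (hd (-1) z).differentiableAt.differentiableWithinAt) fun z hz => ?_
      rw [(hd (-1) z).deriv]
      rw [interior_Ici] at hz
      have := (abs_le.1 (msh_sin2 (le_of_lt hz))).1
      linarith
    have h2 := h1 (Set.mem_Ici.2 le_rfl) (Set.mem_Ici.2 h) h
    simp only [sub_self, mul_zero, sub_zero, ne_eq, OfNat.ofNat_ne_zero, not_false_eq_true,
      zero_pow] at h2
    linarith

private theorem msh_row : ∀ j < 79, ∃ r ∈ tab, r.j = j := by decide

private theorem msh_quad {a b c A e : ℝ} (hc : 0 ≤ c) (he : 0 ≤ e) (he' : e ≤ 1 / 50)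
    (h0 : a ≤ A) (h1 : a + b * (1 / 50) + c * (1 / 50) ^ 2 ≤ A) : a + b * e + c * e ^ 2 ≤ A := by
  nlinarith [mul_nonneg hc (mul_nonneg he (sub_nonneg.2 he')),
    mul_nonneg he (sub_nonneg.2 h1), mul_nonneg (sub_nonneg.2 he') (sub_nonneg.2 h0)]

/-- PROOF. Let `j = ⌊50 x⌋` (`j₀ ≤ j ≤ 78` as `π/2 < 1.5708`), `r` the line `j` of the table
(`∀ j < 79, ∃ r ∈ tab, r.j = j` by `decide`), `x = j/50 + e`, `0 ≤ e ≤ 1/50`. Then
`ph kp x ≤ r.pu - r.dl e` (units `10^-6`; `ph_tan` at `j/50`, for `j = 0` the bound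
`ph kp x ≤ π/2 - kp x`, derivative `dph_mono`), and
`|sin^2 x - sin^2 (j/50) - sin (2 j/50) e| ≤ e^2` (`sin^2 x - sin^2 y = sin (x+y) sin (x-y)`, or the
derivative of `sin 2x` is at most `2`). So the left side is at most a convex quadratic polynomial in
`e`, and at the two end points `e = 0`, `e = 1/50` it is at most `A` by the check. -/
theorem SL_of_chk {j₀ : ℕ} {q lam K A : ℤ} (hq : 0 ≤ q) (h : chk j₀ q lam K A = true) :
    SL (j₀ / 50) (q / 100000) (lam / 100000) (K / 100000) (A / 100000) := by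
  intro x hx hx'
  have hp : π < 3.1416 := pi_lt_d4
  have hx0 : 0 ≤ x := le_trans (by positivity) hx
  set j := ⌊50 * x⌋₊ with hj
  have hj1 : (j : ℝ) ≤ 50 * x := Nat.floor_le (by positivity)
  have hj2 : 50 * x < j + 1 := Nat.lt_floor_add_one _
  have hj3 : j < 79 := by
    rw [hj, Nat.floor_lt (by positivity)]
    norm_num at hp ⊢
    linarith
  have hj4 : j₀ ≤ j := by
    rw [hj]
    apply Nat.le_floor
    linarith
  obtain ⟨r, hr, hrj⟩ := msh_row j hj3
  obtain ⟨g1, g2, g3, g4, g5, g6⟩ := tab_good r hr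
  have h1 := List.all_eq_true.1 h r hr
  simp only [Bool.or_eq_true, Bool.and_eq_true, decide_eq_true_eq] at h1
  rcases h1 with h1 | ⟨h1, h2⟩
  · omega
  rw [hrj] at g1 g2 g3 g4 g5 g6 h1 h2
  set e := x - (j : ℝ) / 50 with he
  have he0 : 0 ≤ e := by linarith
  have he1 : e ≤ 1 / 50 := by linarith
  have hk0 : 0 < kp := by linarith [kp_lo]
  have hk1 : kp < 1 := by linarith [kp_hi]
  have hq' : (0 : ℝ) ≤ q := by exact_mod_cast hq
  have k1 : ph kp x ≤ r.pu / 1000000 - r.dl / 1000000 * e := by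
    have := msh_tan hk0 hk1 (by positivity : (0 : ℝ) ≤ (j : ℝ) / 50)
      (by linarith : (j : ℝ) / 50 ≤ x) hx'
    rw [← he] at this
    have h3 := mul_le_mul_of_nonneg_right g2 he0
    linarith
  obtain ⟨k2, k3⟩ := msh_sq (by linarith : (j : ℝ) / 50 ≤ x)
  rw [← he] at k2 k3
  have k4 : (q : ℝ) * ph kp x ≤ q * (r.pu / 1000000 - r.dl / 1000000 * e) :=
    mul_le_mul_of_nonneg_left k1 hq'
  have k5 : (K : ℝ) * sin x ^ 2 ≤ K * ((if 0 ≤ K then (r.s1 : ℝ) else r.s0) / 1000000) +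
      K * ((if 0 ≤ K then (r.t1 : ℝ) else r.t0) / 1000000) * e + |(K : ℝ)| * e ^ 2 := by
    split_ifs with hK
    · have hK' : (0 : ℝ) ≤ K := by exact_mod_cast hK
      have h3 := mul_le_mul_of_nonneg_right g6 he0
      have h4 : sin x ^ 2 ≤ r.s1 / 1000000 + r.t1 / 1000000 * e + e ^ 2 := by linarith
      have h5 := mul_le_mul_of_nonneg_left h4 hK'
      rw [abs_of_nonneg hK']
      linarith
    · have hK' : (K : ℝ) ≤ 0 := by
        push Not at hK
        exact_mod_cast hK.le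
      have h3 := mul_le_mul_of_nonneg_right g5 he0
      have h4 : r.s0 / 1000000 + r.t0 / 1000000 * e - e ^ 2 ≤ sin x ^ 2 := by linarith
      have h5 := mul_le_mul_of_nonpos_left h4 hK'
      rw [abs_of_nonpos hK']
      linarith
  have c1 : (((q * r.pu + K * (if 0 ≤ K then r.s1 else r.s0)) * 2500 +
      lam * j * 50000000 : ℤ) : ℝ) ≤ ((A * 2500000000 : ℤ) : ℝ) := by exact_mod_cast h1
  have c2 : (((q * r.pu + K * (if 0 ≤ K then r.s1 else r.s0)) * 2500 + lam * j * 50000000 +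
        50 * (-(q * r.dl) + K * (if 0 ≤ K then r.t1 else r.t0) + lam * 1000000) +
        |K| * 1000000 : ℤ) : ℝ) ≤ ((A * 2500000000 : ℤ) : ℝ) := by exact_mod_cast h2
  push_cast at c1 c2
  set S : ℝ := if 0 ≤ K then (r.s1 : ℝ) else r.s0 with hS
  set T : ℝ := if 0 ≤ K then (r.t1 : ℝ) else r.t0 with hT
  have hx2 : x = (j : ℝ) / 50 + e := by rw [he]; ring
  have hK2 : 0 ≤ |(K : ℝ)| := abs_nonneg _
  have hq2 := msh_quad (a := q * r.pu / 1000000 + lam * (j / 50) + K * (S / 1000000))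
    (b := -(q * r.dl) / 1000000 + K * (T / 1000000) + lam) (c := |(K : ℝ)|) (A := A) hK2 he0 he1
    (by linarith) (by linarith)
  rw [hx2] at k4 k5 ⊢
  linarith

end Pool.Agent.C9
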