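import Pool.Agent.Lib.MP_488b8a_co_X.Tri

/-! # Project C9, module Price: sums over an explicit triangulation -/

set_option autoImplicit false

namespace Pool.Agent.C9

open Real Pool.Agent.C32

/-- the six orders of a triple -/
private def six (t : Fin 9 × Fin 9 × Fin 9) : List (Fin 9 × Fin 9 × Fin 9) :=
  [(t.1, t.2.1, t.2.2), (t.2.1, t.2.2, t.1), (t.2.2, t.1, t.2.1),
      (t.2.1, t.1, t.2.2), (t.1, t.2.2, t.2.1), (t.2.2, t.2.1, t.1)]

private theorem pr_mem {L : List (Fin 9 × Fin 9 × Fin 9)} (t : Fin 9 × Fin 9 × Fin 9) :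
    t ∈ L.flatMap six ↔ Has L t.1 t.2.1 t.2.2 := by
  obtain ⟨i, j, k⟩ := t
  unfold Has six
  simp only [List.mem_flatMap, List.any_eq_true, Bool.or_eq_true, beq_iff_eq, List.mem_cons,
    List.not_mem_nil, or_false]
  constructor
  · rintro ⟨⟨a, b, c⟩, hs, h⟩
    refine ⟨(a, b, c), hs, ?_⟩
    rcases h with h | h | h | h | h | h <;> (simp only [Prod.mk.injEq] at h) <;>
      (obtain ⟨rfl, rfl, rfl⟩ := h) <;> simp
  · rintro ⟨⟨a, b, c⟩, hs, h⟩
    refine ⟨(a, b, c), hs, ?_⟩
    rcases h with ((((h | h) | h) | h) | h) | h <;> (simp only [Prod.mk.injEq] at h) <;>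
      (obtain ⟨rfl, rfl, rfl⟩ := h) <;> simp

private theorem pr_sum (A : Fin 9 × Fin 9 × Fin 9 → ℝ) (L : List (Fin 9 × Fin 9 × Fin 9)) :
    ((L.flatMap six).map A).sum = (L.map fun t => ((six t).map A).sum).sum := by
  induction L with
  | nil => rfl
  | cons t L ih =>
    rw [List.flatMap_cons, List.map_append, List.sum_append, ih, List.map_cons, List.sum_cons]

/-- PROOF. Let `T` be the set of all ordered triples `t` with `Has L t.1 t.2.1 t.2.2`, so
`T = facets p`. For each vertex `i`, `∑_{t ∈ facets, t.1 = i} P i * ang t ≥ 4π P i`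
(`angle_sum`). The sum over all `t ∈ T` of `P t.1 * ang t` is twice the sum over `L` of the three
rotations (`ang_symm`): each unordered triple of `L` has six orders, all different and different
for different entries of the list (hypothesis `hL`, to be checked by `decide` for each list). -/
theorem price_sum {p : Fin 9 → E3} {κ : ℝ} (hκ : 0 < κ) (hG : Gen p) (hC : Covers p κ)
    {L : List (Fin 9 × Fin 9 × Fin 9)} (hF : ∀ i j k, Facet p (i, j, k) ↔ Has L i j k)
    (hL : (L.flatMap fun t => [(t.1, t.2.1, t.2.2), (t.2.1, t.2.2, t.1), (t.2.2, t.1, t.2.1),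
      (t.2.1, t.1, t.2.2), (t.1, t.2.2, t.2.1), (t.2.2, t.2.1, t.1)]).Nodup)
    (P : Fin 9 → ℝ) (hP : ∀ i, 0 ≤ P i) :
    2 * π * ∑ i, P i ≤ (L.map fun t => P t.1 * ang (p t.1) (p t.2.1) (p t.2.2) +
      P t.2.1 * ang (p t.2.1) (p t.2.2) (p t.1) +
      P t.2.2 * ang (p t.2.2) (p t.1) (p t.2.1)).sum := by
  classical
  obtain ⟨A, hA⟩ : ∃ A : Fin 9 × Fin 9 × Fin 9 → ℝ,
      ∀ t, A t = P t.1 * ang (p t.1) (p t.2.1) (p t.2.2) := ⟨_, fun _ => rfl⟩
  have hM : (L.flatMap six).Nodup := hL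
  have hT : (L.flatMap six).toFinset = facets p := by
    ext t
    rw [List.mem_toFinset, pr_mem, mem_facets]
    exact (hF t.1 t.2.1 t.2.2).symm
  have h1 : ∑ t ∈ facets p, A t = ((L.flatMap six).map A).sum := by
    rw [← hT, List.sum_toFinset _ hM]
  have h2 : ((L.flatMap six).map A).sum =
      2 * (L.map fun t => P t.1 * ang (p t.1) (p t.2.1) (p t.2.2) +
        P t.2.1 * ang (p t.2.1) (p t.2.2) (p t.1) +
        P t.2.2 * ang (p t.2.2) (p t.1) (p t.2.1)).sum := by
    rw [pr_sum, ← List.sum_map_mul_left]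
    congr 1
    refine List.map_congr_left fun t _ => ?_
    simp only [six, List.map_cons, List.map_nil, List.sum_cons, List.sum_nil, hA]
    rw [ang_symm (p t.2.1) (p t.1) (p t.2.2), ang_symm (p t.1) (p t.2.2) (p t.2.1),
      ang_symm (p t.2.2) (p t.2.1) (p t.1)]
    ring
  have h3 : 4 * π * ∑ i, P i ≤ ∑ t ∈ facets p, A t := by
    have e0 : ∑ t ∈ facets p, A t = ∑ i, ∑ t ∈ (facets p).filter (fun t => t.1 = i), A t :=
      (Finset.sum_fiberwise (facets p) (fun t => t.1) A).symm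
    rw [e0, Finset.mul_sum]
    refine Finset.sum_le_sum fun i _ => ?_
    have e1 : ∑ t ∈ (facets p).filter (fun t => t.1 = i), A t =
        P i * ∑ t ∈ (facets p).filter (fun t => t.1 = i),
          ang (p t.1) (p t.2.1) (p t.2.2) := by
      rw [Finset.mul_sum]
      refine Finset.sum_congr rfl fun t ht => ?_
      rw [hA, (Finset.mem_filter.1 ht).2]
    rw [e1, mul_comm]
    exact mul_le_mul_of_nonneg_left (angle_sum hκ hG hC i) (hP i)
  rw [h1, h2] at h3
  linarith

end Pool.Agent.C9
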