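import Pool.Agent.Lib.MP_488b8a_co_X.Cst

/-! # Project C9, module Spin: spinors -/

set_option autoImplicit false

namespace Pool.Agent.C9

open Real Pool.Agent.C32 ComplexConjugate

/-- hermitian product of `ℂ²` -/
noncomputable def sp (a b : ℂ × ℂ) : ℂ := conj a.1 * b.1 + conj a.2 * b.2

/-- unit spinors -/
def Un (a : ℂ × ℂ) : Prop := Complex.normSq a.1 + Complex.normSq a.2 = 1

/-- the point of the sphere of a unit spinor -/
noncomputable def vec (a : ℂ × ℂ) : E3 :=
  !₂[2 * (conj a.1 * a.2).re, 2 * (conj a.1 * a.2).im,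
    Complex.normSq a.1 - Complex.normSq a.2]

private theorem vec0 (a : ℂ × ℂ) : vec a 0 = 2 * (a.1.re * a.2.re + a.1.im * a.2.im) := by
  change 2 * (conj a.1 * a.2).re = _
  rw [Complex.mul_re, Complex.conj_re, Complex.conj_im]
  ring

private theorem vec1 (a : ℂ × ℂ) : vec a 1 = 2 * (a.1.re * a.2.im - a.1.im * a.2.re) := by
  change 2 * (conj a.1 * a.2).im = _
  rw [Complex.mul_im, Complex.conj_re, Complex.conj_im]
  ring

private theorem vec2 (a : ℂ × ℂ) : vec a 2 = a.1.re ^ 2 + a.1.im ^ 2 - a.2.re ^ 2 - a.2.im ^ 2 := by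
  change Complex.normSq a.1 - Complex.normSq a.2 = _
  rw [Complex.normSq_apply, Complex.normSq_apply]
  ring

private theorem un_iff (a : ℂ × ℂ) :
    Un a ↔ a.1.re ^ 2 + a.1.im ^ 2 + a.2.re ^ 2 + a.2.im ^ 2 = 1 := by
  unfold Un
  rw [Complex.normSq_apply, Complex.normSq_apply]
  constructor <;> intro h <;> linarith

private theorem sp_re (a b : ℂ × ℂ) :
    (sp a b).re = a.1.re * b.1.re + a.1.im * b.1.im + a.2.re * b.2.re + a.2.im * b.2.im := by
  unfold sp
  rw [Complex.add_re, Complex.mul_re, Complex.mul_re, Complex.conj_re, Complex.conj_im,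
    Complex.conj_re, Complex.conj_im]
  ring

private theorem sp_im (a b : ℂ × ℂ) :
    (sp a b).im = a.1.re * b.1.im - a.1.im * b.1.re + a.2.re * b.2.im - a.2.im * b.2.re := by
  unfold sp
  rw [Complex.add_im, Complex.mul_im, Complex.mul_im, Complex.conj_re, Complex.conj_im,
    Complex.conj_re, Complex.conj_im]
  ring

theorem vec_norm {a : ℂ × ℂ} (h : Un a) : ‖vec a‖ = 1 := by
  rw [un_iff] at h
  rw [norm_one_iff, vec0, vec1, vec2]
  linear_combination (a.1.re ^ 2 + a.1.im ^ 2 + a.2.re ^ 2 + a.2.im ^ 2 + 1) * h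

/-- PROOF. `x 2 ≠ -1`: `a = (√((1 + x 2)/2), (x 0 + i x 1)/√(2 (1 + x 2)))`; otherwise `(0, 1)`. -/
theorem exists_spin {x : E3} (hx : ‖x‖ = 1) : ∃ a, Un a ∧ vec a = x := by
  rw [norm_one_iff] at hx
  by_cases h : x 2 = -1
  · refine ⟨(0, 1), ?_, ?_⟩
    · rw [un_iff]
      simp
    · have h0 : x 0 ^ 2 = 0 := by nlinarith [sq_nonneg (x 0), sq_nonneg (x 1)]
      have h1 : x 1 ^ 2 = 0 := by nlinarith [sq_nonneg (x 0), sq_nonneg (x 1)]
      have h0' : x 0 = 0 := by simpa using h0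
      have h1' : x 1 = 0 := by simpa using h1
      refine ext3 ?_ ?_ ?_
      · rw [vec0, h0']; simp
      · rw [vec1, h1']; simp
      · rw [vec2, h]; simp
  · have hpos : 0 < 1 + x 2 := by
      have h1 : -1 ≤ x 2 := by nlinarith [sq_nonneg (x 0), sq_nonneg (x 1)]
      have h2 : -1 < x 2 := lt_of_le_of_ne h1 (Ne.symm h)
      linarith
    obtain ⟨s, hs, hs2⟩ : ∃ s : ℝ, 0 < s ∧ s ^ 2 = (1 + x 2) / 2 :=
      ⟨√((1 + x 2) / 2), Real.sqrt_pos.2 (by linarith), Real.sq_sqrt (by linarith)⟩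
    have hx2 : x 2 = 2 * s ^ 2 - 1 := by linarith
    have hs' : s ≠ 0 := hs.ne'
    have hxx : x 0 ^ 2 + x 1 ^ 2 = 4 * s ^ 2 - 4 * s ^ 4 := by
      rw [hx2] at hx
      linear_combination hx
    refine ⟨((s : ℂ), ⟨x 0 / (2 * s), x 1 / (2 * s)⟩), ?_, ?_⟩
    · rw [un_iff]
      simp only [Complex.ofReal_re, Complex.ofReal_im]
      field_simp
      linear_combination hxx
    · refine ext3 ?_ ?_ ?_
      · rw [vec0]
        simp only [Complex.ofReal_re, Complex.ofReal_im]
        field_simp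
        ring
      · rw [vec1]
        simp only [Complex.ofReal_re, Complex.ofReal_im]
        field_simp
        ring
      · rw [vec2, hx2]
        simp only [Complex.ofReal_re, Complex.ofReal_im]
        field_simp
        linear_combination -hxx

theorem vec_phase {a : ℂ × ℂ} {z : ℂ} (hz : Complex.normSq z = 1) :
    vec (z * a.1, z * a.2) = vec a := by
  rw [Complex.normSq_apply] at hz
  refine ext3 ?_ ?_ ?_
  · rw [vec0, vec0]
    simp only [Complex.mul_re, Complex.mul_im]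
    linear_combination 2 * (a.1.re * a.2.re + a.1.im * a.2.im) * hz
  · rw [vec1, vec1]
    simp only [Complex.mul_re, Complex.mul_im]
    linear_combination 2 * (a.1.re * a.2.im - a.1.im * a.2.re) * hz
  · rw [vec2, vec2]
    simp only [Complex.mul_re, Complex.mul_im]
    linear_combination (a.1.re ^ 2 + a.1.im ^ 2 - a.2.re ^ 2 - a.2.im ^ 2) * hz

theorem sp_conj (a b : ℂ × ℂ) : conj (sp a b) = sp b a := by
  unfold sp
  simp only [map_add, map_mul, Complex.conj_conj]
  ring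

/-- PROOF. Coordinates, `ring` (with `Un`). -/
theorem inner_vec {a b : ℂ × ℂ} (ha : Un a) (hb : Un b) :
    inner ℝ (vec a) (vec b) = 2 * Complex.normSq (sp a b) - 1 := by
  rw [un_iff] at ha hb
  have h1 : inner ℝ (vec a) (vec b) = 2 * Complex.normSq (sp a b) -
      (a.1.re ^ 2 + a.1.im ^ 2 + a.2.re ^ 2 + a.2.im ^ 2) *
        (b.1.re ^ 2 + b.1.im ^ 2 + b.2.re ^ 2 + b.2.im ^ 2) := by
    rw [inner_eq, Complex.normSq_apply, sp_re, sp_im, vec0, vec0, vec1, vec1, vec2, vec2]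
    ring
  rw [h1, ha, hb, one_mul]

/-- PROOF. Coordinates: both sides are polynomials in the twelve real coordinates after replacing
`1` by the product of the three norms; `ring`. (Checked numerically with this orientation.) -/
theorem hB_vec {a b c : ℂ × ℂ} (ha : Un a) (hb : Un b) (hc : Un c) :
    hB (vec a) (vec b) (vec c) = 4 * (sp a b * sp b c * sp c a) := by
  have e4 : ∀ z : ℂ, (4 * z).re = 4 * z.re ∧ (4 * z).im = 4 * z.im := by
    intro z
    simp
  refine Complex.ext ?_ ?_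
  · rw [(e4 _).1]
    change 1 + inner ℝ (vec a) (vec b) + inner ℝ (vec b) (vec c) + inner ℝ (vec c) (vec a) = _
    rw [un_iff] at ha hb hc
    have key : (a.1.re ^ 2 + a.1.im ^ 2 + a.2.re ^ 2 + a.2.im ^ 2) *
        (b.1.re ^ 2 + b.1.im ^ 2 + b.2.re ^ 2 + b.2.im ^ 2) *
        (c.1.re ^ 2 + c.1.im ^ 2 + c.2.re ^ 2 + c.2.im ^ 2) +
        (c.1.re ^ 2 + c.1.im ^ 2 + c.2.re ^ 2 + c.2.im ^ 2) * inner ℝ (vec a) (vec b) +
        (a.1.re ^ 2 + a.1.im ^ 2 + a.2.re ^ 2 + a.2.im ^ 2) * inner ℝ (vec b) (vec c) +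
        (b.1.re ^ 2 + b.1.im ^ 2 + b.2.re ^ 2 + b.2.im ^ 2) * inner ℝ (vec c) (vec a) =
        4 * (sp a b * sp b c * sp c a).re := by
      rw [Complex.mul_re, Complex.mul_re, Complex.mul_im, sp_re, sp_re, sp_re, sp_im, sp_im, sp_im,
        inner_eq, inner_eq, inner_eq, vec0, vec0, vec0, vec1, vec1, vec1, vec2, vec2, vec2]
      ring
    rw [ha, hb, hc] at key
    linarith
  · rw [(e4 _).2]
    change dt (vec a) (vec b) (vec c) = _
    rw [Complex.mul_im, Complex.mul_re, Complex.mul_im, sp_re, sp_re, sp_re, sp_im, sp_im, sp_im]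
    unfold dt
    rw [vec0, vec0, vec0, vec1, vec1, vec1, vec2, vec2, vec2]
    ring

end Pool.Agent.C9
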