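import Pool.Agent.Lib.MP_488b8a_co_X.StarD

/-! # Project C9, module StarA: real lemmas for the star -/

set_option autoImplicit false

namespace Pool.Agent.C9

open Real Pool.Agent.C32 ComplexConjugate

private theorem zf_parts (t t' x : ℝ) :
    (Zf t t' x).re = (1 + kp) / 2 * cos x + sn / 2 * sin x * (cos t + cos t') -
      (1 - kp) / 2 * cos x * cos (t + t') ∧
    (Zf t t' x).im = sn / 2 * sin x * (sin t + sin t') -
      (1 - kp) / 2 * cos x * sin (t + t') := by
  unfold Zf
  constructor
  · simp only [Complex.add_re, Complex.sub_re, Complex.mul_re, Complex.ofReal_re,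
      Complex.ofReal_im, Complex.exp_ofReal_mul_I_re, Complex.exp_ofReal_mul_I_im, zero_mul,
      sub_zero, Complex.add_im]
  · simp only [Complex.add_im, Complex.sub_im, Complex.mul_im, Complex.ofReal_re,
      Complex.ofReal_im, Complex.exp_ofReal_mul_I_re, Complex.exp_ofReal_mul_I_im, zero_mul,
      add_zero, zero_add, Complex.add_re]

private theorem sq_bd {a c : ℝ} (h : a ^ 2 + c ^ 2 = 1) (hc : c < -0.88) : a ^ 2 ≤ 0.475 ^ 2 := by
  have h1 : 0.88 * 0.88 ≤ (-c) * (-c) := mul_le_mul (by linarith) (by linarith) (by norm_num)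
    (by linarith)
  norm_num at h1 ⊢
  linarith

private theorem nsq_bd {a b k : ℝ} (h1 : -0.031 < a) (h2 : a ≤ 0) (h3 : |b| ≤ 0.4)
    (hk : 0.4846 < k) (h : k ≤ a * a + b * b) : False := by
  have h4 : b * b ≤ 0.4 * 0.4 := by
    rw [← abs_mul_abs_self b]
    exact mul_le_mul h3 h3 (abs_nonneg _) (by norm_num)
  have h5 : (-a) * (-a) ≤ 0.031 * 0.031 := mul_le_mul (by linarith) (by linarith) (by linarith)
    (by norm_num)
  norm_num at h4 h5
  linarith

/-- PROOF. Suppose `re ≤ 0`. `re Zf = (1+kp)/2 cos x - (1-kp)/2 cos x cos (t+t') +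
sn/2 sin x (cos t + cos t') ≥ kp cos x + sn/2 sin x (cos t + cos t')`, so
`-(cos t + cos t') ≥ 2 kp cos x / (sn sin x) ≥ 2 kp^2/sn^2 > 1.88` (`cos x ≥ kp`, `sin x ≤ sn`), so
`cos t, cos t' < -0.88`, `|sin t|, |sin t'| < 0.48`,
`|im Zf| ≤ sn^2/2 * 0.96 + (1-kp)/2 * |sin (t + t')| ≤ 0.25 + 0.152 * 0.96 < 0.4`, and
`|re Zf| ≤ sn^2 - kp^2 + (1-kp)/2 < 0.19` hence `normSq < 0.2 < kp^2`. -/
theorem re_Zf_pos {t t' x : ℝ} (h0 : 0 ≤ x) (h1 : x ≤ π / 2) (hx : kp ≤ cos x)
    (hZ : kp ^ 2 ≤ Complex.normSq (Zf t t' x)) : 0 < (Zf t t' x).re := by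
  by_contra hneg
  push Not at hneg
  obtain ⟨hre, him⟩ := zf_parts t t' x
  have k1 := kp_lo
  have k2 := kp_hi
  have n1 := sn_lo
  have n2 := sn_hi
  have kn := kp_sn
  have hs0 : 0 ≤ sin x := sin_nonneg_of_nonneg_of_le_pi h0 (by linarith [pi_pos])
  have hxs := sin_sq_add_cos_sq x
  have hc0 : 0 < cos x := by linarith
  have hkc : kp ^ 2 ≤ kp * cos x := by
    rw [sq]
    exact mul_le_mul_of_nonneg_left hx (by linarith)
  have hkc2 : kp * cos x ≤ cos x ^ 2 := by
    rw [sq]
    exact mul_le_mul_of_nonneg_right hx hc0.le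
  have hsn : sin x ≤ sn := by
    refine (abs_le_of_sq_le_sq' ?_ (by linarith)).2
    linarith
  have hc1 : cos x ≤ 1 := cos_le_one x
  have hts := sin_sq_add_cos_sq t
  have hts' := sin_sq_add_cos_sq t'
  have hA := neg_one_le_cos t
  have hB := neg_one_le_cos t'
  have hcc := cos_le_one (t + t')
  -- lower bound of the real part
  have h2 : kp * cos x + sn / 2 * sin x * (cos t + cos t') ≤ (Zf t t' x).re := by
    rw [hre]
    have : 0 ≤ (1 - kp) / 2 * cos x * (1 - cos (t + t')) :=
      mul_nonneg (mul_nonneg (by linarith) (by linarith)) (by linarith)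
    linarith
  have hk2 : (0.4846 : ℝ) < kp ^ 2 := by
    have := mul_lt_mul'' k1 k1 (by norm_num) (by norm_num)
    norm_num at this ⊢
    linarith
  have hn2 : sn ^ 2 < 0.5154 := by linarith
  have hsx : sn * sin x ≤ sn ^ 2 := by
    rw [sq]
    exact mul_le_mul_of_nonneg_left hsn (by linarith)
  have hsx0 : 0 ≤ sn * sin x := mul_nonneg (by linarith) hs0
  obtain ⟨S, hS⟩ : ∃ S : ℝ, S = -(cos t + cos t') := ⟨_, rfl⟩
  have h3 : 2 * kp ^ 2 ≤ sn * sin x * S := by
    rw [hS]
    linarith
  have hS2 : S ≤ 2 := by linarith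
  have hS0 : 0 < S := by
    by_contra hc
    push Not at hc
    have := mul_nonpos_of_nonneg_of_nonpos hsx0 hc
    linarith
  have h4 : 1.88 < S := by
    have h5 : sn * sin x * S ≤ 0.5154 * S := mul_le_mul_of_nonneg_right (by linarith) hS0.le
    linarith
  have hAu : cos t < -0.88 := by linarith
  have hBu : cos t' < -0.88 := by linarith
  have ha2 : sin t ^ 2 ≤ 0.475 ^ 2 := sq_bd hts hAu
  have hb2 : sin t' ^ 2 ≤ 0.475 ^ 2 := sq_bd hts' hBu
  have ha := abs_le.1 (abs_le_of_sq_le_sq ha2 (by norm_num))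
  have hb := abs_le.1 (abs_le_of_sq_le_sq hb2 (by norm_num))
  have hre1 : -0.031 < (Zf t t' x).re := by
    have : sn / 2 * sin x * (cos t + cos t') = -(sn * sin x * S / 2) := by
      rw [hS]
      ring
    have h6 : sn * sin x * S ≤ sn ^ 2 * 2 := mul_le_mul hsx hS2 hS0.le (by positivity)
    linarith
  have hsum : |sin (t + t')| ≤ 0.95 := by
    rw [sin_add, abs_le]
    have e1 : |sin t * cos t'| ≤ 0.475 := by
      rw [abs_mul]
      have := mul_le_mul (abs_le_of_sq_le_sq ha2 (by norm_num)) (abs_cos_le_one t')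
        (abs_nonneg _) (by norm_num)
      linarith
    have e2 : |cos t * sin t'| ≤ 0.475 := by
      rw [abs_mul]
      have := mul_le_mul (abs_cos_le_one t) (abs_le_of_sq_le_sq hb2 (by norm_num))
        (abs_nonneg _) (by norm_num)
      linarith
    have e3 := abs_le.1 e1
    have e4 := abs_le.1 e2
    constructor <;> linarith
  have him1 : |(Zf t t' x).im| ≤ 0.4 := by
    rw [him]
    have e1 : |sn / 2 * sin x * (sin t + sin t')| ≤ 0.5154 / 2 * 0.95 := by
      rw [abs_mul]
      have e2 : |sn / 2 * sin x| ≤ 0.5154 / 2 := by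
        rw [abs_of_nonneg (mul_nonneg (by linarith) hs0)]
        linarith
      have e3 : |sin t + sin t'| ≤ 0.95 := by
        rw [abs_le]
        constructor <;> linarith
      exact mul_le_mul e2 e3 (abs_nonneg _) (by norm_num)
    have e4 : |(1 - kp) / 2 * cos x * sin (t + t')| ≤ 0.152 * 0.95 := by
      rw [abs_mul]
      have e5 : |(1 - kp) / 2 * cos x| ≤ 0.152 := by
        rw [abs_of_nonneg (mul_nonneg (by linarith) (by linarith))]
        have := mul_le_mul_of_nonneg_left hc1 (by linarith : 0 ≤ (1 - kp) / 2)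
        linarith
      exact mul_le_mul e5 hsum (abs_nonneg _) (by norm_num)
    have e6 := abs_le.1 e1
    have e7 := abs_le.1 e4
    rw [abs_le]
    constructor <;> linarith
  rw [Complex.normSq_apply] at hZ
  exact nsq_bd hre1 hneg him1 hk2 hZ

/-- PROOF. Tangent line of the concave function `ph kp` at `π - us` (`ph_tan`);
`dph kp (π - us) = dph kp us = om`. -/
theorem h_max {w : ℝ} (h0 : 0 < w) (h1 : w < π) :
    om * (w / 2) + ph kp (w / 2) ≤ om * (π - us) + ph kp (π - us) := by
  have k1 := kp_lo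
  have k2 := kp_hi
  have u1 := us_lo
  have u2 := us_hi
  have p1 := Real.pi_gt_d2
  have p2 := Real.pi_lt_d2
  have h2 := ph_tan (c := kp) (z0 := π - us) (z := w / 2) (by linarith) (by linarith)
    (by linarith) (by linarith) (by linarith) (by linarith)
  have h3 : dph kp (π - us) = om := by
    unfold om dph
    rw [cos_pi_sub, sin_pi_sub, neg_sq]
  rw [h3] at h2
  linarith

private theorem ph_one {z : ℝ} (hz : 0 ≤ z) (hz' : z ≤ π / 2) : ph 1 z = π / 2 - z := by
  have hp := pi_pos
  unfold ph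
  have h1 : (⟨1 * sin z, cos z⟩ : ℂ) =
      Complex.cos ((π / 2 - z : ℝ) : ℂ) + Complex.sin ((π / 2 - z : ℝ) : ℂ) * Complex.I := by
    rw [← Complex.ofReal_cos, ← Complex.ofReal_sin, Real.cos_pi_div_two_sub,
      Real.sin_pi_div_two_sub, one_mul]
    exact Complex.mk_eq_add_mul_I _ _
  rw [h1, Complex.arg_cos_add_sin_mul_I ⟨by linarith, by linarith⟩]

/-- `0 ≤ vf w ≤ 0.1803`. PROOF. `vf` is half of the area of an isosceles triangle. Upper bound:
`ph kp z + z ≤` value of the tangent line at a good point (`ph_tan` with `dph kp z₀ = 1`, or at a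
rational `z₀` near `0.905` and two cases). Lower bound: `ph kp z ≥ ph 1 z = π/2 - z`
(`ph_mono_c`). -/
theorem vf_bounds {w : ℝ} (h0 : 0 < w) (h1 : w < π) : 0 ≤ vf w ∧ vf w ≤ 0.181 := by
  have k1 := kp_lo
  have k2 := kp_hi
  have hk : 0 < kp := by linarith
  have hp := pi_pos
  constructor
  · have h2 := ph_mono_c hk (by linarith : kp ≤ 1) (by linarith : 0 ≤ w / 2)
      (by linarith : w / 2 ≤ π / 2)
    rw [ph_one (by linarith) (by linarith)] at h2
    unfold vf
    linarith
  · have hsk : 0 < √kp := sqrt_pos.2 hk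
    have hsq : √kp ^ 2 = kp := sq_sqrt hk.le
    have hs1 : 0.8343 < √kp := by
      rw [Real.lt_sqrt (by norm_num)]
      norm_num at k1 ⊢
      linarith
    have hs2 : √kp < 0.8344 := by
      rw [Real.sqrt_lt' (by norm_num)]
      norm_num at k2 ⊢
      linarith
    obtain ⟨y, hy⟩ : ∃ y : ℝ, y = 1 / √kp := ⟨_, rfl⟩
    have hy0 : 0 < y := by rw [hy]; positivity
    have hyk : y * √kp = 1 := by rw [hy]; field_simp
    have hy2 : y ^ 2 * kp = 1 := by
      rw [← hsq, ← mul_pow, hyk, one_pow]
    obtain ⟨z0, hz0⟩ : ∃ z0 : ℝ, z0 = arctan y := ⟨_, rfl⟩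
    have hz1 : 0 < z0 := by rw [hz0]; exact arctan_pos.2 hy0
    have hz2 : z0 < π / 2 := by rw [hz0]; exact arctan_lt_pi_div_two y
    have hcz : 0 < cos z0 := cos_pos_of_mem_Ioo ⟨by linarith, hz2⟩
    have hsz : 0 < sin z0 := sin_pos_of_pos_of_lt_pi hz1 (by linarith)
    have htan : sin z0 = y * cos z0 := by
      have h3 : tan z0 = y := by rw [hz0, tan_arctan]
      rw [tan_eq_sin_div_cos, div_eq_iff hcz.ne'] at h3
      exact h3
    have hcs := sin_sq_add_cos_sq z0
    have hd : dph kp z0 = 1 := by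
      have h4 : cos z0 ^ 2 + kp ^ 2 * sin z0 ^ 2 = kp := by
        have h5 : kp * sin z0 ^ 2 = cos z0 ^ 2 := by
          rw [htan]
          linear_combination (cos z0 ^ 2) * hy2
        have h6 : kp * (sin z0 ^ 2 + cos z0 ^ 2) = kp := by rw [hcs, mul_one]
        linear_combination h6 + (kp - 1) * h5
      unfold dph
      rw [h4]
      exact div_self hk.ne'
    have hph : ph kp z0 = z0 := by
      rw [ph_eq hk hz1 (by linarith)]
      have h7 : cos z0 / (kp * sin z0) = y := by
        rw [div_eq_iff (by positivity), htan]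
        linear_combination (-cos z0) * hy2
      rw [h7, hz0]
    have h8 := ph_tan (c := kp) (z0 := z0) (z := w / 2) hk (by linarith) hz1 hz2
      (by linarith) (by linarith)
    rw [hd, hph] at h8
    -- the value
    have h9 : z0 ≤ π / 4 + 0.0905 := by
      obtain ⟨u, hu⟩ : ∃ u : ℝ, u = (y - 1) / (y + 1) := ⟨_, rfl⟩
      have hy1 : 1 < y := by
        by_contra hc
        push Not at hc
        nlinarith
      have hyu : y < 1.1987 := by
        by_contra hc
        push Not at hc
        nlinarith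
      have hu0 : 0 < u := by
        rw [hu]
        exact div_pos (by linarith) (by linarith)
      have hu1 : u ≤ 0.0905 := by
        rw [hu, div_le_iff₀ (by linarith)]
        linarith
      have h10 : arctan 1 + arctan u = arctan y := by
        rw [arctan_add (by linarith)]
        congr 1
        rw [div_eq_iff (by linarith), hu]
        field_simp
        ring
      have h11 : arctan u < u := by
        have h12 := lt_tan (arctan_pos.2 hu0) (arctan_lt_pi_div_two u)
        rwa [tan_arctan] at h12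
      rw [arctan_one] at h10
      linarith
    unfold vf
    linarith

end Pool.Agent.C9
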