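import Pool.Agent.Lib.MP_488b8a_co_X.Spin

/-! # Project C9, module StarD: the phase of the star of a vertex of degree 4 -/

set_option autoImplicit false

namespace Pool.Agent.C9

open Real Pool.Agent.C32 ComplexConjugate

/-- the hermitian product `⟨T', T⟩` of the spinors of `T` (at distance `r_9` from `O`, angle `t`
between `O T` and `O O'`) and `T'` (same with `O'`, `t'`), `x` half of the distance `O O'` -/
noncomputable def Zf (t t' x : ℝ) : ℂ :=
  ((1 + kp) / 2 * cos x : ℝ) + (sn / 2 * sin x : ℝ) *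
    (Complex.exp (t * Complex.I) + Complex.exp (t' * Complex.I)) -
    ((1 - kp) / 2 * cos x : ℝ) * Complex.exp ((t + t' : ℝ) * Complex.I)

/-- the same for two points at distance `r_9` from `O`, angle `w` between them -/
noncomputable def Vf (w : ℝ) : ℂ :=
  ((1 + kp) / 2 : ℝ) + ((1 - kp) / 2 : ℝ) * Complex.exp (w * Complex.I)

/-- `X + i Y`, in the coordinates `u = (t + t')/2`, `v = (t - t')/2` -/
noncomputable def Pf (u v x : ℝ) : ℂ := ⟨kp * cos x * cos u + sn * sin x * cos v, cos x * sin u⟩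

/-- the phase of `Vf` -/
noncomputable def vf (w : ℝ) : ℝ := w / 2 - π / 2 + ph kp (w / 2)

private theorem exp_cis (t : ℝ) :
    Complex.exp ((t : ℂ) * Complex.I) = ⟨cos t, sin t⟩ := by
  apply Complex.ext
  · exact Complex.exp_ofReal_mul_I_re t
  · exact Complex.exp_ofReal_mul_I_im t

/-- PROOF. `e^{it} + e^{it'} = 2 e^{iu} cos v`, `e^{i(t+t')} = e^{2iu}`; `(1 + kp)/2 e^{-iu} -
(1 - kp)/2 e^{iu} = kp cos u - i sin u`. -/
theorem Zf_eq (u v x : ℝ) :
    Zf (u + v) (u - v) x = Complex.exp (u * Complex.I) * conj (Pf u v x) := by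
  have hcs := sin_sq_add_cos_sq u
  have h2 : u + v + (u - v) = 2 * u := by ring
  unfold Zf Pf
  rw [h2, exp_cis, exp_cis, exp_cis, exp_cis]
  apply Complex.ext
  · simp only [Complex.add_re, Complex.sub_re, Complex.mul_re, Complex.ofReal_re,
      Complex.ofReal_im, Complex.conj_re, Complex.conj_im, Complex.add_im]
    rw [cos_add, cos_sub, cos_two_mul]
    linear_combination (-(cos x)) * hcs
  · simp only [Complex.add_re, Complex.sub_im, Complex.mul_im, Complex.ofReal_re,
      Complex.ofReal_im, Complex.conj_re, Complex.conj_im, Complex.add_im]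
    rw [sin_add, sin_sub, sin_two_mul]
    ring

/-- PROOF. `(1 + kp)/2 e^{-iw/2} + (1 - kp)/2 e^{iw/2} = cos (w/2) - i kp sin (w/2) =
-i (kp sin (w/2) + i cos (w/2))`, and `ph` is the argument of the last factor. -/
theorem Vf_eq {w : ℝ} (h0 : 0 < w) (h1 : w < π) :
    ∃ k : ℝ, 0 < k ∧ Vf w = k * Complex.exp (vf w * Complex.I) := by
  have hkp : 0 < kp := by
    unfold kp
    positivity
  have hs : 0 < sin (w / 2) := sin_pos_of_pos_of_lt_pi (by linarith) (by linarith [pi_pos])
  have hcs := sin_sq_add_cos_sq (w / 2)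
  obtain ⟨z, hz⟩ : ∃ z : ℂ, z = ⟨kp * sin (w / 2), cos (w / 2)⟩ := ⟨_, rfl⟩
  have hre : z.re = kp * sin (w / 2) := by rw [hz]
  have him : z.im = cos (w / 2) := by rw [hz]
  have hz0 : z ≠ 0 := by
    intro h
    rw [h, Complex.zero_re] at hre
    have := mul_pos hkp hs
    linarith
  have harg : Complex.arg z = ph kp (w / 2) := by
    rw [hz]
    rfl
  refine ⟨‖z‖, norm_pos_iff.2 hz0, ?_⟩
  have h3 : Complex.exp ((vf w : ℝ) * Complex.I) =
      ⟨sin (w / 2), -cos (w / 2)⟩ * Complex.exp ((Complex.arg z : ℝ) * Complex.I) := by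
    have e1 : ((vf w : ℝ) : ℂ) * Complex.I = ((w / 2 - π / 2 : ℝ) : ℂ) * Complex.I +
        ((Complex.arg z : ℝ) : ℂ) * Complex.I := by
      rw [harg]
      unfold vf
      push_cast
      ring
    rw [e1, Complex.exp_add, exp_cis (w / 2 - π / 2), cos_sub_pi_div_two, sin_sub_pi_div_two]
  have h4 : ((‖z‖ : ℝ) : ℂ) * Complex.exp ((vf w : ℝ) * Complex.I) =
      ⟨sin (w / 2), -cos (w / 2)⟩ * z := by
    rw [h3, mul_left_comm, Complex.norm_mul_exp_arg_mul_I]
  rw [h4]
  have h5 : w = 2 * (w / 2) := by ring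
  unfold Vf
  apply Complex.ext
  · have h6 : (Complex.exp ((w : ℝ) * Complex.I)).re = 2 * cos (w / 2) ^ 2 - 1 := by
      rw [exp_cis]
      show cos w = _
      conv_lhs => rw [h5]
      exact cos_two_mul _
    simp only [Complex.add_re, Complex.mul_re, Complex.ofReal_re, Complex.ofReal_im, hre, him, h6]
    linear_combination (-kp) * hcs
  · have h6 : (Complex.exp ((w : ℝ) * Complex.I)).im = 2 * sin (w / 2) * cos (w / 2) := by
      rw [exp_cis]
      show sin w = _
      conv_lhs => rw [h5]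
      exact sin_two_mul _
    simp only [Complex.add_im, Complex.mul_im, Complex.ofReal_re, Complex.ofReal_im, hre, him, h6]
    ring

end Pool.Agent.C9
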