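import Pool.Agent.Lib.MP_488b8a_co_X.StarD

/-! # Project C9, module StarP: the phase of the star, geometric part -/

set_option autoImplicit false

namespace Pool.Agent.C9

open Real Pool.Agent.C32 ComplexConjugate

/-- `e^{it}` -/
private noncomputable def sqe (t : ℝ) : ℂ := Complex.exp (t * Complex.I)

private theorem sqe_conj (t : ℝ) : conj (sqe t) = sqe (-t) := by
  unfold sqe
  rw [← Complex.exp_conj]
  congr 1
  simp

private theorem sqe_add (s t : ℝ) : sqe (s + t) = sqe s * sqe t := by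
  unfold sqe
  rw [← Complex.exp_add]
  congr 1
  push_cast
  ring

private theorem sqe_im (t : ℝ) : (sqe t).im = sin t := by
  unfold sqe
  rw [Complex.exp_ofReal_mul_I_im]

private theorem sq_polar {z : ℂ} {S : ℝ} (hS : 0 ≤ S) (h : Complex.normSq z = S ^ 2) :
    ∃ t : ℝ, -π < t ∧ t ≤ π ∧ z = S * sqe t := by
  refine ⟨Complex.arg z, Complex.neg_pi_lt_arg z, Complex.arg_le_pi z, ?_⟩
  have h1 : ‖z‖ = S := by
    rw [Complex.normSq_eq_norm_sq] at h
    exact (pow_left_inj₀ (norm_nonneg _) hS two_ne_zero).1 h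
  unfold sqe
  rw [← h1]
  exact (Complex.norm_mul_exp_arg_mul_I z).symm

/-- second coordinate with respect to an orthonormal basis starting with `o` -/
private noncomputable def sqq (o a : ℂ × ℂ) : ℂ := -o.2 * a.1 + o.1 * a.2

private theorem sq_expand {o a b : ℂ × ℂ} (ho : Un o) :
    sp a b = conj (sp o a) * sp o b + conj (sqq o a) * sqq o b := by
  have h1 : conj o.1 * o.1 + conj o.2 * o.2 = (1 : ℂ) := by
    have h2 : ((Complex.normSq o.1 + Complex.normSq o.2 : ℝ) : ℂ) = 1 := by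
      rw [show Complex.normSq o.1 + Complex.normSq o.2 = 1 from ho]
      simp
    rw [← h2]
    push_cast
    rw [Complex.normSq_eq_conj_mul_self, Complex.normSq_eq_conj_mul_self]
  unfold sp sqq
  simp only [map_add, map_mul, map_neg, Complex.conj_conj]
  linear_combination (-(conj a.1 * b.1) - conj a.2 * b.2) * h1

private theorem sq_self {a : ℂ × ℂ} (ha : Un a) : sp a a = 1 := by
  have h2 : ((Complex.normSq a.1 + Complex.normSq a.2 : ℝ) : ℂ) = 1 := by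
    rw [show Complex.normSq a.1 + Complex.normSq a.2 = 1 from ha]
    simp
  rw [← h2]
  unfold sp
  push_cast
  rw [Complex.normSq_eq_conj_mul_self, Complex.normSq_eq_conj_mul_self]

private theorem sq_sum {o a : ℂ × ℂ} (ho : Un o) (ha : Un a) :
    Complex.normSq (sp o a) + Complex.normSq (sqq o a) = 1 := by
  have h := sq_expand (a := a) (b := a) ho
  rw [sq_self ha, ← Complex.normSq_eq_conj_mul_self, ← Complex.normSq_eq_conj_mul_self] at h
  exact_mod_cast h.symm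

private theorem sq_phase {a : ℂ × ℂ} {z : ℂ} (hz : Complex.normSq z = 1) (ha : Un a) :
    Un (z * a.1, z * a.2) := by
  unfold Un at ha ⊢
  simp only [Complex.normSq_mul, hz, one_mul]
  exact ha

/-- choose the phase of `b` -/
private theorem sq_real {a b : ℂ × ℂ} (hb : Un b) :
    ∃ b', Un b' ∧ vec b' = vec b ∧ sp a b' = ((‖sp a b‖ : ℝ) : ℂ) := by
  have hz : Complex.normSq (sqe (-(Complex.arg (sp a b)))) = 1 := by
    rw [Complex.normSq_eq_norm_sq]
    unfold sqe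
    rw [Complex.norm_exp_ofReal_mul_I]
    norm_num
  refine ⟨(sqe (-(Complex.arg (sp a b))) * b.1, sqe (-(Complex.arg (sp a b))) * b.2),
    sq_phase hz hb, vec_phase hz, ?_⟩
  have h1 : sp a (sqe (-(Complex.arg (sp a b))) * b.1, sqe (-(Complex.arg (sp a b))) * b.2) =
      sqe (-(Complex.arg (sp a b))) * sp a b := by
    simp only [sp]
    ring
  have h2 : sp a b = ((‖sp a b‖ : ℝ) : ℂ) * sqe (Complex.arg (sp a b)) :=
    (Complex.norm_mul_exp_arg_mul_I (sp a b)).symm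
  have h3 : sqe (-(Complex.arg (sp a b))) * sqe (Complex.arg (sp a b)) = 1 := by
    rw [← sqe_add, neg_add_cancel]
    simp [sqe]
  rw [h1]
  calc sqe (-(Complex.arg (sp a b))) * sp a b
      = sqe (-(Complex.arg (sp a b))) * (((‖sp a b‖ : ℝ) : ℂ) * sqe (Complex.arg (sp a b))) := by
        rw [← h2]
    _ = ((‖sp a b‖ : ℝ) : ℂ) *
        (sqe (-(Complex.arg (sp a b))) * sqe (Complex.arg (sp a b))) := by ring
    _ = ((‖sp a b‖ : ℝ) : ℂ) := by rw [h3, mul_one]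

private noncomputable def sqP : ℝ := √((1 + kp) / 2)

private noncomputable def sqS : ℝ := √((1 - kp) / 2)

private theorem sqP_sq : sqP ^ 2 = (1 + kp) / 2 := by
  have := kp_lo
  unfold sqP
  rw [sq_sqrt]
  linarith

private theorem sqS_sq : sqS ^ 2 = (1 - kp) / 2 := by
  have := kp_hi
  unfold sqS
  rw [sq_sqrt]
  linarith

private theorem sqP_pos : 0 < sqP := by
  have := kp_lo
  unfold sqP
  apply sqrt_pos.2
  linarith

private theorem sqS_pos : 0 < sqS := by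
  have := kp_hi
  unfold sqS
  apply sqrt_pos.2
  linarith

private theorem sqPS : sqP * sqS = sn / 2 := by
  have h1 : (sqP * sqS) ^ 2 = (sn / 2) ^ 2 := by
    rw [mul_pow, sqP_sq, sqS_sq]
    linear_combination (-1 / 4) * kp_sn
  have h2 : (0 : ℝ) ≤ sn / 2 := by
    have := sn_lo
    linarith
  exact (pow_left_inj₀ (mul_pos sqP_pos sqS_pos).le h2 two_ne_zero).1 h1

/-- a point at distance `r_9` -/
private theorem sq_pt {o a : ℂ × ℂ} (ho : Un o) (ha : Un a) (h : inner ℝ (vec o) (vec a) = kp) :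
    ∃ a', Un a' ∧ vec a' = vec a ∧ sp o a' = (sqP : ℂ) ∧
      Complex.normSq (sqq o a') = sqS ^ 2 := by
  obtain ⟨a', h1, h2, h3⟩ := sq_real (a := o) ha
  have h4 : Complex.normSq (sp o a') = sqP ^ 2 := by
    have h5 := inner_vec ho h1
    rw [h2, h] at h5
    rw [sqP_sq]
    linarith
  have h5 : ‖sp o a‖ = sqP := by
    rw [h3, Complex.normSq_ofReal, ← sq] at h4
    exact (pow_left_inj₀ (norm_nonneg _) sqP_pos.le two_ne_zero).1 h4
  refine ⟨a', h1, h2, by rw [h3, h5], ?_⟩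
  have h6 := sq_sum ho h1
  rw [h4] at h6
  have h7 := sqP_sq
  have h8 := sqS_sq
  linarith

/-- the angle `w` -/
private theorem sq_w {t b : ℝ} (h1 : -π < t) (h2 : t ≤ π) (h3 : -π < b) (h4 : b ≤ π)
    (h : sin (t + b) < 0) :
    ∃ w : ℝ, 0 < w ∧ w < π ∧ (t + b = -w ∨ t + b = 2 * π - w) ∧ sqe w = sqe (-(t + b)) := by
  by_cases hn : t + b < 0
  · have h5 : -π < t + b := by
      by_contra hcon
      have h6 : 0 ≤ sin (t + b + 2 * π) :=
        sin_nonneg_of_nonneg_of_le_pi (by linarith) (by linarith)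
      rw [sin_add_two_pi] at h6
      linarith
    exact ⟨-(t + b), by linarith, by linarith, Or.inl (by ring), rfl⟩
  · have h5 : π < t + b := by
      by_contra hcon
      have h6 : 0 ≤ sin (t + b) :=
        sin_nonneg_of_nonneg_of_le_pi (by linarith) (by linarith)
      linarith
    have h6 : t + b < 2 * π := by
      by_contra hcon
      have h7 : t + b = 2 * π := by linarith
      rw [h7, sin_two_pi] at h
      exact lt_irrefl _ h
    refine ⟨2 * π - (t + b), by linarith, by linarith, Or.inr (by ring), ?_⟩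
    have h7 : sqe (2 * π) = 1 := by
      unfold sqe
      push_cast
      exact Complex.exp_two_pi_mul_I
    rw [sub_eq_add_neg, sqe_add, h7, one_mul]

private theorem sq_rot {x : ℝ} {a0 a1 : ℂ} (h : Complex.normSq a0 + Complex.normSq a1 = 1)
    (hP : (cos x : ℂ) * a0 + (sin x : ℂ) * a1 = (sqP : ℂ)) :
    ∃ r : ℂ, Complex.normSq r = sqS ^ 2 ∧ a0 = (cos x : ℂ) * (sqP : ℂ) - (sin x : ℂ) * r ∧
      a1 = (sin x : ℂ) * (sqP : ℂ) + (cos x : ℂ) * r := by
  have hcs : (cos x : ℂ) ^ 2 + (sin x : ℂ) ^ 2 = 1 := by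
    have := cos_sq_add_sin_sq x
    exact_mod_cast this
  refine ⟨-(sin x : ℂ) * a0 + (cos x : ℂ) * a1, ?_, ?_, ?_⟩
  · have h1 : Complex.normSq ((cos x : ℂ) * a0 + (sin x : ℂ) * a1) +
        Complex.normSq (-(sin x : ℂ) * a0 + (cos x : ℂ) * a1) = 1 := by
      rw [← h]
      simp only [Complex.normSq_apply, Complex.add_re, Complex.add_im, Complex.mul_re,
        Complex.mul_im, Complex.neg_re, Complex.neg_im, Complex.ofReal_re, Complex.ofReal_im]
      linear_combination (a0.re ^ 2 + a0.im ^ 2 + a1.re ^ 2 + a1.im ^ 2) * cos_sq_add_sin_sq x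
    rw [hP, Complex.normSq_ofReal] at h1
    have h7 := sqP_sq
    have h8 := sqS_sq
    linarith
  · rw [← hP]
    linear_combination -a0 * hcs
  · rw [← hP]
    linear_combination -a1 * hcs

/-- PROOF. Spinors `o`, `o'`, `τ`, `τ'`, `β`, `β'`, `γ` of `O`, `O'`, `T`, `T'`, `B`, `B'`, `C`
(`exists_spin`). Change the phase of `o'` (`vec_phase`) so that `sp o o'` is real and `≥ 0`, and
call it `cos x`, `0 ≤ x ≤ π/2`; by `inner_vec` `2 cos^2 x - 1 = inner O O' ≥ 2 kp^2 - 1`, so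
`cos x ≥ kp`. Choose unit spinors `f`, `g`, orthogonal, with `o = cos (x/2) f - sin (x/2) g`,
`o' = cos (x/2) f + sin (x/2) g` (if `x > 0`: `f = (o + o')/(2 cos (x/2))`,
`g = (o' - o)/(2 sin (x/2))`; if `x = 0` then `o = o'` (norm of the difference is 0), `f = o` and `g`
any unit spinor orthogonal to it). Put `o₁ = sin (x/2) f + cos (x/2) g`,
`o₁' = - sin (x/2) f + cos (x/2) g`. Change the phase of `τ` so that `sp o τ = √((1 + kp)/2) > 0`
(`inner_vec` and `inner O T = kp`); then `τ = √((1+kp)/2) o + √((1-kp)/2) e^{it} o₁` with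
`t = arg ∈ (-π, π]`. In the same way `β = √((1+kp)/2) o + √((1-kp)/2) e^{-ib} o₁`,
`τ' = √((1+kp)/2) o' - √((1-kp)/2) e^{-it'} o₁'`, `β' = √((1+kp)/2) o' - √((1-kp)/2) e^{ib'} o₁'`
(for these choose `t'`, `b`, `b'` in `(-π, π]` suitably). As `√((1+kp)/2) √((1-kp)/2) = sn/2`:
`sp τ' τ = Zf t t' x`, `sp β β' = Zf b b' x`,
`sp τ β = (1+kp)/2 + (1-kp)/2 e^{-i(t+b)}`, `sp β' τ' = (1+kp)/2 + (1-kp)/2 e^{-i(t'+b')}`.
`hB O T B = 4 sp o τ sp τ β sp β o` (`hB_vec`) has positive imaginary part `dt O T B > 0`, so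
`sin (t + b) < 0`; there is a unique `w ∈ (0, π)` with `w ≡ -(t + b)` modulo `2π`, and as
`-2π < t + b ≤ 2π`, `t + b = -w` or `t + b = 2π - w`. In the same way `w'`. Finally by `hB_vec` and
`sp_conj` the product of the four `hB` is
`256 ∏ |sp γ ·|^2 · sp τ' τ · sp τ β · sp β β' · sp β' τ'`, and `|sp γ τ|^2 = (1 + inner C T)/2 > 0`
etc. -/
theorem star_phase {C T T' B B' O O' : E3} (hC : ‖C‖ = 1) (hT : ‖T‖ = 1) (hT' : ‖T'‖ = 1)
    (hB : ‖B‖ = 1) (hB' : ‖B'‖ = 1) (hO : ‖O‖ = 1) (hO' : ‖O'‖ = 1)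
    (c1 : -1 < inner ℝ C T) (c2 : -1 < inner ℝ C T') (c3 : -1 < inner ℝ C B)
    (c4 : -1 < inner ℝ C B') (o1 : inner ℝ O T = kp) (o2 : inner ℝ O B = kp)
    (o3 : inner ℝ O' T' = kp) (o4 : inner ℝ O' B' = kp) (d1 : 0 < dt O T B)
    (d2 : 0 < dt O' B' T') (hD : 2 * kp ^ 2 - 1 ≤ inner ℝ O O') :
    ∃ t b t' b' w w' x k : ℝ, -π < t ∧ t ≤ π ∧ -π < b ∧ b ≤ π ∧ -π < t' ∧ t' ≤ π ∧ -π < b' ∧
      b' ≤ π ∧ 0 < w ∧ w < π ∧ 0 < w' ∧ w' < π ∧ 0 ≤ x ∧ x ≤ π / 2 ∧ kp ≤ cos x ∧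
      (t + b = -w ∨ t + b = 2 * π - w) ∧ (t' + b' = -w' ∨ t' + b' = 2 * π - w') ∧ 0 < k ∧
      C9.hB C T' T * C9.hB C T B * C9.hB C B B' * C9.hB C B' T' =
        k * (Zf t t' x * Zf b b' x * Vf w * Vf w') ∧
      Complex.normSq (Zf t t' x) = (1 + inner ℝ T T') / 2 ∧
      Complex.normSq (Zf b b' x) = (1 + inner ℝ B B') / 2 := by
  obtain ⟨o, uo, rfl⟩ := exists_spin hO
  obtain ⟨ow, uow, rfl⟩ := exists_spin hO'
  obtain ⟨γ, uγ, rfl⟩ := exists_spin hC
  obtain ⟨τw, uτw, rfl⟩ := exists_spin hT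
  obtain ⟨βw, uβw, rfl⟩ := exists_spin hB
  obtain ⟨τw', uτw', rfl⟩ := exists_spin hT'
  obtain ⟨βw', uβw', rfl⟩ := exists_spin hB'
  -- the spinor of `O'`
  obtain ⟨o', uo', vo', so'⟩ := sq_real (a := o) (b := ow) uow
  rw [← vo'] at o3 o4 d2 hD
  have hl : Complex.normSq (sp o o') + Complex.normSq (sqq o o') = 1 := sq_sum uo uo'
  set l : ℝ := ‖sp o ow‖ with hldef
  have hl0 : 0 ≤ l := norm_nonneg _
  have hl2 : Complex.normSq (sp o o') = l ^ 2 := by
    rw [so', Complex.normSq_ofReal, sq]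
  have hl1 : l ≤ 1 := by
    have h1 := Complex.normSq_nonneg (sqq o o')
    rw [hl2] at hl
    nlinarith
  obtain ⟨x, hx0, hx2, hcx⟩ : ∃ x : ℝ, 0 ≤ x ∧ x ≤ π / 2 ∧ cos x = l :=
    ⟨arccos l, arccos_nonneg l, arccos_le_pi_div_two.2 hl0, cos_arccos (by linarith) hl1⟩
  have hsx0 : 0 ≤ sin x := sin_nonneg_of_nonneg_of_le_pi hx0 (by linarith [pi_pos])
  have hsx : Complex.normSq (sqq o o') = sin x ^ 2 := by
    rw [hl2, ← hcx] at hl
    have := cos_sq_add_sin_sq x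
    linarith
  obtain ⟨φ, -, -, hφ⟩ := sq_polar hsx0 hsx
  have hso : sp o o' = (cos x : ℂ) := by rw [so', hcx]
  have hkx : kp ≤ cos x := by
    have h1 := inner_vec uo uo'
    rw [hl2, ← hcx] at h1
    have h2 : kp ^ 2 ≤ cos x ^ 2 := by linarith
    exact abs_le_of_sq_le_sq' h2 (by rw [hcx]; exact hl0) |>.2
  -- the coordinates
  have hζ : conj (sqe φ) * sqe φ = 1 := by
    rw [sqe_conj, ← sqe_add, neg_add_cancel]
    simp [sqe]
  set κ : ℂ × ℂ → ℂ := fun a => conj (sqe φ) * sqq o a with hκ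
  have hexp : ∀ a b : ℂ × ℂ, sp a b = conj (sp o a) * sp o b + conj (κ a) * κ b := by
    intro a b
    rw [sq_expand uo]
    simp only [hκ, map_mul, Complex.conj_conj]
    linear_combination (-(conj (sqq o a) * sqq o b)) * hζ
  have hκn : ∀ a : ℂ × ℂ, Complex.normSq (κ a) = Complex.normSq (sqq o a) := by
    intro a
    have h1 : Complex.normSq (sqe φ) = 1 := by
      rw [Complex.normSq_eq_norm_sq]
      unfold sqe
      rw [Complex.norm_exp_ofReal_mul_I]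
      norm_num
    simp only [hκ, Complex.normSq_mul, Complex.normSq_conj, h1, one_mul]
  have hκo' : κ o' = (sin x : ℂ) := by
    simp only [hκ, hφ]
    linear_combination (sin x : ℂ) * hζ
  have hexp' : ∀ a : ℂ × ℂ, sp o' a = (cos x : ℂ) * sp o a + (sin x : ℂ) * κ a := by
    intro a
    rw [hexp o' a, hso, hκo', Complex.conj_ofReal, Complex.conj_ofReal]
  -- the spinors of `T`, `B`
  obtain ⟨τ, uτ, vτ, pτ, qτ⟩ := sq_pt uo uτw o1
  obtain ⟨β, uβ, vβ, pβ, qβ⟩ := sq_pt uo uβw o2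
  obtain ⟨τ', uτ', vτ', pτ', -⟩ := sq_pt uo' uτw' o3
  obtain ⟨β', uβ', vβ', pβ', -⟩ := sq_pt uo' uβw' o4
  rw [← vτ] at c1 d1
  rw [← vβ] at c3 d1
  rw [← vτ'] at c2 d2
  rw [← vβ'] at c4 d2
  rw [← vτ, ← vτ', ← vβ, ← vβ']
  obtain ⟨t, ht1, ht2, ht⟩ := sq_polar (z := κ τ) sqS_pos.le (by rw [hκn]; exact qτ)
  obtain ⟨b, hb1, hb2, hb⟩ := sq_polar (z := conj (κ β)) sqS_pos.le
    (by rw [Complex.normSq_conj, hκn]; exact qβ)
  have hb' : κ β = (sqS : ℂ) * sqe (-b) := by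
    have h1 := congrArg conj hb
    rw [Complex.conj_conj, map_mul, Complex.conj_ofReal, sqe_conj] at h1
    exact h1
  obtain ⟨rt, nrt, t0, t1⟩ := sq_rot (x := x) (a0 := sp o τ') (a1 := κ τ')
    (by rw [hκn]; exact sq_sum uo uτ') (by rw [← hexp' τ', pτ'])
  obtain ⟨rb, nrb, b0, b1⟩ := sq_rot (x := x) (a0 := sp o β') (a1 := κ β')
    (by rw [hκn]; exact sq_sum uo uβ') (by rw [← hexp' β', pβ'])
  obtain ⟨t', ht1', ht2', ht'⟩ := sq_polar (z := -conj rt) sqS_pos.le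
    (by rw [Complex.normSq_neg, Complex.normSq_conj]; exact nrt)
  obtain ⟨bb', hbb1, hbb2, hbb⟩ := sq_polar (z := -rb) sqS_pos.le
    (by rw [Complex.normSq_neg]; exact nrb)
  have hrt : rt = -((sqS : ℂ) * sqe (-t')) := by
    have h1 : conj rt = -((sqS : ℂ) * sqe t') := by rw [← ht', neg_neg]
    have h2 := congrArg conj h1
    rw [Complex.conj_conj, map_neg, map_mul, Complex.conj_ofReal, sqe_conj] at h2
    exact h2
  have hrb : rb = -((sqS : ℂ) * sqe bb') := by rw [← hbb, neg_neg]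
  have hP2 : (sqP : ℂ) ^ 2 = (((1 + kp) / 2 : ℝ) : ℂ) := by
    rw [← sqP_sq]
    push_cast
    rfl
  have hS2 : (sqS : ℂ) ^ 2 = (((1 - kp) / 2 : ℝ) : ℂ) := by
    rw [← sqS_sq]
    push_cast
    rfl
  have hPS : (sqP : ℂ) * (sqS : ℂ) = ((sn / 2 : ℝ) : ℂ) := by
    rw [← sqPS]
    push_cast
    rfl
  -- the four hermitian products
  have e1 : sp τ' τ = Zf t t' x := by
    rw [hexp τ' τ, t0, t1, pτ, ht, hrt]
    simp only [map_sub, map_add, map_mul, map_neg, Complex.conj_ofReal, sqe_conj, neg_neg]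
    have h1 : Zf t t' x = (((1 + kp) / 2 : ℝ) : ℂ) * (cos x : ℂ) +
        ((sn / 2 : ℝ) : ℂ) * (sin x : ℂ) * (sqe t + sqe t') -
        (((1 - kp) / 2 : ℝ) : ℂ) * (cos x : ℂ) * (sqe t * sqe t') := by
      rw [← sqe_add]
      simp only [Zf, sqe]
      push_cast
      ring
    rw [h1, ← hP2, ← hS2, ← hPS]
    ring
  have e2 : sp β β' = Zf b bb' x := by
    rw [hexp β β', b0, b1, pβ, hb', hrb]
    simp only [map_mul, Complex.conj_ofReal, sqe_conj, neg_neg]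
    have h1 : Zf b bb' x = (((1 + kp) / 2 : ℝ) : ℂ) * (cos x : ℂ) +
        ((sn / 2 : ℝ) : ℂ) * (sin x : ℂ) * (sqe b + sqe bb') -
        (((1 - kp) / 2 : ℝ) : ℂ) * (cos x : ℂ) * (sqe b * sqe bb') := by
      rw [← sqe_add]
      simp only [Zf, sqe]
      push_cast
      ring
    rw [h1, ← hP2, ← hS2, ← hPS]
    ring
  have e3 : sp τ β = (((1 + kp) / 2 : ℝ) : ℂ) + (((1 - kp) / 2 : ℝ) : ℂ) * sqe (-(t + b)) := by
    rw [hexp τ β, pτ, pβ, ht, hb', neg_add, sqe_add, ← hP2, ← hS2]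
    simp only [map_mul, Complex.conj_ofReal, sqe_conj]
    ring
  have e4 : sp β' τ' =
      (((1 + kp) / 2 : ℝ) : ℂ) + (((1 - kp) / 2 : ℝ) : ℂ) * sqe (-(t' + bb')) := by
    have hcs : (cos x : ℂ) ^ 2 + (sin x : ℂ) ^ 2 = 1 := by
      have := cos_sq_add_sin_sq x
      exact_mod_cast this
    rw [hexp β' τ', t0, t1, b0, b1, hrt, hrb, neg_add, sqe_add, ← hP2, ← hS2]
    simp only [map_sub, map_add, map_mul, map_neg, Complex.conj_ofReal, sqe_conj]
    linear_combination ((sqP : ℂ) ^ 2 + (sqS : ℂ) ^ 2 * (sqe (-t') * sqe (-bb'))) * hcs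
  -- the angles `w`, `w'`
  have hdt : ∀ a b c : E3, dt a b c = (C9.hB a b c).im := fun a b c => rfl
  have hpos : 0 < (1 - kp) / 2 := by
    have := kp_hi
    linarith
  have s1 : sin (t + b) < 0 := by
    rw [hdt, hB_vec uo uτ uβ, ← sp_conj o β, pτ, pβ, e3, Complex.conj_ofReal] at d1
    have h1 : (4 * ((sqP : ℂ) * ((((1 + kp) / 2 : ℝ) : ℂ) +
        (((1 - kp) / 2 : ℝ) : ℂ) * sqe (-(t + b))) * (sqP : ℂ))).im =
        4 * sqP ^ 2 * ((1 - kp) / 2) * (-sin (t + b)) := by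
      have h2 : (4 * ((sqP : ℂ) * ((((1 + kp) / 2 : ℝ) : ℂ) +
        (((1 - kp) / 2 : ℝ) : ℂ) * sqe (-(t + b))) * (sqP : ℂ))) =
        ((4 * sqP ^ 2 * ((1 + kp) / 2) : ℝ) : ℂ) +
          ((4 * sqP ^ 2 * ((1 - kp) / 2) : ℝ) : ℂ) * sqe (-(t + b)) := by
        push_cast
        ring
      rw [h2, Complex.add_im, Complex.ofReal_im, Complex.im_ofReal_mul, sqe_im, sin_neg]
      ring
    rw [h1] at d1
    have h3 : 0 < 4 * sqP ^ 2 * ((1 - kp) / 2) := by
      have := sqP_pos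
      positivity
    by_contra hcon
    have h4 : 4 * sqP ^ 2 * ((1 - kp) / 2) * (-sin (t + b)) ≤ 0 :=
      mul_nonpos_of_nonneg_of_nonpos h3.le (by linarith)
    linarith
  have s2 : sin (t' + bb') < 0 := by
    rw [hdt, hB_vec uo' uβ' uτ', ← sp_conj o' τ', pτ', pβ', e4, Complex.conj_ofReal] at d2
    have h1 : (4 * ((sqP : ℂ) * ((((1 + kp) / 2 : ℝ) : ℂ) +
        (((1 - kp) / 2 : ℝ) : ℂ) * sqe (-(t' + bb'))) * (sqP : ℂ))).im =
        4 * sqP ^ 2 * ((1 - kp) / 2) * (-sin (t' + bb')) := by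
      have h2 : (4 * ((sqP : ℂ) * ((((1 + kp) / 2 : ℝ) : ℂ) +
        (((1 - kp) / 2 : ℝ) : ℂ) * sqe (-(t' + bb'))) * (sqP : ℂ))) =
        ((4 * sqP ^ 2 * ((1 + kp) / 2) : ℝ) : ℂ) +
          ((4 * sqP ^ 2 * ((1 - kp) / 2) : ℝ) : ℂ) * sqe (-(t' + bb')) := by
        push_cast
        ring
      rw [h2, Complex.add_im, Complex.ofReal_im, Complex.im_ofReal_mul, sqe_im, sin_neg]
      ring
    rw [h1] at d2
    have h3 : 0 < 4 * sqP ^ 2 * ((1 - kp) / 2) := by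
      have := sqP_pos
      positivity
    by_contra hcon
    have h4 : 4 * sqP ^ 2 * ((1 - kp) / 2) * (-sin (t' + bb')) ≤ 0 :=
      mul_nonpos_of_nonneg_of_nonpos h3.le (by linarith)
    linarith
  obtain ⟨w, hw0, hw1, hw2, hw3⟩ := sq_w ht1 ht2 hb1 hb2 s1
  obtain ⟨w', hw0', hw1', hw2', hw3'⟩ := sq_w ht1' ht2' hbb1 hbb2 s2
  have e5 : sp τ β = Vf w := by
    rw [e3, ← hw3]
    rfl
  have e6 : sp β' τ' = Vf w' := by
    rw [e4, ← hw3']
    rfl
  -- positivity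
  have hn : ∀ a : ℂ × ℂ, Un a → -1 < inner ℝ (vec γ) (vec a) → 0 < Complex.normSq (sp γ a) := by
    intro a ha h
    rw [inner_vec uγ ha] at h
    linarith
  have hm : ∀ a : ℂ × ℂ, sp γ a * sp a γ = ((Complex.normSq (sp γ a) : ℝ) : ℂ) := by
    intro a
    rw [← sp_conj γ a, mul_comm, Complex.normSq_eq_conj_mul_self]
  refine ⟨t, b, t', bb', w, w', x, 256 * (Complex.normSq (sp γ τ) * Complex.normSq (sp γ τ') *
    Complex.normSq (sp γ β) * Complex.normSq (sp γ β')), ht1, ht2, hb1, hb2, ht1', ht2', hbb1,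
    hbb2, hw0, hw1, hw0', hw1', hx0, hx2, hkx, hw2, hw2', ?_, ?_, ?_, ?_⟩
  · have h1 := hn τ uτ c1
    have h2 := hn τ' uτ' c2
    have h3 := hn β uβ c3
    have h4 := hn β' uβ' c4
    positivity
  · rw [hB_vec uγ uτ' uτ, hB_vec uγ uτ uβ, hB_vec uγ uβ uβ', hB_vec uγ uβ' uτ', e1, e2, e5, e6]
    push_cast
    rw [← hm τ, ← hm τ', ← hm β, ← hm β']
    ring
  · rw [← e1, real_inner_comm, inner_vec uτ' uτ]
    ring
  · rw [← e2, inner_vec uβ uβ']
    ring

end Pool.Agent.C9
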