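import Pool.Agent.Lib.MP_488b8a_co_X.Price
import Pool.Agent.Lib.MP_488b8a_co_X.Cst

/-! # Project C9, module TF: a facet in the form of the face certificates -/

set_option autoImplicit false

namespace Pool.Agent.C9

open Real Pool.Agent.C32

/-- `sin^2` of half of the side `x y` (unit vectors) -/
noncomputable def yy (x y : E3) : ℝ := (1 - inner ℝ x y) / 2

theorem yy_comm (x y : E3) : yy x y = yy y x := by
  unfold yy
  rw [real_inner_comm]

private theorem yy_gram {x y : E3} {c a : ℝ} (h : inner ℝ x y = gram c a) :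
    yy x y = (1 - c ^ 2) * sin a ^ 2 := by
  unfold yy
  rw [h]
  unfold gram
  ring

theorem facet_form {p : Fin 9 → E3} {κ : ℝ} (hκ : kp < κ) (hG : Gen p) (hC : Covers p κ)
    {i j k : Fin 9} (h : Facet p (i, j, k)) : ∃ c a b d : ℝ, 87 / 125 ≤ c ∧ c ≤ 1 ∧ 0 ≤ a ∧
      0 ≤ b ∧ 0 ≤ d ∧ a + b + d = π ∧ yy (p i) (p j) = (1 - c ^ 2) * sin a ^ 2 ∧
      yy (p j) (p k) = (1 - c ^ 2) * sin b ^ 2 ∧ yy (p k) (p i) = (1 - c ^ 2) * sin d ^ 2 ∧
      ang (p i) (p j) (p k) = ph c a + ph c d ∧ ang (p j) (p k) (p i) = ph c b + ph c a ∧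
      ang (p k) (p i) (p j) = ph c d + ph c b := by
  obtain ⟨c, a, b, d, hκc, h0⟩ := facet_par hG.1 hC h
  have h1 := par_rot h0
  have h2 := par_rot h1
  have e1 := ang_par (hG.1 i) (hG.1 j) (hG.1 k) h0
  have e2 := ang_par (hG.1 j) (hG.1 k) (hG.1 i) h1
  have e3 := ang_par (hG.1 k) (hG.1 i) (hG.1 j) h2
  obtain ⟨-, hc1, ha, hb, hd, hs, g1, g2, g3⟩ := h0
  have hk := kp_lo
  refine ⟨c, a, b, d, ?_, hc1.le, ha.le, hb.le, hd.le, hs, yy_gram g1, yy_gram g2, yy_gram g3,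
    e1, e2, e3⟩
  have : kp ≤ c := hκ.le.trans hκc
  norm_num at hk ⊢
  linarith

end Pool.Agent.C9
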