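import Pool.Agent.Lib.MP_488b8a_co_X.Cst

/-! # Project C9, module Tab: table of `ph kp`, `dph kp`, `sin^2`, `sin 2x` at `x = j/50` -/

set_option autoImplicit false

namespace Pool.Agent.C9

open Real Pool.Agent.C32

/-- one line of the table, all numbers in units `10^-6`: upper bound for `ph kp x`, lower bound for
`dph kp x`, lower and upper bounds for `sin x ^ 2`, `sin (2 x)`, where `x = j/50` -/
structure TRow where
  j : ℕ
  pu : ℤ
  dl : ℤ
  s0 : ℤ
  s1 : ℤ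
  t0 : ℤ
  t1 : ℤ

def tab : List TRow := [
  ⟨0, 1570800, 696174, -1, 1, -1, 1⟩,
  ⟨1, 1556875, 696317, 398, 401, 39988, 39991⟩,
  ⟨2, 1542945, 696748, 1598, 1601, 79913, 79916⟩,
  ⟨3, 1529003, 697466, 3594, 3597, 119711, 119714⟩,
  ⟨4, 1515044, 698473, 6385, 6388, 159317, 159320⟩,
  ⟨5, 1501062, 699768, 9965, 9968, 198668, 198671⟩,
  ⟨6, 1487052, 701354, 14330, 14333, 237701, 237704⟩,
  ⟨7, 1473006, 703231, 19471, 19474, 276354, 276357⟩,
  ⟨8, 1458920, 705401, 25381, 25384, 314565, 314568⟩,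
  ⟨9, 1444788, 707866, 32050, 32053, 352273, 352276⟩,
  ⟨10, 1430603, 710628, 39468, 39471, 389417, 389420⟩,
  ⟨11, 1416361, 713690, 47623, 47626, 425938, 425941⟩,
  ⟨12, 1402054, 717053, 56501, 56504, 461778, 461781⟩,
  ⟨13, 1387676, 720721, 66089, 66092, 496879, 496882⟩,
  ⟨14, 1373223, 724696, 76371, 76374, 531185, 531188⟩,
  ⟨15, 1358686, 728982, 87331, 87334, 564641, 564644⟩,
  ⟨16, 1344061, 733582, 98951, 98954, 597194, 597197⟩,
  ⟨17, 1329341, 738499, 111212, 111215, 628792, 628795⟩,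
  ⟨18, 1314519, 743737, 124096, 124099, 659383, 659386⟩,
  ⟨19, 1299589, 749300, 137580, 137583, 688920, 688923⟩,
  ⟨20, 1284545, 755192, 151645, 151648, 717355, 717358⟩,
  ⟨21, 1269379, 761416, 166267, 166270, 744642, 744645⟩,
  ⟨22, 1254086, 767976, 181423, 181426, 770737, 770740⟩,
  ⟨23, 1238658, 774877, 197088, 197091, 795600, 795603⟩,
  ⟨24, 1223088, 782122, 213239, 213242, 819190, 819193⟩,
  ⟨25, 1207370, 789716, 229847, 229850, 841469, 841472⟩,
  ⟨26, 1191497, 797662, 246888, 246891, 862403, 862406⟩,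
  ⟨27, 1175461, 805964, 264334, 264337, 881956, 881959⟩,
  ⟨28, 1159256, 814627, 282157, 282160, 900099, 900102⟩,
  ⟨29, 1142874, 823652, 300329, 300332, 916802, 916805⟩,
  ⟨30, 1126307, 833044, 318820, 318823, 932038, 932041⟩,
  ⟨31, 1109549, 842805, 337600, 337603, 945782, 945785⟩,
  ⟨32, 1092592, 852937, 356641, 356644, 958014, 958017⟩,
  ⟨33, 1075429, 863442, 375911, 375914, 968714, 968717⟩,
  ⟨34, 1058052, 874321, 395379, 395382, 977863, 977866⟩,
  ⟨35, 1040454, 885576, 415015, 415018, 985448, 985451⟩,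
  ⟨36, 1022626, 897204, 434787, 434790, 991457, 991460⟩,
  ⟨37, 1004563, 909207, 454663, 454666, 995879, 995882⟩,
  ⟨38, 986256, 921580, 474611, 474614, 998709, 998712⟩,
  ⟨39, 967697, 934321, 494600, 494603, 999940, 999943⟩,
  ⟨40, 948880, 947425, 514598, 514601, 999572, 999575⟩,
  ⟨41, 929798, 960885, 534573, 534576, 997605, 997608⟩,
  ⟨42, 910442, 974695, 554492, 554495, 994042, 994045⟩,
  ⟨43, 890807, 988844, 574324, 574327, 988888, 988891⟩,
  ⟨44, 870886, 1003322, 594037, 594040, 982153, 982156⟩,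
  ⟨45, 850672, 1018114, 613600, 613603, 973846, 973849⟩,
  ⟨46, 830159, 1033206, 632980, 632983, 963981, 963984⟩,
  ⟨47, 809342, 1048578, 652149, 652152, 952575, 952578⟩,
  ⟨48, 788214, 1064211, 671073, 671076, 939644, 939647⟩,
  ⟨49, 766772, 1080080, 689724, 689727, 925210, 925213⟩,
  ⟨50, 745010, 1096160, 708072, 708075, 909296, 909299⟩,
  ⟨51, 722924, 1112421, 726087, 726090, 891927, 891930⟩,
  ⟨52, 700512, 1128830, 743740, 743743, 873131, 873134⟩,
  ⟨53, 677770, 1145352, 761003, 761006, 852939, 852942⟩,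
  ⟨54, 654697, 1161947, 777848, 777851, 831382, 831385⟩,
  ⟨55, 631292, 1178573, 794249, 794252, 808495, 808498⟩,
  ⟨56, 607554, 1195184, 810179, 810182, 784314, 784317⟩,
  ⟨57, 583485, 1211730, 825613, 825616, 758879, 758882⟩,
  ⟨58, 559085, 1228159, 840526, 840529, 732230, 732233⟩,
  ⟨59, 534359, 1244414, 854895, 854898, 704409, 704412⟩,
  ⟨60, 509310, 1260438, 868695, 868698, 675462, 675465⟩,
  ⟨61, 483944, 1276168, 881906, 881909, 645433, 645436⟩,
  ⟨62, 458266, 1291541, 894506, 894509, 614373, 614376⟩,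
  ⟨63, 432285, 1306490, 906475, 906478, 582329, 582332⟩,
  ⟨64, 406009, 1320950, 917793, 917796, 549354, 549357⟩,
  ⟨65, 379450, 1334851, 928443, 928446, 515500, 515503⟩,
  ⟨66, 352619, 1348124, 938407, 938410, 480821, 480824⟩,
  ⟨67, 325530, 1360703, 947671, 947674, 445373, 445376⟩,
  ⟨68, 298196, 1372519, 956218, 956221, 409213, 409216⟩,
  ⟨69, 270634, 1383507, 964035, 964038, 372398, 372401⟩,
  ⟨70, 242862, 1393604, 971110, 971113, 334987, 334990⟩,
  ⟨71, 214896, 1402752, 977431, 977434, 297040, 297043⟩,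
  ⟨72, 186758, 1410893, 982988, 982991, 258618, 258621⟩,
  ⟨73, 158468, 1417979, 987773, 987776, 219782, 219785⟩,
  ⟨74, 130046, 1423964, 991777, 991780, 180595, 180598⟩,
  ⟨75, 101517, 1428810, 994995, 994998, 141119, 141122⟩,
  ⟨76, 72902, 1432485, 997420, 997423, 101416, 101419⟩,
  ⟨77, 44225, 1434965, 999050, 999053, 61552, 61555⟩,
  ⟨78, 15511, 1436234, 999882, 999885, 21589, 21592⟩]

/-- the meaning of a line -/
def TRow.Good (r : TRow) : Prop :=
  ph kp (r.j / 50) ≤ r.pu / 1000000 ∧ (r.dl : ℝ) / 1000000 ≤ dph kp (r.j / 50) ∧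
    (r.s0 : ℝ) / 1000000 ≤ sin (r.j / 50) ^ 2 ∧ sin ((r.j : ℝ) / 50) ^ 2 ≤ r.s1 / 1000000 ∧
    (r.t0 : ℝ) / 1000000 ≤ sin (2 * (r.j / 50)) ∧ sin (2 * ((r.j : ℝ) / 50)) ≤ r.t1 / 1000000

/-- enclosures `(s0, s1, c0, c1)` of `sin (j/50)` and `cos (j/50)`, in units `10^-10` -/
private def enc : List (ℤ × ℤ × ℤ × ℤ) :=
  [(0, 0, 10000000000, 10000000000), (199986666, 199986667, 9998000066, 9998000067),
   (399893339, 399893343, 9992001065, 9992001068),
   (599640060, 599640067, 9982005397, 9982005402),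
   (799146933, 799146943, 9968017059, 9968017067),
   (998334158, 998334170, 9950041648, 9950041658),
   (1197122063, 1197122077, 9928086353, 9928086365),
   (1395431135, 1395431151, 9902159955, 9902159970),
   (1593182053, 1593182071, 9872272825, 9872272843),
   (1790295719, 1790295740, 9838436918, 9838436938),
   (1986693291, 1986693315, 9800665767, 9800665790),
   (2182296212, 2182296239, 9758974481, 9758974506),
   (2377026244, 2377026273, 9713379735, 9713379763),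
   (2570805497, 2570805529, 9663899766, 9663899797),
   (2763556462, 2763556497, 9610554366, 9610554400),
   (2955202041, 2955202079, 9553364873, 9553364910),
   (3145665579, 3145665620, 9492354161, 9492354201),
   (3334870892, 3334870936, 9427546634, 9427546677),
   (3522742301, 3522742348, 9358968214, 9358968260),
   (3709204660, 3709204711, 9286646332, 9286646381),
   (3894183387, 3894183441, 9210609915, 9210609967),
   (4077604492, 4077604550, 9130889377, 9130889432),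
   (4259394610, 4259394671, 9047516605, 9047516663),
   (4439481027, 4439481091, 8960524947, 8960525008),
   (4617791711, 4617791778, 8869949198, 8869949263),
   (4794255339, 4794255410, 8775825588, 8775825656),
   (4968801329, 4968801404, 8678191764, 8678191836),
   (5141359865, 5141359944, 8577086779, 8577086855),
   (5311861925, 5311862008, 8472551074, 8472551154),
   (5480239311, 5480239398, 8364626461, 8364626545),
   (5646424675, 5646424766, 8253356109, 8253356197),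
   (5810351544, 5810351639, 8138784525, 8138784617),
   (5971954350, 5971954449, 8020957535, 8020957632),
   (6131168454, 6131168557, 7899922269, 7899922371),
   (6287930172, 6287930279, 7775727140, 7775727246),
   (6442176802, 6442176913, 7648421824, 7648421934),
   (6593846647, 6593846762, 7518057241, 7518057355),
   (6742879041, 6742879161, 7384685535, 7384685654),
   (6889214373, 6889214498, 7248360053, 7248360177),
   (7032794111, 7032794241, 7109135324, 7109135453),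
   (7173560825, 7173560960, 6967067035, 6967067169),
   (7311458210, 7311458351, 6822212012, 6822212151),
   (7446431110, 7446431256, 6674628195, 6674628340),
   (7578425536, 7578425688, 6524374616, 6524374766),
   (7707388693, 7707388851, 6371511374, 6371511530),
   (7833268997, 7833269161, 6216099613, 6216099774),
   (7956016098, 7956016268, 6058201494, 6058201661),
   (8075580899, 8075581074, 5897880176, 5897880348),
   (8191915575, 8191915756, 5735199784, 5735199962),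
   (8304973594, 8304973781, 5570225389, 5570225573),
   (8414709734, 8414709927, 5403022978, 5403023168),
   (8521080102, 8521080301, 5233659429, 5233659626),
   (8624042152, 8624042357, 5062202486, 5062202690),
   (8723554700, 8723554911, 4888720730, 4888720940),
   (8819577942, 8819578160, 4713283551, 4713283767),
   (8912073470, 8912073695, 4535961121, 4535961344),
   (9001004288, 9001004520, 4356824367, 4356824597),
   (9086334824, 9086335063, 4175944941, 4175945178),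
   (9168030947, 9168031193, 3993395193, 3993395437),
   (9246059980, 9246060233, 3809248140, 3809248391),
   (9320390712, 9320390972, 3623577438, 3623577696),
   (9390993412, 9390993679, 3436457353, 3436457619),
   (9457839840, 9457840114, 3247962731, 3247963005),
   (9520903258, 9520903539, 3058168967, 3058169249),
   (9580158441, 9580158730, 2867151976, 2867152266),
   (9635581689, 9635581985, 2674988163, 2674988461),
   (9687150832, 9687151136, 2481754390, 2481754696),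
   (9734845244, 9734845556, 2287527948, 2287528262),
   (9778645847, 9778646168, 2092386525, 2092386848),
   (9818535122, 9818535452, 1896408176, 1896408507),
   (9854497114, 9854497453, 1699671288, 1699671628),
   (9886517439, 9886517786, 1502254554, 1502254903),
   (9914583288, 9914583644, 1304236938, 1304237296),
   (9938683436, 9938683801, 1105697645, 1105698012),
   (9958808243, 9958808617, 906716087, 906716464),
   (9974949659, 9974950043, 707371855, 707372241),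
   (9987101228, 9987101622, 507744684, 507745079),
   (9995258090, 9995258494, 307914421, 307914826),
   (9999416982, 9999417396, 107960996, 107961411)]

private def Enc (q : ℤ × ℤ × ℤ × ℤ) (x : ℝ) : Prop :=
  (q.1 : ℝ) / 10000000000 ≤ sin x ∧ sin x ≤ (q.2.1 : ℝ) / 10000000000 ∧
    (q.2.2.1 : ℝ) / 10000000000 ≤ cos x ∧ cos x ≤ (q.2.2.2 : ℝ) / 10000000000

private def ee (j : ℕ) : ℤ × ℤ × ℤ × ℤ := enc.getD j (0, 0, 0, 0)

private def stp (q r : ℤ × ℤ × ℤ × ℤ) : Bool :=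
  decide (0 ≤ q.1) && decide (0 ≤ q.2.2.1) && decide (0 ≤ r.1) && decide (0 ≤ r.2.2.1) &&
  decide (r.1 * 10000000000 ≤ q.1 * 9998000066 + q.2.2.1 * 199986666) &&
  decide (q.2.1 * 9998000067 + q.2.2.2 * 199986667 ≤ r.2.1 * 10000000000) &&
  decide (r.2.2.1 * 10000000000 ≤ q.2.2.1 * 9998000066 - q.2.1 * 199986667) &&
  decide (q.2.2.2 * 9998000067 - q.1 * 199986666 ≤ r.2.2.2 * 10000000000)

private theorem mono0 (f g : ℝ → ℝ) (hd : ∀ x, HasDerivAt f (g x) x) (hg : ∀ x, 0 ≤ x → 0 ≤ g x)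
    (h0 : f 0 = 0) {x : ℝ} (hx : 0 ≤ x) : 0 ≤ f x := by
  have h1 : MonotoneOn f (Set.Ici 0) := by
    refine monotoneOn_of_deriv_nonneg (convex_Ici 0)
      (fun y _ => (hd y).continuousAt.continuousWithinAt)
      (fun y _ => (hd y).differentiableAt.differentiableWithinAt) fun y hy => ?_
    rw [interior_Ici] at hy
    rw [(hd y).deriv]
    exact hg y (le_of_lt hy)
  have h2 := h1 (Set.self_mem_Ici) (Set.mem_Ici.2 hx) hx
  rw [h0] at h2
  exact h2

private theorem sin_lo {x : ℝ} (hx : 0 ≤ x) : x - x ^ 3 / 6 ≤ sin x := by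
  have h1 := mono0 (fun y => sin y - (y - y ^ 3 / 6)) (fun y => cos y - (1 - y ^ 2 / 2))
    (fun y => ((hasDerivAt_sin y).sub ((hasDerivAt_id y).sub
      ((hasDerivAt_pow 3 y).div_const 6))).congr_deriv (by norm_num; ring))
    (fun y _ => by linarith [Real.one_sub_sq_div_two_le_cos (x := y)]) (by simp) hx
  linarith

private theorem cos_up {x : ℝ} (hx : 0 ≤ x) : cos x ≤ 1 - x ^ 2 / 2 + x ^ 4 / 24 := by
  have h1 := mono0 (fun y => (1 - y ^ 2 / 2 + y ^ 4 / 24) - cos y)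
    (fun y => sin y - (y - y ^ 3 / 6))
    (fun y => ((((hasDerivAt_const y (1 : ℝ)).sub ((hasDerivAt_pow 2 y).div_const 2)).add
      ((hasDerivAt_pow 4 y).div_const 24)).sub (hasDerivAt_cos y)).congr_deriv
      (by norm_num; ring))
    (fun y hy => by linarith [sin_lo hy]) (by simp) hx
  linarith

private theorem sin_up {x : ℝ} (hx : 0 ≤ x) : sin x ≤ x - x ^ 3 / 6 + x ^ 5 / 120 := by
  have h1 := mono0 (fun y => (y - y ^ 3 / 6 + y ^ 5 / 120) - sin y)
    (fun y => (1 - y ^ 2 / 2 + y ^ 4 / 24) - cos y)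
    (fun y => ((((hasDerivAt_id y).sub ((hasDerivAt_pow 3 y).div_const 6)).add
      ((hasDerivAt_pow 5 y).div_const 120)).sub (hasDerivAt_sin y)).congr_deriv
      (by norm_num; ring))
    (fun y hy => by linarith [cos_up hy]) (by simp) hx
  linarith

private theorem base : (199986666 : ℝ) / 10000000000 ≤ sin (1 / 50) ∧
    sin (1 / 50) ≤ (199986667 : ℝ) / 10000000000 ∧
    (9998000066 : ℝ) / 10000000000 ≤ cos (1 / 50) ∧
    cos (1 / 50) ≤ (9998000067 : ℝ) / 10000000000 := by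
  have h1 := sin_lo (x := 1 / 50) (by norm_num)
  have h2 := sin_up (x := 1 / 50) (by norm_num)
  have h3 := cos_up (x := 1 / 50) (by norm_num)
  have h4 : 0 ≤ cos (1 / 50 : ℝ) :=
    cos_nonneg_of_mem_Icc ⟨by linarith [pi_gt_three], by linarith [pi_gt_three]⟩
  have h5 := sin_sq_add_cos_sq (1 / 50 : ℝ)
  refine ⟨?_, ?_, ?_, ?_⟩
  · refine le_trans ?_ h1
    norm_num
  · refine h2.trans ?_
    norm_num
  · have h6 : sin (1 / 50 : ℝ) ≤ 0.0199986666934 := h2.trans (by norm_num)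
    have h7 : 0 ≤ sin (1 / 50 : ℝ) := le_trans (by norm_num) h1
    have h8 : sin (1 / 50 : ℝ) ^ 2 ≤ 0.0199986666934 ^ 2 := pow_le_pow_left₀ h7 h6 2
    by_contra hcon
    have h9 : cos (1 / 50 : ℝ) ^ 2 ≤ (9998000066 / 10000000000) ^ 2 :=
      pow_le_pow_left₀ h4 (not_le.1 hcon).le 2
    norm_num at h8 h9
    linarith
  · refine h3.trans ?_
    norm_num

private theorem step {q r : ℤ × ℤ × ℤ × ℤ} {x : ℝ} (hq : Enc q x) (h : stp q r = true)
    (hc : 0 ≤ cos x) : Enc r (x + 1 / 50) := by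
  obtain ⟨a, b, c, d⟩ := q
  obtain ⟨a', b', c', d'⟩ := r
  simp only [stp, Bool.and_eq_true, decide_eq_true_eq] at h
  obtain ⟨⟨⟨⟨⟨⟨⟨h1, h2⟩, h3⟩, h4⟩, h5⟩, h6⟩, h7⟩, h8⟩ := h
  obtain ⟨q1, q2, q3, q4⟩ := hq
  simp only at q1 q2 q3 q4
  obtain ⟨s1, s2, s3, s4⟩ := base
  have e1 : (0 : ℝ) ≤ a := by exact_mod_cast h1
  have e2 : (0 : ℝ) ≤ c := by exact_mod_cast h2
  have e5 : (a' : ℝ) * 10000000000 ≤ a * 9998000066 + c * 199986666 := by exact_mod_cast h5
  have e6 : (b : ℝ) * 9998000067 + d * 199986667 ≤ b' * 10000000000 := by exact_mod_cast h6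
  have e7 : (c' : ℝ) * 10000000000 ≤ c * 9998000066 - b * 199986667 := by exact_mod_cast h7
  have e8 : (d : ℝ) * 9998000067 - a * 199986666 ≤ d' * 10000000000 := by exact_mod_cast h8
  have hs : 0 ≤ sin x := le_trans (by positivity) q1
  have hS : 0 ≤ sin (1 / 50 : ℝ) := le_trans (by norm_num) s1
  have hC : 0 ≤ cos (1 / 50 : ℝ) := le_trans (by norm_num) s3
  have m1 : (a : ℝ) / 10000000000 * (9998000066 / 10000000000) ≤ sin x * cos (1 / 50) :=
    mul_le_mul q1 s3 (by norm_num) hs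
  have m2 : sin x * cos (1 / 50) ≤ (b : ℝ) / 10000000000 * (9998000067 / 10000000000) :=
    mul_le_mul q2 s4 hC (hs.trans q2)
  have m3 : (c : ℝ) / 10000000000 * (199986666 / 10000000000) ≤ cos x * sin (1 / 50) :=
    mul_le_mul q3 s1 (by norm_num) hc
  have m4 : cos x * sin (1 / 50) ≤ (d : ℝ) / 10000000000 * (199986667 / 10000000000) :=
    mul_le_mul q4 s2 hS (hc.trans q4)
  have m5 : (c : ℝ) / 10000000000 * (9998000066 / 10000000000) ≤ cos x * cos (1 / 50) :=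
    mul_le_mul q3 s3 (by norm_num) hc
  have m6 : cos x * cos (1 / 50) ≤ (d : ℝ) / 10000000000 * (9998000067 / 10000000000) :=
    mul_le_mul q4 s4 hC (hc.trans q4)
  have m7 : (a : ℝ) / 10000000000 * (199986666 / 10000000000) ≤ sin x * sin (1 / 50) :=
    mul_le_mul q1 s1 (by norm_num) hs
  have m8 : sin x * sin (1 / 50) ≤ (b : ℝ) / 10000000000 * (199986667 / 10000000000) :=
    mul_le_mul q2 s2 hS (hs.trans q2)
  refine ⟨?_, ?_, ?_, ?_⟩ <;> simp only [sin_add, cos_add]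
  · linarith
  · linarith
  · linarith
  · linarith

private theorem steps : ∀ j < 78, stp (ee j) (ee (j + 1)) = true := by decide +kernel

private theorem cos_nn {j : ℕ} (hj : j ≤ 78) : 0 ≤ cos ((j : ℝ) / 50) := by
  have h1 : (j : ℝ) ≤ 78 := by exact_mod_cast hj
  have h2 : (0 : ℝ) ≤ j := Nat.cast_nonneg j
  have h3 := Real.pi_gt_d2
  exact cos_nonneg_of_mem_Icc ⟨by linarith, by linarith⟩

private theorem ee_good : ∀ j : ℕ, j ≤ 78 → Enc (ee j) ((j : ℝ) / 50) := by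
  intro j
  induction j with
  | zero =>
    intro _
    have h : ee 0 = (0, 0, 10000000000, 10000000000) := rfl
    rw [h]
    refine ⟨?_, ?_, ?_, ?_⟩ <;> simp
  | succ j ih =>
    intro hj
    have h1 := step (ih (by omega)) (steps j (by omega)) (cos_nn (by omega))
    have h2 : ((j + 1 : ℕ) : ℝ) / 50 = (j : ℝ) / 50 + 1 / 50 := by
      push_cast
      ring
    rw [h2]
    exact h1

private theorem nns : ∀ j < 79, (decide (0 ≤ (ee j).1) && decide (0 ≤ (ee j).2.2.1)) = true := by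
  decide +kernel

private theorem ee_nn {j : ℕ} (hj : j < 79) : 0 ≤ (ee j).1 ∧ 0 ≤ (ee j).2.2.1 := by
  have h := nns j hj
  simpa only [Bool.and_eq_true, decide_eq_true_eq] using h

/-- the condition for `dph` with `kp` replaced by `k / 10^6` -/
private def chkd (r : TRow) (k : ℤ) : Bool :=
  decide (r.dl * (1000000 ^ 2 * 10000000000 ^ 2 - (ee r.j).1 ^ 2 * (1000000 ^ 2 - k ^ 2)) ≤
    k * (1000000 ^ 2 * 10000000000 ^ 2))

private def chk (r : TRow) : Bool :=
  decide (r.j < 79) && decide (0 ≤ r.dl) && chkd r 696177 && chkd r 696178 &&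
  (decide (r.s0 ≤ 0) || decide (r.s0 * 10000000000 ^ 2 ≤ (ee r.j).1 ^ 2 * 1000000)) &&
  decide ((ee r.j).2.1 ^ 2 * 1000000 ≤ r.s1 * 10000000000 ^ 2) &&
  decide (r.t0 * 10000000000 ^ 2 ≤ 2 * (ee r.j).1 * (ee r.j).2.2.1 * 1000000) &&
  decide (2 * (ee r.j).2.1 * (ee r.j).2.2.2 * 1000000 ≤ r.t1 * 10000000000 ^ 2)

/-- the condition for `ph`; `i / 50 + a / 10^6` is the value in the table -/
private def chkp (r : TRow) (i : ℕ) (a : ℤ) : Bool :=
  decide (1 ≤ r.j) && decide (r.j < 79) && decide (i < 79) && decide (0 ≤ a) &&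
  decide (a ≤ 20000) && decide (0 < r.pu) && decide (r.pu ≤ 1570000) &&
  decide (r.pu = 20000 * i + a) &&
  decide ((ee r.j).2.2.2 * 1000000 * ((ee i).2.2.2 * (24 * 1000000 ^ 4 - 12 * a ^ 2 * 1000000 ^ 2 +
    a ^ 4) - (ee i).1 * 4 * 1000000 * (6 * a * 1000000 ^ 2 - a ^ 3)) ≤
    696177 * (ee r.j).1 * ((ee i).1 * 12 * 1000000 ^ 2 * (2 * 1000000 ^ 2 - a ^ 2) +
    (ee i).2.2.1 * 4 * 1000000 * (6 * a * 1000000 ^ 2 - a ^ 3)))

private theorem chk_tab : tab.all chk = true := by decide +kernel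

private theorem chkp_tab : tab.all (fun r => decide (r.j = 0 ∧ r.pu = 1570800) ||
    chkp r (r.pu / 20000).toNat (r.pu - 20000 * (r.pu / 20000))) = true := by decide +kernel

private theorem good_sin {r : TRow} (h : chk r = true) :
    (r.s0 : ℝ) / 1000000 ≤ sin ((r.j : ℝ) / 50) ^ 2 ∧
      sin ((r.j : ℝ) / 50) ^ 2 ≤ (r.s1 : ℝ) / 1000000 ∧
      (r.t0 : ℝ) / 1000000 ≤ sin (2 * ((r.j : ℝ) / 50)) ∧
      sin (2 * ((r.j : ℝ) / 50)) ≤ (r.t1 : ℝ) / 1000000 := by
  simp only [chk, Bool.and_eq_true, Bool.or_eq_true, decide_eq_true_eq] at h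
  obtain ⟨⟨⟨⟨⟨⟨⟨hj, -⟩, -⟩, -⟩, h1⟩, h2⟩, h3⟩, h4⟩ := h
  obtain ⟨q1, q2, q3, q4⟩ := ee_good r.j (by omega)
  obtain ⟨n1, n2⟩ := ee_nn hj
  obtain ⟨⟨a, b, c, d⟩, he⟩ : ∃ q, q = ee r.j := ⟨_, rfl⟩
  rw [← he] at h1 h2 h3 h4 q1 q2 q3 q4 n1 n2
  simp only at h1 h2 h3 h4 q1 q2 q3 q4 n1 n2
  obtain ⟨x, hx⟩ : ∃ x : ℝ, x = (r.j : ℝ) / 50 := ⟨_, rfl⟩
  have hc := cos_nn (j := r.j) (by omega)
  rw [← hx] at q1 q2 q3 q4 hc ⊢
  have m1 : (0 : ℝ) ≤ a := by exact_mod_cast n1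
  have m2 : (0 : ℝ) ≤ c := by exact_mod_cast n2
  have hs : 0 ≤ sin x := le_trans (by positivity) q1
  have k2 : (b : ℝ) ^ 2 * 1000000 ≤ r.s1 * 10000000000 ^ 2 := by exact_mod_cast h2
  have k3 : (r.t0 : ℝ) * 10000000000 ^ 2 ≤ 2 * a * c * 1000000 := by exact_mod_cast h3
  have k4 : 2 * (b : ℝ) * d * 1000000 ≤ r.t1 * 10000000000 ^ 2 := by exact_mod_cast h4
  have w1 : ((a : ℝ) / 10000000000) ^ 2 ≤ sin x ^ 2 := pow_le_pow_left₀ (by positivity) q1 2
  have w2 : sin x ^ 2 ≤ ((b : ℝ) / 10000000000) ^ 2 := pow_le_pow_left₀ hs q2 2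
  have w3 : (a : ℝ) / 10000000000 * (c / 10000000000) ≤ sin x * cos x :=
    mul_le_mul q1 q3 (by positivity) hs
  have w4 : sin x * cos x ≤ (b : ℝ) / 10000000000 * (d / 10000000000) :=
    mul_le_mul q2 q4 hc (hs.trans q2)
  refine ⟨?_, ?_, ?_, ?_⟩
  · rcases h1 with h1 | h1
    · have k1 : (r.s0 : ℝ) ≤ 0 := by exact_mod_cast h1
      have : (r.s0 : ℝ) / 1000000 ≤ 0 := by linarith
      exact this.trans (sq_nonneg _)
    · have k1 : (r.s0 : ℝ) * 10000000000 ^ 2 ≤ (a : ℝ) ^ 2 * 1000000 := by exact_mod_cast h1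
      linarith
  · linarith
  · rw [sin_two_mul]
    linarith
  · rw [sin_two_mul]
    linarith

private theorem good_d {r : TRow} (h : chk r = true) :
    (r.dl : ℝ) / 1000000 ≤ dph kp ((r.j : ℝ) / 50) := by
  simp only [chk, chkd, Bool.and_eq_true, Bool.or_eq_true, decide_eq_true_eq] at h
  obtain ⟨⟨⟨⟨⟨⟨⟨hj, h0⟩, h1⟩, h2⟩, -⟩, -⟩, -⟩, -⟩ := h
  obtain ⟨q1, q2, q3, q4⟩ := ee_good r.j (by omega)
  obtain ⟨n1, n2⟩ := ee_nn hj
  obtain ⟨⟨a, b, c, d⟩, he⟩ : ∃ q, q = ee r.j := ⟨_, rfl⟩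
  rw [← he] at h1 h2 q1 n1
  simp only at h1 h2 q1 n1
  obtain ⟨x, hx⟩ : ∃ x : ℝ, x = (r.j : ℝ) / 50 := ⟨_, rfl⟩
  rw [← hx] at q1 ⊢
  have m1 : (0 : ℝ) ≤ a := by exact_mod_cast n1
  have w1 : ((a : ℝ) / 10000000000) ^ 2 ≤ sin x ^ 2 := pow_le_pow_left₀ (by positivity) q1 2
  have k0 : (0 : ℝ) ≤ r.dl := by exact_mod_cast h0
  have k1 : (r.dl : ℝ) * (1000000 ^ 2 * 10000000000 ^ 2 - (a : ℝ) ^ 2 *
    (1000000 ^ 2 - 696177 ^ 2)) ≤ 696177 * (1000000 ^ 2 * 10000000000 ^ 2) := by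
    exact_mod_cast h1
  have k2 : (r.dl : ℝ) * (1000000 ^ 2 * 10000000000 ^ 2 - (a : ℝ) ^ 2 *
    (1000000 ^ 2 - 696178 ^ 2)) ≤ 696178 * (1000000 ^ 2 * 10000000000 ^ 2) := by
    exact_mod_cast h2
  obtain ⟨D, hD⟩ : ∃ D : ℝ, D = (r.dl : ℝ) / 1000000 := ⟨_, rfl⟩
  obtain ⟨S, hS⟩ : ∃ S : ℝ, S = ((a : ℝ) / 10000000000) ^ 2 := ⟨_, rfl⟩
  have hD0 : 0 ≤ D := by rw [hD]; positivity
  have hS0 : 0 ≤ S := by rw [hS]; positivity
  rw [← hS] at w1
  have g1 : D * (1 - S * (1 - 0.696177 ^ 2)) ≤ 0.696177 := by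
    have e1 : D * (1 - S * (1 - 0.696177 ^ 2)) =
        (r.dl : ℝ) * (1000000 ^ 2 * 10000000000 ^ 2 - (a : ℝ) ^ 2 *
          (1000000 ^ 2 - 696177 ^ 2)) / (1000000 ^ 3 * 10000000000 ^ 2) := by
      rw [hD, hS]
      ring
    rw [e1, div_le_iff₀ (by norm_num)]
    refine k1.trans (le_of_eq ?_)
    norm_num
  have g2 : D * (1 - S * (1 - 0.696178 ^ 2)) ≤ 0.696178 := by
    have e1 : D * (1 - S * (1 - 0.696178 ^ 2)) =
        (r.dl : ℝ) * (1000000 ^ 2 * 10000000000 ^ 2 - (a : ℝ) ^ 2 *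
          (1000000 ^ 2 - 696178 ^ 2)) / (1000000 ^ 3 * 10000000000 ^ 2) := by
      rw [hD, hS]
      ring
    rw [e1, div_le_iff₀ (by norm_num)]
    refine k2.trans (le_of_eq ?_)
    norm_num
  have hk1 := kp_lo
  have hk2 := kp_hi
  have hk0 : 0 < kp := by linarith
  have hsc := sin_sq_add_cos_sq x
  have hden : 0 < cos x ^ 2 + kp ^ 2 * sin x ^ 2 := by
    have h3 : cos x ^ 2 + kp ^ 2 * sin x ^ 2 = kp ^ 2 + (1 - kp ^ 2) * cos x ^ 2 := by
      linear_combination (kp ^ 2) * hsc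
    rw [h3]
    have h4 : kp ^ 2 < 1 := by nlinarith
    have h5 : 0 < kp ^ 2 := by positivity
    nlinarith [sq_nonneg (cos x)]
  rw [← hD]
  unfold dph
  rw [le_div_iff₀ hden]
  -- the affine function of `kp` lies above the convex one
  have hq : kp ^ 2 ≤ (0.696177 + 0.696178) * kp - 0.696177 * 0.696178 := by
    nlinarith [mul_nonneg (sub_nonneg.2 hk1.le) (sub_nonneg.2 hk2.le)]
  have e2 : cos x ^ 2 + kp ^ 2 * sin x ^ 2 = 1 - sin x ^ 2 * (1 - kp ^ 2) := by
    linear_combination hsc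
  have h6 : cos x ^ 2 + kp ^ 2 * sin x ^ 2 ≤ 1 - S * (1 - kp ^ 2) := by
    rw [e2]
    have h4 : kp ^ 2 < 1 := by nlinarith
    nlinarith
  have h7 : 1 - S * (1 - kp ^ 2) ≤
      1 - S * (1 - ((0.696177 + 0.696178) * kp - 0.696177 * 0.696178)) := by
    nlinarith
  refine (mul_le_mul_of_nonneg_left (h6.trans h7) hD0).trans ?_
  have g3 := mul_le_mul_of_nonneg_left g1 (sub_nonneg.2 hk2.le)
  have g4 := mul_le_mul_of_nonneg_left g2 (sub_nonneg.2 hk1.le)
  obtain ⟨W, hW⟩ : ∃ W, W = D * S := ⟨_, rfl⟩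
  have e3 : D * (1 - S * (1 - 0.696177 ^ 2)) = D - W * (1 - 0.696177 ^ 2) := by rw [hW]; ring
  have e4 : D * (1 - S * (1 - 0.696178 ^ 2)) = D - W * (1 - 0.696178 ^ 2) := by rw [hW]; ring
  rw [e3] at g3
  rw [e4] at g4
  have e5 : D * (1 - S * (1 - ((0.696177 + 0.696178) * kp - 0.696177 * 0.696178))) =
      D - W * (1 - ((0.696177 + 0.696178) * kp - 0.696177 * 0.696178)) := by rw [hW]; ring
  rw [e5]
  norm_num at g3 g4 ⊢
  nlinarith

private theorem good_p {r : TRow} {i : ℕ} {a : ℤ} (h : chkp r i a = true) :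
    ph kp ((r.j : ℝ) / 50) ≤ (r.pu : ℝ) / 1000000 := by
  simp only [chkp, Bool.and_eq_true, decide_eq_true_eq] at h
  obtain ⟨⟨⟨⟨⟨⟨⟨⟨h1, h2⟩, h3⟩, h4⟩, h5⟩, h6⟩, h7⟩, h8⟩, h9⟩ := h
  obtain ⟨q1, q2, q3, q4⟩ := ee_good r.j (by omega)
  obtain ⟨n1, n2⟩ := ee_nn h2
  obtain ⟨p1, p2, p3, p4⟩ := ee_good i (by omega)
  obtain ⟨o1, o2⟩ := ee_nn h3
  have hcx := cos_nn (j := r.j) (by omega)
  have hci := cos_nn (j := i) (by omega)
  obtain ⟨⟨s, s', c, c'⟩, he⟩ : ∃ q, q = ee r.j := ⟨_, rfl⟩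
  obtain ⟨⟨t, t', d, d'⟩, hf⟩ : ∃ q, q = ee i := ⟨_, rfl⟩
  rw [← he] at h9 q1 q2 q3 q4 n1 n2
  rw [← hf] at h9 p1 p2 p3 p4 o1 o2
  simp only at h9 q1 q2 q3 q4 n1 n2 p1 p2 p3 p4 o1 o2
  have hpi := Real.pi_gt_d4
  obtain ⟨x, hx⟩ : ∃ x : ℝ, x = (r.j : ℝ) / 50 := ⟨_, rfl⟩
  obtain ⟨y, hy⟩ : ∃ y : ℝ, y = (i : ℝ) / 50 := ⟨_, rfl⟩
  obtain ⟨H, hH⟩ : ∃ H : ℝ, H = (a : ℝ) / 1000000 := ⟨_, rfl⟩
  obtain ⟨P, hP⟩ : ∃ P : ℝ, P = (r.pu : ℝ) / 1000000 := ⟨_, rfl⟩
  have hx0 : 0 < x := by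
    have : (1 : ℝ) ≤ r.j := by exact_mod_cast h1
    rw [hx]
    linarith
  have hx1 : x < π := by
    have : (r.j : ℝ) ≤ 79 := by exact_mod_cast h2.le
    rw [hx]
    linarith
  have a0 : (0 : ℝ) ≤ a := by exact_mod_cast h4
  have a1 : (a : ℝ) ≤ 20000 := by exact_mod_cast h5
  have hH0 : 0 ≤ H := by rw [hH]; positivity
  have hH1 : H ≤ 0.02 := by
    rw [hH]
    linarith
  have hPy : P = y + H := by
    have : (r.pu : ℝ) = 20000 * i + a := by exact_mod_cast h8
    rw [hP, hy, hH, this]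
    ring
  have hP0 : 0 < P := by
    have : (0 : ℝ) < r.pu := by exact_mod_cast h6
    rw [hP]
    positivity
  have hP1 : P < π / 2 := by
    have : (r.pu : ℝ) ≤ 1570000 := by exact_mod_cast h7
    rw [hP]
    linarith
  rw [← hx] at q1 q2 q3 q4 hcx ⊢
  rw [← hy] at p1 p2 p3 p4 hci
  rw [← hP]
  have b1 := sin_lo hH0
  have b2 := cos_up hH0
  have b3 := Real.one_sub_sq_div_two_le_cos (x := H)
  have m1 : (0 : ℝ) ≤ s := by exact_mod_cast n1
  have m2 : (0 : ℝ) ≤ t := by exact_mod_cast o1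
  have m3 : (0 : ℝ) ≤ d := by exact_mod_cast o2
  have hty : 0 ≤ sin y := le_trans (by positivity) p1
  have u0 : 0 ≤ H - H ^ 3 / 6 := by
    have e1 : H - H ^ 3 / 6 = H * (1 - H ^ 2 / 6) := by ring
    rw [e1]
    exact mul_nonneg hH0 (by nlinarith)
  have u1 : 0 ≤ 1 - H ^ 2 / 2 := by nlinarith
  have hsP : (t : ℝ) / 10000000000 * (1 - H ^ 2 / 2) + d / 10000000000 * (H - H ^ 3 / 6) ≤
      sin P := by
    rw [hPy, sin_add]
    exact add_le_add (mul_le_mul p1 b3 u1 hty) (mul_le_mul p3 b1 u0 hci)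
  have hcP : cos P ≤ (d' : ℝ) / 10000000000 * (1 - H ^ 2 / 2 + H ^ 4 / 24) -
      t / 10000000000 * (H - H ^ 3 / 6) := by
    rw [hPy, cos_add]
    have v1 : 0 ≤ cos H := u1.trans b3
    exact sub_le_sub (mul_le_mul p4 b2 v1 (hci.trans p4)) (mul_le_mul p1 b1 u0 hty)
  have hcP0 : 0 < cos P := cos_pos_of_mem_Ioo ⟨by linarith, hP1⟩
  have hsx : 0 < sin x := sin_pos_of_pos_of_lt_pi hx0 hx1
  have hk1 := kp_lo
  have hk0 : 0 < kp := by linarith
  have hmain : cos x * cos P ≤ kp * sin x * sin P := by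
    have v2 : cos x * cos P ≤ (c' : ℝ) / 10000000000 * ((d' : ℝ) / 10000000000 *
        (1 - H ^ 2 / 2 + H ^ 4 / 24) - t / 10000000000 * (H - H ^ 3 / 6)) :=
      mul_le_mul q4 hcP hcP0.le (hcx.trans q4)
    have v3 : 0.696177 * ((s : ℝ) / 10000000000) ≤ kp * sin x :=
      mul_le_mul hk1.le q1 (by positivity) hk0.le
    have v4 : 0.696177 * ((s : ℝ) / 10000000000) * ((t : ℝ) / 10000000000 * (1 - H ^ 2 / 2) +
        d / 10000000000 * (H - H ^ 3 / 6)) ≤ kp * sin x * sin P :=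
      mul_le_mul v3 hsP (by positivity) (by positivity)
    refine v2.trans (le_trans ?_ v4)
    have k9 : (c' : ℝ) * 1000000 * (d' * (24 * 1000000 ^ 4 - 12 * a ^ 2 * 1000000 ^ 2 +
        a ^ 4) - t * 4 * 1000000 * (6 * a * 1000000 ^ 2 - a ^ 3)) ≤
        696177 * s * (t * 12 * 1000000 ^ 2 * (2 * 1000000 ^ 2 - a ^ 2) +
        d * 4 * 1000000 * (6 * a * 1000000 ^ 2 - a ^ 3)) := by exact_mod_cast h9
    have e1 : (c' : ℝ) / 10000000000 * ((d' : ℝ) / 10000000000 *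
        (1 - H ^ 2 / 2 + H ^ 4 / 24) - t / 10000000000 * (H - H ^ 3 / 6)) =
        ((c' : ℝ) * 1000000 * (d' * (24 * 1000000 ^ 4 - 12 * a ^ 2 * 1000000 ^ 2 +
        a ^ 4) - t * 4 * 1000000 * (6 * a * 1000000 ^ 2 - a ^ 3))) /
        (24 * 1000000 ^ 5 * 10000000000 ^ 2) := by
      rw [hH]
      ring
    have e2 : 0.696177 * ((s : ℝ) / 10000000000) * ((t : ℝ) / 10000000000 * (1 - H ^ 2 / 2) +
        d / 10000000000 * (H - H ^ 3 / 6)) =
        (696177 * s * (t * 12 * 1000000 ^ 2 * (2 * 1000000 ^ 2 - a ^ 2) +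
        d * 4 * 1000000 * (6 * a * 1000000 ^ 2 - a ^ 3))) /
        (24 * 1000000 ^ 5 * 10000000000 ^ 2) := by
      rw [hH]
      ring
    rw [e1, e2]
    exact div_le_div_of_nonneg_right k9 (by norm_num)
  rw [ph_eq hk0 hx0 hx1]
  have hP2 : P = arctan (tan P) := (arctan_tan (by linarith) hP1).symm
  rw [hP2]
  apply arctan_mono
  rw [tan_eq_sin_div_cos, div_le_div_iff₀ (mul_pos hk0 hsx) hcP0]
  linarith

/-- PROOF. `j = 0` directly (`ph_zero`, `π < 3.1416`). Otherwise (`0 < x < π/2`, `x ≤ 1.56`):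
two-sided Taylor bounds for `sin`, `cos` on `[0, 1.6]` with error `< 10^-8` (degree about 16; for
example `Complex.exp_bound'` with `n = 18` and real and imaginary parts, or alternating sums by
repeated integration), as functions of rational numbers that can be evaluated by `norm_num` or by
`decide` (kernel). `sin 2x = 2 sin x cos x`. `ph kp x ≤ P` for `0 < P < π/2`: `ph_eq`
(`ph c z = arctan (cos z / (c sin z))`) and `cos x cos P ≤ kp sin x sin P` (then
`cot x / kp ≤ tan P`), for `P ≤ 1.5707`; for the rows with `P > 1.5707` (only `j = 0`) not needed.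
`dph kp x = kp/(cos^2 x + kp^2 sin^2 x) = kp/(1 - sn^2 sin^2 x)` with `kp_lo`, `sn_lo` and
`sin^2 x ≥ s0`. All entries have a slack of at least `10^-6` (`ph`, `dl`: `2 * 10^-6`). -/
theorem tab_good : ∀ r ∈ tab, r.Good := by
  intro r hr
  have h1 := List.all_eq_true.1 chk_tab r hr
  have h2 := List.all_eq_true.1 chkp_tab r hr
  obtain ⟨g1, g2, g3, g4⟩ := good_sin h1
  refine ⟨?_, good_d h1, g1, g2, g3, g4⟩
  rw [Bool.or_eq_true, decide_eq_true_eq] at h2
  rcases h2 with ⟨h3, h4⟩ | h3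
  · rw [h3, h4, Nat.cast_zero, zero_div, ph_zero]
    have := Real.pi_lt_d6
    norm_num at this ⊢
    linarith
  · exact good_p h3

end Pool.Agent.C9
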