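import Pool.Agent.Lib.MP_488b8a_co_X.Link
import Pool.Agent.Lib.MP_488b8a_co_X.Area

/-! # Project C9, module Tri: the facets form a triangulation -/

set_option autoImplicit false

namespace Pool.Agent.C9

open Real Pool.Agent.C32

/-- PROOF. `facet_perm1`, `facet_perm2`, `facet_ne`, `edge_two` (`k' ≠ k` because the product of
the determinants is negative), `link_conn`, `card_facets` (`mem_facets`); every vertex occurs by
`sec_cover`. -/
theorem tri_facets {p : Fin 9 → E3} {κ : ℝ} (hκ : kp ≤ κ) (hG : Gen p) (hC : Covers p κ) :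
    Tri (fun i j k => Facet p (i, j, k)) := by
  have hk : 0 < kp := by
    unfold kp
    positivity
  have hκ0 : 0 < κ := hk.trans_le hκ
  refine ⟨fun i j k h => facet_perm1 h, fun i j k h => facet_perm2 h,
    fun i j k h => (facet_ne h).1, ?_, ?_, ?_, ?_⟩
  · intro i j k h
    obtain ⟨k', h1, h2, h3⟩ := edge_two hκ0 hG hC h
    refine ⟨k', ?_, h1, h3⟩
    rintro rfl
    nlinarith [mul_self_nonneg (dt (p i) (p j) (p k'))]
  · intro i S j k hj hF hS
    exact link_conn hκ0 hG hC i S j k hj hF hS
  · intro T hT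
    have h1 : T = facets p := by
      ext t
      rw [hT t, mem_facets]
    rw [h1]
    exact card_facets hκ hG hC
  · intro i
    obtain ⟨j, k, h1, -⟩ := sec_cover hκ0 hG hC i 0
    exact ⟨j, k, h1⟩

end Pool.Agent.C9
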